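import Pool.Agent.Lib.CMN.Defs

/-!
# Rows of the tank CMN (all dimensions `n`): definitions and exact statements
-/

set_option autoImplicit false

open scoped ComplexConjugate Matrix
open Complex

namespace Pool.Agent.CMN

noncomputable section

variable {n : ℕ} {F : Type} [Field F] [NumberField F]

/-- The signature `(n,1)`. -/
structure Sg (k : Fin (n + 1) → ℝ) : Prop where
  pos : ∀ j : Fin n, 0 < k j.castSucc
  neg : k (Fin.last n) < 0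

/-- The standing hypotheses on `D`, `h`. -/
structure Good (v₁ : F →+* ℝ) (D : F) (h : Fin (n + 1) → F) : Prop where
  Di : IsIntegral ℤ D
  D0 : ∀ v : F →+* ℝ, 0 < v D
  hp : ∀ (v : F →+* ℝ) (j : Fin n), 0 < v (h j.castSucc)
  hl : ∀ v : F →+* ℝ, v ≠ v₁ → 0 < v (h (Fin.last n))
  hn : v₁ (h (Fin.last n)) < 0

/-! ## Pairs of matrices over `F` -/

/-- Pairs `(X, Y)` of matrices over `F`, standing for `X + √(-D) Y`. -/
abbrev Mat (n : ℕ) (F : Type) :=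
  Matrix (Fin (n + 1)) (Fin (n + 1)) F × Matrix (Fin (n + 1)) (Fin (n + 1)) F

/-- `Γ_N`: the matrices `g = X + √(-D) Y` over `O_F + √(-D) O_F` with `g* h g = h` and `g = 1`
modulo `N`. -/
def Gam (D : F) (h : Fin (n + 1) → F) (N : ℕ) : Set (Mat n F) :=
  {g | g.1ᵀ * Matrix.diagonal h * g.1 + D • (g.2ᵀ * Matrix.diagonal h * g.2) = Matrix.diagonal h ∧
    g.1ᵀ * Matrix.diagonal h * g.2 = g.2ᵀ * Matrix.diagonal h * g.1 ∧
    (∀ i j, IsIntegral ℤ ((g.1 i j - (1 : Matrix (Fin (n + 1)) (Fin (n + 1)) F) i j) / (N : F))) ∧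
    ∀ i j, IsIntegral ℤ (g.2 i j / (N : F))}

/-- The product of pairs. -/
def mulM (D : F) (g g' : Mat n F) : Mat n F :=
  (g.1 * g'.1 - D • (g.2 * g'.2), g.1 * g'.2 + g.2 * g'.1)

/-- The complex matrix of `X + √(-D) Y` at the place `v`. -/
def cmat (v : F →+* ℝ) (D : F) (g : Mat n F) : Matrix (Fin (n + 1)) (Fin (n + 1)) ℂ :=
  fun i j => (v (g.1 i j) : ℂ) + I * (√(v D) : ℂ) * (v (g.2 i j) : ℂ)

/-- `g yh`, a vector of `ℂ^(n+1)`. -/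
def gy (v : F →+* ℝ) (D : F) (g : Mat n F) (y : Fin n → ℂ) : Fin (n + 1) → ℂ :=
  cmat v D g *ᵥ hat y

/-- The action of `g` on the ball by fractional linear maps. -/
def act (v : F →+* ℝ) (D : F) (g : Mat n F) (y : Fin n → ℂ) : Fin n → ℂ :=
  fun j => gy v D g y j.castSucc / gy v D g y (Fin.last n)

/-! ## `C_R(φ)` -/

section JJ

variable {J : Type} [Fintype J] [DecidableEq J]

/-- Schwartz-Bruhat functions of level `N` on `F^(J × (n+1))`. -/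
def SBJ (N : ℕ) (φ : (J → Fin (n + 1) → F) → ℂ) : Prop :=
  0 < N ∧ (∀ ξ, φ ξ ≠ 0 → ∀ i j, IsIntegral ℤ ((N : F) * ξ i j)) ∧
    ∀ ξ η : J → Fin (n + 1) → F, (∀ i j, IsIntegral ℤ (η i j)) →
      φ (fun i j => ξ i j + (N : F) * η i j) = φ ξ

/-- One real symmetric form for every place. -/
abbrev Maj (J : Type) (F : Type) [Field F] := (F →+* ℝ) → Matrix J J ℝ

/-- `R` is a majorant of `diag(a)` at `v`. -/
def IsMaj (a : J → F) (v : F →+* ℝ) (R : Matrix J J ℝ) : Prop :=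
  R.PosDef ∧
    R * Matrix.diagonal (fun i => (v (a i))⁻¹) * R = Matrix.diagonal (fun i => v (a i))

/-- The majorant `|diag(a)|`. -/
def R0 (a : J → F) : Maj J F := fun v => Matrix.diagonal (fun i => |v (a i)|)

open Classical in
/-- The Gaussian on `F^(J × (n+1))` with majorants `R v`. -/
def gaussJ (v₁ : F →+* ℝ) (D : F) (h : Fin (n + 1) → F) (a : J → F) (R : Maj J F)
    (ξ : J → Fin (n + 1) → F) (y : Fin n → ℂ) : ℂ :=
  exp (-(Real.pi : ℂ) * ∑ v : F →+* ℝ, ((1 / √(v D) : ℝ) : ℂ) *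
    (((∑ i, ∑ j, R v i j * form h v (ξ i) (ξ j) : ℝ) : ℂ) +
      if v = v₁ then 2 * ∑ i, (v (a i) : ℂ) * s (ev v h) (ev v (ξ i)) y ^ 2 else 0))

end JJ

/-- `det (∂ s_{x i} / ∂ y_j)`. -/
def Del (k : Fin (n + 1) → ℝ) (x : Fin n → Fin (n + 1) → ℝ) (y : Fin n → ℂ) : ℂ :=
  Matrix.det (Matrix.of fun i j => ds k (x i) j y)

/-- The coefficient of `dy_0 ∧ … ∧ dy_(n-1)` in `C_R(φ)`. -/
def CR (v₁ : F →+* ℝ) (D : F) (h : Fin (n + 1) → F) (a : Fin n → F) (R : Maj (Fin n) F)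
    (φ : (Fin n → Fin (n + 1) → F) → ℂ) (y : Fin n → ℂ) : ℂ :=
  ∑' ξ : Fin n → Fin (n + 1) → F, φ ξ * gaussJ v₁ D h a R ξ y *
    Del (ev v₁ h) (fun i => ev v₁ (ξ i)) y

/-- `⊗ φ_i`. -/
def tens (φ : Fin n → (Fin (n + 1) → F) → ℂ) : (Fin n → Fin (n + 1) → F) → ℂ :=
  fun ξ => ∏ i, φ i (ξ i)

/-- The majorant `(g⁻¹)ᵀ |diag(b)| g⁻¹`. -/
def Rg (g : Matrix (Fin n) (Fin n) F) (b : Fin n → F) : Maj (Fin n) F := fun v =>
  ((g⁻¹).map v)ᵀ * Matrix.diagonal (fun i => |v (b i)|) * (g⁻¹).map v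

/-- `g` is invertible and diagonalises `diag(a)`. -/
structure Dia (v₁ : F →+* ℝ) (a : Fin n → F) (g : Matrix (Fin n) (Fin n) F) (b : Fin n → F) :
    Prop where
  unit : IsUnit g.det
  dia : gᵀ * Matrix.diagonal a * g = Matrix.diagonal b
  ne : ∀ i, b i ≠ 0
  pos : ∀ i, 0 < v₁ (b i)

/-! ## The rows -/

/-- EST (94). -/
def EST : Prop :=
  ∀ (n : ℕ) (k : Fin (n + 1) → ℝ), Sg k →
    (∀ y ∈ ball k, 0 < (-∑ j, (k j : ℂ) * hat y j ^ 2).re) ∧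
    (∀ y ∈ ball k, w k y ≠ 0 ∧ w k y ^ 2 = -∑ j, (k j : ℂ) * hat y j ^ 2) ∧
    ContinuousOn (w k) (ball k) ∧
    (∀ x, ContinuousOn (s k x) (ball k) ∧ ∀ j, ContinuousOn (ds k x j) (ball k)) ∧
    ∀ C : Set (Fin n → ℂ), IsCompact C → C ⊆ ball k → ∃ c : ℝ, 0 < c ∧ ∃ c' : ℝ, 0 < c' ∧
      (∀ y ∈ C, ∀ x : Fin (n + 1) → ℝ,
        c * ∑ j, x j ^ 2 ≤ (((∑ j, k j * x j * x j : ℝ) : ℂ) + 2 * s k x y ^ 2).re) ∧
      ∀ y ∈ C, ∀ (x : Fin (n + 1) → ℝ) (j : Fin n), ‖ds k x j y‖ ≤ c' * √(∑ j, x j ^ 2)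

/-- HOL (77): the theta one-forms are holomorphic and closed. -/
def HOL : Prop :=
  ∀ (F : Type) [Field F] [NumberField F] [NumberField.IsTotallyReal F] (n : ℕ) (v₁ : F →+* ℝ)
    (D : F) (h : Fin (n + 1) → F) (a : F) (φ : (Fin (n + 1) → F) → ℂ),
    Good v₁ D h → 0 < v₁ a → IsSB φ → ClosedHol (ev v₁ h) (theta v₁ D h a φ)

/-- SUM2 (5): absolute convergence and continuity of `C_R(φ)`, `R` positive definite. -/
def SUM2 : Prop :=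
  ∀ (F : Type) [Field F] [NumberField F] [NumberField.IsTotallyReal F] (n : ℕ) (v₁ : F →+* ℝ)
    (D : F) (h : Fin (n + 1) → F) (a : Fin n → F) (R : Maj (Fin n) F) (N : ℕ)
    (φ : (Fin n → Fin (n + 1) → F) → ℂ),
    Good v₁ D h → (∀ i, 0 < v₁ (a i)) → (∀ v, (R v).PosDef) → R v₁ = R0 a v₁ → SBJ N φ →
    (∀ y ∈ ball (ev v₁ h), Summable (fun ξ : Fin n → Fin (n + 1) → F =>
      φ ξ * gaussJ v₁ D h a R ξ y * Del (ev v₁ h) (fun i => ev v₁ (ξ i)) y)) ∧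
    ContinuousOn (CR v₁ D h a R φ) (ball (ev v₁ h))

/-- SUM3 (63): `C_{|a|}(⊗ φ_i) = ⋀ v_{a i}(φ i)`. -/
def SUM3 : Prop :=
  ∀ (F : Type) [Field F] [NumberField F] [NumberField.IsTotallyReal F] (n : ℕ) (v₁ : F →+* ℝ)
    (D : F) (h : Fin (n + 1) → F) (a : Fin n → F) (φ : Fin n → (Fin (n + 1) → F) → ℂ),
    Good v₁ D h → (∀ i, 0 < v₁ (a i)) → (∀ i, IsSB (φ i)) → ∀ y ∈ ball (ev v₁ h),
    (∀ i j, Summable (fun ξ : Fin (n + 1) → F =>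
      φ i ξ * gauss v₁ D h (a i) ξ y * ds (ev v₁ h) (ev v₁ ξ) j y)) ∧
    CR v₁ D h a (R0 a) (tens φ) y = wedge (fun i => theta v₁ D h (a i) (φ i)) y

/-- LIM (5): continuity of `R ↦ C_R(φ)` at `|diag(a)|`, uniformly on compact sets. -/
def LIM : Prop :=
  ∀ (F : Type) [Field F] [NumberField F] [NumberField.IsTotallyReal F] (n : ℕ) (v₁ : F →+* ℝ)
    (D : F) (h : Fin (n + 1) → F) (a : Fin n → F) (N : ℕ) (φ : (Fin n → Fin (n + 1) → F) → ℂ)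
    (C : Set (Fin n → ℂ)) (ε : ℝ),
    Good v₁ D h → (∀ i, 0 < v₁ (a i)) → (∀ i, a i ≠ 0) → SBJ N φ → IsCompact C →
    C ⊆ ball (ev v₁ h) → 0 < ε →
    ∃ δ : ℝ, 0 < δ ∧ ∀ R : Maj (Fin n) F, (∀ v, (R v).PosDef) → R v₁ = R0 a v₁ →
      (∀ v i j, |R v i j - R0 a v i j| ≤ δ) →
      ∀ y ∈ C, ‖CR v₁ D h a R φ y - CR v₁ D h a (R0 a) φ y‖ ≤ ε

/-- NV (18): non-vanishing. -/
def NV : Prop :=
  ∀ (F : Type) [Field F] [NumberField F] [NumberField.IsTotallyReal F] (n : ℕ) (v₁ : F →+* ℝ)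
    (D : F) (h : Fin (n + 1) → F) (a : Fin n → F),
    Good v₁ D h → (∀ i, 0 < v₁ (a i)) → (∀ i, a i ≠ 0) →
    ∃ φ : Fin n → (Fin (n + 1) → F) → ℂ, (∀ i, IsSB (φ i)) ∧
      ∃ y ∈ ball (ev v₁ h), CR v₁ D h a (R0 a) (tens φ) y ≠ 0

/-- MAJ (20): the majorants `Rg`. -/
def MAJ : Prop :=
  ∀ (F : Type) [Field F] [NumberField F] (n : ℕ) (v₁ : F →+* ℝ) (a : Fin n → F),
    (∀ i, a i ≠ 0) → (∀ i, 0 < v₁ (a i)) →
    (∀ v : F →+* ℝ, IsMaj a v (R0 a v)) ∧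
    ∀ (g : Matrix (Fin n) (Fin n) F) (b : Fin n → F), Dia v₁ a g b →
      (∀ v : F →+* ℝ, IsMaj a v (Rg g b v)) ∧ Rg g b v₁ = R0 a v₁

/-- SIGH (26): a form of signature `(n,1)` at `v₁` and definite elsewhere. -/
def SIGH : Prop :=
  ∀ (F : Type) [Field F] [NumberField F] (n : ℕ) (v₁ : F →+* ℝ),
    ∃ h : Fin (n + 1) → F, (∀ (v : F →+* ℝ) (j : Fin n), 0 < v (h j.castSucc)) ∧
      (∀ v : F →+* ℝ, v ≠ v₁ → 0 < v (h (Fin.last n))) ∧ v₁ (h (Fin.last n)) < 0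

/-- SEQ (26): weak approximation and Gram-Schmidt: change of basis from the signs `Φ` to the
signs `Φ'`, near a permutation matrix at every place. -/
def SEQ : Prop :=
  ∀ (F : Type) [Field F] [NumberField F] (n : ℕ) (v₁ : F →+* ℝ) (Φ Φ' : Fin n → CMType F),
    (∀ i, Φ i v₁ = true) → (∀ i, Φ' i v₁ = true) →
    (∀ v : F →+* ℝ, (Finset.univ.filter fun i => Φ i v = true).card =
      (Finset.univ.filter fun i => Φ' i v = true).card) →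
    ∃ a : Fin n → F, (∀ i, a i ≠ 0) ∧ (∀ i, 0 < v₁ (a i)) ∧ (∀ i, sgn (a i) = Φ i) ∧
      ∀ ε : ℝ, 0 < ε → ∃ (g : Matrix (Fin n) (Fin n) F) (b : Fin n → F), Dia v₁ a g b ∧
        (∀ i, sgn (b i) = Φ' i) ∧ ∀ v i j, |Rg g b v i j - R0 a v i j| ≤ ε

/-- TENS (13): `C_{Rg}(φ) = ∑_k ⋀_i v_{b i}(ψ k i)`. -/
def TENS : Prop :=
  ∀ (F : Type) [Field F] [NumberField F] [NumberField.IsTotallyReal F] (n : ℕ) (v₁ : F →+* ℝ)
    (D : F) (h : Fin (n + 1) → F) (a : Fin n → F) (N : ℕ) (φ : (Fin n → Fin (n + 1) → F) → ℂ)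
    (g : Matrix (Fin n) (Fin n) F) (b : Fin n → F),
    Good v₁ D h → 0 < n → (∀ i, a i ≠ 0) → (∀ i, 0 < v₁ (a i)) → Dia v₁ a g b → SBJ N φ →
    ∃ (K : ℕ) (ψ : Fin K → Fin n → (Fin (n + 1) → F) → ℂ), (∀ k i, IsSB (ψ k i)) ∧
      ∀ y ∈ ball (ev v₁ h), CR v₁ D h a (Rg g b) φ y =
        ∑ k, wedge (fun i => theta v₁ D h (b i) (ψ k i)) y

/-- GRP (44): `Γ_N` is a group acting on the ball. -/
def GRP : Prop :=
  ∀ (F : Type) [Field F] [NumberField F] (n : ℕ) (v₁ : F →+* ℝ) (D : F) (h : Fin (n + 1) → F)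
    (N : ℕ), Good v₁ D h → 0 < N →
    (∀ g ∈ Gam D h N, ∀ y ∈ ball (ev v₁ h), gy v₁ D g y (Fin.last n) ≠ 0 ∧
      act v₁ D g y ∈ ball (ev v₁ h) ∧ ‖(cmat v₁ D g).det‖ = 1) ∧
    ((1, 0) : Mat n F) ∈ Gam D h N ∧
    (∀ g₁ ∈ Gam D h N, ∀ g₂ ∈ Gam D h N, ∃ g₃ ∈ Gam D h N, g₃ = mulM D g₁ g₂ ∧
      cmat v₁ D g₃ = cmat v₁ D g₁ * cmat v₁ D g₂ ∧
      ∀ y ∈ ball (ev v₁ h), act v₁ D g₃ y = act v₁ D g₁ (act v₁ D g₂ y) ∧
        gy v₁ D g₃ y (Fin.last n) =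
          gy v₁ D g₁ (act v₁ D g₂ y) (Fin.last n) * gy v₁ D g₂ y (Fin.last n)) ∧
    ∀ g ∈ Gam D h N, ∃ g' ∈ Gam D h N,
      mulM D g g' = ((1, 0) : Mat n F) ∧ mulM D g' g = ((1, 0) : Mat n F)

/-- GAMFIN (6, 11): congruence subgroups are arithmetic. -/
def GAMFIN : Prop :=
  ∀ (F : Type) [Field F] [NumberField F] [NumberField.IsTotallyReal F] (n : ℕ) (v₁ : F →+* ℝ)
    (D : F) (h : Fin (n + 1) → F) (N : ℕ), Good v₁ D h → 0 < N →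
    ∃ Γ : Subgroup (SLn n), IsArith v₁ D h Γ ∧ ∀ g ∈ Γ, ∃ p ∈ Gam D h N, cmat v₁ D p = g.1

/-- DET (11, 65): elements of `Γ_N`, `N ≥ 3`, have determinant one. -/
def DET : Prop :=
  ∀ (F : Type) [Field F] [NumberField F] [NumberField.IsTotallyReal F] (n : ℕ) (v₁ : F →+* ℝ)
    (D : F) (h : Fin (n + 1) → F) (N : ℕ), Good v₁ D h → 3 ≤ N → ∀ g ∈ Gam D h N,
    ∀ v : F →+* ℝ, (cmat v D g).det = 1

/-- PD (44): proper discontinuity, in terms of pairs. -/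
def PDP : Prop :=
  ∀ (F : Type) [Field F] [NumberField F] [NumberField.IsTotallyReal F] (n : ℕ) (v₁ : F →+* ℝ)
    (D : F) (h : Fin (n + 1) → F) (N : ℕ) (K : Set (Fin n → ℂ)), Good v₁ D h → 0 < N →
    IsCompact K → K ⊆ ball (ev v₁ h) →
    {g : Mat n F | g ∈ Gam D h N ∧ ∃ y ∈ K, act v₁ D g y ∈ K}.Finite

/-- COC (76): `Γ_N\B` is compact, in terms of pairs. -/
def COC : Prop :=
  ∀ (F : Type) [Field F] [NumberField F] [NumberField.IsTotallyReal F] (n : ℕ) (v₁ : F →+* ℝ)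
    (D : F) (h : Fin (n + 1) → F) (N : ℕ), Good v₁ D h → (∃ v : F →+* ℝ, v ≠ v₁) → 0 < N →
    ∃ C : Set (Fin n → ℂ), IsCompact C ∧ C ⊆ ball (ev v₁ h) ∧
      ∀ y ∈ ball (ev v₁ h), ∃ g ∈ Gam D h N, act v₁ D g y ∈ C

/-- PDX (37, 44): proper discontinuity of arithmetic groups. -/
def PDX : Prop :=
  ∀ (F : Type) [Field F] [NumberField F] [NumberField.IsTotallyReal F] (n : ℕ) (v₁ : F →+* ℝ)
    (D : F) (h : Fin (n + 1) → F) (Γ : Subgroup (SLn n)), Good v₁ D h → IsArith v₁ D h Γ →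
    ∀ C : Set (Fin n → ℂ), IsCompact C → C ⊆ ball (ev v₁ h) →
      {g : Γ | ∃ y ∈ C, actC g.1 y ∈ C}.Finite

/-- COCX (30, 37): compactness of the quotient by arithmetic groups. -/
def COCX : Prop :=
  ∀ (F : Type) [Field F] [NumberField F] [NumberField.IsTotallyReal F] (n : ℕ) (v₁ : F →+* ℝ)
    (D : F) (h : Fin (n + 1) → F) (Γ : Subgroup (SLn n)), Good v₁ D h →
    (∃ v : F →+* ℝ, v ≠ v₁) → IsArith v₁ D h Γ → Cocompact (ev v₁ h) Γ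

/-- `∂ (g y)_l / ∂ y_j` -/
def dact (v : F →+* ℝ) (D : F) (g : Mat n F) (y : Fin n → ℂ) (l j : Fin n) : ℂ :=
  (cmat v D g l.castSucc j.castSucc * gy v D g y (Fin.last n) -
    gy v D g y l.castSucc * cmat v D g (Fin.last n) j.castSucc) / gy v D g y (Fin.last n) ^ 2

/-- P1ONE (97): invariance of the one-forms, in terms of pairs. -/
def P1ONE : Prop :=
  ∀ (F : Type) [Field F] [NumberField F] [NumberField.IsTotallyReal F] (n : ℕ) (v₁ : F →+* ℝ)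
    (D : F) (h : Fin (n + 1) → F) (a : F) (N : ℕ), Good v₁ D h → 0 < v₁ a → 0 < N →
    ∃ c : ℕ, 0 < c ∧ ∀ (G : Type) [Group G] (e : G → Mat n F), (∀ γ, e γ ∈ Gam D h c) →
      e 1 = (1, 0) → (∀ γ γ', e (γ * γ') = mulM D (e γ) (e γ')) →
      ∃ Γ : Subgroup G, Γ.FiniteIndex ∧ ∀ γ ∈ Γ, ∀ φ : (Fin (n + 1) → F) → ℂ,
        SBJ N (fun ξ : Unit → Fin (n + 1) → F => φ (ξ ())) → ∀ y ∈ ball (ev v₁ h), ∀ j,
        ∑ l, theta v₁ D h a φ l (act v₁ D (e γ) y) * dact v₁ D (e γ) y l j =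
          theta v₁ D h a φ j y

/-- P1ALL (97): invariance of the `n`-forms `C_R(φ)`, for all majorants at once, in terms of
pairs. -/
def P1ALL : Prop :=
  ∀ (F : Type) [Field F] [NumberField F] [NumberField.IsTotallyReal F] (n : ℕ) (v₁ : F →+* ℝ)
    (D : F) (h : Fin (n + 1) → F) (a : Fin n → F) (N : ℕ), Good v₁ D h →
    (∀ i, 0 < v₁ (a i)) → 0 < N →
    ∃ c : ℕ, 0 < c ∧ ∀ (G : Type) [Group G] (e : G → Mat n F), (∀ γ, e γ ∈ Gam D h c) →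
      e 1 = (1, 0) → (∀ γ γ', e (γ * γ') = mulM D (e γ) (e γ')) →
      ∃ Γ : Subgroup G, Γ.FiniteIndex ∧ ∀ γ ∈ Γ, ∀ φ : (Fin n → Fin (n + 1) → F) → ℂ, SBJ N φ →
        ∀ R : Maj (Fin n) F, (∀ v, IsMaj a v (R v)) → R v₁ = R0 a v₁ → ∀ y ∈ ball (ev v₁ h),
        CR v₁ D h a R φ (act v₁ D (e γ) y) / gy v₁ D (e γ) y (Fin.last n) ^ (n + 1) =
          CR v₁ D h a R φ y

/-- INVONE (37): the one-forms are invariant under an arithmetic group. -/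
def INVONE : Prop :=
  ∀ (F : Type) [Field F] [NumberField F] [NumberField.IsTotallyReal F] (n : ℕ) (v₁ : F →+* ℝ)
    (D : F) (h : Fin (n + 1) → F) (a : F) (φ : (Fin (n + 1) → F) → ℂ),
    Good v₁ D h → 0 < v₁ a → IsSB φ →
    ∃ Γ : Subgroup (SLn n), IsArith v₁ D h Γ ∧ InvOne (ev v₁ h) Γ (theta v₁ D h a φ)

/-- INVALL (37): the `n`-forms `C_R(φ)`: one arithmetic group for all majorants. -/
def INVALL : Prop :=
  ∀ (F : Type) [Field F] [NumberField F] [NumberField.IsTotallyReal F] (n : ℕ) (v₁ : F →+* ℝ)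
    (D : F) (h : Fin (n + 1) → F) (a : Fin n → F) (N : ℕ) (φ : (Fin n → Fin (n + 1) → F) → ℂ),
    Good v₁ D h → (∀ i, a i ≠ 0) → (∀ i, 0 < v₁ (a i)) → SBJ N φ →
    ∃ Γ : Subgroup (SLn n), IsArith v₁ D h Γ ∧
      ∀ R : Maj (Fin n) F, (∀ v, IsMaj a v (R v)) → R v₁ = R0 a v₁ →
      ∀ g ∈ Γ, ∀ y ∈ ball (ev v₁ h),
        CR v₁ D h a R φ (actC g y) =
          (g.1 *ᵥ hat y) (Fin.last n) ^ (n + 1) * CR v₁ D h a R φ y

/-- FX1 (89): one group `Γ`, one `b`, finitely many `ψ k`, and for every smaller arithmetic group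
and every weight of it some `k` has a nonzero integral. -/
def FX1 : Prop :=
  ∀ (F : Type) [Field F] [NumberField F] [NumberField.IsTotallyReal F] (v₁ : F →+* ℝ) (D : F)
    (n : ℕ) (Φ Ψ : Fin n → CMType F), IsIntegral ℤ D → (∀ v : F →+* ℝ, 0 < v D) →
    (∃ v : F →+* ℝ, v ≠ v₁) → 0 < n → (∀ i, Φ i v₁ = true) → (∀ i, Ψ i v₁ = false) →
    (∀ v : F →+* ℝ, (Finset.univ.filter fun i => Φ i v = true).card +
      (Finset.univ.filter fun i => Ψ i v = true).card = n) →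
    ∃ (h : Fin (n + 1) → F) (Γ : Subgroup (SLn n)) (a b : Fin n → F)
      (φ : Fin n → (Fin (n + 1) → F) → ℂ) (K : ℕ) (ψ : Fin K → Fin n → (Fin (n + 1) → F) → ℂ),
      Good v₁ D h ∧ (∀ i, 0 < v₁ (a i) ∧ 0 < v₁ (b i)) ∧
      (∀ i, sgn (a i) = Φ i ∧ sgn (b i) = bar (Ψ i)) ∧
      (∀ i, IsSB (φ i)) ∧ (∀ k i, IsSB (ψ k i)) ∧ IsArith v₁ D h Γ ∧
      ∀ Γ' : Subgroup (SLn n), Γ' ≤ Γ → IsArith v₁ D h Γ' →
      ∀ χ : (Fin n → ℂ) → ℝ, IsWt (ev v₁ h) Γ' χ →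
      ∃ k, ∫ y : Fin n → ℂ, (χ y : ℂ) *
        (wedge (fun i => theta v₁ D h (a i) (φ i)) y *
          conj (wedge (fun i => theta v₁ D h (b i) (ψ k i)) y)) ≠ 0

end

end Pool.Agent.CMN
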