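import Pool.Agent.Lib.CMN.Rows

/-!
# TANK CMN, row GRP (all dimensions `n`): `Γ_N` is a group acting on the ball.  helper44.
-/

open scoped ComplexConjugate Matrix
open Complex

namespace Pool.Agent.CMN.Grp

noncomputable section

variable {n : ℕ} {F : Type} [Field F]

/-- the complex number `v x + i √(v D) v y` -/
def emb (v : F →+* ℝ) (D x y : F) : ℂ := (v x : ℂ) + I * (√(v D) : ℂ) * (v y : ℂ)

theorem emb_re (v : F →+* ℝ) (D x y : F) : (emb v D x y).re = v x := by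
  simp [emb]

theorem emb_im (v : F →+* ℝ) (D x y : F) : (emb v D x y).im = √(v D) * v y := by
  simp [emb]

theorem emb_inj {v : F →+* ℝ} {D : F} (hD : 0 < v D) {x y x' y' : F}
    (h : emb v D x y = emb v D x' y') : x = x' ∧ y = y' := by
  have h1 := congrArg Complex.re h
  have h2 := congrArg Complex.im h
  rw [emb_re, emb_re] at h1
  rw [emb_im, emb_im] at h2
  exact ⟨v.injective h1, v.injective (mul_left_cancel₀ (Real.sqrt_pos.mpr hD).ne' h2)⟩

theorem emb_add (v : F →+* ℝ) (D x y x' y' : F) :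
    emb v D x y + emb v D x' y' = emb v D (x + x') (y + y') := by
  simp only [emb, map_add, Complex.ofReal_add]; ring

theorem emb_sum {ι : Type*} (s : Finset ι) (v : F →+* ℝ) (D : F) (x y : ι → F) :
    ∑ i ∈ s, emb v D (x i) (y i) = emb v D (∑ i ∈ s, x i) (∑ i ∈ s, y i) := by
  simp only [emb, map_sum, Complex.ofReal_sum, Finset.mul_sum, Finset.sum_add_distrib]

theorem emb_mul {v : F →+* ℝ} {D : F} (hD : 0 < v D) (x y x' y' : F) :
    emb v D x y * emb v D x' y' = emb v D (x * x' - D * (y * y')) (x * y' + y * x') := by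
  have h : (√(v D) : ℂ) * (√(v D) : ℂ) = (v D : ℂ) := by
    rw [← Complex.ofReal_mul, Real.mul_self_sqrt hD.le]
  simp only [emb, map_add, map_sub, map_mul, Complex.ofReal_add, Complex.ofReal_sub,
    Complex.ofReal_mul]
  have hI : I * I = -1 := Complex.I_mul_I
  linear_combination ((v y : ℂ) * (v y' : ℂ) * (√(v D) : ℂ) * (√(v D) : ℂ)) * hI
    - ((v y : ℂ) * (v y' : ℂ)) * h

theorem emb_conj (v : F →+* ℝ) (D x y : F) : conj (emb v D x y) = emb v D x (-y) := by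
  simp only [emb, map_add, map_mul, Complex.conj_I, Complex.conj_ofReal, map_neg,
    Complex.ofReal_neg]
  ring

theorem emb_one (v : F →+* ℝ) (D : F) : emb v D 1 0 = 1 := by simp [emb]

theorem emb_zero (v : F →+* ℝ) (D : F) : emb v D 0 0 = 0 := by simp [emb]

theorem emb_neg (v : F →+* ℝ) (D x y : F) : -emb v D x y = emb v D (-x) (-y) := by
  simp only [emb, map_neg, Complex.ofReal_neg]; ring

/-- the order `𝓞 + 𝓞 √-D` as a subring of `ℂ` -/
def OI (v : F →+* ℝ) (D : F) (hi : IsIntegral ℤ D) (hD : 0 < v D) : Subring ℂ where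
  carrier := {z | ∃ x y : F, IsIntegral ℤ x ∧ IsIntegral ℤ y ∧ z = emb v D x y}
  mul_mem' := by
    rintro _ _ ⟨x, y, hx, hy, rfl⟩ ⟨x', y', hx', hy', rfl⟩
    exact ⟨_, _, (hx.mul hx').sub (hi.mul (hy.mul hy')), (hx.mul hy').add (hy.mul hx'),
      emb_mul hD x y x' y'⟩
  one_mem' := ⟨1, 0, isIntegral_one, isIntegral_zero, (emb_one v D).symm⟩
  add_mem' := by
    rintro _ _ ⟨x, y, hx, hy, rfl⟩ ⟨x', y', hx', hy', rfl⟩
    exact ⟨_, _, hx.add hx', hy.add hy', emb_add v D x y x' y'⟩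
  zero_mem' := ⟨0, 0, isIntegral_zero, isIntegral_zero, (emb_zero v D).symm⟩
  neg_mem' := by
    rintro _ ⟨x, y, hx, hy, rfl⟩
    exact ⟨_, _, hx.neg, hy.neg, emb_neg v D x y⟩

theorem mem_OI {v : F →+* ℝ} {D : F} {hi : IsIntegral ℤ D} {hD : 0 < v D} {z : ℂ} :
    z ∈ OI v D hi hD ↔ ∃ x y : F, IsIntegral ℤ x ∧ IsIntegral ℤ y ∧ z = emb v D x y := Iff.rfl

theorem conj_mem_OI {v : F →+* ℝ} {D : F} {hi : IsIntegral ℤ D} {hD : 0 < v D} {z : ℂ}
    (h : z ∈ OI v D hi hD) : conj z ∈ OI v D hi hD := by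
  obtain ⟨x, y, hx, hy, rfl⟩ := h
  exact ⟨x, -y, hx, hy.neg, emb_conj v D x y⟩

theorem cmat_apply (v : F →+* ℝ) (D : F) (g : Mat n F) (i j : Fin (n + 1)) :
    cmat v D g i j = emb v D (g.1 i j) (g.2 i j) := rfl

theorem cmat_mulM {v : F →+* ℝ} {D : F} (hD : 0 < v D) (g₁ g₂ : Mat n F) :
    cmat v D (mulM D g₁ g₂) = cmat v D g₁ * cmat v D g₂ := by
  ext i j
  rw [Matrix.mul_apply]
  simp only [cmat_apply, emb_mul hD]
  rw [emb_sum]
  congr 1
  · simp only [mulM, Matrix.sub_apply, Matrix.smul_apply, Matrix.mul_apply, smul_eq_mul,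
      Finset.sum_sub_distrib, Finset.mul_sum]
  · simp only [mulM, Matrix.add_apply, Matrix.mul_apply, Finset.sum_add_distrib]

theorem cmat_inj {v : F →+* ℝ} {D : F} (hD : 0 < v D) {g g' : Mat n F}
    (h : cmat v D g = cmat v D g') : g = g' := by
  have h1 : ∀ i j, g.1 i j = g'.1 i j ∧ g.2 i j = g'.2 i j := fun i j =>
    emb_inj hD (by rw [← cmat_apply, ← cmat_apply, h])
  exact Prod.ext (Matrix.ext fun i j => (h1 i j).1) (Matrix.ext fun i j => (h1 i j).2)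

theorem cmat_one (v : F →+* ℝ) (D : F) : cmat v D ((1, 0) : Mat n F) = 1 := by
  ext i j
  rw [cmat_apply]
  by_cases h : i = j
  · subst h; simp [emb_one]
  · simp [Matrix.one_apply_ne h, emb_zero]

/-- the adjoint pair -/
theorem cmat_adj (v : F →+* ℝ) (D : F) (g : Mat n F) :
    (cmat v D g)ᴴ = cmat v D (g.1ᵀ, -g.2ᵀ) := by
  ext i j
  rw [Matrix.conjTranspose_apply, cmat_apply, cmat_apply]
  exact emb_conj v D _ _

theorem cmat_diag (v : F →+* ℝ) (D : F) (h : Fin (n + 1) → F) :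
    cmat v D (Matrix.diagonal h, 0) = Matrix.diagonal (fun j => (ev v h j : ℂ)) := by
  ext i j
  rw [cmat_apply]
  by_cases hij : i = j
  · subst hij; simp [emb, ev]
  · simp [Matrix.diagonal_apply_ne _ hij, emb_zero]

/-- unitary matrices for the real diagonal form `k` -/
def Uni (k : Fin (n + 1) → ℝ) (M : Matrix (Fin (n + 1)) (Fin (n + 1)) ℂ) : Prop :=
  Mᴴ * Matrix.diagonal (fun j => (k j : ℂ)) * M = Matrix.diagonal (fun j => (k j : ℂ))

theorem uni_cmat_iff {v : F →+* ℝ} {D : F} (hD : 0 < v D) (h : Fin (n + 1) → F) (g : Mat n F) :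
    (g.1ᵀ * Matrix.diagonal h * g.1 + D • (g.2ᵀ * Matrix.diagonal h * g.2) = Matrix.diagonal h ∧
    g.1ᵀ * Matrix.diagonal h * g.2 = g.2ᵀ * Matrix.diagonal h * g.1) ↔
      Uni (ev v h) (cmat v D g) := by
  have e : (cmat v D g)ᴴ * Matrix.diagonal (fun j => (ev v h j : ℂ)) * cmat v D g =
      cmat v D (mulM D (mulM D (g.1ᵀ, -g.2ᵀ) (Matrix.diagonal h, 0)) g) := by
    rw [cmat_mulM hD, cmat_mulM hD, cmat_adj, cmat_diag]
  have e2 : mulM D (mulM D (g.1ᵀ, -g.2ᵀ) (Matrix.diagonal h, 0)) g =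
      (g.1ᵀ * Matrix.diagonal h * g.1 + D • (g.2ᵀ * Matrix.diagonal h * g.2),
        g.1ᵀ * Matrix.diagonal h * g.2 - g.2ᵀ * Matrix.diagonal h * g.1) := by
    simp only [mulM, Matrix.mul_zero, smul_zero, sub_zero, zero_add, Matrix.neg_mul, smul_neg,
      sub_neg_eq_add, Prod.mk.injEq, true_and]
    exact (sub_eq_add_neg _ _).symm
  unfold Uni
  rw [e, e2, ← cmat_diag]
  constructor
  · rintro ⟨h1, h2⟩
    rw [h1, h2, sub_self]
  · intro h1
    have h2 := cmat_inj hD h1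
    rw [Prod.mk.injEq, sub_eq_zero] at h2
    exact h2

/-- congruent to one modulo `N` -/
def Cong (v : F →+* ℝ) (D : F) (N : ℕ) (M : Matrix (Fin (n + 1)) (Fin (n + 1)) ℂ) : Prop :=
  ∀ i j, ∃ x y : F, IsIntegral ℤ x ∧ IsIntegral ℤ y ∧
    M i j = (1 : Matrix (Fin (n + 1)) (Fin (n + 1)) ℂ) i j + (N : ℂ) * emb v D x y

theorem emb_natmul (v : F →+* ℝ) (D : F) (N : ℕ) (x y : F) :
    (N : ℂ) * emb v D x y = emb v D ((N : F) * x) ((N : F) * y) := by
  simp only [emb, map_mul, map_natCast, Complex.ofReal_mul, Complex.ofReal_natCast]; ring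

variable [NumberField F]

theorem mem_Gam_iff {v : F →+* ℝ} {D : F} (hD : 0 < v D) {h : Fin (n + 1) → F} {N : ℕ} (hN : 0 < N)
    {g : Mat n F} : g ∈ Gam D h N ↔ Uni (ev v h) (cmat v D g) ∧ Cong v D N (cmat v D g) := by
  have hN' : (N : F) ≠ 0 := Nat.cast_ne_zero.mpr hN.ne'
  have hone : ∀ i j : Fin (n + 1), (1 : Matrix (Fin (n + 1)) (Fin (n + 1)) ℂ) i j =
      emb v D ((1 : Matrix (Fin (n + 1)) (Fin (n + 1)) F) i j) 0 := by
    intro i j
    by_cases hij : i = j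
    · subst hij; simp [emb_one]
    · simp [Matrix.one_apply_ne hij, emb_zero]
  constructor
  · rintro ⟨h1, h2, h3, h4⟩
    refine ⟨(uni_cmat_iff hD h g).mp ⟨h1, h2⟩, fun i j => ⟨_, _, h3 i j, h4 i j, ?_⟩⟩
    rw [emb_natmul, hone, emb_add, cmat_apply]
    congr 1
    · field_simp; ring
    · field_simp; ring
  · rintro ⟨h1, h2⟩
    obtain ⟨h3, h4⟩ := (uni_cmat_iff hD h g).mpr h1
    refine ⟨h3, h4, fun i j => ?_, fun i j => ?_⟩
    · obtain ⟨x, y, hx, hy, e⟩ := h2 i j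
      rw [emb_natmul, hone, emb_add, cmat_apply] at e
      obtain ⟨e1, e2⟩ := emb_inj hD e
      rw [e1, add_sub_cancel_left, mul_div_cancel_left₀ _ hN']
      exact hx
    · obtain ⟨x, y, hx, hy, e⟩ := h2 i j
      rw [emb_natmul, hone, emb_add, cmat_apply] at e
      obtain ⟨e1, e2⟩ := emb_inj hD e
      rw [e2, zero_add, mul_div_cancel_left₀ _ hN']
      exact hy

theorem exists_mem_Gam {v : F →+* ℝ} {D : F} (hD : 0 < v D) {h : Fin (n + 1) → F} {N : ℕ}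
    (hN : 0 < N) {M : Matrix (Fin (n + 1)) (Fin (n + 1)) ℂ} (h1 : Uni (ev v h) M) (h2 : Cong v D N M) :
    ∃ g ∈ Gam D h N, cmat v D g = M := by
  have hone : ∀ i j : Fin (n + 1), (1 : Matrix (Fin (n + 1)) (Fin (n + 1)) ℂ) i j =
      emb v D ((1 : Matrix (Fin (n + 1)) (Fin (n + 1)) F) i j) 0 := by
    intro i j
    by_cases hij : i = j
    · subst hij; simp [emb_one]
    · simp [Matrix.one_apply_ne hij, emb_zero]
  choose x y hx hy e using h2
  have hM : cmat v D ((fun i j => (1 : Matrix (Fin (n + 1)) (Fin (n + 1)) F) i j + (N : F) * x i j,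
      fun i j => (N : F) * y i j) : Mat n F) = M := by
    ext i j
    rw [cmat_apply, e, emb_natmul, hone, emb_add, zero_add]
  refine ⟨_, (mem_Gam_iff hD hN).mpr ⟨?_, ?_⟩, hM⟩
  · rw [hM]; exact h1
  · rw [hM]; exact fun i j => ⟨x i j, y i j, hx i j, hy i j, e i j⟩

/-! ## the group in the world of complex matrices -/

omit [NumberField F] in
/-- `M = 1 + N A` with `A` over the order -/
theorem cong_iff {v : F →+* ℝ} {D : F} {hi : IsIntegral ℤ D} {hD : 0 < v D} {N : ℕ}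
    {M : Matrix (Fin (n + 1)) (Fin (n + 1)) ℂ} : Cong v D N M ↔
      ∃ A : Matrix (Fin (n + 1)) (Fin (n + 1)) (OI v D hi hD),
        M = 1 + (N : ℂ) • A.map (OI v D hi hD).subtype := by
  constructor
  · intro h
    choose x y hx hy e using h
    refine ⟨fun i j => ⟨emb v D (x i j) (y i j), x i j, y i j, hx i j, hy i j, rfl⟩, ?_⟩
    ext i j
    rw [e]
    rfl
  · rintro ⟨A, rfl⟩ i j
    obtain ⟨x, y, hx, hy, e⟩ := (A i j).2
    refine ⟨x, y, hx, hy, ?_⟩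
    rw [Matrix.add_apply, Matrix.smul_apply, Matrix.map_apply, smul_eq_mul, ← e]
    rfl

theorem uni_one (k : Fin (n + 1) → ℝ) : Uni k 1 := by simp [Uni]

theorem Uni.mul {k : Fin (n + 1) → ℝ} {M M' : Matrix (Fin (n + 1)) (Fin (n + 1)) ℂ} (h : Uni k M) (h' : Uni k M') :
    Uni k (M * M') := by
  unfold Uni at *
  rw [Matrix.conjTranspose_mul]
  calc M'ᴴ * Mᴴ * Matrix.diagonal (fun j => (k j : ℂ)) * (M * M')
      = M'ᴴ * (Mᴴ * Matrix.diagonal (fun j => (k j : ℂ)) * M) * M' := by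
        simp only [Matrix.mul_assoc]
    _ = _ := by rw [h, h']

theorem Uni.det {k : Fin (n + 1) → ℝ} (hk : ∀ j, k j ≠ 0) {M : Matrix (Fin (n + 1)) (Fin (n + 1)) ℂ}
    (h : Uni k M) : conj M.det * M.det = 1 := by
  have h1 := congrArg Matrix.det h
  rw [Matrix.det_mul, Matrix.det_mul, Matrix.det_conjTranspose, Matrix.det_diagonal] at h1
  have h2 : ∏ i, (k i : ℂ) ≠ 0 := Finset.prod_ne_zero_iff.mpr fun i _ => by
    exact_mod_cast hk i
  have h3 : (∏ i, (k i : ℂ)) * (conj M.det * M.det) = (∏ i, (k i : ℂ)) * 1 := by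
    rw [mul_one]
    calc (∏ i, (k i : ℂ)) * (conj M.det * M.det) = star M.det * (∏ i, (k i : ℂ)) * M.det := by
          simp only [starRingEnd_apply]; ring
      _ = _ := h1
  exact mul_left_cancel₀ h2 h3

theorem Uni.norm_det {k : Fin (n + 1) → ℝ} (hk : ∀ j, k j ≠ 0) {M : Matrix (Fin (n + 1)) (Fin (n + 1)) ℂ}
    (h : Uni k M) : ‖M.det‖ = 1 := by
  have h1 := h.det hk
  have h2 : ‖M.det‖ * ‖M.det‖ = 1 := by
    have h3 := congrArg norm h1
    rwa [norm_mul, RCLike.norm_conj, norm_one] at h3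
  nlinarith [norm_nonneg M.det]

theorem Uni.isUnit_det {k : Fin (n + 1) → ℝ} (hk : ∀ j, k j ≠ 0) {M : Matrix (Fin (n + 1)) (Fin (n + 1)) ℂ}
    (h : Uni k M) : IsUnit M.det := by
  rw [isUnit_iff_ne_zero]
  intro h0
  have h1 := h.det hk
  rw [h0, mul_zero] at h1
  exact zero_ne_one h1

theorem Uni.inv {k : Fin (n + 1) → ℝ} (hk : ∀ j, k j ≠ 0) {M : Matrix (Fin (n + 1)) (Fin (n + 1)) ℂ}
    (h : Uni k M) : Uni k M⁻¹ := by
  have hu := h.isUnit_det hk
  have h1 : M * M⁻¹ = 1 := Matrix.mul_nonsing_inv M hu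
  have h2 : (M⁻¹)ᴴ * Mᴴ = 1 := by
    rw [← Matrix.conjTranspose_mul, h1, Matrix.conjTranspose_one]
  unfold Uni at *
  calc (M⁻¹)ᴴ * Matrix.diagonal (fun j => (k j : ℂ)) * M⁻¹
      = (M⁻¹)ᴴ * (Mᴴ * Matrix.diagonal (fun j => (k j : ℂ)) * M) * M⁻¹ := by rw [h]
    _ = ((M⁻¹)ᴴ * Mᴴ) * Matrix.diagonal (fun j => (k j : ℂ)) * (M * M⁻¹) := by
        simp only [Matrix.mul_assoc]
    _ = _ := by rw [h1, h2, Matrix.one_mul, Matrix.mul_one]

omit [NumberField F] in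
theorem cong_one (v : F →+* ℝ) (D : F) (N : ℕ) : Cong (n := n) v D N 1 := fun i j =>
  ⟨0, 0, isIntegral_zero, isIntegral_zero, by simp [emb]⟩

omit [NumberField F] in
theorem Cong.mul {v : F →+* ℝ} {D : F} (hi : IsIntegral ℤ D) (hD : 0 < v D) {N : ℕ}
    {M M' : Matrix (Fin (n + 1)) (Fin (n + 1)) ℂ} (h : Cong v D N M) (h' : Cong v D N M') :
    Cong v D N (M * M') := by
  obtain ⟨A, rfl⟩ := (cong_iff (hi := hi) (hD := hD)).mp h
  obtain ⟨A', rfl⟩ := (cong_iff (hi := hi) (hD := hD)).mp h'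
  refine (cong_iff (hi := hi) (hD := hD)).mpr ⟨A + A' + (N : OI v D hi hD) • (A * A'), ?_⟩
  have e : (A + A' + (N : OI v D hi hD) • (A * A')).map (OI v D hi hD).subtype =
      A.map (OI v D hi hD).subtype + A'.map (OI v D hi hD).subtype +
        (N : ℂ) • (A.map (OI v D hi hD).subtype * A'.map (OI v D hi hD).subtype) := by
    rw [← Matrix.map_mul]
    ext i j
    simp [Matrix.map_apply, Matrix.add_apply, Matrix.smul_apply]
  rw [e]
  simp only [Matrix.mul_add, Matrix.add_mul, Matrix.one_mul, Matrix.mul_one, smul_add,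
    Matrix.smul_mul, Matrix.mul_smul]
  abel

omit [NumberField F] in
theorem Cong.inv {v : F →+* ℝ} {D : F} (hi : IsIntegral ℤ D) (hD : 0 < v D) {N : ℕ}
    {k : Fin (n + 1) → ℝ} (hk : ∀ j, k j ≠ 0)
    {M : Matrix (Fin (n + 1)) (Fin (n + 1)) ℂ} (hU : Uni k M) (h : Cong v D N M) :
    Cong v D N M⁻¹ := by
  have hdet := hU.det hk
  have hu := hU.isUnit_det hk
  obtain ⟨A, hA⟩ := (cong_iff (hi := hi) (hD := hD)).mp h
  have hmap : (1 + (N : OI v D hi hD) • A).map (OI v D hi hD).subtype = M := by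
    rw [hA]
    ext i j
    by_cases hij : i = j
    · subst hij
      simp [Matrix.map_apply, Matrix.add_apply, Matrix.smul_apply]
    · simp [Matrix.map_apply, Matrix.add_apply, Matrix.smul_apply, Matrix.one_apply_ne hij]
  generalize hM' : (1 + (N : OI v D hi hD) • A : Matrix (Fin (n + 1)) (Fin (n + 1)) (OI v D hi hD)) = M'
    at hmap
  have hd : M.det = (M'.det : ℂ) := by
    rw [← hmap]
    exact (RingHom.map_det (OI v D hi hD).subtype M').symm
  have hadj : M.adjugate = M'.adjugate.map (OI v D hi hD).subtype := by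
    rw [← hmap]
    exact (RingHom.map_adjugate (OI v D hi hD).subtype M').symm
  obtain ⟨d', hd'⟩ : ∃ d' : OI v D hi hD, (d' : ℂ) = conj M.det :=
    ⟨⟨conj M.det, conj_mem_OI (hd ▸ M'.det.2)⟩, rfl⟩
  have hinv : M⁻¹ = (d' • M'.adjugate).map (OI v D hi hD).subtype := by
    have h1 : Ring.inverse M.det = conj M.det := by
      rw [Ring.inverse_eq_inv']
      exact (eq_inv_of_mul_eq_one_left hdet).symm
    rw [Matrix.inv_def, h1, hadj]
    ext i j
    simp [Matrix.map_apply, Matrix.smul_apply, hd']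
  refine (cong_iff (hi := hi) (hD := hD)).mpr ⟨-(d' • M'.adjugate * A), ?_⟩
  have h1 : M⁻¹ * M = 1 := Matrix.nonsing_inv_mul M hu
  have e : (-(d' • M'.adjugate * A)).map (OI v D hi hD).subtype =
      -(M⁻¹ * A.map (OI v D hi hD).subtype) := by
    rw [hinv, ← Matrix.map_mul]
    ext i j
    simp [Matrix.map_apply]
  have h2 : M⁻¹ * M = M⁻¹ + (N : ℂ) • (M⁻¹ * A.map (OI v D hi hD).subtype) := by
    calc M⁻¹ * M = M⁻¹ * (1 + (N : ℂ) • A.map (OI v D hi hD).subtype) := by rw [← hA]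
      _ = _ := by rw [Matrix.mul_add, Matrix.mul_one, Matrix.mul_smul]
  rw [e, ← h1, h2, smul_neg]
  abel

/-! ## the action on the ball -/

/-- the action of a complex matrix -/
def acM (M : Matrix (Fin (n + 1)) (Fin (n + 1)) ℂ) (y : Fin n → ℂ) : Fin n → ℂ :=
  fun j => (M *ᵥ hat y) j.castSucc / (M *ᵥ hat y) (Fin.last n)

theorem hat_last (y : Fin n → ℂ) : hat y (Fin.last n) = 1 := by simp [hat]

theorem hat_castSucc (y : Fin n → ℂ) (j : Fin n) : hat y j.castSucc = y j := by simp [hat]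

theorem Uni.form {k : Fin (n + 1) → ℝ} {M : Matrix (Fin (n + 1)) (Fin (n + 1)) ℂ} (h : Uni k M) (z : Fin (n + 1) → ℂ) :
    ∑ j, k j * ‖(M *ᵥ z) j‖ ^ 2 = ∑ j, k j * ‖z j‖ ^ 2 := by
  have key : ∀ x : Fin (n + 1) → ℂ, star x ⬝ᵥ (Matrix.diagonal (fun j => (k j : ℂ)) *ᵥ x) =
      ((∑ j, k j * ‖x j‖ ^ 2 : ℝ) : ℂ) := by
    intro x
    rw [Complex.ofReal_sum]
    refine Finset.sum_congr rfl fun j _ => ?_
    rw [Matrix.mulVec_diagonal, Pi.star_apply]
    rw [Complex.ofReal_mul, Complex.ofReal_pow, ← Complex.conj_mul' (x j)]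
    rw [← starRingEnd_apply]
    ring
  have h1 : star (M *ᵥ z) ⬝ᵥ (Matrix.diagonal (fun j => (k j : ℂ)) *ᵥ (M *ᵥ z)) =
      star z ⬝ᵥ (Matrix.diagonal (fun j => (k j : ℂ)) *ᵥ z) := by
    rw [Matrix.star_mulVec, ← Matrix.dotProduct_mulVec, Matrix.mulVec_mulVec,
      Matrix.mulVec_mulVec]
    rw [show Mᴴ * Matrix.diagonal (fun j => (k j : ℂ)) * M = _ from h]
  rw [key, key] at h1
  exact_mod_cast h1

theorem ball_iff {k : Fin (n + 1) → ℝ} {y : Fin n → ℂ} :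
    y ∈ ball k ↔ ∑ j, k j * ‖hat y j‖ ^ 2 < 0 := by
  rw [Fin.sum_univ_castSucc]
  simp [ball, hat]

theorem Uni.ne {k : Fin (n + 1) → ℝ} (hs : Sg k) {M : Matrix (Fin (n + 1)) (Fin (n + 1)) ℂ}
    (h : Uni k M) {y : Fin n → ℂ} (hy : y ∈ ball k) : (M *ᵥ hat y) (Fin.last n) ≠ 0 := by
  intro h2
  have h3 := h.form (hat y)
  rw [ball_iff, ← h3, Fin.sum_univ_castSucc, h2] at hy
  have h4 : 0 ≤ ∑ j : Fin n, k j.castSucc * ‖(M *ᵥ hat y) j.castSucc‖ ^ 2 :=
    Finset.sum_nonneg fun j _ => mul_nonneg (hs.pos j).le (sq_nonneg _)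
  simp only [norm_zero] at hy
  nlinarith

theorem hat_acM {M : Matrix (Fin (n + 1)) (Fin (n + 1)) ℂ} {y : Fin n → ℂ} (h : (M *ᵥ hat y) (Fin.last n) ≠ 0) :
    hat (acM M y) = ((M *ᵥ hat y) (Fin.last n))⁻¹ • (M *ᵥ hat y) := by
  ext j
  refine Fin.lastCases ?_ (fun j => ?_) j
  · rw [hat_last, Pi.smul_apply, smul_eq_mul]
    exact (inv_mul_cancel₀ h).symm
  · rw [hat_castSucc, Pi.smul_apply, smul_eq_mul]
    simp only [acM]
    rw [div_eq_inv_mul]

theorem Uni.mem {k : Fin (n + 1) → ℝ} (hs : Sg k) {M : Matrix (Fin (n + 1)) (Fin (n + 1)) ℂ}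
    (h : Uni k M) {y : Fin n → ℂ} (hy : y ∈ ball k) : acM M y ∈ ball k := by
  have hne := h.ne hs hy
  rw [ball_iff, hat_acM hne]
  have h3 := h.form (hat y)
  rw [ball_iff, ← h3] at hy
  have h4 : 0 < ‖(M *ᵥ hat y) (Fin.last n)‖ := norm_pos_iff.mpr hne
  have h5 : ∑ j, k j * ‖(((M *ᵥ hat y) (Fin.last n))⁻¹ • (M *ᵥ hat y)) j‖ ^ 2 =
      (‖(M *ᵥ hat y) (Fin.last n)‖ ^ 2)⁻¹ * ∑ j, k j * ‖(M *ᵥ hat y) j‖ ^ 2 := by
    rw [Finset.mul_sum]
    refine Finset.sum_congr rfl fun j _ => ?_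
    rw [Pi.smul_apply, smul_eq_mul, norm_mul, norm_inv, mul_pow, inv_pow]
    ring
  rw [h5]
  exact mul_neg_of_pos_of_neg (inv_pos.mpr (pow_pos h4 2)) hy

theorem acM_mul {M M' : Matrix (Fin (n + 1)) (Fin (n + 1)) ℂ} {y : Fin n → ℂ} (h : (M' *ᵥ hat y) (Fin.last n) ≠ 0) :
    acM (M * M') y = acM M (acM M' y) ∧
      ((M * M') *ᵥ hat y) (Fin.last n) = (M *ᵥ hat (acM M' y)) (Fin.last n) * (M' *ᵥ hat y) (Fin.last n) := by
  have e : (M * M') *ᵥ hat y = (M' *ᵥ hat y) (Fin.last n) • (M *ᵥ hat (acM M' y)) := by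
    rw [hat_acM h, Matrix.mulVec_smul, smul_smul, mul_inv_cancel₀ h, one_smul,
      Matrix.mulVec_mulVec]
  constructor
  · ext j
    simp only [acM]
    rw [e]
    simp only [Pi.smul_apply, smul_eq_mul]
    exact mul_div_mul_left _ _ h
  · rw [e]
    simp only [Pi.smul_apply, smul_eq_mul]
    ring

theorem acM_one (y : Fin n → ℂ) : acM 1 y = y := by
  ext j
  simp only [acM, Matrix.one_mulVec, hat_last, hat_castSucc, div_one]

omit [NumberField F] in
theorem act_eq (v : F →+* ℝ) (D : F) (g : Mat n F) (y : Fin n → ℂ) :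
    act v D g y = acM (cmat v D g) y := rfl

omit [NumberField F] in
theorem gy_eq (v : F →+* ℝ) (D : F) (g : Mat n F) (y : Fin n → ℂ) :
    gy v D g y = cmat v D g *ᵥ hat y := rfl

omit [NumberField F] in
theorem ev_ne {v₁ : F →+* ℝ} {D : F} {h : Fin (n + 1) → F} (hg : Good v₁ D h) :
    ∀ j, ev v₁ h j ≠ 0 := by
  intro j
  refine Fin.lastCases ?_ (fun j => ?_) j
  · exact hg.hn.ne
  · exact (hg.hp v₁ j).ne'

omit [NumberField F] in
theorem sg {v₁ : F →+* ℝ} {D : F} {h : Fin (n + 1) → F} (hg : Good v₁ D h) : Sg (ev v₁ h) :=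
  ⟨fun j => hg.hp v₁ j, hg.hn⟩

end

end Pool.Agent.CMN.Grp

namespace Pool.Agent.CMN

open Grp

theorem grp : GRP := by
  intro F _ _ n v₁ D h N hg hN
  have hD := hg.D0 v₁
  have hk := ev_ne hg
  have hs := sg hg
  refine ⟨fun g hgm y hy => ?_, ?_, fun g₁ hg₁ g₂ hg₂ => ?_, fun g hgm => ?_⟩
  · have hu := ((mem_Gam_iff hD hN).mp hgm).1
    exact ⟨hu.ne hs hy, hu.mem hs hy, hu.norm_det hk⟩
  · rw [mem_Gam_iff hD hN, cmat_one]
    exact ⟨uni_one _, cong_one _ _ _⟩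
  · obtain ⟨u₁, c₁⟩ := (mem_Gam_iff hD hN).mp hg₁
    obtain ⟨u₂, c₂⟩ := (mem_Gam_iff hD hN).mp hg₂
    refine ⟨mulM D g₁ g₂, ?_, rfl, cmat_mulM hD _ _, fun y hy => ?_⟩
    · rw [mem_Gam_iff hD hN, cmat_mulM hD]
      exact ⟨u₁.mul u₂, c₁.mul hg.Di hD c₂⟩
    · rw [act_eq, act_eq, act_eq, gy_eq, gy_eq, gy_eq, cmat_mulM hD]
      exact acM_mul (u₂.ne hs hy)
  · obtain ⟨u, c⟩ := (mem_Gam_iff hD hN).mp hgm
    obtain ⟨g', hg', e⟩ := exists_mem_Gam hD hN (u.inv hk) (c.inv hg.Di hD hk u)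
    have hu := u.isUnit_det hk
    refine ⟨g', hg', ?_, ?_⟩
    · apply cmat_inj hD
      rw [cmat_mulM hD, e, cmat_one]
      exact Matrix.mul_nonsing_inv _ hu
    · apply cmat_inj hD
      rw [cmat_mulM hD, e, cmat_one]
      exact Matrix.nonsing_inv_mul _ hu

end Pool.Agent.CMN
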