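import Pool.Agent.Lib.CMN.Adp
import Pool.Agent.Lib.CMN.Grp

/-! # Row GAMFIN (helper6): congruence subgroups are arithmetic -/

set_option autoImplicit false

namespace Pool.Agent.CMN

theorem gamfin : GAMFIN := gamfin_of grp

end Pool.Agent.CMN
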