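import Pool.Agent.Lib.CMN.Rows

/-!
# CMN: basic lemmas
-/

set_option autoImplicit false

open scoped ComplexConjugate Matrix
open Complex

namespace Pool.Agent.CMN

noncomputable section

variable {n : ℕ}

@[simp] theorem hat_castSucc (y : Fin n → ℂ) (j : Fin n) : hat y j.castSucc = y j := by
  simp [hat]

@[simp] theorem hat_last (y : Fin n → ℂ) : hat y (Fin.last n) = 1 := by
  simp [hat]

theorem hat_ne (y : Fin n → ℂ) : hat y ≠ 0 := by
  intro h
  have := congrFun h (Fin.last n)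
  simp at this

theorem pr_eq (k x : Fin (n + 1) → ℝ) (y : Fin n → ℂ) :
    pr k x y = ∑ j : Fin n, (k j.castSucc : ℂ) * (x j.castSucc : ℂ) * y j +
      (k (Fin.last n) : ℂ) * (x (Fin.last n) : ℂ) := by
  simp [pr, Fin.sum_univ_castSucc]

theorem sum_hat_sq (k : Fin (n + 1) → ℝ) (y : Fin n → ℂ) :
    ∑ j, (k j : ℂ) * hat y j ^ 2 =
      ∑ j : Fin n, (k j.castSucc : ℂ) * y j ^ 2 + (k (Fin.last n) : ℂ) := by
  simp [Fin.sum_univ_castSucc]

theorem mem_ball {k : Fin (n + 1) → ℝ} {y : Fin n → ℂ} :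
    y ∈ ball k ↔ ∑ j : Fin n, k j.castSucc * ‖y j‖ ^ 2 + k (Fin.last n) < 0 := Iff.rfl

theorem mem_ball_iff_hat {k : Fin (n + 1) → ℝ} {y : Fin n → ℂ} :
    y ∈ ball k ↔ ∑ j, k j * ‖hat y j‖ ^ 2 < 0 := by
  simp [mem_ball, Fin.sum_univ_castSucc]

theorem isOpen_ball (k : Fin (n + 1) → ℝ) : IsOpen (ball k) := by
  unfold ball
  exact isOpen_lt (by fun_prop) continuous_const

theorem zero_mem_ball {k : Fin (n + 1) → ℝ} (hk : Sg k) : (0 : Fin n → ℂ) ∈ ball k := by
  rw [mem_ball]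
  simpa using hk.neg

theorem continuous_hat : Continuous (hat : (Fin n → ℂ) → Fin (n + 1) → ℂ) := by
  refine continuous_pi fun j => ?_
  refine Fin.lastCases ?_ (fun i => ?_) j
  · simpa using continuous_const
  · simpa using continuous_apply i

theorem ne_zero_of_sg {k : Fin (n + 1) → ℝ} (hk : Sg k) (j : Fin (n + 1)) : k j ≠ 0 := by
  refine Fin.lastCases ?_ (fun i => ?_) j
  · exact hk.neg.ne
  · exact (hk.pos i).ne'

variable {F : Type} [Field F] [NumberField F]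

omit [NumberField F] in
theorem Good.sg {v₁ : F →+* ℝ} {D : F} {h : Fin (n + 1) → F} (hG : Good v₁ D h) :
    Sg (ev v₁ h) := ⟨fun j => hG.hp v₁ j, hG.hn⟩

omit [NumberField F] in
theorem Good.pos {v₁ : F →+* ℝ} {D : F} {h : Fin (n + 1) → F} (hG : Good v₁ D h)
    {v : F →+* ℝ} (hv : v ≠ v₁) (j : Fin (n + 1)) : 0 < v (h j) := by
  refine Fin.lastCases ?_ (fun i => ?_) j
  · exact hG.hl v hv
  · exact hG.hp v i

omit [NumberField F] in
theorem Good.ne {v₁ : F →+* ℝ} {D : F} {h : Fin (n + 1) → F} (hG : Good v₁ D h)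
    (j : Fin (n + 1)) : h j ≠ 0 := by
  intro h0
  have := ne_zero_of_sg hG.sg j
  simp only [ev, h0, map_zero, ne_eq, not_true_eq_false] at this

omit [NumberField F] in
theorem Good.vne {v₁ : F →+* ℝ} {D : F} {h : Fin (n + 1) → F} (hG : Good v₁ D h)
    (v : F →+* ℝ) (j : Fin (n + 1)) : v (h j) ≠ 0 := (map_ne_zero v).2 (hG.ne j)

omit [NumberField F] in
theorem Good.Dne {v₁ : F →+* ℝ} {D : F} {h : Fin (n + 1) → F} (hG : Good v₁ D h) : D ≠ 0 := by
  intro h0
  have := hG.D0 v₁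
  rw [h0, map_zero] at this
  exact lt_irrefl _ this

end

end Pool.Agent.CMN
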