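import Pool.Agent.Lib.CMN.Api
import Pool.Agent.Lib.CMH.TH8k
import Mathlib.Analysis.SpecialFunctions.Pow.Deriv

/-! # TANK CMN, row TH8: the ball, all `n`.  `e(y) = yh / w(y)`, tangent vectors `∂_j e`, the
formulas for `c Z + d` in the coordinates of `Defs.lean`.  helper20. -/

set_option autoImplicit false
set_option linter.unusedSectionVars false

open Matrix Filter Topology
open scoped Kronecker

namespace Pool.Agent.CMN.TH8

open Pool.Agent.CMH.TH8 (bf bf_smul_left bf_smul_right)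

noncomputable section

variable {n : ℕ}

/-- the diagonal form at the hyperbolic place. -/
def HH (k : Fin (n + 1) → ℝ) : Matrix (Fin (n + 1)) (Fin (n + 1)) ℂ := diagonal fun j => (k j : ℂ)

theorem HH_symm (k : Fin (n + 1) → ℝ) : (HH k)ᵀ = HH k := diagonal_transpose _

theorem HH_det (k : Fin (n + 1) → ℝ) (hk : ∀ j, k j ≠ 0) : IsUnit (HH k).det := by
  unfold HH
  rw [det_diagonal, isUnit_iff_ne_zero, Finset.prod_ne_zero_iff]
  intro j _
  exact_mod_cast hk j

theorem bf_HH (k : Fin (n + 1) → ℝ) (x z : Fin (n + 1) → ℂ) :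
    bf (HH k) x z = ∑ j, (k j : ℂ) * x j * z j := by
  unfold bf HH
  rw [dotProduct]
  refine Finset.sum_congr rfl fun j _ => ?_
  rw [mulVec_diagonal]
  ring

theorem bf_hat (k : Fin (n + 1) → ℝ) (y : Fin n → ℂ) :
    bf (HH k) (hat y) (hat y) = ∑ j, (k j : ℂ) * hat y j ^ 2 := by
  rw [bf_HH]
  refine Finset.sum_congr rfl fun j _ => ?_
  ring

/-- the real part of `-⟨yh, yh⟩` is positive on the ball. -/
theorem re_pos {k : Fin (n + 1) → ℝ} (hs : Sg k) {y : Fin n → ℂ} (hy : y ∈ ball k) :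
    0 < (-∑ j, (k j : ℂ) * hat y j ^ 2).re := by
  rw [mem_ball] at hy
  rw [sum_hat_sq]
  have a0 : ∀ j : Fin n, ((k j.castSucc : ℂ) * y j ^ 2).re ≤ k j.castSucc * ‖y j‖ ^ 2 := by
    intro j
    rw [Complex.re_ofReal_mul]
    refine mul_le_mul_of_nonneg_left ?_ (hs.pos j).le
    calc (y j ^ 2).re ≤ ‖y j ^ 2‖ := Complex.re_le_norm _
      _ = ‖y j‖ ^ 2 := norm_pow _ _
  have a1 : (∑ j : Fin n, (k j.castSucc : ℂ) * y j ^ 2).re ≤
      ∑ j : Fin n, k j.castSucc * ‖y j‖ ^ 2 := by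
    rw [Complex.re_sum]
    exact Finset.sum_le_sum fun j _ => a0 j
  rw [Complex.neg_re, Complex.add_re, Complex.ofReal_re]
  linarith

theorem w_sq (k : Fin (n + 1) → ℝ) (y : Fin n → ℂ) :
    w k y ^ 2 = -bf (HH k) (hat y) (hat y) := by
  rw [bf_hat]
  unfold w
  rw [← Complex.cpow_nat_mul]
  norm_num

theorem w_ne {k : Fin (n + 1) → ℝ} (hs : Sg k) {y : Fin n → ℂ} (hy : y ∈ ball k) :
    w k y ≠ 0 := by
  intro h
  have h2 := w_sq k y
  have h3 := re_pos hs hy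
  rw [← bf_hat] at h3
  rw [h, ← neg_eq_iff_eq_neg] at h2
  simp at h2
  rw [← h2] at h3
  simp at h3

theorem bf_hat_ne {k : Fin (n + 1) → ℝ} (hs : Sg k) {y : Fin n → ℂ}
    (hy : y ∈ ball k) : bf (HH k) (hat y) (hat y) ≠ 0 := by
  intro h
  have h3 := re_pos hs hy
  rw [← bf_hat, h] at h3
  simp at h3

/-- the normalised vector `yh / w`. -/
def e (k : Fin (n + 1) → ℝ) (y : Fin n → ℂ) : Fin (n + 1) → ℂ := (w k y)⁻¹ • hat y

/-- its derivative in the direction `y_j`. -/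
def de (k : Fin (n + 1) → ℝ) (j : Fin n) (y : Fin n → ℂ) : Fin (n + 1) → ℂ :=
  (w k y)⁻¹ • Pi.single j.castSucc 1 + ((k j.castSucc : ℂ) * y j / w k y ^ 3) • hat y

theorem bf_e {k : Fin (n + 1) → ℝ} (hs : Sg k) {y : Fin n → ℂ} (hy : y ∈ ball k) :
    bf (HH k) (e k y) (e k y) = -1 := by
  unfold e
  have h := w_sq k y
  have hw := w_ne hs hy
  rw [bf_smul_left, bf_smul_right, ← neg_eq_iff_eq_neg.mpr h]
  field_simp

/-- `s_x(y) = ⟨x, e(y)⟩`. -/
theorem s_eq (k x : Fin (n + 1) → ℝ) (y : Fin n → ℂ) :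
    s k x y = (fun i => (x i : ℂ)) ⬝ᵥ HH k *ᵥ e k y := by
  change _ = bf (HH k) _ _
  rw [bf_HH]
  unfold s pr e
  rw [div_eq_mul_inv, Finset.sum_mul]
  refine Finset.sum_congr rfl fun j _ => ?_
  simp only [Pi.smul_apply, smul_eq_mul]
  ring

/-- `∂_j s_x(y) = ⟨x, ∂_j e(y)⟩`. -/
theorem ds_eq (k x : Fin (n + 1) → ℝ) (j : Fin n) (y : Fin n → ℂ) :
    ds k x j y = (fun i => (x i : ℂ)) ⬝ᵥ HH k *ᵥ de k j y := by
  change _ = bf (HH k) _ _
  unfold ds pr de
  have h1 : bf (HH k) (fun i => (x i : ℂ)) (((w k y)⁻¹ • Pi.single j.castSucc 1 +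
      ((k j.castSucc : ℂ) * y j / w k y ^ 3) • hat y : Fin (n + 1) → ℂ)) =
      (w k y)⁻¹ * ((k j.castSucc : ℂ) * (x j.castSucc : ℂ)) +
        ((k j.castSucc : ℂ) * y j / w k y ^ 3) * ∑ i, (k i : ℂ) * (x i : ℂ) * hat y i := by
    rw [bf_HH, Finset.mul_sum]
    have h2 : ∀ i, (k i : ℂ) * (x i : ℂ) * (((w k y)⁻¹ • Pi.single j.castSucc 1 +
      ((k j.castSucc : ℂ) * y j / w k y ^ 3) • hat y : Fin (n + 1) → ℂ)) i =
        (w k y)⁻¹ * ((k i : ℂ) * (x i : ℂ) *
          (Pi.single j.castSucc (1 : ℂ) : Fin (n + 1) → ℂ) i) +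
        ((k j.castSucc : ℂ) * y j / w k y ^ 3) * ((k i : ℂ) * (x i : ℂ) * hat y i) := by
      intro i
      simp only [Pi.add_apply, Pi.smul_apply, smul_eq_mul]
      ring
    simp_rw [h2]
    rw [Finset.sum_add_distrib]
    congr 1
    rw [Finset.sum_eq_single j.castSucc]
    · rw [Pi.single_eq_same, mul_one]
    · intro i _ hi
      rw [Pi.single_eq_of_ne hi]
      ring
    · intro h
      exact absurd (Finset.mem_univ _) h
  rw [h1]
  ring

/-- `(d, 0)`. -/
def hat0 (d : Fin n → ℂ) : Fin (n + 1) → ℂ := Fin.snoc (α := fun _ => ℂ) d 0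

@[simp] theorem hat0_castSucc (d : Fin n → ℂ) (j : Fin n) : hat0 d j.castSucc = d j := by
  simp [hat0]

@[simp] theorem hat0_last (d : Fin n → ℂ) : hat0 d (Fin.last n) = 0 := by
  simp [hat0]

theorem hat0_single (j : Fin n) : hat0 (Pi.single j (1 : ℂ)) = Pi.single j.castSucc 1 := by
  funext i
  refine Fin.lastCases ?_ (fun i => ?_) i
  · rw [hat0_last, Pi.single_eq_of_ne (Fin.castSucc_lt_last j).ne']
  · rw [hat0_castSucc]
    by_cases h : i = j
    · subst h; simp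
    · rw [Pi.single_eq_of_ne h, Pi.single_eq_of_ne]
      intro h2
      exact h (Fin.castSucc_injective n h2)

/-- derivative of `hat` along a line. -/
theorem hat_line (y d : Fin n → ℂ) (t : ℂ) :
    hat (y + t • d) = hat y + t • hat0 d := by
  funext i
  refine Fin.lastCases ?_ (fun i => ?_) i
  · simp
  · simp

/-- the derivative of `e` along any holomorphic curve in the ball. -/
theorem hasDerivAt_e {k : Fin (n + 1) → ℝ} (hs : Sg k) {c : ℂ → Fin n → ℂ}
    {c' : Fin n → ℂ} {s0 : ℂ} (hc : HasDerivAt c c' s0) (hy : c s0 ∈ ball k) :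
    HasDerivAt (fun t => e k (c t)) (∑ j, c' j • de k j (c s0)) s0 := by
  have hci : ∀ i, HasDerivAt (fun t => c t i) (c' i) s0 := hasDerivAt_pi.mp hc
  have hhat : ∀ i, HasDerivAt (fun t => hat (c t) i) (hat0 c' i) s0 := by
    intro i
    refine Fin.lastCases ?_ (fun i => ?_) i
    · simpa using hasDerivAt_const s0 (1 : ℂ)
    · simpa using hci i
  set y := c s0 with hydef
  have hb : HasDerivAt (fun t => -∑ j, (k j : ℂ) * hat (c t) j ^ 2)
      (-∑ j, (k j : ℂ) * (2 * hat y j * hat0 c' j)) s0 := by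
    apply HasDerivAt.neg
    apply HasDerivAt.fun_sum
    intro j _
    have := ((hhat j).pow 2).const_mul (k j : ℂ)
    simpa [pow_one, mul_assoc] using this
  have hre := re_pos hs hy
  have hw : HasDerivAt (fun t => w k (c t))
      ((1 / 2 : ℂ) * (-∑ j, (k j : ℂ) * hat y j ^ 2) ^ ((1 / 2 : ℂ) - 1) *
        (-∑ j, (k j : ℂ) * (2 * hat y j * hat0 c' j))) s0 := by
    have := hb.cpow_const (c := (1 / 2 : ℂ)) (Or.inl hre)
    exact this
  have hwne := w_ne hs hy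
  have hsq : w k y ^ 2 = -∑ j, (k j : ℂ) * hat y j ^ 2 := by
    rw [w_sq k y, bf_hat]
  have hbne : (-∑ j, (k j : ℂ) * hat y j ^ 2) ≠ 0 := by
    rw [← hsq]
    exact pow_ne_zero 2 hwne
  have hpow : (-∑ j, (k j : ℂ) * hat y j ^ 2) ^ ((1 / 2 : ℂ) - 1) = (w k y)⁻¹ := by
    rw [Complex.cpow_sub _ _ hbne, Complex.cpow_one]
    change w k y / _ = _
    rw [← hsq]
    field_simp
  rw [hpow] at hw
  have hinv : HasDerivAt (fun t => (w k (c t))⁻¹) _ s0 := hw.inv hwne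
  have hfin : ∀ i, HasDerivAt (fun t => (w k (c t))⁻¹ * hat (c t) i) _ s0 :=
    fun i => hinv.mul (hhat i)
  have hS : ∑ j, (k j : ℂ) * (2 * hat y j * hat0 c' j) =
      2 * ∑ j : Fin n, c' j * ((k j.castSucc : ℂ) * y j) := by
    rw [Fin.sum_univ_castSucc, hat0_last, mul_zero, mul_zero, add_zero, Finset.mul_sum]
    refine Finset.sum_congr rfl fun j _ => ?_
    rw [hat_castSucc, hat0_castSucc]
    ring
  rw [hasDerivAt_pi]
  intro i
  refine (hfin i).congr_deriv ?_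
  rw [hS]
  unfold de
  simp only [Finset.sum_apply, Pi.smul_apply, Pi.add_apply, smul_eq_mul, ← hydef]
  have h1 : ∑ j : Fin n, c' j * ((w k y)⁻¹ *
      (Pi.single j.castSucc (1 : ℂ) : Fin (n + 1) → ℂ) i +
        (k j.castSucc : ℂ) * y j / w k y ^ 3 * hat y i) =
      (w k y)⁻¹ * hat0 c' i +
        (∑ j : Fin n, c' j * ((k j.castSucc : ℂ) * y j)) / w k y ^ 3 * hat y i := by
    have h2 : hat0 c' i = ∑ j : Fin n, c' j *
        (Pi.single j.castSucc (1 : ℂ) : Fin (n + 1) → ℂ) i := by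
      refine Fin.lastCases ?_ (fun i => ?_) i
      · rw [hat0_last]
        symm
        apply Finset.sum_eq_zero
        intro j _
        rw [Pi.single_eq_of_ne (Fin.castSucc_lt_last j).ne', mul_zero]
      · rw [hat0_castSucc, Finset.sum_eq_single i]
        · rw [Pi.single_eq_same, mul_one]
        · intro j _ hj
          rw [Pi.single_eq_of_ne, mul_zero]
          intro h3
          exact hj (Fin.castSucc_injective n h3).symm
        · intro h3
          exact absurd (Finset.mem_univ _) h3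
    rw [h2, Finset.mul_sum, Finset.sum_div, Finset.sum_mul, ← Finset.sum_add_distrib]
    refine Finset.sum_congr rfl fun j _ => ?_
    ring
  rw [h1]
  field_simp
  ring

/-! ### the group -/

/-- the two complex matrices `X ± i √D Y` of a pair. -/
def gp (X Y : Matrix (Fin (n + 1)) (Fin (n + 1)) ℝ) (δ : ℝ) :
    Matrix (Fin (n + 1)) (Fin (n + 1)) ℂ :=
  X.map (fun x : ℝ => (x : ℂ)) + (Complex.I * (δ : ℂ)) • Y.map (fun x : ℝ => (x : ℂ))
def gm (X Y : Matrix (Fin (n + 1)) (Fin (n + 1)) ℝ) (δ : ℝ) :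
    Matrix (Fin (n + 1)) (Fin (n + 1)) ℂ :=
  X.map (fun x : ℝ => (x : ℂ)) - (Complex.I * (δ : ℂ)) • Y.map (fun x : ℝ => (x : ℂ))

variable {X Y : Matrix (Fin (n + 1)) (Fin (n + 1)) ℝ} {δ : ℝ} {k : Fin (n + 1) → ℝ}

/-- the unitary equations give `gᵀ H g' = H`. -/
theorem gp_gm (hu : Xᵀ * diagonal k * X + (δ ^ 2) • (Yᵀ * diagonal k * Y) = diagonal k)
    (hv : Xᵀ * diagonal k * Y = Yᵀ * diagonal k * X) :
    (gp X Y δ)ᵀ * HH k * gm X Y δ = HH k := by
  have hu' := congrArg (fun M : Matrix (Fin (n + 1)) (Fin (n + 1)) ℝ =>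
    M.map (fun x : ℝ => (x : ℂ))) hu
  have hv' := congrArg (fun M : Matrix (Fin (n + 1)) (Fin (n + 1)) ℝ =>
    M.map (fun x : ℝ => (x : ℂ))) hv
  have hmul : ∀ A B : Matrix (Fin (n + 1)) (Fin (n + 1)) ℝ, (A * B).map (fun x : ℝ => (x : ℂ)) =
      A.map (fun x : ℝ => (x : ℂ)) * B.map (fun x : ℝ => (x : ℂ)) :=
    fun A B => Matrix.map_mul (f := Complex.ofRealHom)
  have hadd : ∀ A B : Matrix (Fin (n + 1)) (Fin (n + 1)) ℝ, (A + B).map (fun x : ℝ => (x : ℂ)) =
      A.map (fun x : ℝ => (x : ℂ)) + B.map (fun x : ℝ => (x : ℂ)) := by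
    intro A B
    ext i j
    simp
  have hsm : ∀ (c : ℝ) (A : Matrix (Fin (n + 1)) (Fin (n + 1)) ℝ),
      (c • A).map (fun x : ℝ => (x : ℂ)) = (c : ℂ) • A.map (fun x : ℝ => (x : ℂ)) := by
    intro c A
    ext i j
    simp
  have hdg : (diagonal k).map (fun x : ℝ => (x : ℂ)) = HH k := by
    unfold HH
    ext i j
    by_cases h : i = j
    · subst h; simp
    · simp [h]
  simp only [hmul, hadd, hsm, hdg, transpose_map] at hu' hv'
  unfold gp gm
  set x := X.map (fun x : ℝ => (x : ℂ))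
  set z := Y.map (fun x : ℝ => (x : ℂ))
  rw [transpose_add, transpose_smul, add_mul, add_mul, mul_sub, mul_sub, Matrix.smul_mul,
    Matrix.smul_mul, Matrix.mul_smul, Matrix.mul_smul, Matrix.smul_mul, smul_smul]
  have hI : Complex.I * (δ : ℂ) * (Complex.I * (δ : ℂ)) = -((δ ^ 2 : ℝ) : ℂ) := by
    push_cast
    linear_combination (δ : ℂ) ^ 2 * Complex.I_sq
  rw [hI, ← hv']
  refine Eq.trans ?_ hu'
  module

theorem gm_gp (hu : Xᵀ * diagonal k * X + (δ ^ 2) • (Yᵀ * diagonal k * Y) = diagonal k)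
    (hv : Xᵀ * diagonal k * Y = Yᵀ * diagonal k * X) :
    (gm X Y δ)ᵀ * HH k * gp X Y δ = HH k := by
  have h1 := gp_gm (δ := -δ) (by rw [neg_sq]; exact hu) hv
  have e1 : gp X Y (-δ) = gm X Y δ := by
    unfold gp gm
    push_cast
    module
  have e2 : gm X Y (-δ) = gp X Y δ := by
    unfold gp gm
    push_cast
    module
  rwa [e1, e2] at h1

end

end Pool.Agent.CMN.TH8
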