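import Pool.Agent.Lib.CMN.B8d

/-! # TANK CMN, row TH8: the statements at the hyperbolic place in the notation of `Defs.lean`,
all `n`.  helper20. -/

set_option autoImplicit false
set_option linter.unusedSectionVars false

open Matrix Filter Topology
open scoped Kronecker ComplexConjugate

namespace Pool.Agent.CMN.TH8

open Pool.Agent.CMH.TH8 (bf bf_smul_left bf_smul_right AA AA_smul tangent lA lB lC lD Zh Zd
  hyp_cz hyp_act hyp_det hyp_eta S_smul)

noncomputable section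

variable {n : ℕ} {X Y : Matrix (Fin (n + 1)) (Fin (n + 1)) ℝ} {δ : ℝ} {k : Fin (n + 1) → ℝ}

/-- `G* = G'ᵀ`. -/
theorem gp_conjTranspose (X Y : Matrix (Fin (n + 1)) (Fin (n + 1)) ℝ) (δ : ℝ) :
    (gp X Y δ)ᴴ = (gm X Y δ)ᵀ := by
  unfold gp gm
  ext i j
  simp only [conjTranspose_apply, transpose_apply, Matrix.add_apply, Matrix.sub_apply,
    Matrix.smul_apply, map_apply, star_add, Complex.star_def, smul_eq_mul, map_mul,
    Complex.conj_I, Complex.conj_ofReal]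
  ring

theorem gp_unitary (hu : Xᵀ * diagonal k * X + (δ ^ 2) • (Yᵀ * diagonal k * Y) = diagonal k)
    (hv : Xᵀ * diagonal k * Y = Yᵀ * diagonal k * X) :
    (gp X Y δ)ᴴ * HH k * gp X Y δ = HH k := by
  rw [gp_conjTranspose]
  exact gm_gp hu hv

/-- the complex matrices of the blocks. -/
abbrev cm (X : Matrix (Fin (n + 1)) (Fin (n + 1)) ℝ) : Matrix (Fin (n + 1)) (Fin (n + 1)) ℂ :=
  X.map (fun x : ℝ => (x : ℂ))

variable {m : Type} [Fintype m] [DecidableEq m] {Q : Matrix m m ℂ}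

/-- `c Z + d` at the hyperbolic place. -/
theorem ball_cz (hδ : 0 < δ) (hk : ∀ j, k j ≠ 0) (hQ : IsUnit Q.det)
    (X Y : Matrix (Fin (n + 1)) (Fin (n + 1)) ℝ) (y : Fin n → ℂ) :
    lC ((δ : ℂ) ^ 2) Q (HH k) (cm Y) * Zh (δ : ℂ) Q (HH k) (hat y) + lD m (cm X) =
      (1 : Matrix m m ℂ) ⊗ₖ AA (HH k) (gp X Y δ) (gm X Y δ) (hat y) :=
  hyp_cz (by exact_mod_cast hδ.ne') (HH_det k hk) hQ _ _ _

/-- the point of the Siegel space depends only on the line. -/
theorem Zh_smul (δ : ℂ) (Q : Matrix m m ℂ) (H : Matrix (Fin (n + 1)) (Fin (n + 1)) ℂ) {c : ℂ}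
    (hc : c ≠ 0) (p : Fin (n + 1) → ℂ) : Zh δ Q H (c • p) = Zh δ Q H p := by
  unfold Zh
  rw [S_smul H hc]

/-- `a Z + b = Z' (c Z + d)` at the hyperbolic place. -/
theorem ball_act (hδ : 0 < δ) (hs : Sg k) (hk : ∀ j, k j ≠ 0)
    (hu : Xᵀ * diagonal k * X + (δ ^ 2) • (Yᵀ * diagonal k * Y) = diagonal k)
    (hv : Xᵀ * diagonal k * Y = Yᵀ * diagonal k * X) {y : Fin n → ℂ} (hy : y ∈ ball k)
    (Q : Matrix m m ℂ) :
    lA m (HH k) (cm X) * Zh (δ : ℂ) Q (HH k) (hat y) + lB Q (HH k) (cm Y) =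
      Zh (δ : ℂ) Q (HH k) (hat (actM (gp X Y δ) y)) *
        ((1 : Matrix m m ℂ) ⊗ₖ AA (HH k) (gp X Y δ) (gm X Y δ) (hat y)) := by
  have hG := gp_unitary hu hv
  have hj := jj_ne hs hG hy
  have hy' := actM_mem hs hG hy
  have hb := bf_hat_ne hs hy
  have hb' : bf (HH k) (gp X Y δ *ᵥ hat y) (gp X Y δ *ᵥ hat y) ≠ 0 := by
    have h2 := bf_hat_ne hs hy'
    rw [hat_actM hj, bf_smul_left, bf_smul_right] at h2
    intro h
    rw [h] at h2
    simp at h2
  rw [hat_actM hj, Zh_smul _ _ _ (inv_ne_zero hj)]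
  exact hyp_act (by exact_mod_cast hδ.ne') (HH_symm k) (HH_det k hk) (gp_gm hu hv) hb hb' Q

/-- the determinant of `c Z + d` at the hyperbolic place. -/
theorem ball_det (hs : Sg k) (hk : ∀ j, k j ≠ 0)
    (hu : Xᵀ * diagonal k * X + (δ ^ 2) • (Yᵀ * diagonal k * Y) = diagonal k)
    (hv : Xᵀ * diagonal k * Y = Yᵀ * diagonal k * X) (hdet : (gp X Y δ).det = 1)
    {y : Fin n → ℂ} (hy : y ∈ ball k) :
    ((1 : Matrix m m ℂ) ⊗ₖ AA (HH k) (gp X Y δ) (gm X Y δ) (hat y)).det =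
      (EE k (gp X Y δ) y ^ Fintype.card m) ^ 2 := by
  have hdet' : (gm X Y δ).det = 1 := by
    have h2 := congrArg det (gp_gm hu hv)
    rw [det_mul, det_mul, det_transpose, hdet, one_mul] at h2
    have h3 : (HH k).det ≠ 0 := (HH_det k hk).ne_zero
    exact mul_left_cancel₀ h3 (by rw [h2, mul_one])
  rw [hyp_det (HH_symm k) (HH_det k hk) (gp_gm hu hv) hdet' (bf_hat_ne hs hy),
    ← EE_sq hs (gp_unitary hu hv) hy, ← pow_mul, ← pow_mul, mul_comm]

/-- the transformation of `c ⊗ H ∂_d e`. -/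
theorem ball_eta (hs : Sg k) (hk : ∀ j, k j ≠ 0)
    (hu : Xᵀ * diagonal k * X + (δ ^ 2) • (Yᵀ * diagonal k * Y) = diagonal k)
    (hv : Xᵀ * diagonal k * Y = Yᵀ * diagonal k * X) {y : Fin n → ℂ} (hy : y ∈ ball k)
    (d : Fin n → ℂ) (c : m → ℂ) :
    ((1 : Matrix m m ℂ) ⊗ₖ AA (HH k) (gp X Y δ) (gm X Y δ) (hat y))ᵀ *ᵥ
        (fun q : m × Fin (n + 1) => c q.1 *
          (HH k *ᵥ ∑ j, Jac (gp X Y δ) y d j • de k j (actM (gp X Y δ) y)) q.2) =
      (EE k (gp X Y δ) y)⁻¹ • (fun q : m × Fin (n + 1) => c q.1 *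
        (HH k *ᵥ ∑ j, d j • de k j y) q.2) :=
  hyp_eta (tangent_ball hs hk (gp_unitary hu hv) (gp_gm hu hv) (gm_gp hu hv) hy d) c

/-! ### the notation of `Defs.lean` -/

variable {F : Type} [Field F] [NumberField F]

theorem cmat_eq (v : F →+* ℝ) (D : F) (g : Mat n F) :
    cmat v D g = gp (g.1.map v) (g.2.map v) (√(v D)) := by
  unfold cmat gp
  ext i j
  simp [mul_assoc]

theorem act_eq (v : F →+* ℝ) (D : F) (g : Mat n F) (y : Fin n → ℂ) :
    act v D g y = actM (cmat v D g) y := rfl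

theorem gy_eq (v : F →+* ℝ) (D : F) (g : Mat n F) (y : Fin n → ℂ) :
    gy v D g y (Fin.last n) = jj (cmat v D g) y := rfl

/-- the unitary equations at a place. -/
theorem gam_place (v : F →+* ℝ) {D : F} (hD : 0 < v D) {h : Fin (n + 1) → F} {N : ℕ} {g : Mat n F}
    (hg : g ∈ Gam D h N) :
    (g.1.map v)ᵀ * diagonal (ev v h) * (g.1.map v) +
        (√(v D) ^ 2) • ((g.2.map v)ᵀ * diagonal (ev v h) * (g.2.map v)) = diagonal (ev v h) ∧
      (g.1.map v)ᵀ * diagonal (ev v h) * (g.2.map v) =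
        (g.2.map v)ᵀ * diagonal (ev v h) * (g.1.map v) := by
  obtain ⟨h1, h2, -, -⟩ := hg
  have hdg : (diagonal h).map v = diagonal (ev v h) := by
    ext i j
    by_cases hij : i = j
    · subst hij; simp [ev]
    · simp [hij]
  constructor
  · have h3 := congrArg (fun M : Matrix (Fin (n + 1)) (Fin (n + 1)) F => M.map v) h1
    simp only [Matrix.map_add v (map_add v), Matrix.map_mul, hdg] at h3
    rw [Real.sq_sqrt hD.le]
    have h4 : (D • (g.2ᵀ * diagonal h * g.2)).map v =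
        (v D) • ((g.2.map v)ᵀ * diagonal (ev v h) * (g.2.map v)) := by
      have h5 : ∀ M : Matrix (Fin (n + 1)) (Fin (n + 1)) F, (D • M).map v = v D • M.map v := by
        intro M
        ext i j
        simp
      rw [h5, Matrix.map_mul, Matrix.map_mul, hdg, transpose_map]
    rw [h4] at h3
    exact h3
  · have h3 := congrArg (fun M : Matrix (Fin (n + 1)) (Fin (n + 1)) F => M.map v) h2
    simp only [Matrix.map_mul, hdg] at h3
    exact h3

end

end Pool.Agent.CMN.TH8
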