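import Pool.Agent.Lib.CMN.CocH

/-!
# TANK CMN, cocompactness: the row MIN
-/

set_option autoImplicit false

open Matrix NumberField Module

namespace Pool.Agent.CMN

open Pool.Agent.CMH (cocI cocP cocP_apply cocP_int coc_real)

variable {n : ℕ} {F : Type} [Field F] [NumberField F]

/-- the product of the absolute values of a nonzero integer at the real places is at least one -/
theorem coc_prod [IsTotallyReal F] (a : 𝓞 F) (ha : a ≠ 0) :
    1 ≤ ∏ v : F →+* ℝ, |v (a : F)| := by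
  have h1 := Algebra.norm_eq_prod_embeddings ℚ ℂ (a : F)
  have h2 : ∏ v : F →+* ℝ, |v (a : F)| = ∏ σ : F →ₐ[ℚ] ℂ, ‖σ (a : F)‖ := by
    refine Fintype.prod_bijective
      (fun σ : F →+* ℝ => (((algebraMap ℝ ℂ).comp σ).toRatAlgHom : F →ₐ[ℚ] ℂ)) ⟨?_, ?_⟩ _ _ ?_
    · intro σ τ h
      ext x
      have h1 := DFunLike.congr_fun h x
      exact Complex.ofReal_injective h1
    · intro φ
      obtain ⟨σ, hσ⟩ := coc_real (φ : F →+* ℂ)
      refine ⟨σ, AlgHom.ext fun x => ?_⟩
      exact (hσ x).symm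
    · intro σ
      exact (Complex.norm_real _).symm
  rw [h2, ← norm_prod, ← h1]
  have h3 : Algebra.norm ℚ (a : F) = ((Algebra.norm ℤ a : ℤ) : ℚ) :=
    (Algebra.coe_norm_int a).symm
  have h4 : Algebra.norm ℤ a ≠ 0 := Algebra.norm_ne_zero_iff.2 ha
  rw [h3]
  have h5 : ‖(algebraMap ℚ ℂ) ((Algebra.norm ℤ a : ℤ) : ℚ)‖ = ((|Algebra.norm ℤ a| : ℤ) : ℝ) := by
    rw [eq_ratCast, Rat.cast_intCast, Complex.norm_intCast, Int.cast_abs]
  rw [h5]
  exact_mod_cast Int.one_le_abs h4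

/-- ROW MIN -/
theorem coc_MIN : RowMIN := by
  intro F _ _ _ n v₁ D k hD h0 h2 h3 hv z hz
  obtain ⟨v, hv⟩ := hv
  have hval : ∀ σ : F →+* ℝ, ∑ j, σ (k j : F) * (σ (z 0 j : F) ^ 2 + σ (D : F) * σ (z 1 j : F) ^ 2) =
      σ ((be D k z z : 𝓞 F) : F) := by
    intro σ
    unfold be
    simp only [map_sum, map_mul, map_add]
    refine Finset.sum_congr rfl fun j _ => ?_
    ring
  have ha : be D k z z ≠ 0 := by
    intro ha
    have h4 := hval v
    rw [ha] at h4
    simp only [map_zero] at h4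
    have hk : ∀ j, 0 < v (k j : F) := by
      intro j
      refine Fin.lastCases ?_ (fun j => ?_) j
      · exact h2 v hv
      · exact h0 v j
    have h5 : ∀ j, 0 ≤ v (k j : F) * (v (z 0 j : F) ^ 2 + v (D : F) * v (z 1 j : F) ^ 2) :=
      fun j => mul_nonneg (hk j).le (add_nonneg (sq_nonneg _) (mul_nonneg (hD v).le (sq_nonneg _)))
    have h6 := (Finset.sum_eq_zero_iff_of_nonneg fun j _ => h5 j).1 h4
    apply hz
    have h7 : ∀ j, v (z 0 j : F) = 0 ∧ v (z 1 j : F) = 0 := by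
      intro j
      have h8 := h6 j (Finset.mem_univ j)
      have h9 : v (z 0 j : F) ^ 2 + v (D : F) * v (z 1 j : F) ^ 2 = 0 :=
        (mul_eq_zero.1 h8).resolve_left (hk j).ne'
      have h10 := sq_nonneg (v (z 0 j : F))
      have h11 := mul_nonneg (hD v).le (sq_nonneg (v (z 1 j : F)))
      have h12 : v (z 0 j : F) ^ 2 = 0 := by linarith
      have h13 : v (D : F) * v (z 1 j : F) ^ 2 = 0 := by linarith
      exact ⟨pow_eq_zero_iff two_ne_zero |>.1 h12,
        pow_eq_zero_iff two_ne_zero |>.1 ((mul_eq_zero.1 h13).resolve_left (hD v).ne')⟩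
    have h14 : ∀ x : 𝓞 F, v (x : F) = 0 → x = 0 := fun x hx =>
      RingOfIntegers.coe_eq_zero_iff.1 ((map_eq_zero v).1 hx)
    funext e j
    fin_cases e
    · exact h14 _ (h7 j).1
    · exact h14 _ (h7 j).2
  have h4 := coc_prod (be D k z z) ha
  simp only [hval]
  exact h4

end Pool.Agent.CMN
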