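import Mathlib
import Pool.Agent.Lib.CMN.CocReal

/-!
# TANK CMN, cocompactness: unitary matrices at the place `v₁` acting on the real points
-/

set_option autoImplicit false

open Matrix NumberField Module

namespace Pool.Agent.CMN

open Pool.Agent.CMH (cocI cocP cocP_apply cocP_int coc_real)

variable {n : ℕ} {F : Type} [Field F] [NumberField F]

/-- `cx` as a real linear map -/
noncomputable def cxL (D : 𝓞 F) (σ : F →+* ℝ) : cV n F →ₗ[ℝ] (Fin (n + 1) → ℂ) where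
  toFun := cx D σ
  map_add' z z' := by
    funext j
    change (((z 0 j σ + z' 0 j σ : ℝ)) : ℂ) + Complex.I * (Real.sqrt (σ (D : F)) : ℂ) *
      ((z 1 j σ + z' 1 j σ : ℝ) : ℂ) = _
    change _ = ((z 0 j σ : ℂ) + Complex.I * (Real.sqrt (σ (D : F)) : ℂ) * (z 1 j σ : ℂ)) +
      ((z' 0 j σ : ℂ) + Complex.I * (Real.sqrt (σ (D : F)) : ℂ) * (z' 1 j σ : ℂ))
    push_cast
    ring
  map_smul' c z := by
    funext j
    change (((c * z 0 j σ : ℝ)) : ℂ) + Complex.I * (Real.sqrt (σ (D : F)) : ℂ) *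
      ((c * z 1 j σ : ℝ) : ℂ) = c • ((z 0 j σ : ℂ) +
        Complex.I * (Real.sqrt (σ (D : F)) : ℂ) * (z 1 j σ : ℂ))
    rw [Complex.real_smul]
    push_cast
    ring

theorem cx_add (D : 𝓞 F) (σ : F →+* ℝ) (z z' : cV n F) : cx D σ (z + z') = cx D σ z + cx D σ z' :=
  (cxL D σ).map_add z z'

theorem cx_smul (D : 𝓞 F) (σ : F →+* ℝ) (c : ℝ) (z : cV n F) : cx D σ (c • z) = c • cx D σ z :=
  (cxL D σ).map_smul c z

open Classical in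
/-- the matrix `κ` acts at the place `v₁` -/
noncomputable def Gv (D : 𝓞 F) (v₁ : F →+* ℝ) (κ : Matrix (Fin (n + 1)) (Fin (n + 1)) ℂ) :
    cV n F →ₗ[ℝ] cV n F where
  toFun z := ![fun j σ => if σ = v₁ then ((κ *ᵥ cx D v₁ z) j).re else z 0 j σ,
    fun j σ => if σ = v₁ then ((κ *ᵥ cx D v₁ z) j).im / Real.sqrt (v₁ (D : F)) else z 1 j σ]
  map_add' z z' := by
    funext e j σ
    rw [cx_add, mulVec_add]
    by_cases h : σ = v₁
    · fin_cases e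
      · simp [h]
      · simp [h, add_div]
    · fin_cases e
      · simp [h]
      · simp [h]
  map_smul' c z := by
    funext e j σ
    rw [cx_smul, mulVec_smul]
    by_cases h : σ = v₁
    · fin_cases e
      · simp [h]
      · simp [h, mul_div_assoc]
    · fin_cases e
      · simp [h]
      · simp [h]

theorem cx_Gv_same (D : 𝓞 F) (v₁ : F →+* ℝ) (hD : 0 < v₁ (D : F)) (κ : Matrix (Fin (n + 1)) (Fin (n + 1)) ℂ)
    (z : cV n F) : cx D v₁ (Gv D v₁ κ z) = κ *ᵥ cx D v₁ z := by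
  funext j
  have h4 : ((Real.sqrt (v₁ (D : F)) : ℝ) : ℂ) ≠ 0 := by
    exact_mod_cast (Real.sqrt_pos.2 hD).ne'
  have h1 : cx D v₁ (Gv D v₁ κ z) j = (((κ *ᵥ cx D v₁ z) j).re : ℂ) +
      Complex.I * (Real.sqrt (v₁ (D : F)) : ℂ) *
      ((((κ *ᵥ cx D v₁ z) j).im / Real.sqrt (v₁ (D : F)) : ℝ) : ℂ) := by
    unfold cx Gv
    simp
    rfl
  rw [h1]
  push_cast
  rw [mul_assoc, mul_div_cancel₀ _ h4]
  conv_rhs => rw [← Complex.re_add_im ((κ *ᵥ cx D v₁ z) j)]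
  ring

theorem cx_Gv_other (D : 𝓞 F) (v₁ : F →+* ℝ) (κ : Matrix (Fin (n + 1)) (Fin (n + 1)) ℂ) (z : cV n F)
    {σ : F →+* ℝ} (h : σ ≠ v₁) : cx D σ (Gv D v₁ κ z) = cx D σ z := by
  funext j
  unfold cx Gv
  simp [h]

theorem Gv_opR (D : 𝓞 F) (hD : ∀ σ : F →+* ℝ, 0 < σ (D : F)) (v₁ : F →+* ℝ)
    (κ : Matrix (Fin (n + 1)) (Fin (n + 1)) ℂ) (o : Option (cocI F)) (z : cV n F) :
    Gv D v₁ κ (opR D o z) = opR D o (Gv D v₁ κ z) := by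
  apply cx_inj D hD
  intro σ
  by_cases h : σ = v₁
  · subst h
    rw [cx_Gv_same D σ (hD σ)]
    cases o with
    | none => rw [cx_opR_none D σ (hD σ).le, cx_opR_none D σ (hD σ).le, mulVec_smul,
        cx_Gv_same D σ (hD σ)]
    | some i => rw [cx_opR_some, cx_opR_some, mulVec_smul, cx_Gv_same D σ (hD σ)]
  · rw [cx_Gv_other D v₁ κ _ h]
    cases o with
    | none => rw [cx_opR_none D σ (hD σ).le, cx_opR_none D σ (hD σ).le, cx_Gv_other D v₁ κ _ h]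
    | some i => rw [cx_opR_some, cx_opR_some, cx_Gv_other D v₁ κ _ h]

theorem br_Gv (D : 𝓞 F) (hD : ∀ σ : F →+* ℝ, 0 < σ (D : F)) (k : Fin (n + 1) → 𝓞 F) (v₁ : F →+* ℝ)
    (κ : Matrix (Fin (n + 1)) (Fin (n + 1)) ℂ)
    (hκ : κᴴ * diagonal (fun j => ((v₁ (k j : F) : ℝ) : ℂ)) * κ =
      diagonal (fun j => ((v₁ (k j : F) : ℝ) : ℂ))) (z z' : cV n F) :
    br D k (Gv D v₁ κ z) (Gv D v₁ κ z') = br D k z z' := by
  funext σ
  rw [br_cx D k _ _ σ (hD σ).le, br_cx D k _ _ σ (hD σ).le]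
  by_cases h : σ = v₁
  · subst h
    rw [cx_Gv_same D σ (hD σ), cx_Gv_same D σ (hD σ), star_mulVec, ← dotProduct_mulVec,
      mulVec_mulVec, mulVec_mulVec, hκ]
  · rw [cx_Gv_other D v₁ κ _ h, cx_Gv_other D v₁ κ _ h]

variable [IsTotallyReal F]

/-- the matrix of `Gv` in the coordinates of `L` -/
noncomputable def gm (D : 𝓞 F) (v₁ : F →+* ℝ) (κ : Matrix (Fin (n + 1)) (Fin (n + 1)) ℂ) :
    Matrix (cT n F) (cT n F) ℝ :=
  LinearMap.toMatrix' (eP.symm.toLinearMap ∘ₗ Gv D v₁ κ ∘ₗ eP.toLinearMap)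

theorem eP_gm (D : 𝓞 F) (v₁ : F →+* ℝ) (κ : Matrix (Fin (n + 1)) (Fin (n + 1)) ℂ) (X : cT n F → ℝ) :
    eP (gm D v₁ κ *ᵥ X) = Gv D v₁ κ (eP X) := by
  unfold gm
  rw [LinearMap.toMatrix'_mulVec]
  change eP (eP.symm (Gv D v₁ κ (eP X))) = _
  rw [eP.apply_symm_apply]

theorem mat_ext_dot {m : Type} [Fintype m] [DecidableEq m] {M M' : Matrix m m ℝ}
    (h : ∀ X Y : m → ℝ, X ⬝ᵥ (M *ᵥ Y) = X ⬝ᵥ (M' *ᵥ Y)) : M = M' := by
  ext i j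
  have h1 := h (Pi.single i 1) (Pi.single j 1)
  simpa using h1

theorem gm_B (D : 𝓞 F) (hD : ∀ σ : F →+* ℝ, 0 < σ (D : F)) (k : Fin (n + 1) → 𝓞 F) (v₁ : F →+* ℝ)
    (κ : Matrix (Fin (n + 1)) (Fin (n + 1)) ℂ)
    (hκ : κᴴ * diagonal (fun j => ((v₁ (k j : F) : ℝ) : ℂ)) * κ =
      diagonal (fun j => ((v₁ (k j : F) : ℝ) : ℂ))) (i : cocI F) :
    (gm D v₁ κ)ᵀ * (cB D k i).map (Int.cast : ℤ → ℝ) * gm D v₁ κ =
      (cB D k i).map (Int.cast : ℤ → ℝ) := by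
  apply mat_ext_dot
  intro X Y
  have h1 : X ⬝ᵥ (((gm D v₁ κ)ᵀ * (cB D k i).map (Int.cast : ℤ → ℝ) * gm D v₁ κ) *ᵥ Y) =
      (gm D v₁ κ *ᵥ X) ⬝ᵥ ((cB D k i).map (Int.cast : ℤ → ℝ) *ᵥ (gm D v₁ κ *ᵥ Y)) := by
    rw [← mulVec_mulVec, ← mulVec_mulVec, dotProduct_mulVec, vecMul_transpose]
  rw [h1, eP_cB, eP_cB, eP_gm, eP_gm, br_Gv D hD k v₁ κ hκ]

theorem gm_M (D : 𝓞 F) (hD : ∀ σ : F →+* ℝ, 0 < σ (D : F)) (v₁ : F →+* ℝ)
    (κ : Matrix (Fin (n + 1)) (Fin (n + 1)) ℂ) (o : Option (cocI F)) :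
    gm D v₁ κ * (cM D o).map (Int.cast : ℤ → ℝ) = (cM D o).map (Int.cast : ℤ → ℝ) * gm D v₁ κ := by
  apply mat_ext_dot
  intro X Y
  congr 1
  apply eP.injective
  rw [← mulVec_mulVec, ← mulVec_mulVec, eP_gm, eP_cM, eP_cM, eP_gm, Gv_opR D hD]

end Pool.Agent.CMN
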