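import Pool.Agent.Lib.CMN.CocDefs

/-!
# TANK CMN, cocompactness, row S1: integral automorphisms come from the unitary group
-/

set_option autoImplicit false

open Matrix NumberField Module

namespace Pool.Agent.CMN

open Pool.Agent.CMH (cocI cocP cocP_apply cocP_int coc_real)

namespace CocS1

variable {n : ℕ} {F : Type} [Field F] [NumberField F]

/-- the vector `e_j` -/
def ev0 (j : Fin (n + 1)) : cL n F := ![Pi.single j 1, 0]

omit [NumberField F] in
theorem mulO_apply (r : 𝓞 F) (z : cL n F) (e : Fin 2) (j : Fin (n + 1)) : mulO r z e j = r * z e j := rfl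

omit [NumberField F] in
theorem mulJ_zero (D : 𝓞 F) (z : cL n F) (j : Fin (n + 1)) : mulJ D z 0 j = -(D * z 1 j) := rfl

omit [NumberField F] in
theorem mulJ_one (D : 𝓞 F) (z : cL n F) (j : Fin (n + 1)) : mulJ D z 1 j = z 0 j := rfl

omit [NumberField F] in
/-- every vector is a combination of the `e_j` and `√-D e_j` -/
theorem decomp (D : 𝓞 F) (z : cL n F) :
    z = ∑ j, mulO (z 0 j) (ev0 j) + mulJ D (∑ j, mulO (z 1 j) (ev0 j)) := by
  funext e i
  fin_cases e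
  · change z 0 i = (∑ j, mulO (z 0 j) (ev0 j) : cL n F) 0 i
      + -(D * (∑ j, mulO (z 1 j) (ev0 j) : cL n F) 1 i)
    rw [Finset.sum_apply, Finset.sum_apply, Finset.sum_apply, Finset.sum_apply]
    have h1 : ∀ c, (mulO (z 1 c) (ev0 c) : cL n F) 1 i = 0 := fun c => by
      rw [mulO_apply]
      exact mul_zero _
    have h2 : ∀ c, (mulO (z 0 c) (ev0 c) : cL n F) 0 i = if i = c then z 0 c else 0 := fun c => by
      rw [mulO_apply]
      change z 0 c * (Pi.single c 1 : Fin (n + 1) → 𝓞 F) i = _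
      rw [Pi.single_apply]
      split_ifs <;> simp
    simp only [h1, h2]
    simp
  · change z 1 i = (∑ j, mulO (z 0 j) (ev0 j) : cL n F) 1 i
      + (∑ j, mulO (z 1 j) (ev0 j) : cL n F) 0 i
    rw [Finset.sum_apply, Finset.sum_apply, Finset.sum_apply, Finset.sum_apply]
    have h1 : ∀ c, (mulO (z 0 c) (ev0 c) : cL n F) 1 i = 0 := fun c => by
      rw [mulO_apply]
      exact mul_zero _
    have h2 : ∀ c, (mulO (z 1 c) (ev0 c) : cL n F) 0 i = if i = c then z 1 c else 0 := fun c => by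
      rw [mulO_apply]
      change z 1 c * (Pi.single c 1 : Fin (n + 1) → 𝓞 F) i = _
      rw [Pi.single_apply]
      split_ifs <;> simp
    simp only [h1, h2]
    simp

/-- the endomorphism of `L` with matrix `δ` -/
noncomputable def fL (δ : Matrix (cT n F) (cT n F) ℤ) : cL n F →ₗ[ℤ] cL n F :=
  eL.symm.toLinearMap ∘ₗ Matrix.toLin' δ ∘ₗ eL.toLinearMap

theorem eL_fL (δ : Matrix (cT n F) (cT n F) ℤ) (z : cL n F) : eL (fL δ z) = δ *ᵥ eL z :=
  eL.apply_symm_apply _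

theorem fL_comm {g : cL n F →ₗ[ℤ] cL n F} {δ : Matrix (cT n F) (cT n F) ℤ}
    (h : δ * LinearMap.toMatrix' (eL.toLinearMap ∘ₗ g ∘ₗ eL.symm.toLinearMap) =
      LinearMap.toMatrix' (eL.toLinearMap ∘ₗ g ∘ₗ eL.symm.toLinearMap) * δ) (z : cL n F) :
    fL δ (g z) = g (fL δ z) := by
  have h1 := congrArg (fun A => A *ᵥ eL z) h
  simp only [← Matrix.mulVec_mulVec, LinearMap.toMatrix'_mulVec, LinearMap.comp_apply,
    LinearEquiv.coe_coe, LinearEquiv.symm_apply_apply] at h1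
  apply eL.injective
  rw [eL_fL, h1]
  rfl

theorem fL_mulO {D : 𝓞 F} {δ : Matrix (cT n F) (cT n F) ℤ} (h : ∀ o, δ * cM D o = cM D o * δ)
    (r : 𝓞 F) (z : cL n F) : fL δ (mulO r z) = mulO r (fL δ z) := by
  have h1 : ∀ i, fL δ (mulO (RingOfIntegers.basis F i) z) =
      mulO (RingOfIntegers.basis F i) (fL δ z) := fun i => fL_comm (h (some i)) z
  have h2 : ∀ (w : cL n F), mulO r w =
      ∑ i, (RingOfIntegers.basis F).repr r i • mulO (RingOfIntegers.basis F i) w := by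
    intro w
    funext e j
    rw [mulO_apply, Finset.sum_apply, Finset.sum_apply]
    conv_lhs => rw [← (RingOfIntegers.basis F).sum_repr r]
    rw [Finset.sum_mul]
    refine Finset.sum_congr rfl fun i _ => ?_
    exact smul_mul_assoc _ _ _
  rw [h2, h2, map_sum]
  refine Finset.sum_congr rfl fun i _ => ?_
  rw [map_smul, h1]

theorem fL_mulJ {D : 𝓞 F} {δ : Matrix (cT n F) (cT n F) ℤ} (h : ∀ o, δ * cM D o = cM D o * δ)
    (z : cL n F) : fL δ (mulJ D z) = mulJ D (fL δ z) := fL_comm (h none) z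

/-- the real part of the matrix -/
noncomputable def Xm (δ : Matrix (cT n F) (cT n F) ℤ) : Matrix (Fin (n + 1)) (Fin (n + 1)) (𝓞 F) :=
  fun i j => fL δ (ev0 j) 0 i

/-- the imaginary part of the matrix -/
noncomputable def Ym (δ : Matrix (cT n F) (cT n F) ℤ) : Matrix (Fin (n + 1)) (Fin (n + 1)) (𝓞 F) :=
  fun i j => fL δ (ev0 j) 1 i

theorem fL_eq {D : 𝓞 F} {δ : Matrix (cT n F) (cT n F) ℤ} (h : ∀ o, δ * cM D o = cM D o * δ)
    (z : cL n F) : fL δ z = actL D (Xm δ) (Ym δ) z := by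
  conv_lhs => rw [decomp D z]
  rw [map_add, fL_mulJ h, map_sum, map_sum]
  simp only [fL_mulO h]
  funext e i
  fin_cases e
  · change (∑ j, mulO (z 0 j) (fL δ (ev0 j)) : cL n F) 0 i
      + -(D * (∑ j, mulO (z 1 j) (fL δ (ev0 j)) : cL n F) 1 i) =
      (Xm δ *ᵥ z 0) i - D * (Ym δ *ᵥ z 1) i
    rw [Finset.sum_apply, Finset.sum_apply, Finset.sum_apply, Finset.sum_apply, sub_eq_add_neg]
    congr 1
    · exact Finset.sum_congr rfl fun j _ => mul_comm _ _
    · congr 2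
      exact Finset.sum_congr rfl fun j _ => mul_comm _ _
  · change (∑ j, mulO (z 0 j) (fL δ (ev0 j)) : cL n F) 1 i
      + (∑ j, mulO (z 1 j) (fL δ (ev0 j)) : cL n F) 0 i =
      (Ym δ *ᵥ z 0) i + (Xm δ *ᵥ z 1) i
    rw [Finset.sum_apply, Finset.sum_apply, Finset.sum_apply, Finset.sum_apply]
    congr 1
    · exact Finset.sum_congr rfl fun j _ => mul_comm _ _
    · exact Finset.sum_congr rfl fun j _ => mul_comm _ _

/-! ### the form -/

/-- the form as a bilinear map -/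
noncomputable def beL (D : 𝓞 F) (k : Fin (n + 1) → 𝓞 F) : cL n F →ₗ[ℤ] cL n F →ₗ[ℤ] 𝓞 F :=
  LinearMap.mk₂ ℤ (be D k)
    (fun z z' w => by
      unfold be
      rw [← Finset.sum_add_distrib]
      refine Finset.sum_congr rfl fun j _ => ?_
      simp only [Pi.add_apply]
      ring)
    (fun c z w => by
      unfold be
      rw [Finset.smul_sum]
      refine Finset.sum_congr rfl fun j _ => ?_
      simp only [Pi.smul_apply, zsmul_eq_mul]
      ring)
    (fun z w w' => by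
      unfold be
      rw [← Finset.sum_add_distrib]
      refine Finset.sum_congr rfl fun j _ => ?_
      simp only [Pi.add_apply]
      ring)
    (fun c z w => by
      unfold be
      rw [Finset.smul_sum]
      refine Finset.sum_congr rfl fun j _ => ?_
      simp only [Pi.smul_apply, zsmul_eq_mul]
      ring)

/-- the coordinate of the form as a bilinear form on the coordinates -/
noncomputable def bc (D : 𝓞 F) (k : Fin (n + 1) → 𝓞 F) (i : cocI F) :
    (cT n F → ℤ) →ₗ[ℤ] (cT n F → ℤ) →ₗ[ℤ] ℤ :=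
  ((beL D k).compl₁₂ eL.symm.toLinearMap eL.symm.toLinearMap).compr₂
    (LinearMap.proj i ∘ₗ (RingOfIntegers.basis F).equivFun.toLinearMap)

theorem bc_apply (D : 𝓞 F) (k : Fin (n + 1) → 𝓞 F) (i : cocI F) (x y : cT n F → ℤ) :
    bc D k i x y = (RingOfIntegers.basis F).equivFun (be D k (eL.symm x) (eL.symm y)) i := rfl

theorem cB_eq (D : 𝓞 F) (k : Fin (n + 1) → 𝓞 F) (i : cocI F) :
    cB D k i = LinearMap.toMatrix₂' ℤ (bc D k i) := by
  ext s t
  rw [LinearMap.toMatrix₂'_apply]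
  rfl

theorem dot_cB (D : 𝓞 F) (k : Fin (n + 1) → 𝓞 F) (i : cocI F) (x y : cT n F → ℤ) :
    x ⬝ᵥ (cB D k i *ᵥ y) = bc D k i x y := by
  rw [cB_eq, ← Matrix.toLinearMap₂'_apply', Matrix.toLinearMap₂'_toMatrix']

theorem be_fL {D : 𝓞 F} {k : Fin (n + 1) → 𝓞 F} {δ : Matrix (cT n F) (cT n F) ℤ}
    (h : ∀ i, δᵀ * cB D k i * δ = cB D k i) (z z' : cL n F) :
    be D k (fL δ z) (fL δ z') = be D k z z' := by
  apply (RingOfIntegers.basis F).equivFun.injective
  funext i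
  have h1 : ∀ w w' : cL n F, (RingOfIntegers.basis F).equivFun (be D k w w') i =
      eL w ⬝ᵥ (cB D k i *ᵥ eL w') := by
    intro w w'
    rw [dot_cB, bc_apply, eL.symm_apply_apply, eL.symm_apply_apply]
  rw [h1, h1, eL_fL, eL_fL]
  conv_rhs => rw [← h i]
  rw [← Matrix.mulVec_mulVec, ← Matrix.mulVec_mulVec, Matrix.dotProduct_mulVec _ δᵀ,
    Matrix.vecMul_transpose]

omit [NumberField F] in
theorem be_ev (D : 𝓞 F) (k : Fin (n + 1) → 𝓞 F) (j l : Fin (n + 1)) :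
    be D k (ev0 j) (ev0 l) = if j = l then k j else 0 := by
  have h1 : ∀ i, k i * ((ev0 j : cL n F) 0 i * (ev0 l : cL n F) 0 i +
      D * ((ev0 j : cL n F) 1 i * (ev0 l : cL n F) 1 i)) = if i = j then (if j = l then k j else 0)
        else 0 := by
    intro i
    change k i * ((Pi.single j 1 : Fin (n + 1) → 𝓞 F) i * (Pi.single l 1 : Fin (n + 1) → 𝓞 F) i
      + D * ((0 : 𝓞 F) * 0)) = _
    rw [Pi.single_apply, Pi.single_apply]
    by_cases h2 : i = j
    · subst h2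
      by_cases h3 : i = l <;> simp [h3]
    · simp [h2]
  unfold be
  rw [Finset.sum_congr rfl fun i _ => h1 i]
  simp

omit [NumberField F] in
theorem be_evJ (D : 𝓞 F) (k : Fin (n + 1) → 𝓞 F) (j l : Fin (n + 1)) :
    be D k (ev0 j) (mulJ D (ev0 l)) = 0 := by
  unfold be
  refine Finset.sum_eq_zero fun i _ => ?_
  rw [mulJ_zero, mulJ_one]
  change k i * ((ev0 j : cL n F) 0 i * -(D * 0) + D * (0 * (ev0 l : cL n F) 0 i)) = 0
  ring

theorem unit1 {D : 𝓞 F} {k : Fin (n + 1) → 𝓞 F} {δ : Matrix (cT n F) (cT n F) ℤ}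
    (h : ∀ i, δᵀ * cB D k i * δ = cB D k i) (j l : Fin (n + 1)) :
    ∑ i, k i * (Xm δ i j * Xm δ i l + D * (Ym δ i j * Ym δ i l)) = if j = l then k j else 0 := by
  rw [← be_ev D k j l, ← be_fL h]
  rfl

theorem unit2 {D : 𝓞 F} (hD : D ≠ 0) {k : Fin (n + 1) → 𝓞 F} {δ : Matrix (cT n F) (cT n F) ℤ}
    (h : ∀ i, δᵀ * cB D k i * δ = cB D k i) (h' : ∀ o, δ * cM D o = cM D o * δ) (j l : Fin (n + 1)) :
    ∑ i, k i * (Xm δ i j * Ym δ i l) = ∑ i, k i * (Ym δ i j * Xm δ i l) := by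
  have h1 := be_evJ D k j l
  rw [← be_fL h, fL_mulJ h'] at h1
  unfold be at h1
  simp only [mulJ_zero, mulJ_one] at h1
  change ∑ i, k i * (Xm δ i j * -(D * Ym δ i l) + D * (Ym δ i j * Xm δ i l)) = 0 at h1
  have h2 : D * (∑ i, k i * (Ym δ i j * Xm δ i l) - ∑ i, k i * (Xm δ i j * Ym δ i l)) = 0 := by
    rw [← h1, ← Finset.sum_sub_distrib, Finset.mul_sum]
    refine Finset.sum_congr rfl fun i _ => ?_
    ring
  rcases mul_eq_zero.1 h2 with h3 | h3
  · exact absurd h3 hD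
  · exact (sub_eq_zero.1 h3).symm

theorem cong {N : ℕ} {δ : Matrix (cT n F) (cT n F) ℤ} (h : ∀ s t, (N : ℤ) ∣ (δ - 1) s t) (z : cL n F) :
    ∃ q : cL n F, ∀ e j, fL δ z e j = z e j + (N : 𝓞 F) * q e j := by
  choose Q hQ using h
  refine ⟨eL.symm ((Matrix.of Q) *ᵥ eL z), fun e j => ?_⟩
  have h1 : δ = 1 + (N : ℤ) • Matrix.of Q := by
    rw [← sub_eq_iff_eq_add']
    ext s t
    exact hQ s t
  have h2 : fL δ z = z + (N : ℤ) • eL.symm ((Matrix.of Q) *ᵥ eL z) := by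
    apply eL.injective
    rw [eL_fL, map_add, map_smul, eL.apply_symm_apply]
    conv_lhs => rw [h1]
    rw [Matrix.add_mulVec, Matrix.one_mulVec, Matrix.smul_mulVec]
  rw [h2]
  change z e j + (N : ℤ) • _ = _
  rw [zsmul_eq_mul, Int.cast_natCast]

/-- the matrices `X`, `Y` define an element of `Γ_N` -/
theorem mem {D : 𝓞 F} (hD : D ≠ 0) {h : Fin (n + 1) → F} {k : Fin (n + 1) → 𝓞 F} {c N : ℕ} (hc : 0 < c)
    (hk : ∀ j, (k j : F) = (c : F) * h j) (hN : 0 < N) {δ : Matrix (cT n F) (cT n F) ℤ}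
    (h1 : ∀ i, δᵀ * cB D k i * δ = cB D k i) (h2 : ∀ o, δ * cM D o = cM D o * δ)
    (h3 : ∀ s t, (N : ℤ) ∣ (δ - 1) s t) :
    toMat (Xm δ) (Ym δ) ∈ Gam (D : F) h N := by
  have hc0 : (c : F) ≠ 0 := Nat.cast_ne_zero.2 hc.ne'
  have hN0 : (N : F) ≠ 0 := Nat.cast_ne_zero.2 hN.ne'
  have hh : ∀ j, h j = (k j : F) / (c : F) := fun j => by
    rw [hk j]
    field_simp
  refine ⟨?_, ?_, ?_, ?_⟩
  · ext j l
    have h4 := congrArg (algebraMap (𝓞 F) F) (unit1 h1 j l)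
    rw [map_sum] at h4
    have h5 : ((toMat (Xm δ) (Ym δ)).1ᵀ * Matrix.diagonal h * (toMat (Xm δ) (Ym δ)).1 +
        (D : F) • ((toMat (Xm δ) (Ym δ)).2ᵀ * Matrix.diagonal h * (toMat (Xm δ) (Ym δ)).2)) j l =
        ∑ i, ((Xm δ i j : F) * h i * (Xm δ i l : F) +
          (D : F) * ((Ym δ i j : F) * h i * (Ym δ i l : F))) := by
      rw [Matrix.add_apply, Matrix.smul_apply, smul_eq_mul, Matrix.mul_apply, Matrix.mul_apply,
        Finset.sum_add_distrib, Finset.mul_sum]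
      simp only [Matrix.mul_diagonal]
      rfl
    rw [h5, Matrix.diagonal_apply]
    have h6 : ∑ i, ((Xm δ i j : F) * h i * (Xm δ i l : F) +
        (D : F) * ((Ym δ i j : F) * h i * (Ym δ i l : F))) =
        (∑ i, algebraMap (𝓞 F) F (k i * (Xm δ i j * Xm δ i l + D * (Ym δ i j * Ym δ i l)))) /
          (c : F) := by
      rw [Finset.sum_div]
      refine Finset.sum_congr rfl fun i _ => ?_
      rw [hh i]
      simp only [map_mul, map_add]
      ring
    rw [h6, h4]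
    split_ifs with h7
    · rw [hh j]
    · rw [map_zero, zero_div]
  · ext j l
    have h4 := congrArg (algebraMap (𝓞 F) F) (unit2 hD h1 h2 j l)
    rw [map_sum, map_sum] at h4
    have h5 : ∀ A B : Matrix (Fin (n + 1)) (Fin (n + 1)) (𝓞 F),
        ((A.map (algebraMap (𝓞 F) F))ᵀ * Matrix.diagonal h * B.map (algebraMap (𝓞 F) F)) j l =
        (∑ i, algebraMap (𝓞 F) F (k i * (A i j * B i l))) / (c : F) := by
      intro A B
      rw [Matrix.mul_apply, Finset.sum_div]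
      simp only [Matrix.mul_diagonal]
      refine Finset.sum_congr rfl fun i _ => ?_
      rw [hh i, Matrix.transpose_apply, Matrix.map_apply, Matrix.map_apply]
      simp only [map_mul]
      ring
    change ((((Xm δ).map (algebraMap (𝓞 F) F))ᵀ * Matrix.diagonal h *
      (Ym δ).map (algebraMap (𝓞 F) F)) j l) = (((Ym δ).map (algebraMap (𝓞 F) F))ᵀ *
      Matrix.diagonal h * (Xm δ).map (algebraMap (𝓞 F) F)) j l
    rw [h5, h5, h4]
  · intro i j
    obtain ⟨q, hq⟩ := cong h3 (ev0 j)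
    have h4 : ((toMat (Xm δ) (Ym δ)).1 i j - (1 : Matrix (Fin (n + 1)) (Fin (n + 1)) F) i j) / (N : F) =
        (q 0 i : F) := by
      have h5 : (toMat (Xm δ) (Ym δ)).1 i j = algebraMap (𝓞 F) F (fL δ (ev0 j) 0 i) := rfl
      rw [h5, hq]
      have h6 : algebraMap (𝓞 F) F ((ev0 j : cL n F) 0 i) = (1 : Matrix (Fin (n + 1)) (Fin (n + 1)) F) i j := by
        change algebraMap (𝓞 F) F ((Pi.single j 1 : Fin (n + 1) → 𝓞 F) i) = _
        rw [Pi.single_apply, Matrix.one_apply]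
        split_ifs <;> simp
      rw [map_add, map_mul, map_natCast, h6, add_sub_cancel_left, mul_div_cancel_left₀ _ hN0]
    rw [h4]
    exact (q 0 i).isIntegral_coe
  · intro i j
    obtain ⟨q, hq⟩ := cong h3 (ev0 j)
    have h4 : (toMat (Xm δ) (Ym δ)).2 i j / (N : F) = (q 1 i : F) := by
      have h5 : (toMat (Xm δ) (Ym δ)).2 i j = algebraMap (𝓞 F) F (fL δ (ev0 j) 1 i) := rfl
      rw [h5, hq]
      have h6 : algebraMap (𝓞 F) F ((ev0 j : cL n F) 1 i) = 0 := map_zero _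
      rw [map_add, map_mul, map_natCast, h6, zero_add, mul_div_cancel_left₀ _ hN0]
    rw [h4]
    exact (q 1 i).isIntegral_coe

end CocS1

open CocS1

/-- ROW S1 -/
theorem rowS1 {n : ℕ} {F : Type} [Field F] [NumberField F] (D : 𝓞 F) (hD : D ≠ 0)
    (h : Fin (n + 1) → F) (k : Fin (n + 1) → 𝓞 F) (c N : ℕ) (hc : 0 < c) (hk : ∀ j, (k j : F) = (c : F) * h j)
    (hN : 0 < N) (δ : Matrix (cT n F) (cT n F) ℤ)
    (h1 : ∀ i, δᵀ * cB D k i * δ = cB D k i) (h2 : ∀ o, δ * cM D o = cM D o * δ)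
    (h3 : ∀ s t, (N : ℤ) ∣ (δ - 1) s t) (h4 : IsUnit δ.det) :
    ∃ X Y X' Y' : Matrix (Fin (n + 1)) (Fin (n + 1)) (𝓞 F),
      toMat X Y ∈ Gam (D : F) h N ∧ (∀ z, δ *ᵥ eL z = eL (actL D X Y z)) ∧
      toMat X' Y' ∈ Gam (D : F) h N ∧ (∀ z, actL D X' Y' (actL D X Y z) = z) ∧
      (∀ z, actL D X Y (actL D X' Y' z) = z) := by
  have e1 : δ * δ⁻¹ = 1 := Matrix.mul_nonsing_inv _ h4
  have e2 : δ⁻¹ * δ = 1 := Matrix.nonsing_inv_mul _ h4
  have g1 : ∀ i, δ⁻¹ᵀ * cB D k i * δ⁻¹ = cB D k i := by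
    intro i
    have e3 : δ⁻¹ᵀ * δᵀ = 1 := by rw [← Matrix.transpose_mul, e1, Matrix.transpose_one]
    conv_lhs => rw [← h1 i]
    rw [Matrix.mul_assoc, Matrix.mul_assoc, e1, Matrix.mul_one, ← Matrix.mul_assoc, e3,
      Matrix.one_mul]
  have g2 : ∀ o, δ⁻¹ * cM D o = cM D o * δ⁻¹ := by
    intro o
    calc δ⁻¹ * cM D o = δ⁻¹ * cM D o * (δ * δ⁻¹) := by rw [e1, Matrix.mul_one]
      _ = δ⁻¹ * (cM D o * δ) * δ⁻¹ := by simp only [Matrix.mul_assoc]
      _ = δ⁻¹ * (δ * cM D o) * δ⁻¹ := by rw [h2]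
      _ = (δ⁻¹ * δ) * cM D o * δ⁻¹ := by simp only [Matrix.mul_assoc]
      _ = cM D o * δ⁻¹ := by rw [e2, Matrix.one_mul]
  have g3 : ∀ s t, (N : ℤ) ∣ (δ⁻¹ - 1) s t := by
    intro s t
    have e3 : δ⁻¹ - 1 = -(δ⁻¹ * (δ - 1)) := by
      rw [Matrix.mul_sub, e2, Matrix.mul_one, neg_sub]
    rw [e3, Matrix.neg_apply, dvd_neg, Matrix.mul_apply]
    exact Finset.dvd_sum fun x _ => dvd_mul_of_dvd_right (h3 x t) _
  have k1 : ∀ z, eL (actL D (Xm δ) (Ym δ) z) = δ *ᵥ eL z := fun z => by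
    rw [← fL_eq h2, eL_fL]
  have k2 : ∀ z, eL (actL D (Xm δ⁻¹) (Ym δ⁻¹) z) = δ⁻¹ *ᵥ eL z := fun z => by
    rw [← fL_eq g2, eL_fL]
  refine ⟨Xm δ, Ym δ, Xm δ⁻¹, Ym δ⁻¹, mem hD hc hk hN h1 h2 h3, fun z => (k1 z).symm,
    mem hD hc hk hN g1 g2 g3, fun z => ?_, fun z => ?_⟩
  · apply eL.injective
    rw [k2, k1, Matrix.mulVec_mulVec, e2, Matrix.one_mulVec]
  · apply eL.injective
    rw [k1, k2, Matrix.mulVec_mulVec, e1, Matrix.one_mulVec]

end Pool.Agent.CMN
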