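import Mathlib
import Pool.Agent.Lib.CMN.Rows

/-!
# CMN, row DET: the determinant of a pair, and elements of level `N ≥ 3` (helper65)
-/

set_option autoImplicit false

open scoped ComplexConjugate Matrix
open Complex NumberField

namespace Pool.Agent.CMN

/-! ### small algebraic integers -/

theorem int_zero {F : Type} [Field F] [NumberField F] [IsTotallyReal F] {z : F}
    (hz : IsIntegral ℤ z) (h : ∀ v : F →+* ℝ, |v z| < 1) : z = 0 := by
  by_contra hne
  let a : 𝓞 F := ⟨z, hz⟩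
  have ha : a ≠ 0 := by
    intro h0
    exact hne (congrArg (fun t : 𝓞 F => (t : F)) h0)
  have hw : ∀ u : InfinitePlace F, u (a : F) < 1 := by
    intro u
    have hreal : InfinitePlace.IsReal u := IsTotallyReal.isReal u
    obtain ⟨φ, hφ⟩ : ∃ φ : F →+* ℝ, ∀ x, u x = |φ x| := by
      refine ⟨InfinitePlace.embedding_of_isReal hreal, fun x => ?_⟩
      rw [← Real.norm_eq_abs, InfinitePlace.norm_embedding_of_isReal hreal]
    rw [hφ]
    exact h φ
  obtain ⟨u⟩ : Nonempty (InfinitePlace F) := inferInstance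
  exact absurd (InfinitePlace.one_le_of_lt_one (w := u) ha (fun z _ => hw z)) (not_le.2 (hw u))

/-! ### the ring `R[√-D]` and the determinant of a pair -/

section pair

variable {R S : Type*} [CommRing R] [CommRing S] {n : ℕ}

/-- `R[√-D]` -/
abbrev QE (R : Type*) [CommRing R] (D : R) : Type _ := QuadraticAlgebra R (-D) 0

/-- `X + √(-D) Y` as a matrix over `R[√-D]` -/
def mq (D : R) (X Y : Matrix (Fin (n + 1)) (Fin (n + 1)) R) :
    Matrix (Fin (n + 1)) (Fin (n + 1)) (QE R D) := fun i j => ⟨X i j, Y i j⟩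

/-- the determinant of `X + √(-D) Y` -/
def pdet (D : R) (X Y : Matrix (Fin (n + 1)) (Fin (n + 1)) R) : R × R :=
  ((mq D X Y).det.re, (mq D X Y).det.im)

/-- functoriality of `R[√-D]` -/
def qmap (f : R →+* S) (D : R) : QE R D →+* QE S (f D) where
  toFun z := ⟨f z.re, f z.im⟩
  map_one' := by ext <;> simp [QuadraticAlgebra.re_one, QuadraticAlgebra.im_one]
  map_zero' := by ext <;> simp
  map_add' x y := by ext <;> simp
  map_mul' x y := by ext <;> simp

theorem pdet_map (f : R →+* S) (D : R) (X Y : Matrix (Fin (n + 1)) (Fin (n + 1)) R) :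
    pdet (f D) (X.map f) (Y.map f) = (f (pdet D X Y).1, f (pdet D X Y).2) := by
  have h1 : mq (f D) (X.map f) (Y.map f) = (qmap f D).mapMatrix (mq D X Y) := by
    ext i j <;> rfl
  unfold pdet
  rw [h1, ← RingHom.map_det]
  rfl

theorem mq_one (D : R) : mq D (1 : Matrix (Fin (n + 1)) (Fin (n + 1)) R) 0 = 1 := by
  ext i j
  · by_cases hij : i = j
    · subst hij; simp [mq, QuadraticAlgebra.re_one]
    · simp [mq, Matrix.one_apply_ne hij]
  · by_cases hij : i = j
    · subst hij; simp [mq, QuadraticAlgebra.im_one]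
    · simp [mq, Matrix.one_apply_ne hij]

theorem pdet_one (D : R) : pdet D (1 : Matrix (Fin (n + 1)) (Fin (n + 1)) R) 0 = (1, 0) := by
  unfold pdet
  rw [mq_one, Matrix.det_one, QuadraticAlgebra.re_one, QuadraticAlgebra.im_one]

theorem mq_mul (D : R) (X Y X' Y' : Matrix (Fin (n + 1)) (Fin (n + 1)) R) :
    mq D X Y * mq D X' Y' = mq D (X * X' - D • (Y * Y')) (X * Y' + Y * X') := by
  have hre : ∀ (s : Finset (Fin (n + 1))) (f : Fin (n + 1) → QE R D),
      (∑ k ∈ s, f k).re = ∑ k ∈ s, (f k).re := fun s f =>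
    map_sum (QuadraticAlgebra.reₗ (R := R) (-D) 0) f s
  have him : ∀ (s : Finset (Fin (n + 1))) (f : Fin (n + 1) → QE R D),
      (∑ k ∈ s, f k).im = ∑ k ∈ s, (f k).im := fun s f =>
    map_sum (QuadraticAlgebra.imₗ (R := R) (-D) 0) f s
  ext i j
  · rw [Matrix.mul_apply, hre]
    simp only [mq, QuadraticAlgebra.re_mul, Matrix.sub_apply, Matrix.smul_apply, Matrix.mul_apply,
      smul_eq_mul, Finset.mul_sum, ← Finset.sum_sub_distrib]
    refine Finset.sum_congr rfl fun k _ => ?_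
    ring
  · rw [Matrix.mul_apply, him]
    simp only [mq, QuadraticAlgebra.im_mul, Matrix.add_apply, Matrix.mul_apply,
      ← Finset.sum_add_distrib]
    refine Finset.sum_congr rfl fun k _ => ?_
    ring

end pair

section field

variable {n : ℕ} {F : Type} [Field F]

/-- the embedding `√-D ↦ i √(v D)` -/
noncomputable def qc (v : F →+* ℝ) (D : F) (hD : 0 < v D) : QE F D →+* ℂ where
  toFun z := (v z.re : ℂ) + I * (√(v D) : ℂ) * (v z.im : ℂ)
  map_one' := by simp [QuadraticAlgebra.re_one, QuadraticAlgebra.im_one]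
  map_zero' := by simp
  map_add' x y := by
    simp only [QuadraticAlgebra.re_add, QuadraticAlgebra.im_add, map_add, ofReal_add]
    ring
  map_mul' x y := by
    have h1 : ((√(v D) : ℝ) : ℂ) ^ 2 = (v D : ℂ) := by
      rw [← Complex.ofReal_pow, Real.sq_sqrt hD.le]
    have h2 : (I : ℂ) ^ 2 = -1 := I_sq
    simp only [QuadraticAlgebra.re_mul, QuadraticAlgebra.im_mul, map_add, map_mul, map_neg,
      map_zero, ofReal_add, ofReal_mul, ofReal_neg, ofReal_zero]
    linear_combination (-((v x.im : ℝ) : ℂ) * ((v y.im : ℝ) : ℂ)) *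
      (((√(v D) : ℝ) : ℂ) ^ 2 * h2 - h1)

theorem cmat_eqD (v : F →+* ℝ) (D : F) (hD : 0 < v D) (g : Mat n F) :
    cmat v D g = (qc v D hD).mapMatrix (mq D g.1 g.2) := by
  ext i j
  rfl

theorem det_cmat (v : F →+* ℝ) (D : F) (hD : 0 < v D) (g : Mat n F) :
    (cmat v D g).det =
      (v (pdet D g.1 g.2).1 : ℂ) + I * (√(v D) : ℂ) * (v (pdet D g.1 g.2).2 : ℂ) := by
  rw [cmat_eqD v D hD, ← RingHom.map_det]
  rfl

/-- elements of `Γ_N` have norm one determinant -/
theorem pdet_norm {D : F} {h : Fin (n + 1) → F} (hh : ∀ k, h k ≠ 0)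
    {g : Mat n F}
    (h1 : g.1ᵀ * Matrix.diagonal h * g.1 + D • (g.2ᵀ * Matrix.diagonal h * g.2) =
      Matrix.diagonal h)
    (h2 : g.1ᵀ * Matrix.diagonal h * g.2 = g.2ᵀ * Matrix.diagonal h * g.1) :
    (pdet D g.1 g.2).1 ^ 2 + D * (pdet D g.1 g.2).2 ^ 2 = 1 := by
  have e1 : (mq D g.1 g.2)ᴴ = mq D g.1ᵀ (-g.2ᵀ) := by
    ext i j
    · simp [mq, Matrix.conjTranspose_apply]
    · simp [mq, Matrix.conjTranspose_apply]
  have e2 : (mq D g.1 g.2)ᴴ * mq D (Matrix.diagonal h) 0 * mq D g.1 g.2 =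
      mq D (Matrix.diagonal h) 0 := by
    rw [e1, mq_mul, mq_mul]
    congr 1
    · refine Eq.trans ?_ h1
      simp only [mul_zero, smul_zero, sub_zero, zero_add, Matrix.neg_mul, smul_neg, sub_neg_eq_add]
    · simp only [mul_zero, smul_zero, sub_zero, zero_add, Matrix.neg_mul, h2, add_neg_cancel]
  have e3 := congrArg Matrix.det e2
  rw [Matrix.det_mul, Matrix.det_mul, Matrix.det_conjTranspose] at e3
  have e4 : (mq D (Matrix.diagonal h) 0) = Matrix.diagonal (fun i => algebraMap F (QE F D) (h i)) := by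
    ext i j
    · by_cases hij : i = j
      · subst hij; simp [mq]
      · simp [mq, Matrix.diagonal_apply_ne _ hij]
    · by_cases hij : i = j
      · subst hij; simp [mq]
      · simp [mq, Matrix.diagonal_apply_ne _ hij]
  rw [e4, Matrix.det_diagonal, ← map_prod] at e3
  set d := (mq D g.1 g.2).det with hd
  have hp : ∏ i, h i ≠ 0 := Finset.prod_ne_zero_iff.2 fun i _ => hh i
  have e5 : algebraMap F (QE F D) ((∏ i, h i) * QuadraticAlgebra.norm d) =
      algebraMap F (QE F D) (∏ i, h i) := by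
    rw [map_mul, QuadraticAlgebra.algebraMap_norm_eq_mul_star]
    refine Eq.trans ?_ e3
    ring
  have e6 : (∏ i, h i) * QuadraticAlgebra.norm d = ∏ i, h i :=
    (algebraMap F (QE F D)).injective e5
  have e7 : QuadraticAlgebra.norm d = 1 := by
    have : (∏ i, h i) * QuadraticAlgebra.norm d = (∏ i, h i) * 1 := by rw [e6, mul_one]
    exact mul_left_cancel₀ hp this
  rw [QuadraticAlgebra.norm_def] at e7
  change d.re ^ 2 + D * d.im ^ 2 = 1
  rw [← e7]
  ring

end field

/-- elements congruent to `1` modulo `N ≥ 3` have determinant `1` (no signature hypothesis) -/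
theorem pdet_eq_one {n : ℕ} {F : Type} [Field F] [NumberField F] [IsTotallyReal F] {D : F}
    (hDi : IsIntegral ℤ D) (hD : ∀ v : F →+* ℝ, 0 < v D) {h : Fin (n + 1) → F}
    (hh : ∀ k, h k ≠ 0) {N : ℕ} (hN : 3 ≤ N) {g : Mat n F} (hg : g ∈ Gam D h N)
    (v₁ : F →+* ℝ) : pdet D g.1 g.2 = (1, 0) := by
  have hN0 : (N : F) ≠ 0 := by
    have : (0 : ℕ) < N := by omega
    exact_mod_cast this.ne'
  have key0 := pdet_norm hh hg.1 hg.2.1
  -- norm one at all places
  have key : ∀ v : F →+* ℝ, (v (pdet D g.1 g.2).1) ^ 2 + v D * (v (pdet D g.1 g.2).2) ^ 2 = 1 := by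
    intro v
    have := congrArg v key0
    simpa using this
  -- the congruences
  obtain ⟨-, -, e3, e4⟩ := hg
  let D' : 𝓞 F := ⟨D, hDi⟩
  let X' : Matrix (Fin (n + 1)) (Fin (n + 1)) (𝓞 F) := fun i j => ⟨_, e3 i j⟩
  let Y' : Matrix (Fin (n + 1)) (Fin (n + 1)) (𝓞 F) := fun i j => ⟨_, e4 i j⟩
  let X : Matrix (Fin (n + 1)) (Fin (n + 1)) (𝓞 F) := 1 + (N : 𝓞 F) • X'
  let Y : Matrix (Fin (n + 1)) (Fin (n + 1)) (𝓞 F) := (N : 𝓞 F) • Y'
  have hX : X.map (algebraMap (𝓞 F) F) = g.1 := by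
    ext i j
    have h1 : algebraMap (𝓞 F) F (X' i j) =
        (g.1 i j - (1 : Matrix (Fin (n + 1)) (Fin (n + 1)) F) i j) / (N : F) := rfl
    have h2 : algebraMap (𝓞 F) F ((1 : Matrix (Fin (n + 1)) (Fin (n + 1)) (𝓞 F)) i j) =
        (1 : Matrix (Fin (n + 1)) (Fin (n + 1)) F) i j := by
      by_cases hij : i = j
      · subst hij; simp
      · simp [Matrix.one_apply_ne hij]
    rw [Matrix.map_apply]
    change algebraMap (𝓞 F) F
      ((1 : Matrix (Fin (n + 1)) (Fin (n + 1)) (𝓞 F)) i j + (N : 𝓞 F) * X' i j) = _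
    rw [map_add, map_mul, h1, h2, map_natCast]
    field_simp
    ring
  have hY : Y.map (algebraMap (𝓞 F) F) = g.2 := by
    ext i j
    have h1 : algebraMap (𝓞 F) F (Y' i j) = g.2 i j / (N : F) := rfl
    rw [Matrix.map_apply]
    change algebraMap (𝓞 F) F ((N : 𝓞 F) * Y' i j) = _
    rw [map_mul, h1, map_natCast]
    field_simp
  have hpd := pdet_map (algebraMap (𝓞 F) F) D' X Y
  rw [hX, hY, show algebraMap (𝓞 F) F D' = D from rfl] at hpd
  let Q := 𝓞 F ⧸ Ideal.span {(N : 𝓞 F)}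
  have hNQ : (Ideal.Quotient.mk (Ideal.span {(N : 𝓞 F)})) (N : 𝓞 F) = 0 :=
    Ideal.Quotient.eq_zero_iff_mem.2 (Ideal.mem_span_singleton_self _)
  have hq := pdet_map (Ideal.Quotient.mk (Ideal.span {(N : 𝓞 F)})) D' X Y
  have hXq : X.map (Ideal.Quotient.mk (Ideal.span {(N : 𝓞 F)})) = 1 := by
    ext i j
    rw [Matrix.map_apply]
    change Ideal.Quotient.mk _
      ((1 : Matrix (Fin (n + 1)) (Fin (n + 1)) (𝓞 F)) i j + (N : 𝓞 F) * X' i j) = _
    rw [map_add, map_mul, hNQ, zero_mul, add_zero]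
    by_cases hij : i = j
    · subst hij; simp
    · simp [Matrix.one_apply_ne hij]
  have hYq : Y.map (Ideal.Quotient.mk (Ideal.span {(N : 𝓞 F)})) = 0 := by
    ext i j
    rw [Matrix.map_apply]
    change Ideal.Quotient.mk _ ((N : 𝓞 F) * Y' i j) = _
    rw [map_mul, hNQ, zero_mul]
    rfl
  rw [hXq, hYq, pdet_one] at hq
  have hx := congrArg Prod.fst hq
  simp only at hx
  have hx' : (N : 𝓞 F) ∣ (pdet D' X Y).1 - 1 := by
    rw [← Ideal.mem_span_singleton, ← Ideal.Quotient.eq_zero_iff_mem, map_sub, ← hx, map_one,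
      sub_self]
  obtain ⟨z, hz⟩ := hx'
  -- the first component is `1`
  have hz0 : (z : F) = 0 := by
    refine int_zero z.2 fun v => ?_
    have h1 := key v
    have h2 : v (pdet D g.1 g.2).1 = 1 + N * v (z : F) := by
      rw [hpd]
      have : (pdet D' X Y).1 = 1 + (N : 𝓞 F) * z := by rw [← hz]; ring
      simp only [this, map_add, map_one, map_mul, map_natCast]
    have h3 : 0 ≤ v D * (v (pdet D g.1 g.2).2) ^ 2 :=
      mul_nonneg (hD v).le (sq_nonneg _)
    have h4 : (v (pdet D g.1 g.2).1) ^ 2 ≤ 1 := by linarith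
    rw [h2] at h4
    have hN' : (3 : ℝ) ≤ N := by exact_mod_cast hN
    have h5 := abs_le.1 ((sq_le_one_iff_abs_le_one _).1 h4)
    rw [abs_lt]
    constructor
    · nlinarith [h5.1]
    · nlinarith [h5.2]
  have hx1 : (pdet D g.1 g.2).1 = 1 := by
    rw [hpd]
    have : (pdet D' X Y).1 = 1 + (N : 𝓞 F) * z := by rw [← hz]; ring
    have hz1 : z = 0 := by
      apply NumberField.RingOfIntegers.ext
      rw [hz0]
      rfl
    simp [this, hz1]
  have hy1 : (pdet D g.1 g.2).2 = 0 := by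
    have h1 := key v₁
    rw [hx1, map_one] at h1
    have h2 : v₁ D * (v₁ (pdet D g.1 g.2).2) ^ 2 = 0 := by linarith
    rcases mul_eq_zero.1 h2 with h3 | h3
    · exact absurd h3 (hD v₁).ne'
    · have h4 : v₁ (pdet D g.1 g.2).2 = 0 := by simpa using h3
      exact (map_eq_zero v₁).1 h4
  exact Prod.ext hx1 hy1

/-- `det = 1` for level `≥ 3`, for every nondegenerate `h` -/
theorem det_eq_one {n : ℕ} {F : Type} [Field F] [NumberField F] [IsTotallyReal F] {D : F}
    (hDi : IsIntegral ℤ D) (hD : ∀ v : F →+* ℝ, 0 < v D) {h : Fin (n + 1) → F}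
    (hh : ∀ k, h k ≠ 0) {N : ℕ} (hN : 3 ≤ N) {g : Mat n F} (hg : g ∈ Gam D h N)
    (v : F →+* ℝ) : (cmat v D g).det = 1 := by
  rw [det_cmat v D (hD v), pdet_eq_one hDi hD hh hN hg v]
  simp

theorem Good.h_ne {n : ℕ} {F : Type} [Field F] {v₁ : F →+* ℝ} {D : F} {h : Fin (n + 1) → F}
    (hG : Good v₁ D h) (k : Fin (n + 1)) : h k ≠ 0 := by
  intro h0
  refine Fin.lastCases (motive := fun k => h k = 0 → False) ?_ ?_ k h0
  · intro h1
    have := hG.hn
    rw [h1, map_zero] at this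
    exact lt_irrefl _ this
  · intro j h1
    have := hG.hp v₁ j
    rw [h1, map_zero] at this
    exact lt_irrefl _ this

/-- row DET -/
theorem det : DET := by
  intro F _ _ _ n v₁ D h N hG hN g hg v
  exact det_eq_one hG.Di hG.D0 hG.h_ne hN hg v

end Pool.Agent.CMN
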