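import Pool.Agent.Lib.CMN.Jac
import Pool.Agent.Lib.CMN.Api

/-!
# CMN: bridges from `Pool.CMN.Jac` to the definitions of `Rows` (helper37)
-/

set_option autoImplicit false

namespace Pool.Agent.CMN.JB

open MeasureTheory Matrix ComplexConjugate Pool.CMN

noncomputable section

variable {n : ℕ}

theorem hat_eq (y : Fin n → ℂ) : hat y = Jac.Yv y := rfl

theorem ball_eq (k : Fin (n + 1) → ℝ) : ball k = Jac.Bl k := rfl

theorem actC_eq_act (g : SLn n) : actC g = Jac.act g.1 := rfl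

/-- the signature -/
theorem sg {k : Fin (n + 1) → ℝ} (hk : Sg k) : Jac.Sg k := ⟨hk.pos, hk.neg⟩

theorem sg_of {F : Type} [Field F] {v₁ : F →+* ℝ} {D : F} {h : Fin (n + 1) → F}
    (hG : Good v₁ D h) : Jac.Sg (ev v₁ h) := ⟨fun j => hG.hp v₁ j, hG.hn⟩

section unitary

variable {F : Type} [Field F]

theorem isU_of_inSU {v : F →+* ℝ} {D : F} {h : Fin (n + 1) → F} {g : SLn n}
    (hg : InSU v D h g) : Jac.IsU (ev v h) g.1 := hg.2

theorem isU_of_mem {v : F →+* ℝ} {D : F} {h : Fin (n + 1) → F} {Γ : Subgroup (SLn n)}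
    (hΓ : IsArith v D h Γ) {g : SLn n} (hg : g ∈ Γ) : Jac.IsU (ev v h) g.1 :=
  isU_of_inSU (hΓ.le g hg)

theorem le_SUh {v : F →+* ℝ} {D : F} {h : Fin (n + 1) → F} {Γ : Subgroup (SLn n)}
    (hΓ : IsArith v D h Γ) (hs : Jac.Sg (ev v h)) : Γ ≤ Jac.SUh (ev v h) hs.ne := fun _ hg =>
  isU_of_mem hΓ hg

end unitary

variable {k : Fin (n + 1) → ℝ} (hs : Jac.Sg k)

include hs

theorem jf_ne' {g : SLn n} (hg : Jac.IsU k g.1) {y : Fin n → ℂ} (hy : y ∈ ball k) :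
    (g.1 *ᵥ hat y) (Fin.last n) ≠ 0 := Jac.jf_ne hs hg hy

theorem actC_mem {g : SLn n} (hg : Jac.IsU k g.1) {y : Fin n → ℂ} (hy : y ∈ ball k) :
    actC g y ∈ ball k := Jac.act_mem_Bl hs hg hy

theorem actC_mul {g g' : SLn n} (hg' : Jac.IsU k g'.1) {y : Fin n → ℂ} (hy : y ∈ ball k) :
    actC (g * g') y = actC g (actC g' y) := by
  change Jac.act (g * g').1 y = Jac.act g.1 (Jac.act g'.1 y)
  rw [Matrix.SpecialLinearGroup.coe_mul]
  exact Jac.act_mul_Bl hs hg' hy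

omit hs in
theorem actC_one (y : Fin n → ℂ) : actC 1 y = y := by
  change Jac.act (1 : SLn n).1 y = y
  rw [Matrix.SpecialLinearGroup.coe_one, Jac.act_one]

/-- the entries of the derivative of `actC g` at `y`. -/
theorem fderiv_actC {g : SLn n} (hg : Jac.IsU k g.1) {y : Fin n → ℂ} (hy : y ∈ ball k)
    (i j : Fin n) :
    fderiv ℂ (fun z => actC g z i) y (Pi.single j 1) = Jac.dmat g.1 y i j := by
  have h1 := Jac.hasFDerivAt_act g.1 (Jac.jf_ne hs hg hy)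
  rw [hasFDerivAt_pi'] at h1
  have h2 := (h1 i).fderiv
  have h3 : fderiv ℂ (fun z => actC g z i) y = ContinuousLinearMap.proj i ∘L Jac.dact g.1 y := h2
  rw [h3]
  simp [Jac.dact, Matrix.col_apply]

/-- `fderiv` of `actC g` entries, explicit. -/
theorem fderiv_actC' {g : SLn n} (hg : Jac.IsU k g.1) {y : Fin n → ℂ} (hy : y ∈ ball k)
    (i j : Fin n) :
    fderiv ℂ (fun z => actC g z i) y (Pi.single j 1) =
      (g.1 i.castSucc j.castSucc * (g.1 *ᵥ hat y) (Fin.last n) -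
        (g.1 *ᵥ hat y) i.castSucc * g.1 (Fin.last n) j.castSucc) /
          (g.1 *ᵥ hat y) (Fin.last n) ^ 2 :=
  fderiv_actC hs hg hy i j

/-- The wedge product of `n` invariant one-forms transforms with the factor `j^(n+1)`. -/
theorem wedge_actC {Γ : Subgroup (SLn n)} {ω : Fin n → Fin n → (Fin n → ℂ) → ℂ}
    (hω : ∀ i, InvOne k Γ (ω i)) {g : SLn n} (hΓ : g ∈ Γ) (hg : Jac.IsU k g.1)
    {y : Fin n → ℂ} (hy : y ∈ ball k) :
    wedge ω (actC g y) = (g.1 *ᵥ hat y) (Fin.last n) ^ (n + 1) * wedge ω y := by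
  have hj : Jac.jf g.1 y ≠ 0 := Jac.jf_ne hs hg hy
  have hd := Jac.det_dmat g.1 hj
  rw [g.2] at hd
  have h1 : (Matrix.of fun i j => ω i j (actC g y)) * Jac.dmat g.1 y =
      Matrix.of fun i j => ω i j y := by
    ext i j
    rw [Matrix.mul_apply, Matrix.of_apply, ← hω i g hΓ y hy j]
    exact Finset.sum_congr rfl fun l _ => by rw [fderiv_actC hs hg hy, Matrix.of_apply]
  have h2 := congrArg Matrix.det h1
  rw [Matrix.det_mul, hd] at h2
  change _ = Jac.jf g.1 y ^ (n + 1) * _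
  unfold wedge
  rw [← h2]
  field_simp

/-- The invariant `(n,n)`-form: `A conj B` times `H^(n+1)` is invariant. -/
theorem wedge2_inv {A B : (Fin n → ℂ) → ℂ} {g : SLn n} (hg : Jac.IsU k g.1)
    {y : Fin n → ℂ} (hy : y ∈ ball k)
    (hA : A (actC g y) = (g.1 *ᵥ hat y) (Fin.last n) ^ (n + 1) * A y)
    (hB : B (actC g y) = (g.1 *ᵥ hat y) (Fin.last n) ^ (n + 1) * B y) :
    A (actC g y) * conj (B (actC g y)) * ((Jac.Hf k (actC g y) ^ (n + 1) : ℝ) : ℂ) =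
      A y * conj (B y) * ((Jac.Hf k y ^ (n + 1) : ℝ) : ℂ) := by
  have hj : Jac.jf g.1 y ≠ 0 := Jac.jf_ne hs hg hy
  have hH : Jac.Hf k (actC g y) = Jac.Hf k y / ‖(g.1 *ᵥ hat y) (Fin.last n)‖ ^ 2 :=
    Jac.Hf_act hg hj
  rw [hA, hB, hH]
  have hj' : (g.1 *ᵥ hat y) (Fin.last n) ≠ 0 := hj
  have hn : ((‖(g.1 *ᵥ hat y) (Fin.last n)‖ : ℝ) : ℂ) ≠ 0 := by
    simpa using hj'
  have h1 : (g.1 *ᵥ hat y) (Fin.last n) * conj ((g.1 *ᵥ hat y) (Fin.last n)) =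
      ((‖(g.1 *ᵥ hat y) (Fin.last n)‖ : ℝ) : ℂ) ^ 2 := by
    rw [Complex.mul_conj, Complex.normSq_eq_norm_sq]
    push_cast
    rfl
  rw [map_mul, map_pow]
  push_cast
  generalize (g.1 *ᵥ hat y) (Fin.last n) = J at h1 hn ⊢
  generalize conj J = J' at h1 ⊢
  generalize ((‖J‖ : ℝ) : ℂ) = m at h1 hn ⊢
  calc J ^ (n + 1) * A y * (J' ^ (n + 1) * conj (B y)) * ((Jac.Hf k y : ℂ) / m ^ 2) ^ (n + 1)
      = A y * conj (B y) * ((J * J') * ((Jac.Hf k y : ℂ) / m ^ 2)) ^ (n + 1) := by ring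
    _ = A y * conj (B y) * (Jac.Hf k y : ℂ) ^ (n + 1) := by
        rw [h1, mul_div_cancel₀ _ (pow_ne_zero 2 hn)]

/-- A subgroup of `U(h)` acts on the ball. -/
@[reducible] def mulActionBall (Γ : Subgroup (SLn n)) (hΓ : ∀ g ∈ Γ, Jac.IsU k g.1) :
    MulAction Γ (ball k) where
  smul g y := ⟨actC g.1 y, actC_mem hs (hΓ g.1 g.2) y.2⟩
  one_smul y := Subtype.ext (actC_one y.1)
  mul_smul g g' y := Subtype.ext (actC_mul hs (hΓ g'.1 g'.2) y.2)

theorem smul_ball_coe (Γ : Subgroup (SLn n)) (hΓ : ∀ g ∈ Γ, Jac.IsU k g.1) (g : Γ) (y : ball k) :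
    letI := mulActionBall hs Γ hΓ
    ((g • y : ball k) : Fin n → ℂ) = actC g.1 y.1 := rfl

theorem continuousConstSMul_ball (Γ : Subgroup (SLn n)) (hΓ : ∀ g ∈ Γ, Jac.IsU k g.1) :
    letI := mulActionBall hs Γ hΓ
    ContinuousConstSMul Γ (ball k) := by
  let _ := mulActionBall hs Γ hΓ
  exact ⟨fun g => Jac.continuous_actB hs (hΓ g.1 g.2)⟩

end

end Pool.Agent.CMN.JB
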