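import Pool.Agent.Lib.CMN.Adp
import Pool.Agent.Lib.CMN.Grp
import Pool.Agent.Lib.CMN.Det65
import Pool.Agent.Lib.CMN.JacBr

/-!
# TANK CMN, row COCX (helper45, after helper30): compact quotients for all arithmetic groups
-/

set_option autoImplicit false

open scoped ComplexConjugate Matrix
open Complex

namespace Pool.Agent.CMN

open Pool.CMN in
theorem cocx (hcoc : COC) : COCX := by
  classical
  intro F _ _ _ n v₁ D h Γ hG hv hΓ
  have hin : ∀ g : SLn n, InSU v₁ D h g ↔ g ∈ GamS v₁ D h 1 := fun g => by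
    rw [inSU_iff (hG.D0 v₁), mem_GamS grp hG one_pos]
  obtain ⟨C, hC, hCb, hCc⟩ := cocompact_GamS grp hG (N := 3) (by norm_num)
    (fun p hp => det F n v₁ D h 3 hG le_rfl p hp v₁) (hcoc F n v₁ D h 3 hG hv (by norm_num))
  obtain ⟨S', hSf, hS'⟩ := hΓ.fin
  let S : Finset (SLn n) := hSf.toFinset
  have hS : ∀ g, InSU v₁ D h g → ∃ γ ∈ Γ, ∃ t ∈ S, g = γ * t := by
    intro g hg
    obtain ⟨γ, hγ, t, ht, he⟩ := hS' g hg
    exact ⟨γ, hγ, t, hSf.mem_toFinset.2 ht, he⟩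
  have hs := JB.sg_of hG
  refine ⟨⋃ t ∈ S.filter (fun t => InSU v₁ D h t), actC t '' C, ?_, ?_, ?_⟩
  · refine (S.filter _).isCompact_biUnion fun t ht => ?_
    have h1 := (Finset.mem_filter.1 ht).2
    exact hC.image_of_continuousOn ((Jac.continuousOn_act hs h1.2).mono hCb)
  · intro y hy
    simp only [Set.mem_iUnion] at hy
    obtain ⟨t, ht, z, hz, rfl⟩ := hy
    have h1 := (Finset.mem_filter.1 ht).2
    exact JB.actC_mem hs h1.2 (hCb hz)
  · intro y hy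
    obtain ⟨m, hm, hmC⟩ := hCc y hy
    have hm1 : m ∈ GamS v₁ D h 1 := by
      obtain ⟨p, hp, hpm⟩ := (mem_GamS grp hG (N := 3) (by norm_num)).1 hm
      exact (mem_GamS grp hG one_pos).2 ⟨p, gam_mono (hG.D0 v₁) (by norm_num) hp, hpm⟩
    obtain ⟨γ, hγ, t, ht, he⟩ := hS m⁻¹ ((hin _).2 ((GamS v₁ D h 1).inv_mem hm1))
    have hγ1 : γ ∈ GamS v₁ D h 1 := (hin _).1 (hΓ.le γ hγ)
    have htG : InSU v₁ D h t := by
      have : t = γ⁻¹ * m⁻¹ := by rw [he]; group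
      rw [this, hin]
      exact (GamS v₁ D h 1).mul_mem ((GamS v₁ D h 1).inv_mem hγ1) ((GamS v₁ D h 1).inv_mem hm1)
    have he2 : γ⁻¹ = t * m := by
      have : γ⁻¹ = t * (γ * t)⁻¹ := by group
      rw [this, ← he, inv_inv]
    refine ⟨γ⁻¹, Γ.inv_mem hγ, ?_⟩
    simp only [Set.mem_iUnion]
    refine ⟨t, Finset.mem_filter.2 ⟨ht, htG⟩, actC m y, hmC, ?_⟩
    rw [he2, JB.actC_mul hs ((hin _).2 hm1).2 hy]

end Pool.Agent.CMN
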