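import Pool.Agent.Lib.CMN.Final

/-!
# Tank CMN: coniveau of multisets of CM types (for MP_386e47_ag)

`2k + l` CM types, at least `k` of them `true` and at least `k` of them `false` at every place,
and the conjugates of suitable `l` CM types form the types of one compact ball quotient.
-/

set_option autoImplicit false

namespace Pool.Agent.CMN

section

variable {F : Type} [Field F]

theorem countP_tf_h60 (m : Multiset (CMType F)) (v : F →+* ℝ) :
    m.countP (fun Φ => Φ v = true) + m.countP (fun Φ => Φ v = false) = m.card := by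
  have h := Multiset.card_eq_countP_add_countP (fun Φ : CMType F => Φ v = true) m
  rw [countP_false] at h
  exact h.symm

theorem countP_bar_true (m : Multiset (CMType F)) (v : F →+* ℝ) :
    (m.map bar).countP (fun Φ => Φ v = true) = m.countP (fun Φ => Φ v = false) := by
  rw [Multiset.countP_map, Multiset.countP_eq_card_filter]
  congr 1
  apply Multiset.filter_congr
  intro Φ _
  simp [bar]

theorem countP_bar_false (m : Multiset (CMType F)) (v : F →+* ℝ) :
    (m.map bar).countP (fun Φ => Φ v = false) = m.countP (fun Φ => Φ v = true) := by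
  rw [Multiset.countP_map, Multiset.countP_eq_card_filter]
  congr 1
  apply Multiset.filter_congr
  intro Φ _
  simp [bar]

/-- there are `l` CM types with prescribed numbers `c v ≤ l` of `true` -/
theorem exists_types (l : ℕ) (c : (F →+* ℝ) → ℕ) (hc : ∀ v, c v ≤ l) :
    ∃ m : Multiset (CMType F), m.card = l ∧ ∀ v, m.countP (fun Φ => Φ v = true) = c v := by
  refine ⟨(Finset.univ : Finset (Fin l)).val.map (fun j => fun v => decide (j.val < c v)),
    by simp, fun v => ?_⟩
  rw [Multiset.countP_map]
  simp only [decide_eq_true_eq]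
  have : (Multiset.filter (fun a : Fin l => a.val < c v) (Finset.univ : Finset (Fin l)).val).card =
      ((Finset.univ : Finset (Fin l)).filter (fun a => a.val < c v)).card := rfl
  rw [this, Fin.card_filter_val_lt]
  exact min_eq_right (hc v)

/-- `2k + l` CM types of coniveau `k` and the conjugates of `l` CM types form a balanced
multiset. -/
theorem exists_balanced (k l : ℕ) (m : Multiset (CMType F)) (hc : m.card = 2 * k + l)
    (hv : ∀ v : F →+* ℝ, k ≤ m.countP (fun Φ => Φ v = true) ∧
      k ≤ m.countP (fun Φ => Φ v = false)) :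
    ∃ m' : Multiset (CMType F), m'.card = l ∧
      (∀ v, m.countP (fun Φ => Φ v = true) = m'.countP (fun Φ => Φ v = true) + k) ∧
      Balanced (m + m'.map bar) := by
  have hle : ∀ v : F →+* ℝ, m.countP (fun Φ => Φ v = true) - k ≤ l := by
    intro v
    have h1 := countP_tf_h60 m v
    have h2 := (hv v).2
    omega
  obtain ⟨m', h1, h2⟩ := exists_types l (fun v => m.countP (fun Φ => Φ v = true) - k) hle
  refine ⟨m', h1, fun v => ?_, fun v => ?_⟩
  · have := (hv v).1
    rw [h2 v]
    omega
  · have h3 := countP_tf_h60 m v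
    have h4 := countP_tf_h60 m' v
    rw [Multiset.countP_add, Multiset.countP_add, countP_bar_true, countP_bar_false]
    have h5 := (hv v).1
    have h6 := h2 v
    omega

/-- a balanced multiset of `2n` CM types, ordered by the sign at `v₁` -/
theorem Balanced.exists_split {m : Multiset (CMType F)} (hm : Balanced m) (v₁ : F →+* ℝ) {n : ℕ}
    (hc : m.card = 2 * n) :
    ∃ Φ Ψ : Fin n → CMType F, m = Finset.univ.val.map Φ + Finset.univ.val.map Ψ ∧
      (∀ i, Φ i v₁ = true) ∧ (∀ i, Ψ i v₁ = false) ∧
      ∀ v : F →+* ℝ, (Finset.univ.filter fun i => Φ i v = true).card +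
        (Finset.univ.filter fun i => Ψ i v = true).card = n := by
  have hcount : ∀ v : F →+* ℝ, m.countP (fun Φ => Φ v = true) = n := by
    intro v
    have h1 := countP_tf_h60 m v
    have h2 := hm v
    omega
  have hA : (m.filter fun Φ => Φ v₁ = true).card = n := by
    rw [← Multiset.countP_eq_card_filter, hcount]
  have hB : (m.filter fun Φ => ¬ (Φ v₁ = true)).card = n := by
    rw [← Multiset.countP_eq_card_filter, countP_false, ← hm v₁, hcount]
  have hAB := Multiset.filter_add_not (fun Φ : CMType F => Φ v₁ = true) m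
  obtain ⟨Φ, hΦ⟩ := exists_fin _ hA
  obtain ⟨Ψ, hΨ⟩ := exists_fin _ hB
  have hm2 : m = Finset.univ.val.map Φ + Finset.univ.val.map Ψ := by
    rw [← hΦ, ← hΨ, hAB]
  refine ⟨Φ, Ψ, hm2, fun i => ?_, fun i => ?_, fun v => ?_⟩
  · have h1 : Φ i ∈ m.filter fun Φ => Φ v₁ = true := by
      rw [hΦ]
      exact Multiset.mem_map_of_mem Φ (Finset.mem_univ_val i)
    exact (Multiset.mem_filter.1 h1).2
  · have h1 : Ψ i ∈ m.filter fun Φ => ¬ (Φ v₁ = true) := by
      rw [hΨ]
      exact Multiset.mem_map_of_mem Ψ (Finset.mem_univ_val i)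
    simpa using (Multiset.mem_filter.1 h1).2
  · rw [← count_map Φ (fun Φ => Φ v = true), ← count_map Ψ (fun Φ => Φ v = true),
      ← Multiset.countP_add, ← hm2, hcount]

end

/-- The coniveau statement from `QUOT`. -/
theorem coniveau_of (hq : QUOT) (F : Type) [Field F] [NumberField F]
    [NumberField.IsTotallyReal F] (v₁ : F →+* ℝ) (D : F) (hD : IsIntegral ℤ D)
    (hpos : ∀ v : F →+* ℝ, 0 < v D) (hF : ∃ v : F →+* ℝ, v ≠ v₁) (k l : ℕ) (hkl : 0 < k + l)
    (m : Multiset (CMType F)) (hcard : m.card = 2 * k + l)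
    (hm : ∀ v : F →+* ℝ, k ≤ m.countP (fun Φ => Φ v = true) ∧
      k ≤ m.countP (fun Φ => Φ v = false)) :
    ∃ (m' : Multiset (CMType F)) (Φ Ψ : Fin (k + l) → CMType F), m'.card = l ∧
      (∀ v : F →+* ℝ, m.countP (fun Φ => Φ v = true) = m'.countP (fun Φ => Φ v = true) + k) ∧
      m + m'.map bar = Finset.univ.val.map Φ + Finset.univ.val.map Ψ ∧
      (∀ i, Φ i v₁ = true) ∧ (∀ i, Ψ i v₁ = false) ∧ Quot v₁ D Φ Ψ := by
  obtain ⟨m', h1, h2, h3⟩ := exists_balanced k l m hcard hm
  obtain ⟨Φ, Ψ, h4, h5, h6, h7⟩ := h3.exists_split v₁ (n := k + l) (by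
    rw [Multiset.card_add, Multiset.card_map, hcard, h1]
    ring)
  exact ⟨m', Φ, Ψ, h1, h2, h4, h5, h6, hq F v₁ D (k + l) Φ Ψ hD hpos hF hkl h5 h6 h7⟩

end Pool.Agent.CMN
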