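import Mathlib

/-!
# Theta one-forms on compact quotients of the complex `n`-ball, and CM types

`F` is a totally real number field, `v₁` one of its real places, `D` a totally positive integer of
`F`, `E = F(√-D)`.  `h = diag(h_0, …, h_n)` is a hermitian form on `E^(n+1)`, of signature `(n,1)` at
`v₁` and positive definite at all other places.  Everything below is explicit.
-/

set_option autoImplicit false

open scoped ComplexConjugate Matrix
open Complex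

namespace Pool.Agent.CMN

noncomputable section

variable {n : ℕ}

/-! ## The ball -/

/-- Homogeneous coordinates `yh = (y_0, …, y_(n-1), 1)`. -/
def hat (y : Fin n → ℂ) : Fin (n + 1) → ℂ := Fin.snoc (α := fun _ => ℂ) y 1

/-- The BILINEAR pairing `⟨x, yh⟩ = ∑ k_j x_j yh_j`. -/
def pr (k x : Fin (n + 1) → ℝ) (y : Fin n → ℂ) : ℂ := ∑ j, (k j : ℂ) * (x j : ℂ) * hat y j

/-- `w(y)`, with `w(y)² = -⟨yh, yh⟩` (principal branch; the real part of `-⟨yh, yh⟩` is positive on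
the ball). -/
def w (k : Fin (n + 1) → ℝ) (y : Fin n → ℂ) : ℂ := (-∑ j, (k j : ℂ) * hat y j ^ 2) ^ (1 / 2 : ℂ)

/-- The holomorphic function `s_x(y) = ⟨x, yh⟩ / w(y)`. -/
def s (k x : Fin (n + 1) → ℝ) (y : Fin n → ℂ) : ℂ := pr k x y / w k y

/-- The coefficient of `dy_j` in `d s_x`, that is `∂ s_x / ∂ y_j`. -/
def ds (k x : Fin (n + 1) → ℝ) (j : Fin n) (y : Fin n → ℂ) : ℂ :=
  (k j.castSucc : ℂ) * (x j.castSucc : ℂ) / w k y
    + pr k x y * ((k j.castSucc : ℂ) * y j) / w k y ^ 3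

/-- The ball `∑_{j < n} k_j |y_j|² + k_n < 0` (`k_0, …, k_(n-1) > 0 > k_n`). -/
def ball (k : Fin (n + 1) → ℝ) : Set (Fin n → ℂ) :=
  {y | ∑ j : Fin n, k j.castSucc * ‖y j‖ ^ 2 + k (Fin.last n) < 0}

/-! ## Theta one-forms -/

variable {F : Type} [Field F] [NumberField F]

/-- The coordinates of a vector at the place `v`. -/
def ev (v : F →+* ℝ) (x : Fin (n + 1) → F) : Fin (n + 1) → ℝ := fun j => v (x j)

/-- The bilinear form `⟨x, z⟩` at the place `v`. -/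
def form (h : Fin (n + 1) → F) (v : F →+* ℝ) (x z : Fin (n + 1) → F) : ℝ :=
  ∑ j, v (h j) * v (x j) * v (z j)

open Classical in
/-- The Gaussian
`exp(-π ∑_v (|v(a)|/√v(D)) (⟨ξ,ξ⟩_v + [v = v₁] 2 s_ξ(y)²))`. -/
def gauss (v₁ : F →+* ℝ) (D : F) (h : Fin (n + 1) → F) (a : F) (ξ : Fin (n + 1) → F)
    (y : Fin n → ℂ) : ℂ :=
  exp (-(Real.pi : ℂ) * ∑ v : F →+* ℝ, ((|v a| / √(v D) : ℝ) : ℂ) *
    ((form h v ξ ξ : ℂ) + if v = v₁ then 2 * s (ev v h) (ev v ξ) y ^ 2 else 0))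

/-- The coefficient of `dy_j` in the holomorphic theta one-form
`v_a(φ) = ∑_{ξ ∈ F^(n+1)} φ(ξ) gauss(ξ) d s_ξ` on the ball. -/
def theta (v₁ : F →+* ℝ) (D : F) (h : Fin (n + 1) → F) (a : F) (φ : (Fin (n + 1) → F) → ℂ)
    (j : Fin n) (y : Fin n → ℂ) : ℂ :=
  ∑' ξ : Fin (n + 1) → F, φ ξ * gauss v₁ D h a ξ y * ds (ev v₁ h) (ev v₁ ξ) j y

/-- The coefficient of `dy_0 ∧ … ∧ dy_(n-1)` in the wedge product of `n` one-forms. -/
def wedge (ω : Fin n → Fin n → (Fin n → ℂ) → ℂ) (y : Fin n → ℂ) : ℂ :=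
  Matrix.det (Matrix.of fun i j => ω i j y)

/-- Schwartz-Bruhat functions on `F^(n+1)`: support in `N⁻¹ O_F^(n+1)`, periodic modulo
`N O_F^(n+1)`, for some positive integer `N`. -/
def IsSB (φ : (Fin (n + 1) → F) → ℂ) : Prop :=
  ∃ N : ℕ, 0 < N ∧ (∀ ξ, φ ξ ≠ 0 → ∀ j, IsIntegral ℤ ((N : F) * ξ j)) ∧
    ∀ ξ η : Fin (n + 1) → F, (∀ j, IsIntegral ℤ (η j)) → φ (fun j => ξ j + (N : F) * η j) = φ ξ

/-! ## CM types -/

/-- A CM type of `E = F(√-D)`, written as a sign vector: at the place `v` the CM type contains the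
embedding which sends `√-D` to the upper half plane (`true`) or its conjugate (`false`). -/
abbrev CMType (F : Type) [Field F] := (F →+* ℝ) → Bool

/-- The complex conjugate CM type. -/
def bar (Φ : CMType F) : CMType F := fun v => !(Φ v)

open Classical in
/-- The sign vector of an element of `F`. -/
def sgn (a : F) : CMType F := fun v => decide (0 < v a)

/-- A multiset of CM types is balanced if at every place it contains as many `true` as `false`. -/
def Balanced (m : Multiset (CMType F)) : Prop :=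
  ∀ v : F →+* ℝ, m.countP (fun Φ => Φ v = true) = m.countP (fun Φ => Φ v = false)

/-! ## Arithmetic subgroups of `SU(h)` -/

/-- Complex `(n+1) × (n+1)` matrices of determinant one. -/
abbrev SLn (n : ℕ) : Type := Matrix.SpecialLinearGroup (Fin (n + 1)) ℂ

section general

variable (k : Fin (n + 1) → ℝ)

/-- The action on the ball by fractional linear maps. -/
def actC (g : SLn n) (y : Fin n → ℂ) : Fin n → ℂ :=
  fun j => (g.1 *ᵥ hat y) j.castSucc / (g.1 *ᵥ hat y) (Fin.last n)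

/-- `Γ\ball` is compact. -/
def Cocompact (Γ : Subgroup (SLn n)) : Prop :=
  ∃ C : Set (Fin n → ℂ), IsCompact C ∧ C ⊆ ball k ∧ ∀ y ∈ ball k, ∃ g ∈ Γ, actC g y ∈ C

/-- The one-form `∑ ω_i dy_i` on the ball is invariant under `Γ`. -/
def InvOne (Γ : Subgroup (SLn n)) (ω : Fin n → (Fin n → ℂ) → ℂ) : Prop :=
  ∀ g ∈ Γ, ∀ y ∈ ball k, ∀ j,
    ∑ i, ω i (actC g y) * fderiv ℂ (fun z => actC g z i) y (Pi.single j 1) = ω j y

/-- The one-form `∑ ω_i dy_i` on the ball is holomorphic and closed. -/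
def ClosedHol (ω : Fin n → (Fin n → ℂ) → ℂ) : Prop :=
  (∀ i, DifferentiableOn ℂ (ω i) (ball k)) ∧
    ∀ y ∈ ball k, ∀ i j, fderiv ℂ (ω i) y (Pi.single j 1) = fderiv ℂ (ω j) y (Pi.single i 1)

/-- A weight: continuous, compactly supported in the ball, nonnegative, with
`∑_{g ∈ Γ} χ(g y) = 1`. The integral over `Γ\ball` of an invariant `(n,n)`-form is its integral
over the ball against `χ`. -/
structure IsWt (Γ : Subgroup (SLn n)) (χ : (Fin n → ℂ) → ℝ) : Prop where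
  cont : Continuous χ
  comp : HasCompactSupport χ
  supp : tsupport χ ⊆ ball k
  nonneg : ∀ y, 0 ≤ χ y
  sum : ∀ y ∈ ball k, HasSum (fun g : Γ => χ (actC g.1 y)) 1

end general

/-- `z` lies in the order `𝓞 + 𝓞 √-D`, embedded in `ℂ` by the place `v` and `√-D ↦ i √(v D)`. -/
def IsInt (v : F →+* ℝ) (D : F) (z : ℂ) : Prop :=
  ∃ x y : F, IsIntegral ℤ x ∧ IsIntegral ℤ y ∧ z = (v x : ℂ) + I * (√(v D) : ℂ) * (v y : ℂ)

/-- `g ∈ SU(h)(𝓞 + 𝓞 √-D)`. -/
def InSU (v : F →+* ℝ) (D : F) (h : Fin (n + 1) → F) (g : SLn n) : Prop :=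
  (∀ i j, IsInt v D (g.1 i j)) ∧
    g.1ᴴ * Matrix.diagonal (fun j => (v (h j) : ℂ)) * g.1 =
      Matrix.diagonal (fun j => (v (h j) : ℂ))

/-- `Γ` is a subgroup of finite index of `SU(h)(𝓞 + 𝓞 √-D)`. -/
structure IsArith (v : F →+* ℝ) (D : F) (h : Fin (n + 1) → F) (Γ : Subgroup (SLn n)) : Prop where
  le : ∀ g ∈ Γ, InSU v D h g
  fin : ∃ S : Set (SLn n), S.Finite ∧ ∀ g, InSU v D h g → ∃ γ ∈ Γ, ∃ t ∈ S, g = γ * t

/-- There are: a hermitian form `h = diag(h_0, …, h_n)` over `E = F(√-D)` of signature `(n,1)` at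
`v₁` and definite at all other places, an arithmetic subgroup `Γ` of `SU(h)` with `Γ\ball` compact,
and `2n` closed holomorphic `Γ`-invariant theta one-forms on the ball, with sign vectors `Φ i` (the
forms `v_{a i}(φ i)`) and `-Ψ i` (the forms `v_{b i}(ψ i)`; the sign vectors of their complex
conjugates are the `Ψ i`), such that the integral over `Γ\ball` of
`(⋀_i v_{a i}(φ i)) ∧ conj (⋀_i v_{b i}(ψ i))` is not zero. -/
def Quot (v₁ : F →+* ℝ) (D : F) (Φ Ψ : Fin n → CMType F) : Prop :=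
  ∃ (h : Fin (n + 1) → F) (Γ : Subgroup (SLn n)) (a b : Fin n → F)
    (φ ψ : Fin n → (Fin (n + 1) → F) → ℂ),
    (∀ (v : F →+* ℝ) (j : Fin n), 0 < v (h j.castSucc)) ∧ v₁ (h (Fin.last n)) < 0 ∧
    (∀ v, v ≠ v₁ → 0 < v (h (Fin.last n))) ∧
    (∀ i, 0 < v₁ (a i) ∧ 0 < v₁ (b i)) ∧
    (∀ i, sgn (a i) = Φ i ∧ sgn (b i) = bar (Ψ i)) ∧
    (∀ i, IsSB (φ i) ∧ IsSB (ψ i)) ∧
    IsArith v₁ D h Γ ∧ Cocompact (ev v₁ h) Γ ∧
    (∀ i, ClosedHol (ev v₁ h) (theta v₁ D h (a i) (φ i)) ∧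
      ClosedHol (ev v₁ h) (theta v₁ D h (b i) (ψ i)) ∧
      InvOne (ev v₁ h) Γ (theta v₁ D h (a i) (φ i)) ∧
      InvOne (ev v₁ h) Γ (theta v₁ D h (b i) (ψ i))) ∧
    (∃ χ, IsWt (ev v₁ h) Γ χ) ∧
    ∀ χ, IsWt (ev v₁ h) Γ χ →
      ∫ y : Fin n → ℂ, (χ y : ℂ) *
        (wedge (fun i => theta v₁ D h (a i) (φ i)) y *
          conj (wedge (fun i => theta v₁ D h (b i) (ψ i)) y)) ≠ 0

/-- The theorem: all families of `2n` CM types, `n` of them `true` at every place, the first `n`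
ones at `v₁`. -/
def QUOT : Prop :=
  ∀ (F : Type) [Field F] [NumberField F] [NumberField.IsTotallyReal F] (v₁ : F →+* ℝ) (D : F)
    (n : ℕ) (Φ Ψ : Fin n → CMType F), IsIntegral ℤ D → (∀ v : F →+* ℝ, 0 < v D) →
    (∃ v : F →+* ℝ, v ≠ v₁) → 0 < n → (∀ i, Φ i v₁ = true) → (∀ i, Ψ i v₁ = false) →
    (∀ v : F →+* ℝ, (Finset.univ.filter fun i => Φ i v = true).card +
      (Finset.univ.filter fun i => Ψ i v = true).card = n) → Quot v₁ D Φ Ψ

/-- The multisets of CM types obtained in one step: a product of divisor classes, or one compact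
quotient of the `n`-ball. -/
def Alg (v₁ : F →+* ℝ) (D : F) (m : Multiset (CMType F)) : Prop :=
  (∃ s : Multiset (CMType F), m = s + s.map bar) ∨
    ∃ (n : ℕ) (Φ Ψ : Fin n → CMType F), 0 < n ∧
      m = Finset.univ.val.map Φ + Finset.univ.val.map Ψ ∧ Quot v₁ D Φ Ψ

/-- The final sentence. -/
def FINAL : Prop :=
  ∀ (F : Type) [Field F] [NumberField F] [NumberField.IsTotallyReal F] (v₁ : F →+* ℝ) (D : F),
    IsIntegral ℤ D → (∀ v : F →+* ℝ, 0 < v D) →
    ∀ m : Multiset (CMType F), Balanced m → Alg v₁ D m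

end

end Pool.Agent.CMN
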