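import Mathlib
import Pool.Agent.Lib.CMN.Defs

/-! TANK CMN, consequence: Tate characters modulo `m` (Fermat varieties, cyclic covers) give balanced
multisets of CM types.  helper33. -/

set_option autoImplicit false

open Complex

namespace Pool.Agent.CMN.Cyc

noncomputable section

section comb

variable {m : ℕ}

/-- The entries of a triple. -/
def ent (t : ZMod m × ZMod m × ZMod m) : Multiset (ZMod m) := {t.1, t.2.1, t.2.2}

/-- Characters of Fermat curves: nonzero entries with sum zero. -/
def IsTriple (t : ZMod m × ZMod m × ZMod m) : Prop :=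
  t.1 ≠ 0 ∧ t.2.1 ≠ 0 ∧ t.2.2 ≠ 0 ∧ t.1 + t.2.1 + t.2.2 = 0

/-- The pairs `{x, -x}`, `x` in `P`. -/
def pairs (P : Multiset (ZMod m)) : Multiset (ZMod m) := P + P.map fun x => -x

/-- `s` is a union of triples, up to pairs `{x, -x}`. -/
def IsDec (s : Multiset (ZMod m)) (L : Multiset (ZMod m × ZMod m × ZMod m))
    (P Q : Multiset (ZMod m)) : Prop :=
  (∀ t ∈ L, IsTriple t) ∧ (0 : ZMod m) ∉ P ∧ (0 : ZMod m) ∉ Q ∧
    s + pairs P = L.bind ent + pairs Q

lemma pairs_cons (x : ZMod m) (P : Multiset (ZMod m)) :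
    pairs (x ::ₘ P) = x ::ₘ (-x) ::ₘ pairs P := by
  simp only [pairs, Multiset.map_cons, Multiset.cons_add, Multiset.add_cons]
  first
    | done
    | rw [Multiset.cons_swap]

theorem exists_dec (N : ℕ) : ∀ s : Multiset (ZMod m), s.card = N → (0 : ZMod m) ∉ s → s.sum = 0 →
    ∃ L P Q, IsDec s L P Q := by
  induction N using Nat.strong_induction_on with
  | _ N ih =>
    intro s hs h0 hsum
    rcases Multiset.empty_or_exists_mem s with rfl | ⟨a, ha⟩
    · exact ⟨0, 0, 0, by simp, by simp, by simp, by simp [pairs]⟩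
    obtain ⟨s1, rfl⟩ := Multiset.exists_cons_of_mem ha
    rcases Multiset.empty_or_exists_mem s1 with rfl | ⟨b, hb⟩
    · simp only [Multiset.sum_cons, Multiset.sum_zero, add_zero] at hsum
      exact absurd (by simp [hsum]) h0
    obtain ⟨s2, rfl⟩ := Multiset.exists_cons_of_mem hb
    have ha0 : a ≠ 0 := fun h => h0 (by simp [h])
    have hb0 : b ≠ 0 := fun h => h0 (by simp [h])
    have hs2 : (0 : ZMod m) ∉ s2 := fun h => h0 (by simp [h])
    simp only [Multiset.sum_cons] at hsum
    simp only [Multiset.card_cons] at hs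
    by_cases hab : a + b = 0
    · obtain ⟨L, P, Q, h1, h2, h3, h4⟩ := ih s2.card (by omega) s2 rfl hs2 (by
        rw [← add_assoc, hab, zero_add] at hsum; exact hsum)
      refine ⟨L, P, a ::ₘ Q, h1, h2, ?_, ?_⟩
      · rw [Multiset.mem_cons, not_or]
        exact ⟨fun h => ha0 h.symm, h3⟩
      · have hb' : b = -a := by
          rw [eq_neg_iff_add_eq_zero, add_comm]; exact hab
        rw [pairs_cons, Multiset.add_cons, Multiset.add_cons, ← h4, hb', Multiset.cons_add,
          Multiset.cons_add]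
    · obtain ⟨L, P, Q, h1, h2, h3, h4⟩ := ih (s2.card + 1) (by omega) ((a + b) ::ₘ s2) (by simp)
        (by
          rw [Multiset.mem_cons, not_or]
          exact ⟨fun h => hab h.symm, hs2⟩)
        (by rw [Multiset.sum_cons, add_assoc]; exact hsum)
      refine ⟨(a, b, -(a + b)) ::ₘ L, (a + b) ::ₘ P, Q, ?_, ?_, h3, ?_⟩
      · intro t ht
        rcases Multiset.mem_cons.1 ht with rfl | ht
        · exact ⟨ha0, hb0, neg_ne_zero.2 hab, by simp⟩
        · exact h1 t ht
      · rw [Multiset.mem_cons, not_or]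
        exact ⟨fun h => hab h.symm, h2⟩
      · rw [pairs_cons, Multiset.cons_bind]
        have e1 : ent (a, b, -(a + b)) = a ::ₘ b ::ₘ (-(a + b)) ::ₘ 0 := rfl
        rw [e1, add_assoc, ← h4]
        simp only [Multiset.cons_add, Multiset.add_cons, Multiset.zero_add]
        simp only [← Multiset.singleton_add]
        ac_rfl

/-- `∑ ⟨k a⟩`, in units of `1 / m`. -/
def hsum (k : ZMod m) (t : ZMod m × ZMod m × ZMod m) : ℕ :=
  (k * t.1).val + (k * t.2.1).val + (k * t.2.2).val

variable [NeZero m]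

lemma val_add_val_neg {x : ZMod m} (hx : x ≠ 0) : x.val + (-x).val = m := by
  have h := ZMod.neg_val x
  rw [if_neg hx] at h
  have h2 := ZMod.val_lt x
  omega

lemma hsum_eq {k : ZMod m} (hk : IsUnit k) {t : ZMod m × ZMod m × ZMod m} (ht : IsTriple t) :
    hsum k t = m ∨ hsum k t = 2 * m := by
  obtain ⟨h1, h2, h3, h4⟩ := ht
  have hz : ∀ x : ZMod m, x ≠ 0 → 0 < (k * x).val := by
    intro x hx
    have : k * x ≠ 0 := fun h => hx ((hk.mul_right_eq_zero).1 h)
    exact Nat.pos_of_ne_zero (fun h => this ((ZMod.val_eq_zero _).1 h))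
  have p1 := hz _ h1
  have p2 := hz _ h2
  have p3 := hz _ h3
  have l1 := ZMod.val_lt (k * t.1)
  have l2 := ZMod.val_lt (k * t.2.1)
  have l3 := ZMod.val_lt (k * t.2.2)
  have hd : (m : ℕ) ∣ hsum k t := by
    rw [← ZMod.natCast_eq_zero_iff]
    simp only [hsum, Nat.cast_add, ZMod.natCast_val, ZMod.cast_id', id_eq]
    rw [← mul_add, ← mul_add, h4, mul_zero]
  obtain ⟨c, hc⟩ := hd
  have hm : 0 < m := Nat.pos_of_ne_zero (NeZero.ne m)
  have hc0 : 0 < c := by
    rcases Nat.eq_zero_or_pos c with h | h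
    · rw [h, mul_zero] at hc
      unfold hsum at hc
      omega
    · exact h
  have hc3 : c < 3 := by
    by_contra hge
    have : m * 3 ≤ m * c := Nat.mul_le_mul_left m (by omega)
    unfold hsum at hc
    omega
  have : c = 1 ∨ c = 2 := by omega
  rcases this with h | h
  · left; rw [hc, h, mul_one]
  · right; rw [hc, h, mul_comm]

/-- The sum of `⟨k a⟩` over the entries. -/
def wsum (k : ZMod m) (s : Multiset (ZMod m)) : ℕ := (s.map fun a => (k * a).val).sum

lemma wsum_add (k : ZMod m) (s t : Multiset (ZMod m)) : wsum k (s + t) = wsum k s + wsum k t := by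
  simp [wsum]

lemma wsum_pairs {k : ZMod m} (hk : IsUnit k) (P : Multiset (ZMod m)) (hP : (0 : ZMod m) ∉ P) :
    wsum k (pairs P) = m * P.card := by
  induction P using Multiset.induction_on with
  | empty => simp [wsum, pairs]
  | cons a P ih =>
    rw [Multiset.mem_cons, not_or] at hP
    have ha : k * a ≠ 0 := fun h => hP.1 ((hk.mul_right_eq_zero).1 h).symm
    have h1 := val_add_val_neg ha
    rw [pairs_cons]
    have h2 : wsum k (a ::ₘ (-a) ::ₘ pairs P) = (k * a).val + (-(k * a)).val + wsum k (pairs P) := by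
      simp [wsum, add_assoc]
    rw [h2, ih hP.2, h1, Multiset.card_cons]
    ring

lemma wsum_bind (k : ZMod m) (L : Multiset (ZMod m × ZMod m × ZMod m)) :
    wsum k (L.bind ent) = (L.map (hsum k)).sum := by
  induction L using Multiset.induction_on with
  | empty => simp [wsum]
  | cons t L ih =>
    rw [Multiset.cons_bind, wsum_add, ih, Multiset.map_cons, Multiset.sum_cons]
    congr 1
    simp [wsum, ent, hsum, add_assoc]

lemma card_bind (L : Multiset (ZMod m × ZMod m × ZMod m)) : (L.bind ent).card = 3 * L.card := by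
  induction L using Multiset.induction_on with
  | empty => simp
  | cons t L ih =>
    rw [Multiset.cons_bind, Multiset.card_add, ih, Multiset.card_cons]
    simp [ent]
    ring

lemma card_pairs (P : Multiset (ZMod m)) : (pairs P).card = 2 * P.card := by
  simp [pairs]; ring

lemma sum_hsum {k : ZMod m} (hk : IsUnit k) (L : Multiset (ZMod m × ZMod m × ZMod m))
    (hL : ∀ t ∈ L, IsTriple t) :
    (L.map (hsum k)).sum = m * (2 * L.card - L.countP (fun t => hsum k t = m)) ∧
      L.countP (fun t => hsum k t = m) ≤ L.card := by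
  refine ⟨?_, Multiset.countP_le_card _ _⟩
  induction L using Multiset.induction_on with
  | empty => simp
  | cons t L ih =>
    have ih' := ih (fun u hu => hL u (Multiset.mem_cons_of_mem hu))
    have hle : L.countP (fun t => hsum k t = m) ≤ L.card := Multiset.countP_le_card _ _
    rw [Multiset.map_cons, Multiset.sum_cons, ih', Multiset.card_cons]
    rcases hsum_eq hk (hL t (Multiset.mem_cons_self t L)) with h | h
    · rw [Multiset.countP_cons_of_pos L h, h]
      have : 2 * (L.card + 1) - (L.countP (fun t => hsum k t = m) + 1) =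
          (2 * L.card - L.countP (fun t => hsum k t = m)) + 1 := by omega
      rw [this]; ring
    · have hm : 0 < m := Nat.pos_of_ne_zero (NeZero.ne m)
      have hne : ¬ hsum k t = m := by omega
      rw [Multiset.countP_cons_of_neg L hne, h]
      have : 2 * (L.card + 1) - L.countP (fun t => hsum k t = m) =
          (2 * L.card - L.countP (fun t => hsum k t = m)) + 2 := by omega
      rw [this]; ring

/-- For a Tate (Weil) multiset, half of the triples have `∑ ⟨k a⟩ = 1`. -/
theorem balance {s : Multiset (ZMod m)} {L : Multiset (ZMod m × ZMod m × ZMod m)}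
    {P Q : Multiset (ZMod m)} (hd : IsDec s L P Q) {k : ZMod m} (hk : IsUnit k)
    (hs : 2 * wsum k s = m * s.card) :
    2 * L.countP (fun t => hsum k t = m) = L.card := by
  obtain ⟨h1, h2, h3, h4⟩ := hd
  have hm : 0 < m := Nat.pos_of_ne_zero (NeZero.ne m)
  have e1 := congrArg (wsum k) h4
  have e2 := congrArg Multiset.card h4
  rw [wsum_add, wsum_add, wsum_pairs hk P h2, wsum_pairs hk Q h3, wsum_bind] at e1
  rw [Multiset.card_add, Multiset.card_add, card_pairs, card_pairs, card_bind] at e2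
  obtain ⟨e3, e4⟩ := sum_hsum hk L h1
  rw [e3] at e1
  -- m * card s + 2 m |P| = 2 m (2|L| - c) + 2 m |Q|
  have e5 : m * (s.card + 2 * P.card) =
      m * (2 * (2 * L.card - L.countP (fun t => hsum k t = m)) + 2 * Q.card) := by
    have : 2 * (wsum k s + m * P.card) =
      2 * (m * (2 * L.card - L.countP (fun t => hsum k t = m)) + m * Q.card) := by rw [e1]
    rw [mul_add, hs] at this
    linarith
  have e6 := Nat.eq_of_mul_eq_mul_left hm e5
  omega

end comb

section field

variable {F : Type} [Field F]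

/-- At the place `v`, the element `c` is `ζ + ζ⁻¹` with `ζ = exp (2πik/m)`, for the integer `k` prime
to `m` with `0 < k < m / 2`. -/
def Arg (m k : ℕ) (v : F →+* ℝ) (c : F) : Prop :=
  0 < k ∧ 2 * k < m ∧ k.Coprime m ∧ v c = 2 * Real.cos (2 * Real.pi * k / m)

open Classical in
/-- The CM type of the character `t` of the Fermat curve of degree `m`: it contains the embedding
`ζ ↦ exp (2πik/m)` iff `∑ ⟨k t⟩ = 1`. -/
def fermat {m : ℕ} (c : F) (t : ZMod m × ZMod m × ZMod m) : CMType F :=
  fun v => decide (∃ k, Arg m k v c ∧ hsum (k : ZMod m) t = m)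

lemma Arg.unique {m k l : ℕ} {v : F →+* ℝ} {c : F} (hk : Arg m k v c) (hl : Arg m l v c) :
    k = l := by
  obtain ⟨h1, h2, -, h3⟩ := hk
  obtain ⟨h1', h2', -, h3'⟩ := hl
  have hm : (0 : ℝ) < m := by
    have : 0 < m := by omega
    exact_mod_cast this
  have hcos : Real.cos (2 * Real.pi * k / m) = Real.cos (2 * Real.pi * l / m) := by
    have := h3.symm.trans h3'
    linarith
  have hmem : ∀ j : ℕ, 2 * j < m → 2 * Real.pi * j / m ∈ Set.Icc 0 Real.pi := by
    intro j hj
    refine ⟨by positivity, ?_⟩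
    rw [div_le_iff₀ hm]
    have : (2 * j : ℝ) ≤ m := by exact_mod_cast hj.le
    nlinarith [Real.pi_pos]
  have h := Real.injOn_cos (hmem k h2) (hmem l h2') hcos
  rw [div_left_inj' hm.ne'] at h
  have : (k : ℝ) = l := by
    have h5 : (2 * Real.pi) ≠ 0 := by positivity
    exact mul_left_cancel₀ h5 h
  exact_mod_cast this

lemma fermat_eq {m k : ℕ} {v : F →+* ℝ} {c : F} (hk : Arg m k v c)
    (t : ZMod m × ZMod m × ZMod m) : fermat c t v = true ↔ hsum (k : ZMod m) t = m := by
  simp only [fermat, decide_eq_true_eq]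
  constructor
  · rintro ⟨l, hl, h⟩
    rwa [hk.unique hl]
  · intro h
    exact ⟨k, hk, h⟩

lemma Arg.pos {m k : ℕ} {v : F →+* ℝ} {c : F} (hk : Arg m k v c) : 0 < v (4 - c ^ 2) := by
  obtain ⟨h1, h2, -, h3⟩ := hk
  have hm : (0 : ℝ) < m := by
    have : 0 < m := by omega
    exact_mod_cast this
  have hsin : 0 < Real.sin (2 * Real.pi * k / m) := by
    have hk' : (0 : ℝ) < k := by exact_mod_cast h1
    apply Real.sin_pos_of_pos_of_lt_pi
    · have := Real.pi_pos
      positivity
    · rw [div_lt_iff₀ hm]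
      have : (2 * k : ℝ) < m := by exact_mod_cast h2
      nlinarith [Real.pi_pos]
  have : v (4 - c ^ 2) = 4 * Real.sin (2 * Real.pi * k / m) ^ 2 := by
    rw [map_sub, map_pow, h3, map_ofNat, Real.sin_sq]
    ring
  rw [this]
  positivity

lemma Arg.integral {m k : ℕ} {v : F →+* ℝ} {c : F} (hk : Arg m k v c) :
    IsIntegral ℤ (4 - c ^ 2) := by
  obtain ⟨h1, h2, -, h3⟩ := hk
  have hc : IsIntegral ℤ (v c) := by
    have h := Real.isIntegral_two_mul_cos_rat_mul_pi (2 * k / m : ℚ)
    rw [h3]
    convert h using 3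
    push_cast
    ring
  have hc' : IsIntegral ℤ c := (isIntegral_algHom_iff v.toIntAlgHom v.injective).1 hc
  have h4 : IsIntegral ℤ (4 : F) := by
    have := isIntegral_algebraMap (R := ℤ) (A := F) (x := 4)
    simpa using this
  exact h4.sub (hc'.pow 2)

/-- The multiset of CM types of a Tate character is balanced. -/
theorem balanced {m : ℕ} [NeZero m] {s : Multiset (ZMod m)}
    {L : Multiset (ZMod m × ZMod m × ZMod m)} {P Q : Multiset (ZMod m)} (hd : IsDec s L P Q)
    (hs : ∀ t : (ZMod m)ˣ, 2 * (s.map fun a => ((t : ZMod m) * a).val).sum = m * s.card)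
    {c : F} (hc : ∀ v : F →+* ℝ, ∃ k, Arg m k v c) : Balanced (L.map (fermat c)) := by
  intro v
  obtain ⟨k, hk⟩ := hc v
  have hu : IsUnit (k : ZMod m) := (ZMod.isUnit_iff_coprime k m).2 hk.2.2.1
  have hb := balance hd hu (by
    have := hs hu.unit
    simpa [wsum] using this)
  have e1 : (L.map (fermat c)).countP (fun Φ => Φ v = true) =
      L.countP (fun t => hsum (k : ZMod m) t = m) := by
    rw [Multiset.countP_map, ← Multiset.countP_eq_card_filter]
    exact Multiset.countP_congr rfl fun t _ => by rw [fermat_eq hk]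
  have e2 : (L.map (fermat c)).card = (L.map (fermat c)).countP (fun Φ => Φ v = true) +
      (L.map (fermat c)).countP (fun Φ => Φ v = false) := by
    rw [Multiset.card_eq_countP_add_countP (fun Φ : CMType F => Φ v = true)]
    congr 1
    exact Multiset.countP_congr rfl fun Φ _ => by simp
  rw [Multiset.card_map, e1] at e2
  rw [e1]
  omega

variable [NumberField F] [NumberField.IsTotallyReal F]

/-- Tate characters give algebraic classes, given `FINAL`. -/
theorem alg_of_final (hfin : FINAL) {m : ℕ} [NeZero m] {s : Multiset (ZMod m)}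
    {L : Multiset (ZMod m × ZMod m × ZMod m)} {P Q : Multiset (ZMod m)} (hd : IsDec s L P Q)
    (hs : ∀ t : (ZMod m)ˣ, 2 * (s.map fun a => ((t : ZMod m) * a).val).sum = m * s.card)
    (v₁ : F →+* ℝ) {c : F} (hc : ∀ v : F →+* ℝ, ∃ k, Arg m k v c) :
    Alg v₁ (4 - c ^ 2) (L.map (fermat c)) := by
  obtain ⟨k, hk⟩ := hc v₁
  exact hfin F v₁ (4 - c ^ 2) hk.integral (fun v => by
    obtain ⟨l, hl⟩ := hc v
    exact hl.pos) _ (balanced hd hs hc)

end field

/-- If `z = exp (2πij/m)` with `j < m` prime to `m > 2`, then `z + z⁻¹ = 2 cos (2πk/m)` for some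
`0 < k < m / 2` prime to `m`. -/
lemma exists_arg {m : ℕ} (hm : 2 < m) {z : ℂ} (hz : IsPrimitiveRoot z m) {r : ℝ}
    (hr : (r : ℂ) = z + z⁻¹) :
    ∃ k : ℕ, 0 < k ∧ 2 * k < m ∧ k.Coprime m ∧ r = 2 * Real.cos (2 * Real.pi * k / m) := by
  obtain ⟨j, hj, hco, rfl⟩ := (Complex.isPrimitiveRoot_iff z m (by omega)).1 hz
  have hmC : (m : ℂ) ≠ 0 := by
    have : m ≠ 0 := by omega
    exact_mod_cast this
  have hmR : (m : ℝ) ≠ 0 := by
    have : m ≠ 0 := by omega
    exact_mod_cast this
  have hrc : r = 2 * Real.cos (2 * Real.pi * j / m) := by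
    have h1 : (r : ℂ) = 2 * Complex.cos (2 * Real.pi * j / m) := by
      rw [hr, Complex.cos, ← Complex.exp_neg, mul_div_cancel₀ _ (two_ne_zero)]
      congr 2 <;> ring
    have h2 : (r : ℂ) = ((2 * Real.cos (2 * Real.pi * j / m) : ℝ) : ℂ) := by
      rw [h1]; push_cast; rfl
    exact_mod_cast h2
  have hj0 : j ≠ 0 := by
    rintro rfl
    rw [Nat.coprime_zero_left] at hco
    omega
  have hj2 : 2 * j ≠ m := by
    intro h
    have : j ∣ Nat.gcd j m := Nat.dvd_gcd dvd_rfl ⟨2, by omega⟩
    rw [hco] at this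
    have := Nat.le_of_dvd one_pos this
    omega
  rcases lt_or_gt_of_ne hj2 with h | h
  · exact ⟨j, Nat.pos_of_ne_zero hj0, h, hco, hrc⟩
  · refine ⟨m - j, by omega, by omega, ?_, ?_⟩
    · rw [Nat.coprime_comm]
      exact ((Nat.coprime_self_sub_right hj.le).2 hco.symm)
    · rw [hrc, Nat.cast_sub hj.le]
      have : 2 * Real.pi * ((m : ℝ) - j) / m = 2 * Real.pi - 2 * Real.pi * j / m := by
        field_simp
      rw [this, Real.cos_two_pi_sub]

/-- The maximal real subfield of the field of `m`-th roots of unity. -/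
theorem exists_elt {m : ℕ} (hm : 2 < m) (K : Type) [Field K] [NumberField K]
    [IsCyclotomicExtension {m} ℚ K] :
    NumberField.IsTotallyReal (NumberField.maximalRealSubfield K) ∧
    Nonempty (NumberField.maximalRealSubfield K →+* ℝ) ∧
    ∃ c : NumberField.maximalRealSubfield K,
      ∀ v : NumberField.maximalRealSubfield K →+* ℝ, ∃ k, Arg m k v c := by
  have : NeZero m := ⟨by omega⟩
  have : NumberField.IsCMField K :=
    IsCyclotomicExtension.Rat.isCMField K (S := {m}) ⟨m, rfl, hm⟩
  have hζ := IsCyclotomicExtension.zeta_spec m ℚ K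
  set ζ := IsCyclotomicExtension.zeta m ℚ K with hζdef
  have hconj : ∀ (φ : K →+* ℂ), (starRingEnd ℂ) (φ ζ) = (φ ζ)⁻¹ := by
    intro φ
    have h1 : IsPrimitiveRoot (φ ζ) m := hζ.map_of_injective φ.injective
    have h2 : ‖φ ζ‖ = 1 := Complex.norm_eq_one_of_pow_eq_one h1.pow_eq_one (by omega)
    rw [Complex.inv_def, Complex.normSq_eq_norm_sq, h2]
    simp
  have hc : ζ + ζ⁻¹ ∈ NumberField.maximalRealSubfield K := by
    rw [← NumberField.IsCMField.complexConj_eq_self_iff]
    obtain ⟨φ⟩ : Nonempty (K →+* ℂ) := inferInstance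
    apply φ.injective
    rw [NumberField.IsCMField.complexEmbedding_complexConj, map_add, map_add, map_inv₀, map_inv₀,
      hconj, inv_inv, add_comm]
  have htr : NumberField.IsTotallyReal (NumberField.maximalRealSubfield K) := inferInstance
  refine ⟨htr, ?_, ⟨ζ + ζ⁻¹, hc⟩, ?_⟩
  · obtain ⟨φ⟩ : Nonempty (NumberField.maximalRealSubfield K →+* ℂ) := inferInstance
    have hφ : NumberField.ComplexEmbedding.IsReal φ :=
      NumberField.IsTotallyReal.complexEmbedding_isReal φ
    exact ⟨hφ.embedding⟩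
  · intro v
    let w : NumberField.maximalRealSubfield K →+* ℂ := Complex.ofRealHom.comp v
    let : Algebra (NumberField.maximalRealSubfield K) ℂ := w.toAlgebra
    have : Algebra.IsAlgebraic (NumberField.maximalRealSubfield K) K := inferInstance
    let τ : K →ₐ[NumberField.maximalRealSubfield K] ℂ := IsAlgClosed.lift
    have h1 : IsPrimitiveRoot (τ ζ) m := hζ.map_of_injective τ.injective
    have h2 : ((v ⟨ζ + ζ⁻¹, hc⟩ : ℝ) : ℂ) = τ ζ + (τ ζ)⁻¹ := by
      have h3 := τ.commutes ⟨ζ + ζ⁻¹, hc⟩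
      have h4 : algebraMap (NumberField.maximalRealSubfield K) K ⟨ζ + ζ⁻¹, hc⟩ = ζ + ζ⁻¹ := rfl
      rw [h4, map_add, map_inv₀] at h3
      exact h3.symm
    exact exists_arg hm h1 h2

/-- For `m > 2` there is a totally real field with a suitable element: the maximal real subfield of
the field of `m`-th roots of unity, `c = ζ + ζ⁻¹`. -/
theorem exists_field {m : ℕ} (hm : 2 < m) :
    ∃ (F : Type) (_ : Field F) (_ : NumberField F) (_ : NumberField.IsTotallyReal F)
      (_ : Nonempty (F →+* ℝ)) (c : F), ∀ v : F →+* ℝ, ∃ k, Arg m k v c := by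
  have hm0 : m ≠ 0 := by omega
  have : NeZero m := ⟨hm0⟩
  have : NeZero ((m : ℕ) : ℚ) := ⟨by exact_mod_cast hm0⟩
  have : @IsCyclotomicExtension {m} ℚ (CyclotomicField m ℚ) _ _ DivisionRing.toRatAlgebra := by
    convert CyclotomicField.isCyclotomicExtension m ℚ
    · rfl
    · exact Subsingleton.elim _ _
  obtain ⟨h1, h2, c, h3⟩ := exists_elt hm (CyclotomicField m ℚ)
  exact ⟨NumberField.maximalRealSubfield (CyclotomicField m ℚ), inferInstance, inferInstance, h1,
    h2, c, h3⟩


end

end Pool.Agent.CMN.Cyc
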