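import Pool.Agent.Lib.CMN.Meas
import Pool.Agent.Lib.CMN.JacBr
import Pool.Agent.Lib.CMH.Wgt

/-!
# CMN, row MEAS (helper1, after helper89's CMH file): dictionary between the final definitions and the abstract weights
-/

set_option autoImplicit false

namespace Pool.Agent.CMN.FX

open MeasureTheory Filter Topology ComplexConjugate Pool.CMN Pool.Agent.CMN.JB
open Pool.Agent.CMH (IsWeight PDisc Cocpt)

noncomputable section

variable {n : ℕ}

section supp

variable {k : Fin (n + 1) → ℝ}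

/-- restriction of a compactly supported function to the ball. -/
theorem comp_restrict {χ : (Fin n → ℂ) → ℝ} (hc : HasCompactSupport χ) (hs : tsupport χ ⊆ ball k) :
    HasCompactSupport (fun y : ball k => χ y.1) := by
  have h1 : IsCompact ((Subtype.val : ball k → Fin n → ℂ) ⁻¹' tsupport χ) :=
    Topology.IsInducing.subtypeVal.isCompact_preimage' hc (by
      rw [Subtype.range_coe]
      exact hs)
  refine HasCompactSupport.of_support_subset_isCompact h1 fun y hy => ?_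
  exact subset_tsupport χ hy

end supp

variable {k : Fin (n + 1) → ℝ} (hs : Jac.Sg k)

include hs

/-- a weight of `Γ'` gives an abstract weight for `Γ'` as a subgroup of `Γ`. -/
theorem isWeight_sub {Γ Γ' : Subgroup (SLn n)} (hΓ : ∀ g ∈ Γ, Jac.IsU k g.1) (hle : Γ' ≤ Γ)
    {χ : (Fin n → ℂ) → ℝ} (hχ : IsWt k Γ' χ) :
    letI := mulActionBall hs Γ hΓ
    IsWeight (Γ'.subgroupOf Γ) (fun y : ball k => χ y.1) := by
  let _ := mulActionBall hs Γ hΓ
  refine ⟨hχ.cont.comp continuous_subtype_val, comp_restrict hχ.comp hχ.supp,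
    fun y => hχ.nonneg _, fun y => ?_⟩
  have h1 := hχ.sum y.1 y.2
  have h2 := (Equiv.hasSum_iff (Subgroup.subgroupOfEquivOfLe hle).toEquiv
    (f := fun g : Γ' => χ (actC g.1 y.1)) (a := 1)).2 h1
  exact h2

/-- a weight of `Γ` gives an abstract weight. -/
theorem isWeight_of_isWt {Γ : Subgroup (SLn n)} (hΓ : ∀ g ∈ Γ, Jac.IsU k g.1)
    {χ : (Fin n → ℂ) → ℝ} (hχ : IsWt k Γ χ) :
    letI := mulActionBall hs Γ hΓ
    IsWeight Γ (fun y : ball k => χ y.1) := by
  let _ := mulActionBall hs Γ hΓ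
  exact ⟨hχ.cont.comp continuous_subtype_val, comp_restrict hχ.comp hχ.supp,
    fun y => hχ.nonneg _, fun y => hχ.sum y.1 y.2⟩

open Classical in
/-- an abstract weight, extended by zero. -/
theorem isWt_of_isWeight {Γ : Subgroup (SLn n)} (hΓ : ∀ g ∈ Γ, Jac.IsU k g.1)
    {χ : ball k → ℝ} (hχ : letI := mulActionBall hs Γ hΓ; IsWeight Γ χ) :
    IsWt k Γ (fun y => if h : y ∈ ball k then χ ⟨y, h⟩ else 0) := by
  let _ := mulActionBall hs Γ hΓ
  have hχ' : IsWeight Γ χ := hχ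
  set χ' : (Fin n → ℂ) → ℝ := fun y => if h : y ∈ ball k then χ ⟨y, h⟩ else 0 with hdef
  have hK : IsCompact ((Subtype.val : ball k → Fin n → ℂ) '' tsupport χ) :=
    IsCompact.image hχ'.supp continuous_subtype_val
  have hsub : Function.support χ' ⊆ (Subtype.val : ball k → Fin n → ℂ) '' tsupport χ := by
    intro y hy
    have h1 : y ∈ ball k := by
      by_contra h2
      exact hy (dif_neg h2)
    have h2 : χ' y = χ ⟨y, h1⟩ := dif_pos h1
    refine ⟨⟨y, h1⟩, subset_tsupport χ ?_, rfl⟩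
    have h3 : χ' y ≠ 0 := hy
    rw [h2] at h3
    exact h3
  have hts : tsupport χ' ⊆ (Subtype.val : ball k → Fin n → ℂ) '' tsupport χ :=
    closure_minimal hsub hK.isClosed
  have hin : tsupport χ' ⊆ ball k := by
    refine hts.trans ?_
    rintro _ ⟨y, _, rfl⟩
    exact y.2
  refine ⟨?_, HasCompactSupport.of_support_subset_isCompact hK hsub, hin, fun y => ?_,
    fun y hy => ?_⟩
  · -- continuity
    rw [continuous_iff_continuousAt]
    intro y
    by_cases hy : y ∈ ball k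
    · have h1 : ContinuousAt (χ' ∘ (Subtype.val : ball k → Fin n → ℂ)) ⟨y, hy⟩ := by
        have h2 : χ' ∘ (Subtype.val : ball k → Fin n → ℂ) = χ := by
          funext z
          exact dif_pos z.2
        rw [h2]
        exact hχ'.cont.continuousAt
      exact ((ball_isOpen k).isOpenEmbedding_subtypeVal.continuousAt_iff
        (g := χ') (x := ⟨y, hy⟩)).1 h1
    · have h1 : y ∈ (tsupport χ')ᶜ := fun h => hy (hin h)
      have h2 : χ' =ᶠ[𝓝 y] fun _ => 0 := by
        filter_upwards [(isClosed_tsupport χ').isOpen_compl.mem_nhds h1] with z hz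
        exact image_eq_zero_of_notMem_tsupport hz
      exact continuousAt_const.congr h2.symm
  · simp only [hdef]
    split_ifs with h
    · exact hχ'.nonneg _
    · exact le_refl 0
  · have h1 := hχ'.sum ⟨y, hy⟩
    have h2 : (fun g : Γ => χ (g • (⟨y, hy⟩ : ball k))) = fun g : Γ => χ' (actC g.1 y) := by
      funext g
      have h3 : actC g.1 y ∈ ball k := actC_mem hs (hΓ g.1 g.2) hy
      have h4 : χ' (actC g.1 y) = χ ⟨actC g.1 y, h3⟩ := dif_pos h3
      rw [h4]
      rfl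
    rw [h2] at h1
    exact h1

/-- proper discontinuity. -/
theorem pdisc_of {Γ : Subgroup (SLn n)} (hΓ : ∀ g ∈ Γ, Jac.IsU k g.1)
    (hpd : ∀ C : Set (Fin n → ℂ), IsCompact C → C ⊆ ball k →
      {g : Γ | ∃ y ∈ C, actC g.1 y ∈ C}.Finite) :
    letI := mulActionBall hs Γ hΓ
    PDisc Γ (ball k) := by
  let _ := mulActionBall hs Γ hΓ
  intro K hK
  refine (hpd ((Subtype.val : ball k → Fin n → ℂ) '' K) (hK.image continuous_subtype_val) ?_).subset ?_
  · rintro _ ⟨y, _, rfl⟩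
    exact y.2
  · rintro g ⟨y, hy, hgy⟩
    exact ⟨y.1, ⟨y, hy, rfl⟩, ⟨g • y, hgy, rfl⟩⟩

/-- cocompactness. -/
theorem cocpt_of {Γ : Subgroup (SLn n)} (hΓ : ∀ g ∈ Γ, Jac.IsU k g.1) (hc : Cocompact k Γ) :
    letI := mulActionBall hs Γ hΓ
    Cocpt Γ (ball k) := by
  let _ := mulActionBall hs Γ hΓ
  obtain ⟨C, hC, hsub, hcov⟩ := hc
  refine ⟨(Subtype.val : ball k → Fin n → ℂ) ⁻¹' C,
    Topology.IsInducing.subtypeVal.isCompact_preimage' hC (by
      rw [Subtype.range_coe]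
      exact hsub), fun y => ?_⟩
  obtain ⟨g, hg, hgy⟩ := hcov y.1 y.2
  exact ⟨⟨g, hg⟩, hgy⟩

omit hs in
theorem pdisc_sub {G X : Type*} [Group G] [MulAction G X] [TopologicalSpace X] (H : Subgroup G)
    (hp : PDisc G X) : PDisc H X := by
  intro K hK
  exact Set.Finite.preimage (f := (Subtype.val : H → G)) Subtype.val_injective.injOn (hp K hK)

/-- a properly discontinuous group is countable. -/
theorem countable_of {Γ : Subgroup (SLn n)} (hΓ : ∀ g ∈ Γ, Jac.IsU k g.1)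
    (hpd : letI := mulActionBall hs Γ hΓ; PDisc Γ (ball k)) : Countable Γ := by
  let _ := mulActionBall hs Γ hΓ
  have hpd' : PDisc Γ (ball k) := hpd
  have hne : Nonempty (ball k) := by
    refine ⟨⟨0, ?_⟩⟩
    have := hs.neg
    simp only [ball, Set.mem_ofPred_eq]
    simpa using this
  let y0 : ball k := Classical.choice hne
  let E : CompactExhaustion (ball k) := default
  have h1 : (Set.univ : Set Γ) = ⋃ m : ℕ, {g : Γ | ∃ x ∈ E m, g • x ∈ E m} := by
    refine (Set.eq_univ_of_forall fun g => ?_).symm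
    obtain ⟨p, hp⟩ := E.exists_mem y0
    obtain ⟨m, hm⟩ := E.exists_mem (g • y0)
    refine Set.mem_iUnion.2 ⟨max p m, y0, ?_, ?_⟩
    · exact E.subset (le_max_left _ _) hp
    · exact E.subset (le_max_right _ _) hm
  have h2 : (Set.univ : Set Γ).Countable := by
    rw [h1]
    exact Set.countable_iUnion fun m => (hpd' (E m) (E.isCompact m)).countable
  exact Set.countable_univ_iff.1 h2

section arith

variable {F : Type} [Field F] {v : F →+* ℝ} {D : F} {h : Fin (n + 1) → F}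

omit hs in
/-- two arithmetic groups, one in the other: finite index. -/
theorem finiteIndex_of {Γ Γ' : Subgroup (SLn n)} (hΓ : IsArith v D h Γ) (hΓ' : IsArith v D h Γ') :
    (Γ'.subgroupOf Γ).FiniteIndex := by
  classical
  obtain ⟨S, hS, hcov⟩ := hΓ'.fin
  have h1 : ∀ g : Γ, ∃ t : S, ∃ γ ∈ Γ', (g.1)⁻¹ = γ * t.1 := by
    intro g
    obtain ⟨γ, hγ, t, ht, e⟩ := hcov (g.1)⁻¹ (hΓ.le _ (Γ.inv_mem g.2))
    exact ⟨⟨t, ht⟩, γ, hγ, e⟩
  choose f hf using h1
  have hfin : Finite S := hS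
  have hinj : Function.Injective (fun q : Γ ⧸ Γ'.subgroupOf Γ => f q.out) := by
    intro q q' hqq
    simp only at hqq
    obtain ⟨γ, hγ, e⟩ := hf q.out
    obtain ⟨γ', hγ', e'⟩ := hf q'.out
    rw [← q.out_eq', ← q'.out_eq']
    rw [Quotient.eq'', QuotientGroup.leftRel_apply, Subgroup.mem_subgroupOf]
    rw [hqq] at e
    have h3 : ((q.out⁻¹ * q'.out : Γ) : SLn n) = γ * γ'⁻¹ := by
      have h4 : (((q.out⁻¹ * q'.out : Γ)) : SLn n) = (q.out.1)⁻¹ * ((q'.out.1)⁻¹)⁻¹ := by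
        rw [inv_inv]
        rfl
      rw [h4, e, e']
      group
    rw [h3]
    exact Γ'.mul_mem hγ (Γ'.inv_mem hγ')
  have hfinq : Finite (Γ ⧸ Γ'.subgroupOf Γ) := Finite.of_injective _ hinj
  exact Subgroup.finiteIndex_of_finite_quotient

omit hs in
/-- the intersection of two arithmetic groups is arithmetic. -/
theorem isArith_inf {Γ Γ' : Subgroup (SLn n)} (hΓ : IsArith v D h Γ) (hΓ' : IsArith v D h Γ') :
    IsArith v D h (Γ ⊓ Γ') := by
  classical
  refine ⟨fun g hg => hΓ.le g hg.1, ?_⟩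
  obtain ⟨S, hS, hcov⟩ := hΓ.fin
  obtain ⟨S', hS', hcov'⟩ := hΓ'.fin
  -- for each pair of cosets choose a representative, if there is one
  let P : SLn n × SLn n → SLn n → Prop := fun t g =>
    InSU v D h g ∧ (∃ γ ∈ Γ, g = γ * t.1) ∧ ∃ γ ∈ Γ', g = γ * t.2
  let r : SLn n × SLn n → SLn n := fun t => if H : ∃ g, P t g then H.choose else 1
  refine ⟨r '' (S ×ˢ S'), (hS.prod hS').image r, fun g hg => ?_⟩
  obtain ⟨γ, hγ, t, ht, e⟩ := hcov g hg
  obtain ⟨γ', hγ', t', ht', e'⟩ := hcov' g hg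
  have H : ∃ g, P (t, t') g := ⟨g, hg, ⟨γ, hγ, e⟩, ⟨γ', hγ', e'⟩⟩
  obtain ⟨_, ⟨δ, hδ, d⟩, ⟨δ', hδ', d'⟩⟩ := H.choose_spec
  have hr : r (t, t') = H.choose := dif_pos H
  refine ⟨g * (r (t, t'))⁻¹, ⟨?_, ?_⟩, r (t, t'), ⟨(t, t'), ⟨ht, ht'⟩, rfl⟩, ?_⟩
  · have h3 : g * (r (t, t'))⁻¹ = γ * δ⁻¹ := by
      rw [hr, d, e]
      group
    rw [h3]
    exact Γ.mul_mem hγ (Γ.inv_mem hδ)
  · have h3 : g * (r (t, t'))⁻¹ = γ' * δ'⁻¹ := by
      rw [hr, d', e']
      group
    rw [h3]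
    exact Γ'.mul_mem hγ' (Γ'.inv_mem hδ')
  · group

end arith

end

end Pool.Agent.CMN.FX
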