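import Pool.Agent.Lib.CMN.Api
set_option autoImplicit false

/-!
# Tank CMN, row EST (all `n`)
-/

open scoped ComplexConjugate Matrix
open Complex

namespace Pool.Agent.CMN

variable {n : ℕ}

namespace EstA

theorem re_pos {k : Fin (n + 1) → ℝ} (hk : Sg k) {y : Fin n → ℂ} (hy : y ∈ ball k) :
    0 < (-∑ j, (k j : ℂ) * hat y j ^ 2).re := by
  have hy' : ∑ j : Fin n, k j.castSucc * ‖y j‖ ^ 2 + k (Fin.last n) < 0 := hy
  rw [sum_hat_sq]
  simp only [Complex.neg_re, Complex.add_re, Complex.re_sum, Complex.ofReal_re]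
  have h1 : ∀ j : Fin n, ((k j.castSucc : ℂ) * y j ^ 2).re ≤ k j.castSucc * ‖y j‖ ^ 2 := by
    intro j
    rw [Complex.re_ofReal_mul]
    refine mul_le_mul_of_nonneg_left ?_ (hk.pos j).le
    have := Complex.re_le_norm (y j ^ 2)
    rwa [norm_pow] at this
  have h2 := Finset.sum_le_sum fun j (_ : j ∈ Finset.univ) => h1 j
  linarith

theorem w_sq (k : Fin (n + 1) → ℝ) (y : Fin n → ℂ) :
    w k y ^ 2 = -∑ j, (k j : ℂ) * hat y j ^ 2 := by
  unfold w
  have h : (1 / 2 : ℂ) = ((2 : ℕ) : ℂ)⁻¹ := by norm_num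
  rw [h]
  exact Complex.cpow_nat_inv_pow _ two_ne_zero

theorem w_ne {k : Fin (n + 1) → ℝ} (hk : Sg k) {y : Fin n → ℂ} (hy : y ∈ ball k) :
    w k y ≠ 0 := by
  intro h
  have h2 := w_sq k y
  rw [h] at h2
  have h3 := re_pos hk hy
  rw [← h2] at h3
  simp at h3

theorem hat_cont (j : Fin (n + 1)) : Continuous fun y : Fin n → ℂ => hat y j :=
  (continuous_apply j).comp continuous_hat

theorem w_cont {k : Fin (n + 1) → ℝ} (hk : Sg k) : ContinuousOn (w k) (ball k) := by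
  unfold w
  refine ContinuousOn.cpow (Continuous.continuousOn ?_) continuousOn_const ?_
  · have := hat_cont (n := n)
    fun_prop
  · intro y hy
    exact Or.inl (re_pos hk hy)

theorem pr_cont (k : Fin (n + 1) → ℝ) :
    Continuous fun p : (Fin (n + 1) → ℝ) × (Fin n → ℂ) => pr k p.1 p.2 := by
  unfold pr
  refine continuous_finsetSum _ fun j _ => ?_
  have := (hat_cont j).comp (continuous_snd : Continuous fun p : (Fin (n + 1) → ℝ) × (Fin n → ℂ) =>
    p.2)
  exact (by fun_prop : Continuous fun p : (Fin (n + 1) → ℝ) × (Fin n → ℂ) =>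
    (k j : ℂ) * (p.1 j : ℂ)).mul this

theorem s_cont2 {k : Fin (n + 1) → ℝ} (hk : Sg k) :
    ContinuousOn (fun p : (Fin (n + 1) → ℝ) × (Fin n → ℂ) => s k p.1 p.2)
      (Set.univ ×ˢ ball k) := by
  unfold s
  refine ContinuousOn.div (pr_cont k).continuousOn ?_ ?_
  · exact (w_cont hk).comp continuous_snd.continuousOn fun p hp => hp.2
  · intro p hp
    exact w_ne hk hp.2

theorem ds_cont2 {k : Fin (n + 1) → ℝ} (hk : Sg k) (j : Fin n) :
    ContinuousOn (fun p : (Fin (n + 1) → ℝ) × (Fin n → ℂ) => ds k p.1 j p.2)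
      (Set.univ ×ˢ ball k) := by
  have hw : ContinuousOn (fun p : (Fin (n + 1) → ℝ) × (Fin n → ℂ) => w k p.2)
      (Set.univ ×ˢ ball k) :=
    (w_cont hk).comp continuous_snd.continuousOn fun p hp => hp.2
  unfold ds
  refine ContinuousOn.add (ContinuousOn.div ?_ hw fun p hp => w_ne hk hp.2)
    (ContinuousOn.div ?_ (hw.pow 3) fun p hp => pow_ne_zero _ (w_ne hk hp.2))
  · refine Continuous.continuousOn ?_
    fun_prop
  · refine Continuous.continuousOn ?_
    exact (pr_cont k).mul (by fun_prop)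

theorem ident (k x : Fin (n + 1) → ℝ) (z : Fin (n + 1) → ℂ) (m c : ℂ)
    (hc : c = ∑ j, (k j : ℂ) * (x j : ℂ) * z j) :
    (m * conj m * ((∑ j, k j * x j * x j : ℝ) : ℂ) + 2 * c ^ 2 * conj m).re =
      ∑ j, k j * normSq (m * x j + c * z j) - normSq c * ∑ j, k j * normSq (z j) := by
  have h1 : ∀ j, k j * normSq (m * x j + c * z j) = normSq m * (k j * x j * x j) +
      normSq c * (k j * normSq (z j)) +
      2 * (m * conj c * conj ((k j : ℂ) * (x j : ℂ) * z j)).re := by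
    intro j
    simp only [Complex.normSq_apply, Complex.mul_re, Complex.mul_im, Complex.add_re,
      Complex.add_im, Complex.ofReal_re, Complex.ofReal_im, Complex.conj_re, Complex.conj_im]
    ring
  rw [Finset.sum_congr rfl fun j _ => h1 j, Finset.sum_add_distrib, Finset.sum_add_distrib,
    ← Finset.mul_sum, ← Finset.mul_sum, ← Finset.mul_sum, ← Complex.re_sum, ← Finset.mul_sum,
    ← map_sum, ← hc]
  simp only [Complex.normSq_apply, pow_two, Complex.mul_re, Complex.mul_im, Complex.add_re,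
    Complex.ofReal_re, Complex.ofReal_im, Complex.conj_re, Complex.conj_im,
    Complex.re_ofNat, Complex.im_ofNat]
  ring

/-- Cauchy-Schwarz -/
theorem cs (k : Fin n → ℝ) (hk : ∀ j, 0 < k j) (z y : Fin n → ℂ) :
    normSq (∑ j, (k j : ℂ) * z j * y j) ≤
      (∑ j, k j * normSq (z j)) * ∑ j, k j * normSq (y j) := by
  have h1 : ‖∑ j, (k j : ℂ) * z j * y j‖ ≤ ∑ j, k j * ‖z j‖ * ‖y j‖ := by
    refine (norm_sum_le _ _).trans (le_of_eq ?_)
    refine Finset.sum_congr rfl fun j _ => ?_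
    rw [norm_mul, norm_mul, Complex.norm_real, Real.norm_of_nonneg (hk j).le]
  have h2 : (∑ j, k j * ‖z j‖ * ‖y j‖) ^ 2 ≤
      (∑ j, k j * normSq (z j)) * ∑ j, k j * normSq (y j) := by
    refine Finset.sum_sq_le_sum_mul_sum_of_sq_le_mul _ (fun j _ => ?_) (fun j _ => ?_)
      (fun j _ => le_of_eq ?_)
    · exact mul_nonneg (hk j).le (Complex.normSq_nonneg _)
    · exact mul_nonneg (hk j).le (Complex.normSq_nonneg _)
    · rw [Complex.normSq_eq_norm_sq, Complex.normSq_eq_norm_sq]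
      ring
  rw [Complex.normSq_eq_norm_sq]
  exact (pow_le_pow_left₀ (norm_nonneg _) h1 2).trans h2

/-- positivity for one vector -/
theorem pos_one {k : Fin (n + 1) → ℝ} (hk : Sg k) {y : Fin n → ℂ}
    (hy : y ∈ ball k) (x : Fin (n + 1) → ℝ) (hx : x ≠ 0) :
    0 < (((∑ j, k j * x j * x j : ℝ) : ℂ) + 2 * s k x y ^ 2).re := by
  have hy' : ∑ j : Fin n, k j.castSucc * ‖y j‖ ^ 2 + k (Fin.last n) < 0 := hy
  obtain ⟨m, hm⟩ : ∃ m : ℂ, m = -∑ j, (k j : ℂ) * hat y j ^ 2 := ⟨_, rfl⟩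
  have hw2 : w k y ^ 2 = m := by rw [w_sq, hm]
  have hm0 : m ≠ 0 := by
    rw [← hw2]
    exact pow_ne_zero _ (w_ne hk hy)
  obtain ⟨c, hc⟩ : ∃ c : ℂ, c = ∑ j, (k j : ℂ) * (x j : ℂ) * hat y j := ⟨_, rfl⟩
  have hs : s k x y ^ 2 = c ^ 2 / m := by
    unfold s pr
    rw [div_pow, hw2, hc]
  obtain ⟨z, hz⟩ : ∃ z : Fin (n + 1) → ℂ, z = fun j => m * x j + c * hat y j := ⟨_, rfl⟩
  have horth : ∑ j, (k j : ℂ) * z j * hat y j = 0 := by
    have e1 : ∀ j, (k j : ℂ) * z j * hat y j = m * ((k j : ℂ) * (x j : ℂ) * hat y j) +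
        c * ((k j : ℂ) * hat y j ^ 2) := by
      intro j
      rw [hz]
      ring
    rw [Finset.sum_congr rfl fun j _ => e1 j, Finset.sum_add_distrib, ← Finset.mul_sum,
      ← Finset.mul_sum, ← hc]
    have e2 : ∑ j, (k j : ℂ) * hat y j ^ 2 = -m := by rw [hm, neg_neg]
    rw [e2]
    ring
  rw [Fin.sum_univ_castSucc] at horth
  simp only [hat_castSucc, hat_last, mul_one] at horth
  -- the quantities
  obtain ⟨A, hA⟩ : ∃ A : ℝ, A = ∑ j : Fin n, k j.castSucc * normSq (z j.castSucc) := ⟨_, rfl⟩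
  obtain ⟨B, hB⟩ : ∃ B : ℝ, B = ∑ j : Fin n, k j.castSucc * normSq (y j) := ⟨_, rfl⟩
  have hA0 : 0 ≤ A := by
    rw [hA]
    exact Finset.sum_nonneg fun j _ => mul_nonneg (hk.pos j).le (Complex.normSq_nonneg _)
  have hBlt : B + k (Fin.last n) < 0 := by
    rw [hB]
    simpa only [Complex.normSq_eq_norm_sq] using hy'
  have hcs : k (Fin.last n) ^ 2 * normSq (z (Fin.last n)) ≤ A * B := by
    have h1 := cs (fun j : Fin n => k j.castSucc) (fun j => hk.pos j) (fun j => z j.castSucc) y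
    have h2 : ∑ j : Fin n, (k j.castSucc : ℂ) * z j.castSucc * y j =
        -((k (Fin.last n) : ℂ) * z (Fin.last n)) := by linear_combination horth
    rw [h2, Complex.normSq_neg, Complex.normSq_mul, Complex.normSq_ofReal, ← hA, ← hB] at h1
    nlinarith [h1]
  have key : normSq m * (((∑ j, k j * x j * x j : ℝ) : ℂ) + 2 * s k x y ^ 2).re =
      A + k (Fin.last n) * normSq (z (Fin.last n)) -
        normSq c * (B + k (Fin.last n)) := by
    have e := ident k x (hat y) m c hc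
    have e3 : ∑ j, k j * normSq (m * x j + c * hat y j) =
        A + k (Fin.last n) * normSq (z (Fin.last n)) := by
      rw [Fin.sum_univ_castSucc, hA, hz]
    have e4 : ∑ j, k j * normSq (hat y j) = B + k (Fin.last n) := by
      rw [Fin.sum_univ_castSucc, hB]
      simp
    rw [e3, e4] at e
    rw [← e, hs, ← Complex.re_ofReal_mul, ← Complex.mul_conj]
    congr 1
    field_simp
  have hK : 0 < -k (Fin.last n) := by linarith [hk.neg]
  have hC0 : 0 ≤ normSq c := Complex.normSq_nonneg _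
  obtain ⟨K, hKd⟩ : ∃ K : ℝ, K = -k (Fin.last n) := ⟨_, rfl⟩
  have hkl : k (Fin.last n) = -K := by rw [hKd, neg_neg]
  rw [hkl] at key hcs hBlt
  rw [← hKd] at hK
  have hlow : A * (K - B) + K * (normSq c * (K - B)) ≤
      K * (normSq m * (((∑ j, k j * x j * x j : ℝ) : ℂ) + 2 * s k x y ^ 2).re) := by
    rw [key]
    nlinarith [hcs]
  have hN : 0 < K - B := by linarith
  have hpos : 0 < A * (K - B) + K * (normSq c * (K - B)) := by
    have t1 : 0 ≤ A * (K - B) := mul_nonneg hA0 hN.le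
    have t2 : 0 ≤ K * (normSq c * (K - B)) := by positivity
    by_contra hcon
    have f1 : A * (K - B) = 0 := by linarith
    have f2 : K * (normSq c * (K - B)) = 0 := by linarith
    have g1 : A = 0 := (mul_eq_zero.mp f1).resolve_right hN.ne'
    have g2 : c = 0 := by
      have h5 := (mul_eq_zero.mp f2).resolve_left hK.ne'
      exact Complex.normSq_eq_zero.mp ((mul_eq_zero.mp h5).resolve_right hN.ne')
    have hx1 : ∀ j : Fin n, x j.castSucc = 0 := by
      intro j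
      have h6 : k j.castSucc * normSq (z j.castSucc) = 0 := by
        rw [hA] at g1
        exact (Finset.sum_eq_zero_iff_of_nonneg fun j _ =>
          mul_nonneg (hk.pos j).le (Complex.normSq_nonneg _)).1 g1 j (Finset.mem_univ j)
      have h7 : z j.castSucc = 0 :=
        Complex.normSq_eq_zero.mp ((mul_eq_zero.mp h6).resolve_left (hk.pos j).ne')
      rw [hz] at h7
      simp only [g2, zero_mul, add_zero] at h7
      exact_mod_cast (mul_eq_zero.mp h7).resolve_left hm0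
    have hx2 : x (Fin.last n) = 0 := by
      rw [g2, Fin.sum_univ_castSucc] at hc
      simp only [hx1, Complex.ofReal_zero, mul_zero, zero_mul, Finset.sum_const_zero, zero_add,
        hat_last, mul_one] at hc
      have h8 := (mul_eq_zero.mp hc.symm).resolve_left (by exact_mod_cast hk.neg.ne)
      exact_mod_cast h8
    apply hx
    funext j
    refine Fin.lastCases ?_ (fun i => ?_) j
    · exact hx2
    · exact hx1 i
  have hfin := lt_of_lt_of_le hpos hlow
  have h8 := pos_of_mul_pos_right hfin hK.le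
  exact pos_of_mul_pos_right h8 (Complex.normSq_nonneg _)

theorem quad_smul (k x : Fin (n + 1) → ℝ) (r : ℝ) (y : Fin n → ℂ) :
    (((∑ j, k j * (r * x j) * (r * x j) : ℝ) : ℂ) + 2 * s k (fun j => r * x j) y ^ 2).re =
      r ^ 2 * (((∑ j, k j * x j * x j : ℝ) : ℂ) + 2 * s k x y ^ 2).re := by
  have h1 : s k (fun j => r * x j) y = (r : ℂ) * s k x y := by
    unfold s pr
    rw [← mul_div_assoc, Finset.mul_sum]
    congr 1
    refine Finset.sum_congr rfl fun j _ => ?_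
    push_cast
    ring
  have h2 : ∑ j, k j * (r * x j) * (r * x j) = r ^ 2 * ∑ j, k j * x j * x j := by
    rw [Finset.mul_sum]
    refine Finset.sum_congr rfl fun j _ => ?_
    ring
  rw [h1, h2]
  have h3 : (((r ^ 2 * ∑ j, k j * x j * x j : ℝ) : ℂ) + 2 * ((r : ℂ) * s k x y) ^ 2) =
      ((r ^ 2 : ℝ) : ℂ) * (((∑ j, k j * x j * x j : ℝ) : ℂ) + 2 * s k x y ^ 2) := by
    rw [Complex.ofReal_mul]
    push_cast
    ring
  rw [h3, Complex.re_ofReal_mul]

theorem ds_smul (k x : Fin (n + 1) → ℝ) (r : ℝ) (j : Fin n) (y : Fin n → ℂ) :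
    ds k (fun j => r * x j) j y = (r : ℂ) * ds k x j y := by
  have h1 : pr k (fun j => r * x j) y = (r : ℂ) * pr k x y := by
    unfold pr
    rw [Finset.mul_sum]
    refine Finset.sum_congr rfl fun j _ => ?_
    push_cast
    ring
  unfold ds
  rw [h1]
  push_cast
  ring

/-- the unit sphere -/
def sph (n : ℕ) : Set (Fin (n + 1) → ℝ) := {x | ∑ j, x j ^ 2 = 1}

theorem sph_compact : IsCompact (sph n) := by
  refine Metric.isCompact_of_isClosed_isBounded ?_ ?_
  · exact isClosed_eq (by fun_prop) continuous_const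
  · refine (Metric.isBounded_closedBall (x := (0 : Fin (n + 1) → ℝ)) (r := 1)).subset ?_
    intro x hx
    rw [mem_closedBall_zero_iff, pi_norm_le_iff_of_nonneg zero_le_one]
    intro j
    have h1 : x j ^ 2 ≤ ∑ i, x i ^ 2 :=
      Finset.single_le_sum (f := fun i => x i ^ 2) (fun i _ => sq_nonneg _) (Finset.mem_univ j)
    have h2 : ∑ i, x i ^ 2 = 1 := hx
    rw [Real.norm_eq_abs]
    rw [h2] at h1
    exact abs_le_one_iff_mul_self_le_one.mpr (by nlinarith)

theorem sph_ne {x : Fin (n + 1) → ℝ} (hx : x ∈ sph n) : x ≠ 0 := by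
  rintro rfl
  have : ∑ j : Fin (n + 1), (0 : Fin (n + 1) → ℝ) j ^ 2 = 1 := hx
  simp at this

theorem scale {x : Fin (n + 1) → ℝ} (hx : x ≠ 0) : ∃ (r : ℝ) (u : Fin (n + 1) → ℝ), 0 < r ∧
    u ∈ sph n ∧ x = (fun j => r * u j) ∧ r ^ 2 = ∑ j, x j ^ 2 := by
  have hpos : 0 < ∑ j, x j ^ 2 := by
    obtain ⟨j, hj⟩ : ∃ j, x j ≠ 0 := by
      by_contra h
      push Not at h
      exact hx (funext h)
    exact Finset.sum_pos' (fun i _ => sq_nonneg _) ⟨j, Finset.mem_univ _, by positivity⟩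
  refine ⟨√(∑ j, x j ^ 2), fun j => x j / √(∑ j, x j ^ 2), Real.sqrt_pos.mpr hpos, ?_, ?_,
    Real.sq_sqrt hpos.le⟩
  · change ∑ j, (x j / √(∑ j, x j ^ 2)) ^ 2 = 1
    have h1 : ∀ j, (x j / √(∑ j, x j ^ 2)) ^ 2 = x j ^ 2 / ∑ j, x j ^ 2 := by
      intro j
      rw [div_pow, Real.sq_sqrt hpos.le]
    rw [Finset.sum_congr rfl fun j _ => h1 j, ← Finset.sum_div]
    exact div_self hpos.ne'
  · funext j
    have := (Real.sqrt_pos.mpr hpos).ne'
    field_simp

theorem lower {k : Fin (n + 1) → ℝ} (hk : Sg k)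
    {C : Set (Fin n → ℂ)} (hC : IsCompact C) (hCb : C ⊆ ball k) :
    ∃ c : ℝ, 0 < c ∧ ∀ y ∈ C, ∀ x : Fin (n + 1) → ℝ,
      c * ∑ j, x j ^ 2 ≤ (((∑ j, k j * x j * x j : ℝ) : ℂ) + 2 * s k x y ^ 2).re := by
  rcases C.eq_empty_or_nonempty with rfl | hne
  · exact ⟨1, one_pos, fun y hy => absurd hy (Set.notMem_empty y)⟩
  have hsne : (sph n).Nonempty := ⟨Pi.single 0 1, by
    change ∑ j : Fin (n + 1), (Pi.single 0 1 : Fin (n + 1) → ℝ) j ^ 2 = 1
    rw [Finset.sum_eq_single 0]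
    · simp
    · intro j _ hj
      simp [hj]
    · simp⟩
  have hcont : ContinuousOn (fun p : (Fin (n + 1) → ℝ) × (Fin n → ℂ) =>
      (((∑ j, k j * p.1 j * p.1 j : ℝ) : ℂ) + 2 * s k p.1 p.2 ^ 2).re) (sph n ×ˢ C) := by
    have hs := (s_cont2 hk).mono (t := sph n ×ˢ C) (Set.prod_mono (Set.subset_univ _) hCb)
    refine Complex.continuous_re.comp_continuousOn ?_
    refine ContinuousOn.add (Continuous.continuousOn (by fun_prop)) ?_
    exact continuousOn_const.mul (hs.pow 2)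
  obtain ⟨p, hp, hmin⟩ := (sph_compact.prod hC).exists_isMinOn (hsne.prod hne) hcont
  refine ⟨_, pos_one hk (hCb hp.2) p.1 (sph_ne hp.1), fun y hy x => ?_⟩
  rcases eq_or_ne x 0 with rfl | hx
  · simp [s, pr]
  obtain ⟨r, u, hr, hu, rfl, hr2⟩ := scale hx
  rw [quad_smul, ← hr2, mul_comm]
  exact mul_le_mul_of_nonneg_left (hmin (a := (u, y)) ⟨hu, hy⟩) (sq_nonneg r)

theorem upper {k : Fin (n + 1) → ℝ} (hk : Sg k)
    {C : Set (Fin n → ℂ)} (hC : IsCompact C) (hCb : C ⊆ ball k) :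
    ∃ c : ℝ, 0 < c ∧ ∀ y ∈ C, ∀ (x : Fin (n + 1) → ℝ) (j : Fin n),
      ‖ds k x j y‖ ≤ c * √(∑ j, x j ^ 2) := by
  have hb : ∀ j : Fin n, ∃ M : ℝ, ∀ p ∈ sph n ×ˢ C, ‖ds k p.1 j p.2‖ ≤ M := by
    intro j
    have hs := (ds_cont2 hk j).mono (t := sph n ×ˢ C) (Set.prod_mono (Set.subset_univ _) hCb)
    obtain ⟨M, hM⟩ := (sph_compact.prod hC).exists_bound_of_continuousOn hs
    exact ⟨M, hM⟩
  choose M hM using hb
  refine ⟨∑ j, |M j| + 1, by positivity, fun y hy x j => ?_⟩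
  rcases eq_or_ne x 0 with rfl | hx
  · have : ds k 0 j y = 0 := by simp [ds, pr]
    rw [this]
    simp
  obtain ⟨r, u, hr, hu, rfl, hr2⟩ := scale hx
  rw [ds_smul, ← hr2, Real.sqrt_sq hr.le, norm_mul, Complex.norm_real, Real.norm_eq_abs,
    abs_of_pos hr, mul_comm]
  refine mul_le_mul_of_nonneg_right ?_ hr.le
  refine (hM j (u, y) ⟨hu, hy⟩).trans ?_
  have e0 := le_abs_self (M j)
  have e1 := Finset.single_le_sum (f := fun j => |M j|) (fun i _ => abs_nonneg _)
    (Finset.mem_univ j)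
  linarith

end EstA

theorem est : EST := by
  intro n k hk
  refine ⟨fun y hy => EstA.re_pos hk hy, fun y hy => ⟨EstA.w_ne hk hy, EstA.w_sq k y⟩,
    EstA.w_cont hk, fun x => ⟨?_, fun j => ?_⟩, fun C hC hCb => ?_⟩
  · exact (EstA.s_cont2 hk).comp (f := fun y : Fin n → ℂ => (x, y)) (by fun_prop)
      fun y hy => ⟨Set.mem_univ _, hy⟩
  · exact (EstA.ds_cont2 hk j).comp (f := fun y : Fin n → ℂ => (x, y)) (by fun_prop)
      fun y hy => ⟨Set.mem_univ _, hy⟩
  · obtain ⟨c, hc, hc2⟩ := EstA.lower hk hC hCb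
    obtain ⟨c', hc', hc2'⟩ := EstA.upper hk hC hCb
    exact ⟨c, hc, c', hc', hc2, hc2'⟩

end Pool.Agent.CMN
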