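import Pool.Agent.Lib.CMN.Rows
import Pool.Agent.Lib.CMH.Ten

/-!
# TANK CMN, row TEN: Schwartz-Bruhat functions on `F^(J × (n+1))`: sums, tensors, linear changes of
variables on the rows.  helper44 (after CMH/Ten.lean).
-/

set_option autoImplicit false

namespace Pool.Agent.CMN

open Pool.Agent.CMH.Ten (SBN Cong ind ind_of ind_of_not)

variable {n : ℕ} {F : Type} [Field F] [NumberField F]

theorem isSB_iff {φ : (Fin (n + 1) → F) → ℂ} : IsSB φ ↔ Pool.Agent.CMH.Ten.IsSB φ := by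
  constructor
  · rintro ⟨N, hN, h1, h2⟩
    have hN0 : (N : F) ≠ 0 := Nat.cast_ne_zero.2 hN.ne'
    refine ⟨N, hN, h1, fun x y hy => ?_⟩
    have h3 := h2 x (fun j => y j / (N : F)) hy
    have h4 : (fun j => x j + (N : F) * (y j / (N : F))) = x + y := by
      funext j
      rw [mul_div_cancel₀ _ hN0]
      rfl
    rwa [h4] at h3
  · rintro ⟨N, hN⟩
    have hN0 : (N : F) ≠ 0 := Nat.cast_ne_zero.2 hN.pos.ne'
    refine ⟨N, hN.pos, hN.supp, fun ξ η hη => ?_⟩
    exact hN.per ξ (fun j => (N : F) * η j) fun i => by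
      rw [mul_div_cancel_left₀ _ hN0]
      exact hη i

theorem sbJ_iff {J : Type} [Fintype J] [DecidableEq J] {N : ℕ}
    {φ : (J → Fin (n + 1) → F) → ℂ} :
    SBJ N φ ↔ SBN N (fun z : J × Fin (n + 1) → F => φ (fun i j => z (i, j))) := by
  constructor
  · rintro ⟨hN, h1, h2⟩
    have hN0 : (N : F) ≠ 0 := Nat.cast_ne_zero.2 hN.ne'
    refine ⟨hN, fun x hx p => h1 _ hx p.1 p.2, fun x y hy => ?_⟩
    have h3 := h2 (fun i j => x (i, j)) (fun i j => y (i, j) / (N : F)) fun i j => hy (i, j)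
    have h4 : (fun i j => x (i, j) + (N : F) * (y (i, j) / (N : F))) =
        fun (i : J) (j : Fin (n + 1)) => (x + y) (i, j) := by
      funext i j
      rw [mul_div_cancel₀ _ hN0]
      rfl
    rwa [h4] at h3
  · intro hN
    have hN0 : (N : F) ≠ 0 := Nat.cast_ne_zero.2 hN.pos.ne'
    refine ⟨hN.pos, fun ξ hξ i j => hN.supp (fun p => ξ p.1 p.2) hξ (i, j), fun ξ η hη => ?_⟩
    exact hN.per (fun p => ξ p.1 p.2) (fun p => (N : F) * η p.1 p.2) fun p => by
      rw [mul_div_cancel_left₀ _ hN0]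
      exact hη p.1 p.2

theorem SBJ.of_dvd {J : Type} [Fintype J] [DecidableEq J] {N M : ℕ}
    {φ : (J → Fin (n + 1) → F) → ℂ} (h : SBJ N φ) (hM : 0 < M)
    (hd : N ∣ M) : SBJ M φ := sbJ_iff.2 ((sbJ_iff.1 h).of_dvd hM hd)

theorem IsSB.add {φ ψ : (Fin (n + 1) → F) → ℂ} (h : IsSB φ) (h' : IsSB ψ) :
    IsSB (fun x => φ x + ψ x) := isSB_iff.2 ((isSB_iff.1 h).add (isSB_iff.1 h'))

theorem IsSB.smul {φ : (Fin (n + 1) → F) → ℂ} (h : IsSB φ) (c : ℂ) :
    IsSB (fun x => c * φ x) := isSB_iff.2 ((isSB_iff.1 h).smul c)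

/-- `⊗ φ_i` is Schwartz-Bruhat, for any finite index type -/
theorem exists_SBJ_prod {J : Type} [Fintype J] [DecidableEq J] {φ : J → (Fin (n + 1) → F) → ℂ}
    (h : ∀ i, IsSB (φ i)) :
    ∃ N, SBJ N (fun ξ : J → Fin (n + 1) → F => ∏ i, φ i (ξ i)) := by
  choose N hN using fun i => isSB_iff.1 (h i)
  have hp : 0 < ∏ i, N i := Finset.prod_pos fun i _ => (hN i).pos
  have h0 : ∀ i, SBN (∏ i, N i) (φ i) := fun i =>
    (hN i).of_dvd hp (Finset.dvd_prod_of_mem N (Finset.mem_univ i))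
  refine ⟨∏ i, N i, sbJ_iff.2 ⟨hp, fun x hx p => ?_, fun x y hy => ?_⟩⟩
  · have h2 : φ p.1 (fun j => x (p.1, j)) ≠ 0 := fun h3 =>
      hx (Finset.prod_eq_zero (Finset.mem_univ p.1) h3)
    exact (h0 p.1).supp _ h2 p.2
  · exact Finset.prod_congr rfl fun i _ =>
      (h0 i).per (fun j => x (i, j)) (fun j => y (i, j)) fun j => hy (i, j)

/-- `⊗ φ_i` is Schwartz-Bruhat -/
theorem SBJ.tens {φ : Fin n → (Fin (n + 1) → F) → ℂ} (h : ∀ i, IsSB (φ i)) :
    ∃ N, SBJ N (tens φ) := exists_SBJ_prod h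

/-- a Schwartz-Bruhat function on `F^(J × (n+1))`, `J` not empty, is a finite sum of tensors -/
theorem exists_tensorJ {J : Type} [Fintype J] [DecidableEq J] [Nonempty J] {N : ℕ}
    {φ : (J → Fin (n + 1) → F) → ℂ} (h : SBJ N φ) :
    ∃ (K : ℕ) (ψ : Fin K → J → (Fin (n + 1) → F) → ℂ), (∀ k i, IsSB (ψ k i)) ∧
      ∀ ξ, φ ξ = ∑ k, ∏ i, ψ k i (ξ i) := by
  classical
  obtain ⟨R, hR, hsum⟩ := (sbJ_iff.1 h).eq_sum
  have hpos := h.1
  let i₀ : J := Classical.arbitrary J
  refine ⟨R.card, fun k i => if i = i₀ then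
    (fun x => φ (fun i j => (R.equivFin.symm k).1 (i, j)) *
      ind N (fun j => (R.equivFin.symm k).1 (i, j)) x)
    else ind N (fun j => (R.equivFin.symm k).1 (i, j)), ?_, ?_⟩
  · intro k i
    have h1 := hR _ (R.equivFin.symm k).2
    dsimp only
    by_cases hi : i = i₀
    · rw [if_pos hi]
      exact isSB_iff.2 ⟨N, (SBN.ind hpos fun j => h1 (i, j)).smul _⟩
    · rw [if_neg hi]
      exact isSB_iff.2 ⟨N, SBN.ind hpos fun j => h1 (i, j)⟩
  · intro ξ
    have h1 := hsum (fun p => ξ p.1 p.2)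
    change φ ξ = _ at h1
    rw [h1, ← Finset.sum_coe_sort R, ← R.equivFin.symm.sum_comp]
    refine Finset.sum_congr rfl fun k _ => ?_
    set u := (R.equivFin.symm k).1 with hu
    have e1 : ∀ i, (if i = i₀ then
        (fun x => φ (fun i j => u (i, j)) * ind N (fun j => u (i, j)) x)
        else ind N (fun j => u (i, j))) (ξ i) =
        (if i = i₀ then φ (fun i j => u (i, j)) else 1) * ind N (fun j => u (i, j)) (ξ i) := by
      intro i
      by_cases hi : i = i₀
      · rw [if_pos hi, if_pos hi]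
      · rw [if_neg hi, if_neg hi, one_mul]
    rw [Finset.prod_congr rfl fun i _ => e1 i, Finset.prod_mul_distrib, Finset.prod_ite_eq',
      if_pos (Finset.mem_univ i₀)]
    change φ (fun i j => u (i, j)) * _ = _
    congr 1
    by_cases h2 : ∀ i, Cong N (ξ i) (fun j => u (i, j))
    · have h4 : Cong N (fun p : J × Fin (n + 1) => ξ p.1 p.2) u := fun p => h2 p.1 p.2
      rw [ind_of h4]
      exact (Finset.prod_eq_one fun i _ => ind_of (h2 i)).symm
    · have h4 : ¬ Cong N (fun p : J × Fin (n + 1) => ξ p.1 p.2) u := fun h5 =>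
        h2 fun i j => h5 (i, j)
      rw [ind_of_not h4]
      obtain ⟨i, hi⟩ := not_forall.1 h2
      exact (Finset.prod_eq_zero (Finset.mem_univ i) (ind_of_not hi)).symm

/-- **a Schwartz-Bruhat function on `F^(n × (n+1))` is a finite sum of tensors** -/
theorem exists_tensor {N : ℕ} {φ : (Fin n → Fin (n + 1) → F) → ℂ} (h : SBJ N φ) :
    ∃ (K : ℕ) (ψ : Fin K → Fin n → (Fin (n + 1) → F) → ℂ), (∀ k i, IsSB (ψ k i)) ∧
      ∃ c : Fin K → ℂ, ∀ ξ, φ ξ = ∑ k, c k * tens (ψ k) ξ := by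
  classical
  obtain ⟨R, hR, hsum⟩ := (sbJ_iff.1 h).eq_sum
  have hpos := h.1
  refine ⟨R.card, fun k i => ind N (fun j => (R.equivFin.symm k).1 (i, j)), ?_,
    fun k => φ (fun i j => (R.equivFin.symm k).1 (i, j)), ?_⟩
  · intro k i
    have h1 := hR _ (R.equivFin.symm k).2
    exact isSB_iff.2 ⟨N, SBN.ind hpos fun j => h1 (i, j)⟩
  · intro ξ
    have h1 := hsum (fun p => ξ p.1 p.2)
    change φ ξ = _ at h1
    rw [h1, ← Finset.sum_coe_sort R, ← R.equivFin.symm.sum_comp]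
    refine Finset.sum_congr rfl fun k _ => ?_
    set u := (R.equivFin.symm k).1 with hu
    change φ (fun i j => u (i, j)) * _ = _
    congr 1
    change _ = ∏ i, ind N (fun j => u (i, j)) (ξ i)
    by_cases h2 : ∀ i, Cong N (ξ i) (fun j => u (i, j))
    · have h4 : Cong N (fun p : Fin n × Fin (n + 1) => ξ p.1 p.2) u := fun p => h2 p.1 p.2
      rw [ind_of h4]
      exact (Finset.prod_eq_one fun i _ => ind_of (h2 i)).symm
    · have h4 : ¬ Cong N (fun p : Fin n × Fin (n + 1) => ξ p.1 p.2) u := fun h5 =>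
        h2 fun i j => h5 (i, j)
      rw [ind_of_not h4]
      obtain ⟨i, hi⟩ := not_forall.1 h2
      exact (Finset.prod_eq_zero (Finset.mem_univ i) (ind_of_not hi)).symm

section rows

variable {J : Type} [Fintype J] [DecidableEq J]

omit [NumberField F] [DecidableEq J] in
/-- the action of a matrix on the rows -/
def rowMap (g : Matrix J J F) : (J × Fin (n + 1) → F) →ₗ[F] (J × Fin (n + 1) → F) where
  toFun x p := ∑ k, g p.1 k * x (k, p.2)
  map_add' x y := by
    funext p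
    simp only [Pi.add_apply, mul_add, Finset.sum_add_distrib]
  map_smul' c x := by
    funext p
    simp only [Pi.smul_apply, smul_eq_mul, RingHom.id_apply, Finset.mul_sum]
    exact Finset.sum_congr rfl fun k _ => by ring

omit [NumberField F] in
theorem rowMap_rowMap {g g' : Matrix J J F} (h : g * g' = 1)
    (x : J × Fin (n + 1) → F) : rowMap g (rowMap g' x) = x := by
  funext p
  change ∑ k, g p.1 k * ∑ l, g' k l * x (l, p.2) = x p
  simp only [Finset.mul_sum]
  rw [Finset.sum_comm]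
  have h1 : ∀ l, ∑ k, g p.1 k * (g' k l * x (l, p.2)) =
      (1 : Matrix J J F) p.1 l * x (l, p.2) := by
    intro l
    rw [← h, Matrix.mul_apply, Finset.sum_mul]
    exact Finset.sum_congr rfl fun k _ => by ring
  simp only [h1]
  rw [Finset.sum_eq_single p.1]
  · rw [Matrix.one_apply_eq, one_mul]
  · intro l _ hl
    rw [Matrix.one_apply_ne (Ne.symm hl), zero_mul]
  · exact fun h2 => absurd (Finset.mem_univ _) h2

/-- **changes of variables on the rows** -/
theorem SBJ.comp {N : ℕ} {φ : (J → Fin (n + 1) → F) → ℂ} (h : SBJ N φ)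
    (g g' : Matrix J J F) (hg : g * g' = 1) :
    ∃ M, SBJ M (fun ξ : J → Fin (n + 1) → F => φ (fun i j => ∑ k, g i k * ξ k j)) := by
  have hg' : g' * g = 1 := mul_eq_one_comm.1 hg
  let e : (J × Fin (n + 1) → F) ≃ₗ[F] (J × Fin (n + 1) → F) :=
    LinearEquiv.ofLinearMap (rowMap g) (rowMap g')
      (LinearMap.ext fun x => rowMap_rowMap hg x) (LinearMap.ext fun x => rowMap_rowMap hg' x)
  obtain ⟨M, hM⟩ := Pool.Agent.CMH.Ten.IsSB.comp_linearEquiv ⟨N, sbJ_iff.1 h⟩ e
  exact ⟨M, sbJ_iff.2 hM⟩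

end rows

end Pool.Agent.CMN
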