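import Pool.Agent.Lib.CMN.Rows
import Pool.Agent.Lib.CMN.Api
import Pool.Agent.Lib.CMN.Est
import Pool.Agent.Lib.CMN.Ten
import Pool.Agent.Lib.CMH.Sum1
import Pool.Agent.Lib.CMH.Hol

/-!
# TANK CMN, row HOL: the theta one-forms are holomorphic and closed (all `n`)
-/

set_option autoImplicit false

open Complex Filter Topology

namespace Pool.Agent.CMN

variable {n : ℕ}

/-! ### the functions `w`, `s`, `ds` -/

section deriv

variable (k : Fin (n + 1) → ℝ)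

/-- `∑ k_i y_i dy_i` -/
noncomputable def dq (y : Fin n → ℂ) : (Fin n → ℂ) →L[ℂ] ℂ :=
  ∑ i : Fin n, ((k i.castSucc : ℂ) * y i) • ContinuousLinearMap.proj (R := ℂ) (φ := fun _ => ℂ) i

/-- `∑ k_i x_i dy_i` -/
noncomputable def dpr (x : Fin (n + 1) → ℝ) : (Fin n → ℂ) →L[ℂ] ℂ :=
  ∑ i : Fin n, ((k i.castSucc : ℂ) * (x i.castSucc : ℂ)) •
    ContinuousLinearMap.proj (R := ℂ) (φ := fun _ => ℂ) i

theorem dq_single (y : Fin n → ℂ) (i : Fin n) :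
    dq k y (Pi.single i 1) = (k i.castSucc : ℂ) * y i := by
  rw [dq, sum_apply, Finset.sum_eq_single i]
  · simp
  · intro j _ hj
    simp [Pi.single_eq_of_ne hj]
  · exact fun h => absurd (Finset.mem_univ _) h

theorem dpr_single (x : Fin (n + 1) → ℝ) (i : Fin n) :
    dpr k x (Pi.single i 1) = (k i.castSucc : ℂ) * (x i.castSucc : ℂ) := by
  rw [dpr, sum_apply, Finset.sum_eq_single i]
  · simp
  · intro j _ hj
    simp [Pi.single_eq_of_ne hj]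
  · exact fun h => absurd (Finset.mem_univ _) h

theorem hasFDerivAt_coord (i : Fin n) (y : Fin n → ℂ) : HasFDerivAt (fun y : Fin n → ℂ => y i)
    (ContinuousLinearMap.proj (R := ℂ) (φ := fun _ => ℂ) i) y := hasFDerivAt_apply i y

theorem hasFDerivAt_pr (x : Fin (n + 1) → ℝ) (y : Fin n → ℂ) :
    HasFDerivAt (pr k x) (dpr k x) y := by
  have h1 : pr k x = fun y : Fin n → ℂ => (∑ i : Fin n, ((k i.castSucc : ℂ) *
      (x i.castSucc : ℂ)) * y i) + (k (Fin.last n) : ℂ) * (x (Fin.last n) : ℂ) := by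
    funext y
    exact pr_eq k x y
  rw [h1]
  refine HasFDerivAt.add_const _ ?_
  rw [dpr]
  refine HasFDerivAt.fun_sum fun i _ => ?_
  exact (hasFDerivAt_coord i y).const_mul _

theorem hasFDerivAt_q (y : Fin n → ℂ) :
    HasFDerivAt (fun y : Fin n → ℂ => -∑ j, (k j : ℂ) * hat y j ^ 2) (-((2 : ℂ) • dq k y)) y := by
  have h1 : (fun y : Fin n → ℂ => -∑ j, (k j : ℂ) * hat y j ^ 2) =
      fun y : Fin n → ℂ => -((∑ i : Fin n, (k i.castSucc : ℂ) * y i ^ 2) +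
        (k (Fin.last n) : ℂ)) := by
    funext y
    rw [sum_hat_sq]
  rw [h1]
  refine HasFDerivAt.neg ?_
  refine HasFDerivAt.add_const _ ?_
  rw [dq, Finset.smul_sum]
  refine HasFDerivAt.fun_sum fun i _ => ?_
  have h2 := ((hasFDerivAt_coord i y).pow 2).const_mul (k i.castSucc : ℂ)
  refine h2.congr_fderiv ?_
  ext v
  simp
  ring

variable {k}

theorem hasFDerivAt_w {y : Fin n → ℂ} (hq : 0 < (-∑ j, (k j : ℂ) * hat y j ^ 2).re)
    (hw : w k y ≠ 0) (hw2 : w k y ^ 2 = -∑ j, (k j : ℂ) * hat y j ^ 2) :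
    HasFDerivAt (w k) (-((w k y)⁻¹ • dq k y)) y := by
  set q : ℂ := -∑ j, (k j : ℂ) * hat y j ^ 2 with hq'
  have hq0 : q ≠ 0 := fun h => by rw [h, Complex.zero_re] at hq; exact lt_irrefl _ hq
  have hs : q ∈ slitPlane := Or.inl hq
  have h1 : HasDerivAt (fun z : ℂ => z ^ (1 / 2 : ℂ)) ((1 / 2 : ℂ) * q ^ ((1 / 2 : ℂ) - 1) * 1) q :=
    (hasDerivAt_id q).cpow_const hs
  have h2 := h1.comp_hasFDerivAt y (hasFDerivAt_q k y)
  refine (h2 : HasFDerivAt (w k) _ y).congr_fderiv ?_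
  have h3 : q ^ ((1 / 2 : ℂ) - 1) = (w k y)⁻¹ := by
    rw [Complex.cpow_sub _ _ hq0, Complex.cpow_one]
    have h4 : q ^ (1 / 2 : ℂ) = w k y := rfl
    rw [h4, ← hw2]
    field_simp
  rw [h3]
  ext v
  simp
  ring

/-- the derivative of `s` -/
noncomputable def dS (k : Fin (n + 1) → ℝ) (x : Fin (n + 1) → ℝ) (y : Fin n → ℂ) : (Fin n → ℂ) →L[ℂ] ℂ :=
  (w k y)⁻¹ • dpr k x + (pr k x y * (w k y)⁻¹ ^ 3) • dq k y

theorem hasFDerivAt_inv {y : Fin n → ℂ} (hq : 0 < (-∑ j, (k j : ℂ) * hat y j ^ 2).re)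
    (hw : w k y ≠ 0) (hw2 : w k y ^ 2 = -∑ j, (k j : ℂ) * hat y j ^ 2) :
    HasFDerivAt (fun y => (w k y)⁻¹) ((w k y)⁻¹ ^ 3 • dq k y) y := by
  have h1 := (hasDerivAt_inv hw).comp_hasFDerivAt y (hasFDerivAt_w hq hw hw2)
  refine (h1 : HasFDerivAt (fun y => (w k y)⁻¹) _ y).congr_fderiv ?_
  ext v
  simp
  field_simp

theorem hasFDerivAt_s (x : Fin (n + 1) → ℝ) {y : Fin n → ℂ}
    (hq : 0 < (-∑ j, (k j : ℂ) * hat y j ^ 2).re) (hw : w k y ≠ 0)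
    (hw2 : w k y ^ 2 = -∑ j, (k j : ℂ) * hat y j ^ 2) :
    HasFDerivAt (s k x) (dS k x y) y := by
  have h1 := (hasFDerivAt_pr k x y).mul (hasFDerivAt_inv hq hw hw2)
  refine (h1 : HasFDerivAt (s k x) _ y).congr_fderiv ?_
  ext v
  simp [dS]
  ring

theorem dS_single (x : Fin (n + 1) → ℝ) (y : Fin n → ℂ) (j : Fin n) :
    dS k x y (Pi.single j 1) = ds k x j y := by
  rw [dS, ds, add_apply, smul_apply,
    smul_apply, dq_single, dpr_single, smul_eq_mul, smul_eq_mul]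
  ring

/-- the derivative of `ds` -/
noncomputable def dds (k : Fin (n + 1) → ℝ) (x : Fin (n + 1) → ℝ) (j : Fin n) (y : Fin n → ℂ) :
    (Fin n → ℂ) →L[ℂ] ℂ :=
  ((k j.castSucc : ℂ) * (x j.castSucc : ℂ) * (w k y)⁻¹ ^ 3) • dq k y +
    ((k j.castSucc : ℂ) * y j * (w k y)⁻¹ ^ 3) • dpr k x +
    ((k j.castSucc : ℂ) * pr k x y * (w k y)⁻¹ ^ 3) •
      ContinuousLinearMap.proj (R := ℂ) (φ := fun _ => ℂ) j +
    (3 * (k j.castSucc : ℂ) * y j * pr k x y * (w k y)⁻¹ ^ 5) • dq k y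

theorem hasFDerivAt_ds (x : Fin (n + 1) → ℝ) (j : Fin n) {y : Fin n → ℂ}
    (hq : 0 < (-∑ j, (k j : ℂ) * hat y j ^ 2).re) (hw : w k y ≠ 0)
    (hw2 : w k y ^ 2 = -∑ j, (k j : ℂ) * hat y j ^ 2) :
    HasFDerivAt (ds k x j) (dds k x j y) y := by
  have hi := hasFDerivAt_inv hq hw hw2
  have h1 := (hi.const_mul ((k j.castSucc : ℂ) * (x j.castSucc : ℂ))).add
    (((hasFDerivAt_pr k x y).mul ((hasFDerivAt_coord j y).const_mul (k j.castSucc : ℂ))).mul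
      (hi.pow 3))
  have h2 : ds k x j = fun y => (k j.castSucc : ℂ) * (x j.castSucc : ℂ) * (w k y)⁻¹ +
      pr k x y * ((k j.castSucc : ℂ) * y j) * (w k y)⁻¹ ^ 3 := by
    funext y
    rw [ds]
    ring
  rw [h2]
  refine h1.congr_fderiv ?_
  ext v
  simp [dds]
  ring

theorem proj_single (i j : Fin n) :
    (ContinuousLinearMap.proj (R := ℂ) (φ := fun _ : Fin n => ℂ) i)
      (Pi.single j (1 : ℂ)) = if i = j then 1 else 0 := by
  rw [ContinuousLinearMap.proj_apply, Pi.single_apply]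

theorem dds_symm (x : Fin (n + 1) → ℝ) (y : Fin n → ℂ) (i j : Fin n) :
    dds k x i y (Pi.single j 1) = dds k x j y (Pi.single i 1) := by
  by_cases hij : i = j
  · rw [hij]
  · simp only [dds, add_apply, smul_apply, dq_single,
      dpr_single, smul_eq_mul, proj_single, if_neg hij, if_neg (Ne.symm hij)]
    ring

end deriv

/-! ### the terms -/

section terms

variable {F : Type} [Field F] [NumberField F] {v₁ : F →+* ℝ} {D : F} {h : Fin (n + 1) → F} {a : F}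

open Classical in
theorem gauss_eq (ξ : Fin (n + 1) → F) (y : Fin n → ℂ) : gauss v₁ D h a ξ y =
    exp (-(Real.pi : ℂ) * ∑ v : F →+* ℝ, ((|v a| / √(v D) : ℝ) : ℂ) * (form h v ξ ξ : ℂ) +
      (-(Real.pi : ℂ) * ((|v₁ a| / √(v₁ D) : ℝ) : ℂ) * 2) *
        s (ev v₁ h) (ev v₁ ξ) y ^ 2) := by
  rw [gauss]
  congr 1
  simp only [mul_add, Finset.sum_add_distrib]
  congr 1
  rw [Finset.sum_eq_single v₁]
  · rw [if_pos rfl]
    ring
  · intro v _ hv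
    rw [if_neg hv, mul_zero]
  · exact fun h => absurd (Finset.mem_univ _) h

/-- the derivative of the Gaussian -/
theorem hasFDerivAt_gauss (ξ : Fin (n + 1) → F) {y : Fin n → ℂ}
    (hq : 0 < (-∑ j, (ev v₁ h j : ℂ) * hat y j ^ 2).re) (hw : w (ev v₁ h) y ≠ 0)
    (hw2 : w (ev v₁ h) y ^ 2 = -∑ j, (ev v₁ h j : ℂ) * hat y j ^ 2) :
    HasFDerivAt (gauss v₁ D h a ξ)
      ((gauss v₁ D h a ξ y * ((-(Real.pi : ℂ) * ((|v₁ a| / √(v₁ D) : ℝ) : ℂ) * 2) *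
        (2 * s (ev v₁ h) (ev v₁ ξ) y))) • dS (ev v₁ h) (ev v₁ ξ) y) y := by
  have h1 : gauss v₁ D h a ξ = fun y => exp (-(Real.pi : ℂ) * ∑ v : F →+* ℝ,
      ((|v a| / √(v D) : ℝ) : ℂ) * (form h v ξ ξ : ℂ) +
      (-(Real.pi : ℂ) * ((|v₁ a| / √(v₁ D) : ℝ) : ℂ) * 2) *
        s (ev v₁ h) (ev v₁ ξ) y ^ 2) := by
    funext y
    exact gauss_eq ξ y
  have h2 := ((((hasFDerivAt_s (ev v₁ ξ) hq hw hw2).pow 2).const_mul
    (-(Real.pi : ℂ) * ((|v₁ a| / √(v₁ D) : ℝ) : ℂ) * 2)).const_add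
    (-(Real.pi : ℂ) * ∑ v : F →+* ℝ, ((|v a| / √(v D) : ℝ) : ℂ) * (form h v ξ ξ : ℂ))).cexp
  rw [h1]
  refine h2.congr_fderiv ?_
  ext v
  simp
  ring

/-- the derivative of a term -/
theorem hasFDerivAt_term (ξ : Fin (n + 1) → F) (c : ℂ) (j : Fin n) {y : Fin n → ℂ}
    (hq : 0 < (-∑ j, (ev v₁ h j : ℂ) * hat y j ^ 2).re) (hw : w (ev v₁ h) y ≠ 0)
    (hw2 : w (ev v₁ h) y ^ 2 = -∑ j, (ev v₁ h j : ℂ) * hat y j ^ 2) :
    HasFDerivAt (fun y => c * gauss v₁ D h a ξ y * ds (ev v₁ h) (ev v₁ ξ) j y)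
      ((c * gauss v₁ D h a ξ y) • dds (ev v₁ h) (ev v₁ ξ) j y +
        (c * gauss v₁ D h a ξ y * ((-(Real.pi : ℂ) * ((|v₁ a| / √(v₁ D) : ℝ) : ℂ) * 2) *
          (2 * s (ev v₁ h) (ev v₁ ξ) y)) * ds (ev v₁ h) (ev v₁ ξ) j y) •
          dS (ev v₁ h) (ev v₁ ξ) y) y := by
  have h1 := (((hasFDerivAt_gauss (D := D) (a := a) ξ hq hw hw2).const_mul c).mul
    (hasFDerivAt_ds (ev v₁ ξ) j hq hw hw2))
  refine h1.congr_fderiv ?_
  ext v
  simp
  ring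

theorem term_closed (ξ : Fin (n + 1) → F) (c : ℂ) (i j : Fin n) {y : Fin n → ℂ}
    (hq : 0 < (-∑ j, (ev v₁ h j : ℂ) * hat y j ^ 2).re) (hw : w (ev v₁ h) y ≠ 0)
    (hw2 : w (ev v₁ h) y ^ 2 = -∑ j, (ev v₁ h j : ℂ) * hat y j ^ 2) :
    fderiv ℂ (fun y => c * gauss v₁ D h a ξ y * ds (ev v₁ h) (ev v₁ ξ) i y) y
      (Pi.single j 1) =
    fderiv ℂ (fun y => c * gauss v₁ D h a ξ y * ds (ev v₁ h) (ev v₁ ξ) j y) y
      (Pi.single i 1) := by
  rw [(hasFDerivAt_term ξ c i hq hw hw2).fderiv, (hasFDerivAt_term ξ c j hq hw hw2).fderiv]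
  simp only [add_apply, smul_apply, dS_single, dds_symm (ev v₁ ξ) y i j, smul_eq_mul]
  ring

end terms

/-! ### domination -/

section dom

variable {F : Type} [Field F] [NumberField F]

theorem IsSB.bdd {φ : (Fin (n + 1) → F) → ℂ} (hφ : IsSB φ) : ∃ B : ℝ, 0 ≤ B ∧ ∀ ξ, ‖φ ξ‖ ≤ B := by
  classical
  obtain ⟨N, hN⟩ := isSB_iff.1 hφ
  obtain ⟨R, -, hR⟩ := hN.eq_sum
  refine ⟨∑ u ∈ R, ‖φ u‖, Finset.sum_nonneg fun _ _ => norm_nonneg _, fun ξ => ?_⟩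
  rw [hR ξ]
  refine (norm_sum_le _ _).trans (Finset.sum_le_sum fun u _ => ?_)
  rw [norm_mul]
  refine mul_le_of_le_one_right (norm_nonneg _) ?_
  by_cases h : Pool.Agent.CMH.Ten.Cong N ξ u
  · rw [Pool.Agent.CMH.Ten.ind_of h, norm_one]
  · rw [Pool.Agent.CMH.Ten.ind_of_not h, norm_zero]
    exact zero_le_one

variable {v₁ : F →+* ℝ} {D : F} {h : Fin (n + 1) → F} {a : F}

/-- **domination of the terms on compact sets** -/
theorem theta_dom [NumberField.IsTotallyReal F] (hE : EST) (hG : Good v₁ D h) (ha : 0 < v₁ a)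
    {φ : (Fin (n + 1) → F) → ℂ} (hφ : IsSB φ) {C : Set (Fin n → ℂ)} (hC : IsCompact C)
    (hCb : C ⊆ ball (ev v₁ h)) : ∃ u : (Fin (n + 1) → F) → ℝ, Summable u ∧
      ∀ ξ, ∀ y ∈ C, ∀ j, ‖φ ξ * gauss v₁ D h a ξ y * ds (ev v₁ h) (ev v₁ ξ) j y‖ ≤ u ξ := by
  classical
  have ha0 : a ≠ 0 := by
    rintro rfl
    rw [map_zero] at ha
    exact lt_irrefl _ ha
  obtain ⟨-, -, -, -, hest⟩ := hE n (ev v₁ h) hG.sg
  obtain ⟨c, hc, c', hc', h1, h2⟩ := hest C hC hCb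
  -- one constant for every place
  have hv : ∀ v : F →+* ℝ, ∃ m : ℝ, 0 < m ∧ ∀ (ξ : Fin (n + 1) → F), ∀ y ∈ C,
      m * ∑ j, v (ξ j) ^ 2 ≤ (((form h v ξ ξ : ℝ) : ℂ) +
        if v = v₁ then 2 * s (ev v h) (ev v ξ) y ^ 2 else 0).re := by
    intro v
    by_cases hvv : v = v₁
    · subst hvv
      refine ⟨c, hc, fun ξ y hy => ?_⟩
      rw [if_pos rfl]
      exact h1 y hy (ev v ξ)
    · obtain ⟨i₀, hi₀⟩ := Finite.exists_min (fun j : Fin (n + 1) => v (h j))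
      refine ⟨v (h i₀), hG.pos hvv i₀, fun ξ y _ => ?_⟩
      rw [if_neg hvv, add_zero, Complex.ofReal_re, form, Finset.mul_sum]
      refine Finset.sum_le_sum fun j _ => ?_
      rw [mul_assoc, ← pow_two]
      exact mul_le_mul_of_nonneg_right (hi₀ j) (sq_nonneg _)
  choose m hm hm' using hv
  have hα : ∀ v : F →+* ℝ, 0 < |v a| / √(v D) := fun v =>
    div_pos (abs_pos.2 ((map_ne_zero v).2 ha0)) (Real.sqrt_pos.2 (hG.D0 v))
  have : Nonempty (F →+* ℝ) := ⟨v₁⟩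
  obtain ⟨v₀, hv₀⟩ := Finite.exists_min (fun v : F →+* ℝ => |v a| / √(v D) * m v)
  set c₀ : ℝ := Real.pi * (|v₀ a| / √(v₀ D) * m v₀) with hc₀
  have hc₀pos : 0 < c₀ := mul_pos Real.pi_pos (mul_pos (hα v₀) (hm v₀))
  have hgauss : ∀ (ξ : Fin (n + 1) → F), ∀ y ∈ C,
      ‖gauss v₁ D h a ξ y‖ ≤ Real.exp (-(c₀ * Pool.CMH.nrm2 ξ)) := by
    intro ξ y hy
    rw [gauss, Complex.norm_exp, Real.exp_le_exp]
    have h3 : (-(Real.pi : ℂ) * ∑ v : F →+* ℝ, ((|v a| / √(v D) : ℝ) : ℂ) *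
        ((form h v ξ ξ : ℂ) + if v = v₁ then 2 * s (ev v h) (ev v ξ) y ^ 2 else 0)).re =
        -(Real.pi * ∑ v : F →+* ℝ, (|v a| / √(v D)) * ((form h v ξ ξ : ℂ) +
          if v = v₁ then 2 * s (ev v h) (ev v ξ) y ^ 2 else 0).re) := by
      rw [neg_mul, Complex.neg_re, Complex.re_ofReal_mul, Complex.re_sum]
      congr 2
      exact Finset.sum_congr rfl fun v _ => Complex.re_ofReal_mul _ _
    rw [h3, neg_le_neg_iff, hc₀, mul_assoc]
    refine mul_le_mul_of_nonneg_left ?_ Real.pi_pos.le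
    rw [Pool.CMH.nrm2, Finset.sum_comm, Finset.mul_sum]
    refine Finset.sum_le_sum fun v _ => ?_
    calc |v₀ a| / √(v₀ D) * m v₀ * ∑ i, v (ξ i) ^ 2
        ≤ |v a| / √(v D) * m v * ∑ i, v (ξ i) ^ 2 :=
          mul_le_mul_of_nonneg_right (hv₀ v) (Finset.sum_nonneg fun _ _ => sq_nonneg _)
      _ = |v a| / √(v D) * (m v * ∑ i, v (ξ i) ^ 2) := mul_assoc _ _ _
      _ ≤ _ := mul_le_mul_of_nonneg_left (hm' v ξ y hy) (hα v).le
  have hds : ∀ (ξ : Fin (n + 1) → F), ∀ y ∈ C, ∀ j,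
      ‖ds (ev v₁ h) (ev v₁ ξ) j y‖ ≤ c' * (1 + Pool.CMH.nrm2 ξ) := by
    intro ξ y hy j
    refine (h2 y hy (ev v₁ ξ) j).trans (mul_le_mul_of_nonneg_left ?_ hc'.le)
    have h3 : ∑ j, ev v₁ ξ j ^ 2 ≤ Pool.CMH.nrm2 ξ := by
      rw [Pool.CMH.nrm2]
      refine Finset.sum_le_sum fun i _ => ?_
      exact Finset.single_le_sum (f := fun v : F →+* ℝ => v (ξ i) ^ 2)
        (fun _ _ => sq_nonneg _) (Finset.mem_univ v₁)
    have h4 : 0 ≤ Pool.CMH.nrm2 ξ := Pool.CMH.nrm2_nonneg ξ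
    rw [Real.sqrt_le_left (by positivity)]
    nlinarith
  obtain ⟨B, hB0, hB⟩ := hφ.bdd
  obtain ⟨N, hN, hsupp, -⟩ := hφ
  refine ⟨fun ξ => B * c' * (Pool.CMH.Lat F (Fin (n + 1)) N).indicator
    (fun ξ => (1 + Pool.CMH.nrm2 ξ) ^ 1 * Real.exp (-(c₀ * Pool.CMH.nrm2 ξ))) ξ,
    (Pool.CMH.summable_gs N hN c₀ hc₀pos 1).mul_left _, fun ξ y hy j => ?_⟩
  beta_reduce
  by_cases hξ : ξ ∈ Pool.CMH.Lat F (Fin (n + 1)) N
  · rw [Set.indicator_of_mem hξ, norm_mul, norm_mul, pow_one]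
    have h5 := Pool.CMH.nrm2_nonneg ξ
    calc ‖φ ξ‖ * ‖gauss v₁ D h a ξ y‖ * ‖ds (ev v₁ h) (ev v₁ ξ) j y‖
        ≤ B * Real.exp (-(c₀ * Pool.CMH.nrm2 ξ)) * (c' * (1 + Pool.CMH.nrm2 ξ)) :=
          mul_le_mul (mul_le_mul (hB ξ) (hgauss ξ y hy) (norm_nonneg _) hB0) (hds ξ y hy j)
            (norm_nonneg _) (mul_nonneg hB0 (Real.exp_pos _).le)
      _ = _ := by ring
  · have h5 : φ ξ = 0 := by
      by_contra hne
      exact hξ (hsupp ξ hne)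
    rw [h5, zero_mul, zero_mul, norm_zero, Set.indicator_of_notMem hξ, mul_zero]

/-- **the theta one-forms are holomorphic and closed** (row HOL) -/
theorem closedHol_theta_of [NumberField.IsTotallyReal F] (hE : EST) (hG : Good v₁ D h)
    (ha : 0 < v₁ a) {φ : (Fin (n + 1) → F) → ℂ} (hφ : IsSB φ) :
    ClosedHol (ev v₁ h) (theta v₁ D h a φ) := by
  obtain ⟨hq, hw, -⟩ := hE n (ev v₁ h) hG.sg
  have key : ∀ y ∈ ball (ev v₁ h), ∀ j, Summable (fun ξ => fderiv ℂ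
      (fun y => φ ξ * gauss v₁ D h a ξ y * ds (ev v₁ h) (ev v₁ ξ) j y) y) ∧
      HasFDerivAt (theta v₁ D h a φ j) (∑' ξ, fderiv ℂ
        (fun y => φ ξ * gauss v₁ D h a ξ y * ds (ev v₁ h) (ev v₁ ξ) j y) y) y := by
    intro y hy j
    obtain ⟨r, hr, hrU⟩ := Metric.isOpen_iff.1 (isOpen_ball (ev v₁ h)) y hy
    have hsub : Metric.closedBall y (r / 2) ⊆ ball (ev v₁ h) :=
      (Metric.closedBall_subset_ball (by linarith)).trans hrU
    obtain ⟨u, hu, hdom⟩ := theta_dom (a := a) hE hG ha hφ (isCompact_closedBall y (r / 2)) hsub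
    exact Pool.Agent.CMH.hasFDerivAt_tsum_holo (U := Metric.ball y (r / 2)) hu Metric.isOpen_ball
      (fun ξ z hz => by
        have hz' := hsub (Metric.ball_subset_closedBall hz)
        exact (hasFDerivAt_term ξ (φ ξ) j (hq z hz') (hw z hz').1
          (hw z hz').2).differentiableAt.differentiableWithinAt)
      (fun ξ z hz => hdom ξ z (Metric.ball_subset_closedBall hz) j)
      (Metric.mem_ball_self (by positivity))
  refine ⟨fun j y hy => (key y hy j).2.differentiableAt.differentiableWithinAt,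
    fun y hy i j => ?_⟩
  rw [(key y hy i).2.fderiv, (key y hy j).2.fderiv]
  have h0 := ((ContinuousLinearMap.apply ℂ ℂ (Pi.single j 1 : Fin n → ℂ)).hasSum
    (key y hy i).1.hasSum).tsum_eq
  have h1 := ((ContinuousLinearMap.apply ℂ ℂ (Pi.single i 1 : Fin n → ℂ)).hasSum
    (key y hy j).1.hasSum).tsum_eq
  rw [ContinuousLinearMap.apply_apply] at h0 h1
  rw [← h0, ← h1]
  exact tsum_congr fun ξ => term_closed ξ (φ ξ) i j (hq y hy) (hw y hy).1 (hw y hy).2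

/-- **the theta one-forms are holomorphic and closed** -/
theorem closedHol_theta [NumberField.IsTotallyReal F] (hG : Good v₁ D h) (ha : 0 < v₁ a)
    {φ : (Fin (n + 1) → F) → ℂ} (hφ : IsSB φ) : ClosedHol (ev v₁ h) (theta v₁ D h a φ) :=
  closedHol_theta_of est hG ha hφ

/-- continuity of the theta one-forms -/
theorem continuousOn_theta [NumberField.IsTotallyReal F] (hG : Good v₁ D h) (ha : 0 < v₁ a)
    {φ : (Fin (n + 1) → F) → ℂ} (hφ : IsSB φ) (j : Fin n) :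
    ContinuousOn (theta v₁ D h a φ j) (ball (ev v₁ h)) :=
  ((closedHol_theta hG ha hφ).1 j).continuousOn

/-- summability of the theta one-forms -/
theorem summable_theta [NumberField.IsTotallyReal F] (hG : Good v₁ D h) (ha : 0 < v₁ a)
    {φ : (Fin (n + 1) → F) → ℂ} (hφ : IsSB φ) (j : Fin n) {y : Fin n → ℂ} (hy : y ∈ ball (ev v₁ h)) :
    Summable (fun ξ => φ ξ * gauss v₁ D h a ξ y * ds (ev v₁ h) (ev v₁ ξ) j y) := by
  obtain ⟨u, hu, hdom⟩ := theta_dom (a := a) (D := D) est hG ha hφ (isCompact_singleton (x := y))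
    (Set.singleton_subset_iff.2 hy)
  exact Summable.of_norm_bounded hu fun ξ => hdom ξ y rfl j

end dom

theorem hol : HOL := fun _ _ _ _ _ _ _ _ _ _ hG ha hφ => closedHol_theta hG ha hφ

end Pool.Agent.CMN
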