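import Pool.Agent.Lib.CMN.Rows

/-!
# Row MAJ of the tank CMN: the majorants `Rg`
-/

set_option autoImplicit false

open scoped ComplexConjugate Matrix
open Complex

namespace Pool.Agent.CMN

noncomputable section

namespace MajRow

variable {n : ℕ} {F : Type} [Field F] [NumberField F]

omit [NumberField F] in
lemma diag_eq {J : Type} [Fintype J] [DecidableEq J] (x : J → ℝ) (hx : ∀ i, x i ≠ 0) :
    Matrix.diagonal (fun i => |x i|) * Matrix.diagonal (fun i => (x i)⁻¹) *
      Matrix.diagonal (fun i => |x i|) = Matrix.diagonal x := by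
  rw [Matrix.diagonal_mul_diagonal, Matrix.diagonal_mul_diagonal]
  congr 1
  funext i
  have h := hx i
  have h2 : |x i| * |x i| = x i * x i := abs_mul_abs_self _
  calc |x i| * (x i)⁻¹ * |x i| = (|x i| * |x i|) * (x i)⁻¹ := by ring
    _ = x i * x i * (x i)⁻¹ := by rw [h2]
    _ = x i := by field_simp

omit [NumberField F] in
/-- `|diag(a)|` is a majorant of `diag(a)`. -/
theorem isMaj_R0 {J : Type} [Fintype J] [DecidableEq J] (a : J → F) (ha : ∀ i, a i ≠ 0)
    (v : F →+* ℝ) : IsMaj a v (R0 a v) := by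
  have hv : ∀ i, v (a i) ≠ 0 := fun i => (map_ne_zero v).2 (ha i)
  refine ⟨?_, ?_⟩
  · unfold R0
    exact Matrix.PosDef.diagonal fun i => abs_pos.2 (hv i)
  · unfold R0
    exact diag_eq (fun i => v (a i)) hv

omit [NumberField F] in
/-- The factorisation `diag(v a) = Qᵀ diag(v b) Q`, `Q = v(g⁻¹)`. -/
lemma dia_map {v₁ : F →+* ℝ} {a : Fin n → F} {g : Matrix (Fin n) (Fin n) F} {b : Fin n → F}
    (hd : Dia v₁ a g b) (v : F →+* ℝ) :
    ((g⁻¹).map v)ᵀ * Matrix.diagonal (fun i => v (b i)) * (g⁻¹).map v =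
      Matrix.diagonal (fun i => v (a i)) := by
  have hg : g * g⁻¹ = 1 := Matrix.mul_nonsing_inv g hd.unit
  have hgt : (g⁻¹)ᵀ * gᵀ = 1 := by rw [← Matrix.transpose_mul, hg, Matrix.transpose_one]
  have h1 : (g⁻¹)ᵀ * Matrix.diagonal b * g⁻¹ = Matrix.diagonal a := by
    rw [← hd.dia]
    calc (g⁻¹)ᵀ * (gᵀ * Matrix.diagonal a * g) * g⁻¹
        = ((g⁻¹)ᵀ * gᵀ) * Matrix.diagonal a * (g * g⁻¹) := by simp only [Matrix.mul_assoc]
      _ = Matrix.diagonal a := by rw [hgt, hg, Matrix.one_mul, Matrix.mul_one]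
  have h2 := congrArg (fun M : Matrix (Fin n) (Fin n) F => M.map v) h1
  simp only [Matrix.map_mul] at h2
  rw [Matrix.diagonal_map (map_zero v), Matrix.diagonal_map (map_zero v)] at h2
  rw [Matrix.transpose_map] at h2
  exact h2

omit [NumberField F] in
lemma inv_map {v₁ : F →+* ℝ} {a : Fin n → F} {g : Matrix (Fin n) (Fin n) F} {b : Fin n → F}
    (hd : Dia v₁ a g b) (v : F →+* ℝ) :
    g.map v * (g⁻¹).map v = 1 ∧ (g⁻¹).map v * g.map v = 1 := by
  constructor
  · rw [← Matrix.map_mul, Matrix.mul_nonsing_inv g hd.unit,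
      Matrix.map_one v (map_zero v) (map_one v)]
  · rw [← Matrix.map_mul, Matrix.nonsing_inv_mul g hd.unit,
      Matrix.map_one v (map_zero v) (map_one v)]

omit [NumberField F] in
theorem isMaj_Rg {v₁ : F →+* ℝ} {a : Fin n → F} {g : Matrix (Fin n) (Fin n) F} {b : Fin n → F}
    (ha : ∀ i, a i ≠ 0) (hd : Dia v₁ a g b) (v : F →+* ℝ) : IsMaj a v (Rg g b v) := by
  have hb : ∀ i, v (b i) ≠ 0 := fun i => (map_ne_zero v).2 (hd.ne i)
  have hav : ∀ i, v (a i) ≠ 0 := fun i => (map_ne_zero v).2 (ha i)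
  obtain ⟨hPQ, hQP⟩ := inv_map hd v
  set Q := (g⁻¹).map v with hQ
  set P := g.map v with hP
  have hfac := dia_map hd v
  rw [← hQ] at hfac
  have hPQt : Qᵀ * Pᵀ = 1 := by rw [← Matrix.transpose_mul, hPQ, Matrix.transpose_one]
  have hQPt : Pᵀ * Qᵀ = 1 := by rw [← Matrix.transpose_mul, hQP, Matrix.transpose_one]
  -- the inverse of `diag(v a)`
  have hinv : Matrix.diagonal (fun i => (v (a i))⁻¹) =
      P * Matrix.diagonal (fun i => (v (b i))⁻¹) * Pᵀ := by
    have e1 : Matrix.diagonal (fun i => (v (a i))⁻¹) * Matrix.diagonal (fun i => v (a i)) = 1 := by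
      rw [Matrix.diagonal_mul_diagonal, ← Matrix.diagonal_one]
      congr 1
      funext i
      exact inv_mul_cancel₀ (hav i)
    have e2 : Matrix.diagonal (fun i => v (a i)) *
        (P * Matrix.diagonal (fun i => (v (b i))⁻¹) * Pᵀ) = 1 := by
      rw [← hfac]
      have e3 : Matrix.diagonal (fun i => v (b i)) * Matrix.diagonal (fun i => (v (b i))⁻¹) =
          1 := by
        rw [Matrix.diagonal_mul_diagonal, ← Matrix.diagonal_one]
        congr 1
        funext i
        exact mul_inv_cancel₀ (hb i)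
      calc Qᵀ * Matrix.diagonal (fun i => v (b i)) * Q *
            (P * Matrix.diagonal (fun i => (v (b i))⁻¹) * Pᵀ)
          = Qᵀ * (Matrix.diagonal (fun i => v (b i)) * ((Q * P) *
              Matrix.diagonal (fun i => (v (b i))⁻¹))) * Pᵀ := by
            simp only [Matrix.mul_assoc]
        _ = 1 := by rw [hQP, Matrix.one_mul, e3, Matrix.mul_one, hPQt]
    calc Matrix.diagonal (fun i => (v (a i))⁻¹)
        = Matrix.diagonal (fun i => (v (a i))⁻¹) * (Matrix.diagonal (fun i => v (a i)) *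
            (P * Matrix.diagonal (fun i => (v (b i))⁻¹) * Pᵀ)) := by rw [e2, Matrix.mul_one]
      _ = P * Matrix.diagonal (fun i => (v (b i))⁻¹) * Pᵀ := by
          rw [← Matrix.mul_assoc, e1, Matrix.one_mul]
  refine ⟨?_, ?_⟩
  · have hd1 : (Matrix.diagonal (fun i => |v (b i)|)).PosDef :=
      Matrix.PosDef.diagonal fun i => abs_pos.2 (hb i)
    have hinj : Function.Injective Q.mulVec := by
      intro x y hxy
      have := congrArg P.mulVec hxy
      simpa [Matrix.mulVec_mulVec, hPQ] using this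
    have h3 := hd1.conjTranspose_mul_mul_same hinj
    rw [Matrix.conjTranspose_eq_transpose_of_trivial] at h3
    exact h3
  · show Rg g b v * Matrix.diagonal (fun i => (v (a i))⁻¹) * Rg g b v = _
    unfold Rg
    rw [← hQ, hinv]
    have e4 := diag_eq (fun i => v (b i)) hb
    calc Qᵀ * Matrix.diagonal (fun i => |v (b i)|) * Q *
          (P * Matrix.diagonal (fun i => (v (b i))⁻¹) * Pᵀ) *
          (Qᵀ * Matrix.diagonal (fun i => |v (b i)|) * Q)
        = Qᵀ * (Matrix.diagonal (fun i => |v (b i)|) * ((Q * P) *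
            (Matrix.diagonal (fun i => (v (b i))⁻¹) * ((Pᵀ * Qᵀ) *
              Matrix.diagonal (fun i => |v (b i)|))))) * Q := by
          simp only [Matrix.mul_assoc]
      _ = Qᵀ * (Matrix.diagonal (fun i => |v (b i)|) * Matrix.diagonal (fun i => (v (b i))⁻¹) *
            Matrix.diagonal (fun i => |v (b i)|)) * Q := by
          rw [hQP, hQPt, Matrix.one_mul, Matrix.one_mul, Matrix.mul_assoc (Matrix.diagonal _)]
      _ = Matrix.diagonal (fun i => v (a i)) := by rw [e4, hfac]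

omit [NumberField F] in
theorem Rg_eq {v₁ : F →+* ℝ} {a : Fin n → F} {g : Matrix (Fin n) (Fin n) F} {b : Fin n → F}
    (h1 : ∀ i, 0 < v₁ (a i)) (hd : Dia v₁ a g b) : Rg g b v₁ = R0 a v₁ := by
  have hfac := dia_map hd v₁
  unfold Rg R0
  have hb : (fun i => |v₁ (b i)|) = fun i => v₁ (b i) := by
    funext i
    exact abs_of_pos (hd.pos i)
  have hA : (fun i => |v₁ (a i)|) = fun i => v₁ (a i) := by
    funext i
    exact abs_of_pos (h1 i)
  rw [hb, hA, hfac]

end MajRow

/-- Row MAJ. -/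
theorem maj : MAJ := by
  intro F _ _ n v₁ a ha h1
  exact ⟨fun v => MajRow.isMaj_R0 a ha v, fun g b hd =>
    ⟨fun v => MajRow.isMaj_Rg ha hd v, MajRow.Rg_eq h1 hd⟩⟩

end

end Pool.Agent.CMN
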