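import Pool.Agent.Lib.CMN.Api

set_option autoImplicit false

/-!
# CMN, row NV (helper18): non-vanishing
-/

open scoped ComplexConjugate Matrix
open Complex

namespace Pool.Agent.CMN.NVa

noncomputable section

set_option linter.unusedSectionVars false

variable {n : ℕ} {F : Type} [Field F] [NumberField F]

/-- a nonzero element is divisible by finitely many integers -/
theorem exists_bound {x : F} (hx : x ≠ 0) :
    ∃ B : ℕ, ∀ M : ℕ, B < M → ¬ IsIntegral ℤ (x / (M : F)) := by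
  obtain ⟨B, hB⟩ := exists_nat_ge |(Algebra.norm ℚ x : ℚ)|
  refine ⟨B, fun M hM hi => ?_⟩
  have hM0 : (0 : ℚ) < M := Nat.cast_pos.2 (lt_of_le_of_lt (Nat.zero_le _) hM)
  have hMF : (M : F) ≠ 0 := Nat.cast_ne_zero.2 (by omega)
  have h1 : IsIntegral ℤ (Algebra.norm ℚ (x / (M : F))) := Algebra.isIntegral_norm ℚ hi
  obtain ⟨z, hz⟩ := IsIntegrallyClosed.isIntegral_iff.1 h1
  have h2 : (z : ℚ) = Algebra.norm ℚ (x / (M : F)) := by
    rw [← hz]
    rfl
  have h3 : Algebra.norm ℚ (x / (M : F)) * (M : ℚ) ^ Module.finrank ℚ F = Algebra.norm ℚ x := by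
    have h4 : Algebra.norm ℚ (algebraMap ℚ F (M : ℚ)) = (M : ℚ) ^ Module.finrank ℚ F :=
      Algebra.norm_algebraMap _
    rw [← h4, ← map_mul]
    congr 1
    rw [map_natCast]
    field_simp
  have h5 : Algebra.norm ℚ (x / (M : F)) ≠ 0 := by
    rw [Ne, Algebra.norm_eq_zero_iff]
    exact div_ne_zero hx hMF
  have h6 : z ≠ 0 := by
    intro h
    apply h5
    rw [← h2, h]
    simp
  have h7 : (1 : ℚ) ≤ |(z : ℚ)| := by
    have := Int.one_le_abs h6
    exact_mod_cast this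
  have h8 : (M : ℚ) ≤ (M : ℚ) ^ Module.finrank ℚ F := by
    refine le_self_pow₀ ?_ Module.finrank_pos.ne'
    exact_mod_cast Nat.one_le_iff_ne_zero.2 (by omega)
  have h9 : |(Algebra.norm ℚ x : ℚ)| = |(z : ℚ)| * (M : ℚ) ^ Module.finrank ℚ F := by
    rw [← h3, ← h2, abs_mul, abs_of_pos (pow_pos hM0 _)]
  have h10 : (M : ℚ) ≤ B := by
    refine le_trans ?_ hB
    rw [h9]
    calc (M : ℚ) ≤ (M : ℚ) ^ Module.finrank ℚ F := h8
      _ = 1 * (M : ℚ) ^ Module.finrank ℚ F := (one_mul _).symm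
      _ ≤ _ := mul_le_mul_of_nonneg_right h7 (pow_pos hM0 _).le
  exact absurd (Nat.cast_le.1 h10) (by omega)

/-- the coset `c + M O_F^n` -/
def cos {ι : Type} (M : ℕ) (c ξ : ι → F) : Prop := ∀ j, IsIntegral ℤ ((ξ j - c j) / (M : F))

open Classical in
/-- its indicator -/
def ind (M : ℕ) (c ξ : Fin (n + 1) → F) : ℂ := if cos M c ξ then 1 else 0

theorem ind_isSB {M : ℕ} (hM : 0 < M) {c : Fin (n + 1) → F} (hc : ∀ j, IsIntegral ℤ (c j)) :
    IsSB (ind M c) := by
  classical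
  have hMF : (M : F) ≠ 0 := Nat.cast_ne_zero.2 hM.ne'
  have hMi : IsIntegral ℤ (M : F) := by
    have : IsIntegral ℤ ((M : ℤ) : F) := isIntegral_algebraMap
    simpa using this
  refine ⟨M, hM, ?_, ?_⟩
  · intro ξ hξ j
    have h1 : cos M c ξ := by
      by_contra h
      exact hξ (if_neg h)
    have h2 : (M : F) * ξ j = M * (M * ((ξ j - c j) / M) + c j) := by
      field_simp
      ring
    rw [h2]
    exact hMi.mul ((hMi.mul (h1 j)).add (hc j))
  · intro ξ η hη
    have h1 : cos M c (fun j => ξ j + (M : F) * η j) ↔ cos M c ξ := by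
      refine forall_congr' fun j => ?_
      have h2 : (ξ j + (M : F) * η j - c j) / M = (ξ j - c j) / M + η j := by
        field_simp
        ring
      rw [h2]
      refine ⟨fun h => ?_, fun h => h.add (hη j)⟩
      have := h.sub (hη j)
      simpa using this
    unfold ind
    exact if_congr h1 rfl rfl

/-- the centre of the coset -/
def e : Fin n → Fin (n + 1) → F := fun i => Pi.single i.castSucc 1

theorem e_int (i : Fin n) (j : Fin (n + 1)) : IsIntegral ℤ ((e i j : F)) := by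
  unfold e
  by_cases h : j = i.castSucc
  · subst h
    rw [Pi.single_eq_same]
    exact isIntegral_one
  · rw [Pi.single_eq_of_ne h]
    exact isIntegral_zero

theorem w_zero {k : Fin (n + 1) → ℝ} (h2 : k (Fin.last n) < 0) : w k 0 ≠ 0 := by
  rw [w, Ne, cpow_eq_zero_iff]
  rintro ⟨h, -⟩
  rw [sum_hat_sq] at h
  norm_num at h
  exact h2.ne h

theorem ds_zero (k x : Fin (n + 1) → ℝ) (j : Fin n) :
    ds k x j 0 = (k j.castSucc : ℂ) * (x j.castSucc : ℂ) / w k 0 := by
  simp [ds]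

theorem del_e (v₁ : F →+* ℝ) (h : Fin (n + 1) → F) (h0 : ∀ j : Fin n, 0 < v₁ (h j.castSucc))
    (h2 : v₁ (h (Fin.last n)) < 0) : Del (ev v₁ h) (fun i => ev v₁ (e i)) 0 ≠ 0 := by
  have hw := w_zero (k := ev v₁ h) h2
  have h1 : (Matrix.of fun i j : Fin n => ds (ev v₁ h) (ev v₁ (e i)) j 0) =
      Matrix.diagonal fun i => (v₁ (h i.castSucc) : ℂ) / w (ev v₁ h) 0 := by
    ext i j
    rw [Matrix.of_apply, ds_zero, Matrix.diagonal_apply]
    by_cases hij : i = j
    · subst hij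
      simp [ev, e]
    · rw [if_neg hij]
      have h3 : e (F := F) i j.castSucc = 0 := by
        unfold e
        exact Pi.single_eq_of_ne (fun h => hij (Fin.castSucc_injective _ h).symm) _
      simp [ev, h3]
  rw [Del, h1, Matrix.det_diagonal]
  refine Finset.prod_ne_zero_iff.2 fun i _ => div_ne_zero ?_ hw
  exact ofReal_ne_zero.2 (h0 i).ne'

theorem nv_of (H : SUM2) : NV := by
  classical
  intro F _ _ _ n v₁ D h a hG ha1 ha0
  have hy0 : (0 : Fin n → ℂ) ∈ ball (ev v₁ h) := zero_mem_ball hG.sg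
  let G : (Fin n → Fin (n + 1) → F) → ℂ := fun ξ => gaussJ v₁ D h a (R0 a) ξ 0 *
    Del (ev v₁ h) (fun i => ev v₁ (ξ i)) 0
  have hGe : G e ≠ 0 := mul_ne_zero (exp_ne_zero _) (del_e v₁ h (hG.hp _) hG.hn)
  -- the tensor product of the indicators
  have ht : ∀ (M : ℕ) (ξ : Fin n → Fin (n + 1) → F), tens (fun i => ind M (e i)) ξ =
      if ∀ i, cos M (e i) (ξ i) then 1 else 0 := by
    intro M ξ
    simp only [tens, ind]
    by_cases h1 : ∀ i, cos M (e i) (ξ i)
    · rw [if_pos h1]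
      exact Finset.prod_eq_one fun i _ => if_pos (h1 i)
    · rw [if_neg h1]
      obtain ⟨i, hi⟩ := not_forall.1 h1
      exact Finset.prod_eq_zero (Finset.mem_univ i) (if_neg hi)
  have hcos1 : ∀ ξ : Fin n → Fin (n + 1) → F, (∀ i, cos 1 (e i) (ξ i)) ↔ ∀ i j, IsIntegral ℤ (ξ i j) := by
    intro ξ
    refine forall_congr' fun i => forall_congr' fun j => ?_
    rw [Nat.cast_one, div_one]
    refine ⟨fun h => ?_, fun h => h.sub (e_int i j)⟩
    have := h.add (e_int i j)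
    simpa using this
  have hcosM : ∀ (M : ℕ), 0 < M → ∀ ξ : Fin n → Fin (n + 1) → F, (∀ i, cos M (e i) (ξ i)) →
      ∀ i, cos 1 (e i) (ξ i) := by
    intro M hM ξ hξ i j
    have hMF : (M : F) ≠ 0 := Nat.cast_ne_zero.2 hM.ne'
    have hMi : IsIntegral ℤ (M : F) := by
      have : IsIntegral ℤ ((M : ℤ) : F) := isIntegral_algebraMap
      simpa using this
    have h1 : (ξ i j - e i j) / ((1 : ℕ) : F) = M * ((ξ i j - e i j) / M) := by
      rw [Nat.cast_one, div_one]
      field_simp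
    rw [h1]
    exact hMi.mul (hξ i j)
  -- summability
  have hsum : Summable fun ξ : Fin n → Fin (n + 1) → F =>
      (if ∀ i, cos 1 (e i) (ξ i) then (1 : ℂ) else 0) * G ξ := by
    have h1 := (H F n v₁ D h a (R0 a) 1 (tens (fun i => ind 1 (e i))) hG ha1 ?_ rfl ?_).1 0 hy0
    · refine h1.congr fun ξ => ?_
      rw [ht, mul_assoc]
    · intro v
      rw [R0]
      refine Matrix.PosDef.diagonal fun i => ?_
      exact abs_pos.2 ((map_ne_zero v).2 (ha0 i))
    · refine ⟨one_pos, ?_, ?_⟩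
      · intro ξ hξ i j
        rw [ht] at hξ
        have h2 : ∀ i, cos 1 (e i) (ξ i) := by
          by_contra h
          exact hξ (if_neg h)
        rw [Nat.cast_one, one_mul]
        exact (hcos1 ξ).1 h2 i j
      · intro ξ η hη
        rw [ht, ht]
        have h2 : (∀ i, cos 1 (e i) (fun j => ξ i j + ((1 : ℕ) : F) * η i j)) ↔
            ∀ i, cos 1 (e i) (ξ i) := by
          rw [hcos1 ξ, hcos1 (fun i j => ξ i j + ((1 : ℕ) : F) * η i j)]
          refine forall_congr' fun i => forall_congr' fun j => ?_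
          rw [Nat.cast_one, one_mul]
          refine ⟨fun h => ?_, fun h => h.add (hη i j)⟩
          have := h.sub (hη i j)
          simpa using this
        simp only [h2]
  -- a finite set with small complement
  obtain ⟨S, hS⟩ : ∃ S : Finset (Fin n → Fin (n + 1) → F),
      ∑' ξ : {ξ // ξ ∉ S}, ‖(if ∀ i, cos 1 (e i) (ξ.1 i) then (1 : ℂ) else 0) * G ξ.1‖ <
        ‖G e‖ := by
    have h1 := tendsto_tsum_compl_atTop_zero
      (fun ξ : Fin n → Fin (n + 1) → F => ‖(if ∀ i, cos 1 (e i) (ξ i) then (1 : ℂ) else 0) * G ξ‖)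
    have h2 := (h1.eventually (gt_mem_nhds (norm_pos_iff.2 hGe))).exists
    exact h2
  -- the modulus
  obtain ⟨M, hM0, hM⟩ : ∃ M : ℕ, 0 < M ∧ ∀ ξ ∈ S, ξ ≠ e → ¬ ∀ i, cos M (e i) (ξ i) := by
    have h1 : ∀ ξ : Fin n → Fin (n + 1) → F, ∃ B : ℕ, ξ ≠ e → ∀ M : ℕ, B < M →
        ¬ ∀ i, cos M (e i) (ξ i) := by
      intro ξ
      by_cases hξ : ξ = e
      · exact ⟨0, fun h => absurd hξ h⟩
      · obtain ⟨i, hi⟩ := Function.ne_iff.1 hξ
        obtain ⟨j, hj⟩ := Function.ne_iff.1 hi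
        obtain ⟨B, hB⟩ := exists_bound (sub_ne_zero.2 hj)
        exact ⟨B, fun _ M hM h => hB M hM (h i j)⟩
    choose B hB using h1
    refine ⟨S.sup B + 1, Nat.succ_pos _, fun ξ hξ hne => hB ξ hne _ ?_⟩
    exact Nat.lt_succ_of_le (Finset.le_sup hξ)
  refine ⟨fun i => ind M (e i), fun i => ind_isSB hM0 (e_int i), 0, hy0, ?_⟩
  -- the sum
  have hterm : ∀ ξ : Fin n → Fin (n + 1) → F, tens (fun i => ind M (e i)) ξ *
      gaussJ v₁ D h a (R0 a) ξ 0 * Del (ev v₁ h) (fun i => ev v₁ (ξ i)) 0 =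
      (if ∀ i, cos M (e i) (ξ i) then (1 : ℂ) else 0) * G ξ := by
    intro ξ
    rw [ht, mul_assoc]
  have hsumM : Summable fun ξ : Fin n → Fin (n + 1) → F =>
      (if ∀ i, cos M (e i) (ξ i) then (1 : ℂ) else 0) * G ξ := by
    refine Summable.of_norm_bounded hsum.norm fun ξ => ?_
    by_cases h1 : ∀ i, cos M (e i) (ξ i)
    · rw [if_pos h1, if_pos (hcosM M hM0 ξ h1)]
    · rw [if_neg h1, zero_mul, norm_zero]
      exact norm_nonneg _
  rw [CR, tsum_congr hterm]
  intro h0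
  -- split off the term at `e`
  have hee : ∀ i, cos M (e i) (e i : Fin (n + 1) → F) := by
    intro i j
    rw [sub_self, zero_div]
    exact isIntegral_zero
  have h2 := hsumM.tsum_eq_add_tsum_ite e
  rw [h0, if_pos hee, one_mul] at h2
  have h3 : ‖∑' ξ : Fin n → Fin (n + 1) → F, (if ξ = e then (0 : ℂ) else
      (if ∀ i, cos M (e i) (ξ i) then (1 : ℂ) else 0) * G ξ)‖ ≤
      ∑' ξ : {ξ // ξ ∉ S}, ‖(if ∀ i, cos 1 (e i) (ξ.1 i) then (1 : ℂ) else 0) * G ξ.1‖ := by
    have h5 := hsum.norm.subtype (fun ξ => ξ ∉ S)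
    have h6 : ∑' ξ : {ξ // ξ ∉ S}, ‖(if ∀ i, cos 1 (e i) (ξ.1 i) then (1 : ℂ) else 0) * G ξ.1‖ =
        ∑' ξ : Fin n → Fin (n + 1) → F, Set.indicator {ξ | ξ ∉ S} (fun ξ =>
          ‖(if ∀ i, cos 1 (e i) (ξ i) then (1 : ℂ) else 0) * G ξ‖) ξ :=
      tsum_subtype {ξ : Fin n → Fin (n + 1) → F | ξ ∉ S} (fun ξ =>
          ‖(if ∀ i, cos 1 (e i) (ξ i) then (1 : ℂ) else 0) * G ξ‖)
    rw [h6]
    refine tsum_of_norm_bounded ((hsum.norm.indicator _).hasSum) fun ξ => ?_
    by_cases h7 : ξ = e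
    · rw [if_pos h7, norm_zero]
      exact Set.indicator_nonneg (fun _ _ => norm_nonneg _) _
    rw [if_neg h7]
    by_cases h8 : ∀ i, cos M (e i) (ξ i)
    · have h9 : ξ ∉ S := fun h => hM ξ h h7 h8
      rw [Set.indicator_of_mem (show ξ ∈ {ξ | ξ ∉ S} from h9), if_pos h8,
        if_pos (hcosM M hM0 ξ h8)]
    · rw [if_neg h8, zero_mul, norm_zero]
      exact Set.indicator_nonneg (fun _ _ => norm_nonneg _) _
  have h4 : G e = -∑' ξ : Fin n → Fin (n + 1) → F, (if ξ = e then (0 : ℂ) else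
      (if ∀ i, cos M (e i) (ξ i) then (1 : ℂ) else 0) * G ξ) := by
    rw [eq_neg_iff_add_eq_zero]
    exact h2.symm
  rw [h4, norm_neg] at hS
  exact absurd h3 (not_le.2 hS)

end

end Pool.Agent.CMN.NVa
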