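import Pool.Agent.Lib.CMN.Sum2
import Pool.Agent.Lib.CMN.NVa

set_option autoImplicit false

/-!
# CMN, row NV (helper18): non-vanishing, all n
-/

namespace Pool.Agent.CMN

theorem nv : NV := NVa.nv_of sum2

end Pool.Agent.CMN
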