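import Pool.Agent.Lib.CMN.Rows
import Pool.Agent.Lib.CMH.Apx

/-! # TANK CMN, rows GS and SEQ (all dimensions).  helper26.

`gs`: simultaneous Gram-Schmidt: symmetric matrices over `F` which tend at every place to an
invertible diagonal matrix are diagonalised by matrices which tend to `1` at every place.
`seq`: the change of basis from the signs `Φ` to the signs `Φ'`, near a permutation matrix at
every place.
-/

set_option autoImplicit false

namespace Pool.Agent.CMN

open Filter Topology Pool.Agent.CMH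

open scoped Matrix

namespace Seq

variable {F : Type} [Field F] {X : Type} {l : Filter X} {n : ℕ}

/-- matrices over `F` which tend to `A0 v` at every place `v`. -/
def MLim (l : Filter X) (A : X → Matrix (Fin n) (Fin n) F)
    (A0 : (F →+* ℝ) → Matrix (Fin n) (Fin n) ℝ) : Prop :=
  ∀ v : F →+* ℝ, Tendsto (fun x => (A x).map v) l (𝓝 (A0 v))

theorem MLim.mul {A B : X → Matrix (Fin n) (Fin n) F}
    {A0 B0 : (F →+* ℝ) → Matrix (Fin n) (Fin n) ℝ} (hA : MLim l A A0) (hB : MLim l B B0) :
    MLim l (fun x => A x * B x) (fun v => A0 v * B0 v) := by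
  intro v
  have h := (hA v).mul (hB v)
  refine h.congr fun x => ?_
  rw [← Matrix.map_mul]

theorem MLim.transpose {A : X → Matrix (Fin n) (Fin n) F}
    {A0 : (F →+* ℝ) → Matrix (Fin n) (Fin n) ℝ} (hA : MLim l A A0) :
    MLim l (fun x => (A x)ᵀ) (fun v => (A0 v)ᵀ) := by
  intro v
  have h := ((continuous_id (X := Matrix (Fin n) (Fin n) ℝ)).matrix_transpose.tendsto
    (A0 v)).comp (hA v)
  exact h

theorem MLim.entry {A : X → Matrix (Fin n) (Fin n) F}
    {A0 : (F →+* ℝ) → Matrix (Fin n) (Fin n) ℝ} (hA : MLim l A A0) (v : F →+* ℝ) (i j : Fin n) :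
    Tendsto (fun x => v (A x i j)) l (𝓝 (A0 v i j)) :=
  tendsto_pi_nhds.1 (tendsto_pi_nhds.1 (hA v) i) j

theorem MLim.of_entry {A : X → Matrix (Fin n) (Fin n) F}
    {A0 : (F →+* ℝ) → Matrix (Fin n) (Fin n) ℝ}
    (h : ∀ v i j, Tendsto (fun x => v (A x i j)) l (𝓝 (A0 v i j))) : MLim l A A0 :=
  fun v => tendsto_pi_nhds.2 fun i => tendsto_pi_nhds.2 fun j => h v i j

theorem MLim.const (A : Matrix (Fin n) (Fin n) F) :
    MLim l (fun _ => A) (fun v => A.map v) := fun _ => tendsto_const_nhds

/-- the elimination matrix. -/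
def elim (k : Fin n) (q : Fin n → F) : Matrix (Fin n) (Fin n) F :=
  Matrix.of fun p i => (if p = i then 1 else 0) - (if p = k then q i else 0)

theorem mul_elim (T : Matrix (Fin n) (Fin n) F) (k : Fin n) (q : Fin n → F) (p j : Fin n) :
    (T * elim k q) p j = T p j - T p k * q j := by
  simp [elim, Matrix.mul_apply, mul_sub, Finset.sum_sub_distrib]

theorem elim_mul (T : Matrix (Fin n) (Fin n) F) (k : Fin n) (q : Fin n → F) (i j : Fin n) :
    ((elim k q)ᵀ * T) i j = T i j - q i * T k j := by
  simp [elim, Matrix.mul_apply, sub_mul, Finset.sum_sub_distrib]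

theorem map_elim (v : F →+* ℝ) (k : Fin n) (q : Fin n → F) (i j : Fin n) :
    v (elim k q i j) =
      (1 : Matrix (Fin n) (Fin n) ℝ) i j - (if i = k then v (q j) else 0) := by
  unfold elim
  rw [Matrix.of_apply, map_sub, Matrix.one_apply]
  split_ifs <;> simp

/-- **GS**: simultaneous Gram-Schmidt. -/
theorem gs (S : X → Matrix (Fin n) (Fin n) F) (hS : ∀ x, (S x)ᵀ = S x)
    (d : (F →+* ℝ) → Fin n → ℝ) (hd : ∀ v i, d v i ≠ 0) (hX : Nonempty (F →+* ℝ))
    (hl : MLim l S (fun v => Matrix.diagonal (d v))) (s : Finset (Fin n)) :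
    ∃ L : X → Matrix (Fin n) (Fin n) F, MLim l L (fun _ => 1) ∧
      ∀ᶠ x in l, ∀ i ∈ s, ∀ j, i ≠ j → ((L x)ᵀ * S x * L x) i j = 0 := by
  classical
  induction s using Finset.induction_on with
  | empty =>
    refine ⟨fun _ => 1, ?_, by simp⟩
    intro v
    have h := MLim.const (l := l) (1 : Matrix (Fin n) (Fin n) F) v
    simpa only [Matrix.map_one _ (map_zero v) (map_one v)] using h
  | insert k s hk ih =>
    obtain ⟨L, hL, hz⟩ := ih
    obtain ⟨T, hT⟩ : ∃ T : X → Matrix (Fin n) (Fin n) F, ∀ x, T x = (L x)ᵀ * S x * L x :=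
      ⟨_, fun _ => rfl⟩
    have hTs : ∀ x i j, T x i j = T x j i := by
      intro x i j
      have : (T x)ᵀ = T x := by
        rw [hT, Matrix.transpose_mul, Matrix.transpose_mul, Matrix.transpose_transpose, hS,
          Matrix.mul_assoc]
      conv_lhs => rw [← this]
      rfl
    have hTl : MLim l T (fun v => Matrix.diagonal (d v)) := by
      have h := (hL.transpose.mul hl).mul hL
      intro v
      have h1 := h v
      simp only [Matrix.transpose_one, one_mul, mul_one] at h1
      refine h1.congr fun x => ?_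
      rw [hT]
    obtain ⟨q, hq⟩ : ∃ q : X → Fin n → F, ∀ x i, q x i = if i = k then 0 else T x k i / T x k k :=
      ⟨fun x i => if i = k then 0 else T x k i / T x k k, fun _ _ => rfl⟩
    have hql : ∀ (v : F →+* ℝ) i, Tendsto (fun x => v (q x i)) l (𝓝 0) := by
      intro v i
      by_cases hik : i = k
      · simp only [hq, hik, if_true, map_zero]
        exact tendsto_const_nhds
      · have h1 := (hTl.entry v k i).div (hTl.entry v k k) (by
          rw [Matrix.diagonal_apply_eq]; exact hd v k)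
        rw [Matrix.diagonal_apply_ne _ (Ne.symm hik), zero_div] at h1
        refine h1.congr fun x => ?_
        rw [hq, if_neg hik, map_div₀]
        rfl
    have hEl : MLim l (fun x => elim k (q x)) (fun _ => 1) := by
      refine MLim.of_entry fun v i j => ?_
      simp only [map_elim]
      by_cases hik : i = k
      · simp only [hik, if_true]
        have h1 : Tendsto (fun x => (1 : Matrix (Fin n) (Fin n) ℝ) i j - v (q x j)) l
            (𝓝 ((1 : Matrix (Fin n) (Fin n) ℝ) i j - 0)) := tendsto_const_nhds.sub (hql v j)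
        rw [sub_zero] at h1
        simpa only [hik] using h1
      · simp only [hik, if_false, sub_zero]
        exact tendsto_const_nhds
    refine ⟨fun x => L x * elim k (q x), ?_, ?_⟩
    · have h := hL.mul hEl
      intro v
      have h1 := h v
      simpa only [mul_one] using h1
    · obtain ⟨v0⟩ := hX
      have hne : ∀ᶠ x in l, T x k k ≠ 0 := by
        have h1 := hTl.entry v0 k k
        rw [Matrix.diagonal_apply_eq] at h1
        filter_upwards [h1.eventually_ne (hd v0 k)] with x hx h0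
        apply hx
        rw [h0, map_zero]
      filter_upwards [hz, hne] with x hx hkk i hi j hij
      have e : (L x * elim k (q x))ᵀ * S x * (L x * elim k (q x)) =
          (elim k (q x))ᵀ * (T x * elim k (q x)) := by
        rw [hT, Matrix.transpose_mul]
        simp only [Matrix.mul_assoc]
      rw [e, elim_mul, mul_elim, mul_elim]
      rw [← hT] at hx
      by_cases hik : i = k
      · subst hik
        rw [hq x i, if_pos rfl, hq x j, if_neg (Ne.symm hij)]
        field_simp
        ring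
      · have his : i ∈ s := by
          rcases Finset.mem_insert.1 hi with h | h
          · exact absurd h hik
          · exact h
        have h1 : T x i k = 0 := hx i his k hik
        have h2 : T x k i = 0 := by rw [hTs]; exact h1
        have h3 : T x i j = 0 := hx i his j hij
        rw [hq x i, if_neg hik, h1, h2, h3]
        ring

/-- a permutation of the signs. -/
theorem exists_perm (p q : Fin n → Prop) [DecidablePred p] [DecidablePred q]
    (h : (Finset.univ.filter p).card = (Finset.univ.filter q).card) :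
    ∃ σ : Equiv.Perm (Fin n), ∀ i, p (σ i) ↔ q i := by
  have hc : Fintype.card {i // q i} = Fintype.card {i // p i} := by
    rw [Fintype.card_subtype, Fintype.card_subtype, h]
  have e : {i // q i} ≃ {i // p i} := Fintype.equivOfCardEq hc
  refine ⟨e.extendSubtype, fun i => ⟨fun hi => ?_, fun hi => e.extendSubtype_mem i hi⟩⟩
  by_contra hq
  exact e.extendSubtype_not_mem i hq hi

/-- the permutation matrix. -/
def pm (σ : Equiv.Perm (Fin n)) : Matrix (Fin n) (Fin n) ℝ :=
  Matrix.of fun p i => if p = σ i then 1 else 0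

theorem pm_transpose_mul (σ : Equiv.Perm (Fin n)) : (pm σ)ᵀ * pm σ = 1 := by
  ext i j
  simp [pm, Matrix.mul_apply, Matrix.one_apply, σ.injective.eq_iff]
  by_cases h : i = j
  · simp [h]
  · simp [h, Ne.symm h]

theorem pm_dia (σ : Equiv.Perm (Fin n)) (a : Fin n → ℝ) :
    (pm σ)ᵀ * Matrix.diagonal a * pm σ = Matrix.diagonal fun i => a (σ i) := by
  ext i j
  rw [Matrix.mul_apply]
  simp only [Matrix.mul_diagonal, Matrix.transpose_apply, pm, Matrix.of_apply]
  by_cases h : i = j
  · subst h
    simp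
  · have h' : σ i ≠ σ j := fun e => h (σ.injective e)
    have h2 : j ≠ i := Ne.symm h
    simp [h, h2]

theorem ev_sign {l : Filter X} {f : X → ℝ} {c : ℝ} (h : Tendsto f l (𝓝 c)) (hc : c ≠ 0) :
    ∀ᶠ x in l, (0 < f x ↔ 0 < c) ∧ f x ≠ 0 := by
  rcases lt_or_gt_of_ne hc with h0 | h0
  · filter_upwards [h.eventually_lt_const h0] with x hx
    exact ⟨⟨fun h1 => absurd h1 (not_lt.2 hx.le), fun h1 => absurd h1 (not_lt.2 h0.le)⟩, hx.ne⟩
  · filter_upwards [h.eventually_const_lt h0] with x hx
    exact ⟨⟨fun _ => h0, fun _ => hx⟩, hx.ne'⟩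

theorem map_inv_mat (v : F →+* ℝ) (g : Matrix (Fin n) (Fin n) F) :
    (g⁻¹).map v = (g.map v)⁻¹ := by
  rw [Matrix.inv_def, Matrix.inv_def, Ring.inverse_eq_inv', Ring.inverse_eq_inv']
  have h1 : (g.map v).det = v g.det := (RingHom.map_det v g).symm
  have h2 : (g.map v).adjugate = g.adjugate.map v := (RingHom.map_adjugate v g).symm
  rw [h1, h2]
  ext i j
  simp

theorem pm_det (σ : Equiv.Perm (Fin n)) : (pm σ).det ≠ 0 := by
  intro h
  have h1 := congrArg Matrix.det (pm_transpose_mul σ)
  rw [Matrix.det_mul, h, mul_zero, Matrix.det_one] at h1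
  exact zero_ne_one h1

theorem pm_inv (σ : Equiv.Perm (Fin n)) : (pm σ)⁻¹ = (pm σ)ᵀ :=
  Matrix.inv_eq_left_inv (pm_transpose_mul σ)

theorem pm_mul_transpose (σ : Equiv.Perm (Fin n)) : pm σ * (pm σ)ᵀ = 1 :=
  mul_eq_one_comm.1 (pm_transpose_mul σ)

theorem pm_dia' (σ : Equiv.Perm (Fin n)) (a : Fin n → ℝ) :
    pm σ * Matrix.diagonal (fun i => a (σ i)) * (pm σ)ᵀ = Matrix.diagonal a := by
  rw [← pm_dia]
  calc pm σ * ((pm σ)ᵀ * Matrix.diagonal a * pm σ) * (pm σ)ᵀ
      = (pm σ * (pm σ)ᵀ) * Matrix.diagonal a * (pm σ * (pm σ)ᵀ) := by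
        simp only [Matrix.mul_assoc]
    _ = _ := by rw [pm_mul_transpose, one_mul, mul_one]

end Seq

open Pool.Agent.CMN.Seq

/-- **SEQ**. -/
theorem seq : SEQ := by
  classical
  intro F _ _ n v₁ Φ Φ' hΦ hΦ' hcard
  have : Fintype (F →+* ℝ) := Fintype.ofFinite _
  -- the signs
  obtain ⟨a, ha⟩ : ∃ a : Fin n → F, ∀ i (v : F →+* ℝ),
      |v (a i) - (if Φ i v = true then 1 else -1)| < 1 / 2 := by
    choose a ha using fun i => Apx.approx (F := F) (fun v => if Φ i v = true then 1 else -1)
      (show (0 : ℝ) < 1 / 2 by norm_num)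
    exact ⟨a, ha⟩
  have hpos : ∀ i (v : F →+* ℝ), 0 < v (a i) ↔ Φ i v = true := by
    intro i v
    have h := ha i v
    rw [abs_lt] at h
    by_cases hv : Φ i v = true
    · rw [if_pos hv] at h
      exact ⟨fun _ => hv, fun _ => by linarith [h.1]⟩
    · rw [if_neg hv] at h
      exact ⟨fun h1 => absurd h1 (by linarith [h.2]), fun h1 => absurd h1 hv⟩
  have hne : ∀ i (v : F →+* ℝ), v (a i) ≠ 0 := by
    intro i v h0
    have h := ha i v
    rw [h0, abs_lt] at h
    split_ifs at h <;> linarith [h.1, h.2]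
  have hne0 : ∀ i, a i ≠ 0 := by
    intro i h0
    exact hne i v₁ (by rw [h0, map_zero])
  refine ⟨a, hne0, fun i => (hpos i v₁).2 (hΦ i), fun i => ?_, fun ε hε => ?_⟩
  · funext v
    by_cases hv : Φ i v = true
    · rw [hv, sgn, decide_eq_true_eq]
      exact (hpos i v).2 hv
    · have hf : Φ i v = false := by simpa using hv
      rw [hf, sgn, decide_eq_false_iff_not]
      exact fun h => hv ((hpos i v).1 h)
  -- the permutations
  choose σ hσ using fun v : F →+* ℝ =>
    exists_perm (fun i => Φ i v = true) (fun i => Φ' i v = true) (hcard v)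
  -- approximation of the permutation matrices
  choose g0 hg0 using fun (m : ℕ) (i j : Fin n) =>
    Apx.approx (F := F) (fun v => pm (σ v) i j) (show (0 : ℝ) < 1 / ((m : ℝ) + 1) by positivity)
  have hg0l : MLim atTop (fun m => Matrix.of (g0 m)) (fun v => pm (σ v)) := by
    refine MLim.of_entry fun v i j => ?_
    rw [tendsto_iff_dist_tendsto_zero]
    refine squeeze_zero (fun _ => dist_nonneg) (fun m => ?_)
      (tendsto_one_div_add_atTop_nhds_zero_nat (𝕜 := ℝ))
    rw [Real.dist_eq]
    exact (hg0 m i j v).le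
  obtain ⟨G, hG⟩ : ∃ G : ℕ → Matrix (Fin n) (Fin n) F, G = fun m => Matrix.of (g0 m) := ⟨_, rfl⟩
  rw [← hG] at hg0l
  have hSl : MLim atTop (fun m => (G m)ᵀ * Matrix.diagonal a * G m)
      (fun v => Matrix.diagonal fun i => v (a (σ v i))) := by
    have h := (hg0l.transpose.mul (MLim.const (l := atTop) (Matrix.diagonal a))).mul hg0l
    intro v
    have h1 := h v
    simp only [Matrix.diagonal_map (map_zero v)] at h1
    have h2 := pm_dia (σ v) (fun i => v (a i))
    rw [h2] at h1
    exact h1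
  obtain ⟨L, hL, hz⟩ := gs (fun m => (G m)ᵀ * Matrix.diagonal a * G m) (by
    intro m
    simp [Matrix.transpose_mul, Matrix.mul_assoc]) (fun v i => v (a (σ v i)))
    (fun v i => hne _ v) ⟨v₁⟩ hSl Finset.univ
  have hgl : MLim atTop (fun m => G m * L m) (fun v => pm (σ v)) := by
    have h := hg0l.mul hL
    intro v
    simpa only [mul_one] using h v
  have eT : ∀ m, (L m)ᵀ * ((G m)ᵀ * Matrix.diagonal a * G m) * L m =
      (G m * L m)ᵀ * Matrix.diagonal a * (G m * L m) := by
    intro m
    simp only [Matrix.transpose_mul, Matrix.mul_assoc]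
  obtain ⟨b, hb⟩ : ∃ b : ℕ → Fin n → F,
      ∀ m i, b m i = ((G m * L m)ᵀ * Matrix.diagonal a * (G m * L m)) i i := ⟨_, fun _ _ => rfl⟩
  have hbl : ∀ (v : F →+* ℝ) i, Tendsto (fun m => v (b m i)) atTop (𝓝 (v (a (σ v i)))) := by
    intro v i
    have h := ((hL.transpose.mul hSl).mul hL).entry v i i
    simp only [Matrix.transpose_one, one_mul, mul_one, Matrix.diagonal_apply_eq, eT, ← hb] at h
    exact h
  have hinv : ∀ v : F →+* ℝ, Tendsto (fun m => ((G m * L m)⁻¹).map v) atTop
      (𝓝 ((pm (σ v))ᵀ)) := by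
    intro v
    have h1 : ContinuousAt (Inv.inv : Matrix (Fin n) (Fin n) ℝ → _) (pm (σ v)) := by
      refine continuousAt_matrix_inv _ ?_
      rw [Ring.inverse_eq_inv']
      exact continuousAt_inv₀ (pm_det _)
    have h2 := h1.tendsto.comp (hgl v)
    rw [pm_inv] at h2
    refine h2.congr fun m => ?_
    rw [map_inv_mat]
    rfl
  have hRl : ∀ (v : F →+* ℝ), Tendsto (fun m => Rg (G m * L m) (b m) v) atTop
      (𝓝 (R0 a v)) := by
    intro v
    have h1 : Tendsto (fun m => (((G m * L m)⁻¹).map v)ᵀ) atTop (𝓝 (pm (σ v))) := by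
      have h := ((continuous_id (X := Matrix (Fin n) (Fin n) ℝ)).matrix_transpose.tendsto
        ((pm (σ v))ᵀ)).comp (hinv v)
      exact h
    have h2 : Tendsto (fun m => (Matrix.diagonal (fun i => |v (b m i)|) :
        Matrix (Fin n) (Fin n) ℝ)) atTop (𝓝 (Matrix.diagonal fun i => |v (a (σ v i))|)) := by
      refine ((continuous_id (X := Fin n → ℝ)).matrix_diagonal.tendsto
        (fun i => |v (a (σ v i))|)).comp (tendsto_pi_nhds.2 fun i => (hbl v i).abs)
    have h3 := (h1.mul h2).mul (hinv v)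
    rw [pm_dia' (σ v) (fun i => |v (a i)|)] at h3
    exact h3
  -- one index
  have E1 : ∀ᶠ m in (atTop : Filter ℕ), ∀ i, ∀ v : F →+* ℝ,
      (0 < v (b m i) ↔ 0 < v (a (σ v i))) ∧ v (b m i) ≠ 0 :=
    eventually_all.2 fun i => eventually_all.2 fun v => ev_sign (hbl v i) (hne _ v)
  have E2 : ∀ᶠ m in (atTop : Filter ℕ), v₁ (G m * L m).det ≠ 0 := by
    have h := ((continuous_id (X := Matrix (Fin n) (Fin n) ℝ)).matrix_det.tendsto
      (pm (σ v₁))).comp (hgl v₁)
    filter_upwards [h.eventually_ne (pm_det _)] with m hm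
    rw [RingHom.map_det]
    exact hm
  have E3 : ∀ᶠ m in (atTop : Filter ℕ), ∀ (v : F →+* ℝ) i j,
      |Rg (G m * L m) (b m) v i j - R0 a v i j| < ε := by
    refine eventually_all.2 fun v => eventually_all.2 fun i => eventually_all.2 fun j => ?_
    have h := tendsto_pi_nhds.1 (tendsto_pi_nhds.1 (hRl v) i) j
    have h1 := (Metric.tendsto_nhds.1 h) ε hε
    filter_upwards [h1] with m hm
    rwa [Real.dist_eq] at hm
  obtain ⟨m, hm, h1, h2, h3⟩ := (hz.and (E1.and (E2.and E3))).exists
  have hb0 : ∀ i, b m i ≠ 0 := by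
    intro i h0
    exact (h1 i v₁).2 (by rw [h0, map_zero])
  have hsg : ∀ i (v : F →+* ℝ), 0 < v (b m i) ↔ Φ' i v = true := by
    intro i v
    rw [(h1 i v).1, hpos, hσ]
  refine ⟨G m * L m, b m, ⟨?_, ?_, hb0, fun i => (hsg i v₁).2 (hΦ' i)⟩, fun i => ?_,
    fun v i j => (h3 v i j).le⟩
  · rw [isUnit_iff_ne_zero]
    intro h0
    exact h2 (by rw [h0, map_zero])
  · ext i j
    by_cases hij : i = j
    · subst hij
      rw [Matrix.diagonal_apply_eq, hb]
    · rw [Matrix.diagonal_apply_ne _ hij, ← eT]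
      exact hm i (Finset.mem_univ _) j hij
  · funext v
    by_cases hv : Φ' i v = true
    · rw [hv, sgn, decide_eq_true_eq]
      exact (hsg i v).2 hv
    · have hf : Φ' i v = false := by simpa using hv
      rw [hf, sgn, decide_eq_false_iff_not]
      exact fun h => hv ((hsg i v).1 h)

end Pool.Agent.CMN
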