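import Pool.Agent.Lib.CMN.Rows
import Pool.Agent.Lib.CMH.Apx

/-! # TANK CMN, row SIGH: a form of signature `(n,1)` at one place, definite elsewhere.
helper16 after helper26. -/

set_option autoImplicit false

namespace Pool.Agent.CMN

namespace SigH

variable {F : Type} [Field F] [NumberField F]

open Classical in
/-- Weak approximation: prescribed signs at the real places, with bounds away from zero. -/
theorem exists_signs (P : (F →+* ℝ) → Prop) : ∃ a : F, ∀ v : F →+* ℝ,
    (P v → 1 / 2 < v a) ∧ (¬ P v → v a < -(1 / 2)) ∧ |v a| < 3 / 2 := by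
  obtain ⟨a, ha⟩ := Pool.Agent.CMH.Apx.approx
    (fun v : F →+* ℝ => if P v then (1 : ℝ) else -1) (ε := 1 / 2) (by norm_num)
  refine ⟨a, fun v => ?_⟩
  have := ha v
  rw [abs_lt] at this
  by_cases hv : P v
  · rw [if_pos hv] at this
    refine ⟨fun _ => by linarith [this.1], fun h => absurd hv h, ?_⟩
    rw [abs_lt]
    constructor <;> linarith [this.1, this.2]
  · rw [if_neg hv] at this
    refine ⟨fun h => absurd h hv, fun _ => by linarith [this.2], ?_⟩
    rw [abs_lt]
    constructor <;> linarith [this.1, this.2]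

/-- An element of `F` with a prescribed sign vector. -/
theorem exists_sgn (Φ : CMType F) : ∃ a : F, a ≠ 0 ∧ sgn a = Φ ∧
    ∀ v : F →+* ℝ, 1 / 2 < |v a| ∧ |v a| < 3 / 2 := by
  obtain ⟨a, ha⟩ := exists_signs (F := F) (fun v => Φ v = true)
  have h1 : ∀ v : F →+* ℝ, 1 / 2 < |v a| := by
    intro v
    by_cases h : Φ v = true
    · exact ((ha v).1 h).trans_le (le_abs_self _)
    · have := (ha v).2.1 h
      exact lt_of_lt_of_le (by linarith) (neg_le_abs _)
  by_cases hne : a = 0
  · subst hne
    refine ⟨1, one_ne_zero, ?_, ?_⟩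
    · funext v
      exact absurd (h1 v) (by simp)
    · intro v
      exact absurd (h1 v) (by simp)
  refine ⟨a, hne, ?_, fun v => ⟨h1 v, (ha v).2.2⟩⟩
  funext v
  unfold sgn
  rcases h : Φ v with _ | _
  · have := (ha v).2.1 (by simp [h])
    simp only [decide_eq_false_iff_not, not_lt]
    linarith
  · have := (ha v).1 h
    simp only [decide_eq_true_eq]
    linarith

end SigH

open SigH in
/-- **ROW SIGH.** -/
theorem sigh : SIGH := by
  classical
  intro F _ _ n v₁
  obtain ⟨c, hc⟩ := exists_signs (F := F) (fun v => v ≠ v₁)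
  refine ⟨Fin.snoc (α := fun _ => F) (fun _ => 1) c, fun v j => ?_, fun v hv => ?_, ?_⟩
  · rw [Fin.snoc_castSucc, map_one]
    exact one_pos
  · rw [Fin.snoc_last]
    have := (hc v).1 hv
    linarith
  · rw [Fin.snoc_last]
    have := (hc v₁).2.1 (by simp)
    linarith

end Pool.Agent.CMN
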