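import Pool.Agent.Lib.CMN.SumB
import Pool.Agent.Lib.CMN.Est

/-!
Tank CMN, row SUM2 (helper63).
-/

set_option autoImplicit false

namespace Pool.Agent.CMN

/-- SUM2 -/
theorem sum2 : SUM2 := Sum.sum2_of est

end Pool.Agent.CMN
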