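import Pool.Agent.Lib.CMN.Sum
import Pool.Agent.Lib.CMN.Est

/-!
Tank CMN, row SUM3 (helper63).
-/

set_option autoImplicit false

namespace Pool.Agent.CMN

/-- SUM3 -/
theorem sum3 : SUM3 := Sum.sum3_of est

end Pool.Agent.CMN
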