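import Pool.Agent.Lib.CMN.TensA
import Pool.Agent.Lib.CMN.Ten

/-!
# Row TENS of the tank CMN: `C_{Rg}(φ)` is a sum of wedge products of theta one-forms
-/

set_option autoImplicit false

open scoped ComplexConjugate Matrix
open Complex

namespace Pool.Agent.CMN

noncomputable section

open TensRow

/-- row TENS -/
theorem tens_of (h2 : SUM2) (h3 : SUM3) : TENS := by
  intro F _ _ _ n v₁ D h a N φ g b hG hn ha hav hd hφ
  have hgg : g * g⁻¹ = 1 := Matrix.mul_nonsing_inv g hd.unit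
  have hgg' : g⁻¹ * g = 1 := Matrix.nonsing_inv_mul g hd.unit
  haveI : Nonempty (Fin n) := ⟨⟨0, hn⟩⟩
  obtain ⟨M, hM⟩ := hφ.comp g g⁻¹ hgg
  have hM' : SBJ M (fun η : Fin n → Fin (n + 1) → F => (v₁ g.det : ℂ) * φ (ch g η)) := by
    refine ⟨hM.1, ?_, ?_⟩
    · intro ξ hξ
      refine hM.2.1 ξ fun h0 => hξ ?_
      change (v₁ g.det : ℂ) * φ (ch g ξ) = 0
      rw [show φ (ch g ξ) = 0 from h0, mul_zero]
    · intro ξ η hη
      change (v₁ g.det : ℂ) * _ = (v₁ g.det : ℂ) * _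
      exact congrArg _ (hM.2.2 ξ η hη)
  obtain ⟨K, ψ, hψ, hsum⟩ := exists_tensorJ hM'
  refine ⟨K, ψ, hψ, ?_⟩
  intro y hy
  have hw : ∀ k, CR v₁ D h b (R0 b) (tens (ψ k)) y =
      wedge (fun i => theta v₁ D h (b i) (ψ k i)) y :=
    fun k => (h3 F n v₁ D h b _ hG hd.pos (hψ k) y hy).2
  have hsm : ∀ k ∈ (Finset.univ : Finset (Fin K)), Summable (fun ξ : Fin n → Fin (n + 1) → F =>
      tens (ψ k) ξ * gaussJ v₁ D h b (R0 b) ξ y * Del (ev v₁ h) (fun i => ev v₁ (ξ i)) y) := by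
    intro k _
    obtain ⟨N', hN'⟩ := SBJ.tens (hψ k)
    exact (h2 F n v₁ D h b (R0 b) N' _ hG hd.pos (fun v => (MajRow.isMaj_R0 b hd.ne v).1) rfl
      hN').1 y hy
  rw [← Finset.sum_congr rfl fun k _ => hw k]
  unfold CR
  rw [← Summable.tsum_finsetSum hsm, ← (chE g g⁻¹ hgg hgg').tsum_eq]
  refine tsum_congr fun η => ?_
  change φ (ch g η) * gaussJ v₁ D h a (Rg g b) (ch g η) y *
    Del (ev v₁ h) (fun i => ev v₁ (ch g η i)) y = _
  rw [gaussJ_gen D h hd, Del_gen, ch_ch g⁻¹ g hgg']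
  have h5 : (v₁ g.det : ℂ) * φ (ch g η) = ∑ k, tens (ψ k) η := hsum η
  rw [← Finset.sum_mul, ← Finset.sum_mul, ← h5]
  ring

end

end Pool.Agent.CMN
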