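import Pool.Agent.Lib.CMN.FX2
import Pool.Agent.Lib.CMN.FXa
import Pool.Agent.Lib.CMH.Pair
import Pool.Agent.Lib.CMN.Hol
import Pool.Agent.Lib.CMN.NV
import Pool.Agent.Lib.CMN.Sum2
import Pool.Agent.Lib.CMN.Sum3
import Pool.Agent.Lib.CMN.Maj
import Pool.Agent.Lib.CMN.SigH
import Pool.Agent.Lib.CMN.Seq
import Pool.Agent.Lib.CMN.Tens
import Pool.Agent.Lib.CMN.Ten

/-!
# CMN, row FX1: the approximating sequence of majorants and the choice of `b`
-/

set_option autoImplicit false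

namespace Pool.Agent.CMN.FX

open MeasureTheory Filter Topology ComplexConjugate Matrix Pool.CMN Pool.Agent.CMN.JB
open Pool.Agent.CMH (IsWeight PDisc Cocpt wgtExists wgtIndep wgtSub wgtPos exists_term)

noncomputable section

theorem continuousOn_wedge {n : ℕ} {k : Fin (n + 1) → ℝ} {ω : Fin n → Fin n → (Fin n → ℂ) → ℂ}
    (hω : ∀ i, ClosedHol k (ω i)) : ContinuousOn (wedge ω) (ball k) := by
  unfold wedge
  simp_rw [Matrix.det_apply]
  refine continuousOn_finsetSum _ fun σ _ => ?_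
  refine ContinuousOn.const_smul ?_ _
  refine continuousOn_finsetProd _ fun i _ => ?_
  exact ((hω (σ i)).1 i).continuousOn

/-- **Row FX1.** -/
theorem fx1_of (lim : LIM) (hP : INVALL) (hPD : PDX) (hCO : COCX) : FX1 := by
  classical
  intro F _ _ _ v₁ D n Φ Ψ hDi hD0 hex hn h1 h2 hbal
  obtain ⟨h, hhp, hhl, hhn⟩ := sigh F n v₁
  have hG : Good v₁ D h := ⟨hDi, hD0, hhp, hhl, hhn⟩
  -- the counts
  have hcount : ∀ v : F →+* ℝ, (Finset.univ.filter fun i => Φ i v = true).card =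
      (Finset.univ.filter fun i => bar (Ψ i) v = true).card := by
    intro v
    have e1 := hbal v
    have e2 := Finset.card_filter_add_card_filter_not (s := (Finset.univ : Finset (Fin n)))
      (fun i => Ψ i v = true)
    have e3 : (Finset.univ.filter fun i => ¬ (Ψ i v = true)) =
        (Finset.univ.filter fun i => bar (Ψ i) v = true) := by
      apply Finset.filter_congr
      intro i _
      simp [bar]
    rw [e3, Finset.card_univ, Fintype.card_fin] at e2
    omega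
  obtain ⟨a, ha0, hav, hsa, hε⟩ := seq F n v₁ Φ (fun i => bar (Ψ i)) h1
    (fun i => by simp [bar, h2 i]) hcount
  obtain ⟨φ, hφ, y0, hy0, hne⟩ := nv F n v₁ D h a hG hav ha0
  obtain ⟨N, hN⟩ := SBJ.tens hφ
  obtain ⟨Γ, hΓ, hinv⟩ := hP F n v₁ D h a N (tens φ) hG ha0 hav hN
  obtain ⟨maj0, majg⟩ := maj F n v₁ a ha0 hav
  set k := ev v₁ h with hk
  have hs : Jac.Sg k := sg_of hG
  have hU : ∀ g ∈ Γ, Jac.IsU k g.1 := fun g hg => isU_of_mem hΓ hg
  -- the sequence
  have hseq : ∀ m : ℕ, ∃ (g : Matrix (Fin n) (Fin n) F) (b : Fin n → F), Dia v₁ a g b ∧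
      (∀ i, sgn (b i) = bar (Ψ i)) ∧
      ∀ v i j, |Rg g b v i j - R0 a v i j| ≤ 1 / ((m : ℝ) + 1) := fun m =>
    hε (1 / ((m : ℝ) + 1)) (by positivity)
  choose G b hdia hsb htap using hseq
  -- the functions
  let A : ball k → ℂ := fun y => CR v₁ D h a (R0 a) (tens φ) y.1
  let B : ℕ → ball k → ℂ := fun m y => CR v₁ D h a (Rg (G m) (b m)) (tens φ) y.1
  have hRtv : ∀ m, Rg (G m) (b m) v₁ = R0 a v₁ := fun m => (majg (G m) (b m) (hdia m)).2
  have hpd0 : ∀ v, (R0 a v).PosDef := fun v => (maj0 v).1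
  have hpdn : ∀ m v, (Rg (G m) (b m) v).PosDef := fun m v =>
    ((majg (G m) (b m) (hdia m)).1 v).1
  have hAc : ContinuousOn (CR v₁ D h a (R0 a) (tens φ)) (ball k) :=
    (sum2 F n v₁ D h a (R0 a) N (tens φ) hG hav hpd0 rfl hN).2
  have hBc : ∀ m, ContinuousOn (CR v₁ D h a (Rg (G m) (b m)) (tens φ)) (ball k) := fun m =>
    (sum2 F n v₁ D h a (Rg (G m) (b m)) N (tens φ) hG hav (hpdn m) (hRtv m) hN).2
  have hAcont : Continuous A := hAc.comp_continuous continuous_subtype_val fun y => y.2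
  have hBcont : ∀ m, Continuous (B m) := fun m =>
    (hBc m).comp_continuous continuous_subtype_val fun y => y.2
  -- uniform convergence on compact sets
  have hunif : ∀ C : Set (Fin n → ℂ), IsCompact C → C ⊆ ball k → ∀ ε : ℝ, 0 < ε →
      ∃ m0 : ℕ, ∀ m, m0 ≤ m → ∀ y ∈ C,
        ‖CR v₁ D h a (Rg (G m) (b m)) (tens φ) y - CR v₁ D h a (R0 a) (tens φ) y‖ ≤ ε := by
    intro C hC hsub ε hε
    obtain ⟨δ, hδ0, hδ1⟩ := lim F n v₁ D h a N (tens φ) C ε hG hav ha0 hN hC hsub hε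
    obtain ⟨m0, hm0⟩ := exists_nat_one_div_lt hδ0
    refine ⟨m0, fun m hm y hy => hδ1 (Rg (G m) (b m)) (hpdn m) (hRtv m) (fun v i j => ?_) y hy⟩
    refine (htap m v i j).trans (le_trans ?_ hm0.le)
    exact one_div_le_one_div_of_le (by positivity) (by exact_mod_cast Nat.add_le_add_right hm 1)
  have hlim : ∀ y : ball k, Tendsto (fun m => B m y) atTop (𝓝 (A y)) := by
    intro y
    rw [Metric.tendsto_atTop]
    intro ε hε
    obtain ⟨m0, hm0⟩ := hunif {y.1} isCompact_singleton (by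
      rintro _ rfl
      exact y.2) (ε / 2) (by positivity)
    refine ⟨m0, fun m hm => ?_⟩
    rw [dist_eq_norm]
    exact (hm0 m hm y.1 rfl).trans_lt (half_lt_self hε)
  have hbd : ∀ K : Set (ball k), IsCompact K → ∃ M : ℝ, ∀ m, ∀ y ∈ K, ‖B m y‖ ≤ M := by
    intro K hK
    obtain ⟨m0, hm0⟩ := hunif ((Subtype.val : ball k → Fin n → ℂ) '' K)
      (hK.image continuous_subtype_val) (by
        rintro _ ⟨y, _, rfl⟩
        exact y.2) 1 one_pos
    obtain ⟨M0, hM0⟩ := hK.exists_bound_of_continuousOn hAcont.continuousOn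
    have hMn : ∀ m, ∃ M : ℝ, ∀ y ∈ K, ‖B m y‖ ≤ M := fun m =>
      hK.exists_bound_of_continuousOn (hBcont m).continuousOn
    choose M hM using hMn
    refine ⟨max (M0 + 1) (∑ m ∈ Finset.range m0, |M m|), fun m y hy => ?_⟩
    rcases lt_or_ge m m0 with hm | hm
    · refine le_max_of_le_right ((hM m y hy).trans ((le_abs_self _).trans ?_))
      exact Finset.single_le_sum (f := fun m => |M m|) (fun i _ => abs_nonneg _)
        (Finset.mem_range.2 hm)
    · refine le_max_of_le_left ?_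
      have e1 := hm0 m hm y.1 ⟨y, hy, rfl⟩
      have e2 := hM0 y hy
      have e3 : B m y = (B m y - A y) + A y := by ring
      rw [e3]
      refine (norm_add_le _ _).trans ?_
      have e4 : ‖B m y - A y‖ ≤ 1 := e1
      linarith
  -- the action
  let _ := mulActionBall hs Γ hU
  have := continuousConstSMul_ball hs Γ hU
  have := smulInvariant_muB hs Γ hU
  have hlc : LocallyCompactSpace (ball k) := (isOpen_ball _).locallyCompactSpace
  have hpdisc : PDisc Γ (ball k) := pdisc_of hs hU (hPD F n v₁ D h Γ hG hΓ)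
  have hcocpt : Cocpt Γ (ball k) := cocpt_of hs hU (hCO F n v₁ D h Γ hG hex hΓ)
  have : Countable Γ := countable_of_isArith hΓ
  obtain ⟨χ0, hχ0⟩ := wgtExists Γ (ball k) hpdisc hcocpt
  have hjne : ∀ (g : Γ) (y : ball k), (g.1.1 *ᵥ hat y.1) (Fin.last n) ≠ 0 := fun g y =>
    jf_ne' hs (hU g.1 g.2) y.2
  have hHc : Continuous fun y : ball k => Jac.Hf k y.1 := by
    have := Jac.continuous_Hf k
    exact this.comp continuous_subtype_val
  have hHp : ∀ y : ball k, 0 < Jac.Hf k y.1 := fun y => (Jac.mem_Bl_iff_Hf k y.1).1 y.2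
  obtain ⟨j, hj⟩ := exists_term wgtIndep wgtSub wgtPos (G := Γ) (X := ball k) (muJ k) hpdisc hχ0
    (fun g y => ((g.1.1 *ᵥ hat y.1) (Fin.last n) ^ (n + 1))⁻¹) (fun y => Jac.Hf k y.1 ^ (n + 1))
    (hHc.pow (n + 1)) (fun y => pow_pos (hHp y) (n + 1))
    (fun g y => by
      have e1 : Jac.Hf k (actC g.1 y.1) =
          Jac.Hf k y.1 / ‖(g.1.1 *ᵥ hat y.1) (Fin.last n)‖ ^ 2 :=
        Jac.Hf_act (hU g.1 g.2) (Jac.jf_ne hs (hU g.1 g.2) y.2)
      have e2 : (((g • y : ball k)) : Fin n → ℂ) = actC g.1 y.1 := rfl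
      have e3 : ‖(g.1.1 *ᵥ hat y.1) (Fin.last n)‖ ≠ 0 := norm_ne_zero_iff.2 (hjne g y)
      simp only [e2, e1, norm_inv, norm_pow]
      field_simp
      rw [← pow_mul, mul_comm (n + 1) 2, pow_mul, ← mul_pow,
        div_mul_cancel₀ _ (pow_ne_zero 2 e3)])
    A hAcont
    (fun g y => by
      have e1 := hinv (R0 a) maj0 rfl g.1 g.2 y.1 y.2
      change CR v₁ D h a (R0 a) (tens φ) (actC g.1 y.1) *
        ((g.1.1 *ᵥ hat y.1) (Fin.last n) ^ (n + 1))⁻¹ = CR v₁ D h a (R0 a) (tens φ) y.1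
      rw [e1]
      have := hjne g y
      field_simp)
    (x0 := ⟨y0, hy0⟩) hne B hBcont
    (fun m g y => by
      have e1 := hinv (Rg (G m) (b m)) (fun v => (majg (G m) (b m) (hdia m)).1 v) (hRtv m)
        g.1 g.2 y.1 y.2
      change CR v₁ D h a (Rg (G m) (b m)) (tens φ) (actC g.1 y.1) *
        ((g.1.1 *ᵥ hat y.1) (Fin.last n) ^ (n + 1))⁻¹ =
          CR v₁ D h a (Rg (G m) (b m)) (tens φ) y.1
      rw [e1]
      have := hjne g y
      field_simp)
    hlim hbd
  obtain ⟨K, ψ, hψ, hdec⟩ := tens_of sum2 sum3 F n v₁ D h a N (tens φ) (G j) (b j) hG hn ha0 hav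
    (hdia j) hN
  refine ⟨h, Γ, a, b j, φ, K, ψ, hG, fun i => ⟨hav i, (hdia j).pos i⟩,
    fun i => ⟨hsa i, hsb j i⟩, hφ, hψ, hΓ, fun Γ' hle hΓ' χ hχ => ?_⟩
  have : (Γ'.subgroupOf Γ).FiniteIndex := finiteIndex_of hΓ hΓ'
  have hwc : ∀ i ∈ (Finset.univ : Finset (Fin K)), Continuous fun y : ball k =>
      wedge (fun l => theta v₁ D h (b j l) (ψ i l)) y.1 := by
    intro i _
    exact (continuousOn_wedge fun l => hol F n v₁ D h (b j l) (ψ i l) hG ((hdia j).pos l)
      (hψ i l)).comp_continuous continuous_subtype_val fun y => y.2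
  obtain ⟨i, _, hi⟩ := hj (Γ'.subgroupOf Γ) (fun y : ball k => χ y.1) (isWeight_sub hs hU hle hχ)
    (Finset.univ : Finset (Fin K))
    (fun i y => wedge (fun l => theta v₁ D h (b j l) (ψ i l)) y.1)
    hwc (fun y => hdec y.1 y.2)
  refine ⟨i, fun h0 => hi ?_⟩
  have e1 := int_muB k χ hχ.supp (fun y =>
    CR v₁ D h a (R0 a) (tens φ) y * conj (wedge (fun l => theta v₁ D h (b j l) (ψ i l)) y))
  refine Eq.trans ?_ (e1.trans (Eq.trans ?_ h0))
  · rfl
  · refine integral_congr_ae (Eventually.of_forall fun y => ?_)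
    by_cases hy : y ∈ ball k
    · simp only
      rw [(sum3 F n v₁ D h a φ hG hav hφ y hy).2]
    · have : χ y = 0 := by
        by_contra hc
        exact hy (hχ.supp (subset_tsupport χ hc))
      simp [this]

end

end Pool.Agent.CMN.FX
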