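import Pool.Agent.Lib.CMN.FxCalc
import Pool.Agent.Lib.CMH.Wgt
import Pool.Agent.Lib.CMH.Ext

/-!
# CMN, row FX2 (helper37): from `FX1` to `QUOT`
-/

set_option autoImplicit false

namespace Pool.Agent.CMN.FX

open MeasureTheory Matrix ComplexConjugate Pool.CMN
open Pool.Agent.CMH (IsWeight PDisc Cocpt wgtExists wgtIndep)

noncomputable section

/-! ### countability -/

theorem countable_nf (F : Type) [Field F] [NumberField F] : Countable F :=
  (Module.finBasis ℚ F).equivFun.toEquiv.countable_iff.2 inferInstance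

section

variable {n : ℕ} {F : Type} [Field F] [NumberField F] {v₁ : F →+* ℝ} {D : F}
  {h : Fin (n + 1) → F}

theorem countable_inSU : {g : SLn n | InSU v₁ D h g}.Countable := by
  have := countable_nf F
  have hcm : Countable (Mat n F) := by
    have : Countable (Matrix (Fin (n + 1)) (Fin (n + 1)) F) :=
      inferInstanceAs (Countable (Fin (n + 1) → Fin (n + 1) → F))
    exact inferInstanceAs (Countable (Matrix (Fin (n + 1)) (Fin (n + 1)) F ×
      Matrix (Fin (n + 1)) (Fin (n + 1)) F))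
  have h1 : (Set.range (fun p : Mat n F => cmat v₁ D p)).Countable := Set.countable_range _
  have h2 : {g : SLn n | InSU v₁ D h g} ⊆
      (fun g : SLn n => g.1) ⁻¹' (Set.range (fun p : Mat n F => cmat v₁ D p)) := by
    intro g hg
    choose x y hx hy e using hg.1
    refine ⟨(Matrix.of x, Matrix.of y), ?_⟩
    ext i j
    exact (e i j).symm
  exact (h1.preimage_of_injOn (fun a _ b _ hab => Subtype.ext hab)).mono h2

theorem countable_of_isArith {Γ : Subgroup (SLn n)} (hΓ : IsArith v₁ D h Γ) : Countable Γ :=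
  (countable_inSU.mono fun g hg => hΓ.le g hg).to_subtype

/-- finite intersections of arithmetic groups -/
theorem isArith_iInf (hG : Good v₁ D h) {ι : Type} [Finite ι] [Nonempty ι]
    {Γ : ι → Subgroup (SLn n)} (hΓ : ∀ i, IsArith v₁ D h (Γ i)) : IsArith v₁ D h (⨅ i, Γ i) := by
  have h1 : ∀ i, Γ i ≤ SUO hG ∧ (Γ i).relIndex (SUO hG) ≠ 0 := fun i => (isArith_iff hG).1 (hΓ i)
  rw [isArith_iff hG]
  exact ⟨(iInf_le Γ (Classical.arbitrary ι)).trans (h1 _).1,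
    Subgroup.relIndex_iInf_ne_zero fun i => (h1 i).2⟩

theorem invOne_mono {k : Fin (n + 1) → ℝ} {Γ Γ' : Subgroup (SLn n)} (hle : Γ' ≤ Γ)
    {ω : Fin n → (Fin n → ℂ) → ℂ} (hω : InvOne k Γ ω) : InvOne k Γ' ω :=
  fun g hg => hω g (hle hg)

end

/-! ### weights on the ball and weights on `ℂⁿ` -/

section weights

variable {n : ℕ} {k : Fin (n + 1) → ℝ} (hs : Jac.Sg k) (Γ : Subgroup (SLn n))
  (hΓ : ∀ g ∈ Γ, Jac.IsU k g.1)

/-- a weight on `ℂⁿ` restricts to a weight on the ball -/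
theorem isWeight_restrict {χ : (Fin n → ℂ) → ℝ} (hχ : IsWt k Γ χ) :
    letI := JB.mulActionBall hs Γ hΓ
    IsWeight Γ (fun y : ball k => χ y.1) := by
  let _ := JB.mulActionBall hs Γ hΓ
  refine ⟨hχ.cont.comp continuous_subtype_val, ?_, fun y => hχ.nonneg _, fun y => hχ.sum y.1 y.2⟩
  have hc : IsCompact (Subtype.val ⁻¹' (tsupport χ) : Set (ball k)) := by
    rw [Topology.IsInducing.subtypeVal.isCompact_preimage_iff]
    · exact hχ.comp
    · rw [Subtype.range_coe]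
      exact hχ.supp
  refine HasCompactSupport.intro hc fun y hy => ?_
  exact image_eq_zero_of_notMem_tsupport hy

/-- a weight on the ball extends to a weight on `ℂⁿ` -/
theorem exists_isWt {χ : ball k → ℝ}
    (hχ : letI := JB.mulActionBall hs Γ hΓ
      IsWeight Γ χ) :
    ∃ χ' : (Fin n → ℂ) → ℝ, IsWt k Γ χ' ∧ ∀ y : ball k, χ' y.1 = χ y := by
  let _ := JB.mulActionBall hs Γ hΓ
  obtain ⟨h1, h2, h3⟩ := Pool.Agent.CMH.Ext.ext_open (isOpen_ball k) χ hχ.cont hχ.supp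
  have h5 : ∀ y : ball k, Pool.Agent.CMH.Ext.extZ (ball k) χ y.1 = χ y := fun y =>
    Pool.Agent.CMH.Ext.extZ_coe χ y
  refine ⟨Pool.Agent.CMH.Ext.extZ (ball k) χ,
    ⟨h1, h2, h3, Pool.Agent.CMH.Ext.extZ_nonneg hχ.nonneg, fun y hy => ?_⟩, h5⟩
  have h6 := hχ.sum ⟨y, hy⟩
  have e : (fun g : Γ => Pool.Agent.CMH.Ext.extZ (ball k) χ (actC g.1 y)) =
      fun g : Γ => χ (g • (⟨y, hy⟩ : ball k)) := by
    funext g
    exact h5 (g • (⟨y, hy⟩ : ball k))
  rw [e]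
  exact h6

/-- the invariant measure on the ball -/
def muJ (k : Fin (n + 1) → ℝ) : Measure (ball k) := Jac.muB k

instance (k : Fin (n + 1) → ℝ) : IsFiniteMeasureOnCompacts (muJ k) :=
  inferInstanceAs (IsFiniteMeasureOnCompacts (Jac.muB k))

instance (k : Fin (n + 1) → ℝ) : (muJ k).IsOpenPosMeasure :=
  inferInstanceAs ((Jac.muB k).IsOpenPosMeasure)

include hs in
theorem smulInvariant_muB :
    letI := JB.mulActionBall hs Γ hΓ
    SMulInvariantMeasure Γ (ball k) (muJ k) := by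
  let _ := JB.mulActionBall hs Γ hΓ
  exact ⟨fun g s hms => (Jac.measurePreserving_actB hs (hΓ g.1 g.2)).measure_preimage
    hms.nullMeasurableSet⟩

omit hs in
/-- integration against the invariant measure, back to Lebesgue measure. -/
theorem int_muB (k : Fin (n + 1) → ℝ) (χ : (Fin n → ℂ) → ℝ) (hχ : tsupport χ ⊆ ball k)
    (f : (Fin n → ℂ) → ℂ) :
    ∫ y : ball k, (χ y.1 : ℂ) * (f y.1 * ((Jac.Hf k y.1 ^ (n + 1) : ℝ) : ℂ)) ∂(muJ k) =
      ∫ y : Fin n → ℂ, (χ y : ℂ) * f y := by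
  have h1 := Jac.integral_muB k
    (fun y : Fin n → ℂ => (χ y : ℂ) * (f y * ((Jac.Hf k y ^ (n + 1) : ℝ) : ℂ)))
  refine h1.trans ?_
  have h2 : ∫ y in Jac.Bl k, ((Jac.Hf k y ^ (n + 1))⁻¹) •
      ((χ y : ℂ) * (f y * ((Jac.Hf k y ^ (n + 1) : ℝ) : ℂ))) =
      ∫ y in Jac.Bl k, (χ y : ℂ) * f y := by
    refine setIntegral_congr_fun (Jac.isOpen_Bl k).measurableSet fun y hy => ?_
    have h3 : (Jac.Hf k y ^ (n + 1)) ≠ 0 := pow_ne_zero _ ((Jac.mem_Bl_iff_Hf k y).1 hy).ne'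
    have h4 : ((Jac.Hf k y ^ (n + 1) : ℝ) : ℂ) ≠ 0 := by exact_mod_cast h3
    rw [Complex.real_smul, Complex.ofReal_inv]
    field_simp
  rw [h2]
  refine setIntegral_eq_integral_of_forall_compl_eq_zero fun y hy => ?_
  have h5 : χ y = 0 := by
    by_contra h6
    exact hy (hχ (subset_tsupport χ h6))
  simp [h5]

end weights

/-! ### the main step -/

theorem quot_of (hol : HOL) (hone : INVONE) (hpd : PDX) (hcoc : COCX) (hfx : FX1) : QUOT := by
  intro F _ _ _ v₁ D n Φ Ψ hDi hD hv hn h1 h2 hb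
  obtain ⟨h, Γ, a, b, φ, K, ψ, hG, hab, hsg, hφ, hψ, hΓ, H⟩ :=
    hfx F v₁ D n Φ Ψ hDi hD hv hn h1 h2 hb
  -- the groups of the one-forms
  choose Ga hGa1 hGa2 using fun i : Fin n =>
    hone F n v₁ D h (a i) (φ i) hG (hab i).1 (hφ i)
  choose Gb hGb1 hGb2 using fun p : Fin K × Fin n =>
    hone F n v₁ D h (b p.2) (ψ p.1 p.2) hG (hab p.2).2 (hψ p.1 p.2)
  let Λ : Option (Fin n ⊕ (Fin K × Fin n)) → Subgroup (SLn n) := fun o =>
    match o with
    | none => Γ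
    | some (Sum.inl i) => Ga i
    | some (Sum.inr p) => Gb p
  have hΛ : ∀ o, IsArith v₁ D h (Λ o) := by
    rintro (_ | i | p)
    · exact hΓ
    · exact hGa1 i
    · exact hGb1 p
  let Δ : Subgroup (SLn n) := ⨅ o, Λ o
  have hΔ : IsArith v₁ D h Δ := isArith_iInf hG hΛ
  have hΔΓ : Δ ≤ Γ := iInf_le Λ none
  have hΔa : ∀ i, Δ ≤ Ga i := fun i => iInf_le Λ (some (Sum.inl i))
  have hΔb : ∀ p, Δ ≤ Gb p := fun p => iInf_le Λ (some (Sum.inr p))
  have hs := JB.sg_of hG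
  have hU : ∀ g ∈ Δ, Jac.IsU (ev v₁ h) g.1 := fun g hg => JB.isU_of_mem hΔ hg
  -- the action
  let _ : MulAction Δ (ball (ev v₁ h)) := JB.mulActionBall hs Δ hU
  have hcs : ContinuousConstSMul Δ (ball (ev v₁ h)) := JB.continuousConstSMul_ball hs Δ hU
  have hinvm : SMulInvariantMeasure Δ (ball (ev v₁ h)) (muJ (ev v₁ h)) :=
    smulInvariant_muB hs Δ hU
  have hlc : LocallyCompactSpace (ball (ev v₁ h)) := (isOpen_ball _).locallyCompactSpace
  have hcnt : Countable Δ := countable_of_isArith hΔ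
  have hPD : PDisc Δ (ball (ev v₁ h)) := by
    intro C hC
    refine (hpd F n v₁ D h Δ hG hΔ (Subtype.val '' C) (hC.image continuous_subtype_val) ?_).subset ?_
    · rintro _ ⟨y, -, rfl⟩
      exact y.2
    · rintro g ⟨y, hy, hgy⟩
      exact ⟨y.1, ⟨y, hy, rfl⟩, ⟨g • y, hgy, rfl⟩⟩
  have hcc : Cocompact (ev v₁ h) Δ := hcoc F n v₁ D h Δ hG hv hΔ
  have hCC : Cocpt Δ (ball (ev v₁ h)) := by
    obtain ⟨C, hC, hCs, hCc⟩ := hcc
    refine ⟨Subtype.val ⁻¹' C, ?_, fun y => ?_⟩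
    · rw [Topology.IsInducing.subtypeVal.isCompact_preimage_iff]
      · exact hC
      · rw [Subtype.range_coe]
        exact hCs
    · obtain ⟨g, hg, hgy⟩ := hCc y.1 y.2
      exact ⟨⟨g, hg⟩, hgy⟩
  -- a weight
  obtain ⟨χ₀, hχ₀⟩ := wgtExists Δ (ball (ev v₁ h)) hPD hCC
  obtain ⟨χ₁, hχ₁, hχ₁₀⟩ := exists_isWt hs Δ hU hχ₀
  obtain ⟨k, hk⟩ := H Δ hΔΓ hΔ χ₁ hχ₁
  -- the one-forms
  have ia : ∀ i, InvOne (ev v₁ h) Δ (theta v₁ D h (a i) (φ i)) := fun i =>
    invOne_mono (hΔa i) (hGa2 i)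
  have ib : ∀ i, InvOne (ev v₁ h) Δ (theta v₁ D h (b i) (ψ k i)) := fun i =>
    invOne_mono (hΔb (k, i)) (hGb2 (k, i))
  have ca : ∀ i, ClosedHol (ev v₁ h) (theta v₁ D h (a i) (φ i)) := fun i =>
    hol F n v₁ D h (a i) (φ i) hG (hab i).1 (hφ i)
  have cb : ∀ i, ClosedHol (ev v₁ h) (theta v₁ D h (b i) (ψ k i)) := fun i =>
    hol F n v₁ D h (b i) (ψ k i) hG (hab i).2 (hψ k i)
  refine ⟨h, Δ, a, b, φ, ψ k, hG.hp, hG.hn, hG.hl, hab, hsg,
    fun i => ⟨hφ i, hψ k i⟩, hΔ, hcc, fun i => ⟨ca i, cb i, ia i, ib i⟩, ⟨χ₁, hχ₁⟩,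
    fun χ hχ => ?_⟩
  -- independence of the weight
  let A : (Fin n → ℂ) → ℂ := wedge (fun i => theta v₁ D h (a i) (φ i))
  let B : (Fin n → ℂ) → ℂ := wedge (fun i => theta v₁ D h (b i) (ψ k i))
  have contW : ∀ ω : Fin n → Fin n → (Fin n → ℂ) → ℂ, (∀ i, ClosedHol (ev v₁ h) (ω i)) →
      ContinuousOn (wedge ω) (ball (ev v₁ h)) := by
    intro ω hω
    unfold wedge
    simp_rw [Matrix.det_apply]
    refine continuousOn_finsetSum _ fun σ _ => ?_
    refine ContinuousOn.const_smul ?_ _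
    refine continuousOn_finsetProd _ fun i _ => ?_
    exact ((hω (σ i)).1 i).continuousOn
  have contA : ContinuousOn A (ball (ev v₁ h)) := contW _ ca
  have contB : ContinuousOn B (ball (ev v₁ h)) := contW _ cb
  let f : ball (ev v₁ h) → ℂ := fun y =>
    (A y.1 * conj (B y.1)) * ((Jac.Hf (ev v₁ h) y.1 ^ (n + 1) : ℝ) : ℂ)
  have hfc : Continuous f := by
    refine Continuous.mul (Continuous.mul ?_ (Complex.continuous_conj.comp ?_)) ?_
    · exact continuousOn_iff_continuous_domRestrict.1 contA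
    · exact continuousOn_iff_continuous_domRestrict.1 contB
    · exact Complex.continuous_ofReal.comp
        (((Jac.continuous_Hf (ev v₁ h)).comp continuous_subtype_val).pow (n + 1))
  have hfi : ∀ (g : Δ) y, f (g • y) = f y := by
    intro g y
    exact JB.wedge2_inv hs (hU g.1 g.2) y.2
      (JB.wedge_actC hs ia g.2 (hU g.1 g.2) y.2)
      (JB.wedge_actC hs ib g.2 (hU g.1 g.2) y.2)
  have key : ∀ χ : (Fin n → ℂ) → ℝ, IsWt (ev v₁ h) Δ χ →
      ∫ y : Fin n → ℂ, (χ y : ℂ) * (A y * conj (B y)) =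
        ∫ y, (χ₀ y : ℂ) * f y ∂(muJ (ev v₁ h)) := by
    intro χ hχ
    rw [← int_muB (ev v₁ h) χ hχ.supp (fun y => A y * conj (B y))]
    exact wgtIndep Δ (ball (ev v₁ h)) (muJ (ev v₁ h)) hPD _ _
      (isWeight_restrict hs Δ hU hχ) hχ₀ f hfc hfi
  change ∫ y : Fin n → ℂ, (χ y : ℂ) * (A y * conj (B y)) ≠ 0
  rw [key χ hχ, ← key χ₁ hχ₁]
  exact hk

end

end Pool.Agent.CMN.FX
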