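import Pool.Agent.Lib.CMN.SumB
import Pool.Agent.Lib.CMN.Est

/-!
Tank CMN, row LIM (helper65, after helper5's case `n = 2`): continuity of `R ↦ C_R(φ)` at
`|diag(a)|`, uniformly on compact sets.
-/

set_option autoImplicit false

open scoped ComplexConjugate Matrix
open Complex

namespace Pool.Agent.CMN

noncomputable section

open Pool.CMH (nrm2 Lat nrm2_nonneg summable_gs)
open Pool.Agent.CMH.Sum (bdd ev_sq_le)
open Pool.Agent.CMN.Sum (gaussJ_bound norm_det_le mjp summable_mjp2 termJ_bound)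

variable {n : ℕ} {F : Type} [Field F] [NumberField F]

theorem Lim.exists_up {α : Type} [Finite α] (f : α → ℝ) : ∃ M : ℝ, 0 < M ∧ ∀ a, f a ≤ M := by
  obtain ⟨M, hM⟩ := (Set.finite_range f).bddAbove
  exact ⟨max M 1, lt_max_of_lt_right one_pos, fun a => (hM ⟨a, rfl⟩).trans (le_max_left _ _)⟩

/-- difference of the exponents -/
def Lim.dx (D : F) (h : Fin (n + 1) → F) (a : Fin n → F) (R : Maj (Fin n) F)
    (ξ : Fin n → Fin (n + 1) → F) : ℝ :=
  -Real.pi * ∑ v : F →+* ℝ, (1 / √(v D)) * ∑ i, ∑ j, (R v i j - R0 a v i j) * form h v (ξ i) (ξ j)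

theorem Lim.gauss_eq (v₁ : F →+* ℝ) (D : F) (h : Fin (n + 1) → F) (a : Fin n → F)
    (R : Maj (Fin n) F) (ξ : Fin n → Fin (n + 1) → F) (y : Fin n → ℂ) :
    gaussJ v₁ D h a R ξ y = gaussJ v₁ D h a (R0 a) ξ y * exp ((Lim.dx D h a R ξ : ℝ) : ℂ) := by
  rw [gaussJ, gaussJ, ← Complex.exp_add]
  congr 1
  rw [Lim.dx]
  push_cast
  rw [← mul_add, ← Finset.sum_add_distrib]
  congr 1
  apply Finset.sum_congr rfl
  intro v _
  have h1 : (∑ i, ∑ j, ((R v i j : ℝ) : ℂ) * (form h v (ξ i) (ξ j) : ℂ)) =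
      (∑ i, ∑ j, ((R0 a v i j : ℝ) : ℂ) * (form h v (ξ i) (ξ j) : ℂ)) +
      ∑ i, ∑ j, (((R v i j : ℝ) : ℂ) - ((R0 a v i j : ℝ) : ℂ)) * (form h v (ξ i) (ξ j) : ℂ) := by
    rw [← Finset.sum_add_distrib]
    apply Finset.sum_congr rfl
    intro i _
    rw [← Finset.sum_add_distrib]
    apply Finset.sum_congr rfl
    intro j _
    ring
  rw [h1]
  ring

theorem Lim.dx_le (D : F) (h : Fin (n + 1) → F) (a : Fin n → F) (R : Maj (Fin n) F)
    (ξ : Fin n → Fin (n + 1) → F)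
    (M₁ M₂ δ : ℝ) (hδ : 0 ≤ δ) (hM₁ : ∀ v : F →+* ℝ, 1 / √(v D) ≤ M₁) (hM₁0 : 0 ≤ M₁)
    (hM₂0 : 0 ≤ M₂)
    (hM₂ : ∀ (v : F →+* ℝ) l, |v (h l)| ≤ M₂) (hR : ∀ v i j, |R v i j - R0 a v i j| ≤ δ) :
    |Lim.dx D h a R ξ| ≤ Real.pi * (M₁ * (n * M₂)) * δ *
      nrm2 (fun p : Fin n × Fin (n + 1) => ξ p.1 p.2) := by
  rw [Lim.dx, abs_mul, abs_neg, abs_of_pos Real.pi_pos]
  have hform : ∀ (v : F →+* ℝ) i j, |form h v (ξ i) (ξ j)| ≤
      M₂ * ((∑ l, v (ξ i l) ^ 2 + ∑ l, v (ξ j l) ^ 2) / 2) := by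
    intro v i j
    rw [form]
    refine (Finset.abs_sum_le_sum_abs _ _).trans ?_
    rw [← Finset.sum_add_distrib, Finset.sum_div, Finset.mul_sum]
    apply Finset.sum_le_sum
    intro l _
    rw [abs_mul, abs_mul, mul_assoc]
    apply mul_le_mul (hM₂ v l) _ (by positivity) hM₂0
    nlinarith [sq_nonneg (|v (ξ i l)| - |v (ξ j l)|), sq_abs (v (ξ i l)), sq_abs (v (ξ j l))]
  have h2 : ∀ v : F →+* ℝ, |(1 / √(v D)) * ∑ i, ∑ j, (R v i j - R0 a v i j) * form h v (ξ i) (ξ j)| ≤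
      M₁ * (n * M₂) * δ * ∑ i, ∑ l, v (ξ i l) ^ 2 := by
    intro v
    rw [abs_mul, abs_of_nonneg (by positivity : (0:ℝ) ≤ 1 / √(v D))]
    have h3 : |∑ i, ∑ j, (R v i j - R0 a v i j) * form h v (ξ i) (ξ j)| ≤
        n * M₂ * δ * ∑ i, ∑ l, v (ξ i l) ^ 2 := by
      have h4 : |∑ i, ∑ j, (R v i j - R0 a v i j) * form h v (ξ i) (ξ j)| ≤
          ∑ i, ∑ j, δ * (M₂ * ((∑ l, v (ξ i l) ^ 2 + ∑ l, v (ξ j l) ^ 2) / 2)) := by
        refine (Finset.abs_sum_le_sum_abs _ _).trans (Finset.sum_le_sum (fun i _ => ?_))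
        refine (Finset.abs_sum_le_sum_abs _ _).trans (Finset.sum_le_sum (fun j _ => ?_))
        rw [abs_mul]
        exact mul_le_mul (hR v i j) (hform v i j) (abs_nonneg _) hδ
      refine h4.trans (le_of_eq ?_)
      have h5 : ∀ s : Fin n → ℝ, ∑ i, ∑ j, δ * (M₂ * ((s i + s j) / 2)) =
          n * M₂ * δ * ∑ i, s i := by
        intro s
        have e1 : ∀ i, ∑ j, δ * (M₂ * ((s i + s j) / 2)) =
            δ * M₂ / 2 * (n * s i + ∑ j, s j) := by
          intro i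
          have e2 : ∀ j, δ * (M₂ * ((s i + s j) / 2)) = δ * M₂ / 2 * (s i + s j) := fun j => by ring
          rw [Finset.sum_congr rfl (fun j _ => e2 j), ← Finset.mul_sum, Finset.sum_add_distrib]
          simp
        rw [Finset.sum_congr rfl (fun i _ => e1 i), ← Finset.mul_sum, Finset.sum_add_distrib,
          ← Finset.mul_sum]
        simp
        ring
      exact h5 (fun i => ∑ l, v (ξ i l) ^ 2)
    calc (1 / √(v D)) * |∑ i, ∑ j, (R v i j - R0 a v i j) * form h v (ξ i) (ξ j)|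
        ≤ M₁ * (n * M₂ * δ * ∑ i, ∑ l, v (ξ i l) ^ 2) :=
          mul_le_mul (hM₁ v) h3 (abs_nonneg _) hM₁0
      _ = _ := by ring
  have hq : nrm2 (fun p : Fin n × Fin (n + 1) => ξ p.1 p.2) =
      ∑ v : F →+* ℝ, ∑ i, ∑ l, v (ξ i l) ^ 2 := by
    rw [nrm2, Finset.sum_comm]
    refine Finset.sum_congr rfl fun v _ => ?_
    rw [Fintype.sum_prod_type]
  have h5 : |∑ v : F →+* ℝ, (1 / √(v D)) * ∑ i, ∑ j, (R v i j - R0 a v i j) * form h v (ξ i) (ξ j)| ≤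
      M₁ * (n * M₂) * δ * nrm2 (fun p : Fin n × Fin (n + 1) => ξ p.1 p.2) := by
    rw [hq, Finset.mul_sum]
    exact (Finset.abs_sum_le_sum_abs _ _).trans (Finset.sum_le_sum (fun v _ => h2 v))
  calc Real.pi * _ ≤ Real.pi * (M₁ * (n * M₂) * δ *
        nrm2 (fun p : Fin n × Fin (n + 1) => ξ p.1 p.2)) :=
        mul_le_mul_of_nonneg_left h5 Real.pi_pos.le
    _ = _ := by ring

theorem Lim.exp_sub_one (x b : ℝ) (hx : |x| ≤ b) : ‖exp (x : ℂ) - 1‖ ≤ b * Real.exp b := by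
  have h1 : exp (x : ℂ) - 1 = ((Real.exp x - 1 : ℝ) : ℂ) := by push_cast; rfl
  rw [h1, Complex.norm_real, Real.norm_eq_abs]
  have hb : 0 ≤ b := (abs_nonneg x).trans hx
  have h2 : |Real.exp x - 1| ≤ |x| * Real.exp |x| := by
    rcases le_total 0 x with h | h
    · rw [abs_of_nonneg h, abs_of_nonneg (by have := Real.add_one_le_exp x; linarith)]
      have := Real.one_sub_le_exp_neg x
      have h3 : Real.exp x * Real.exp (-x) = 1 := by rw [← Real.exp_add]; simp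
      nlinarith [Real.exp_pos x]
    · rw [abs_of_nonpos h, abs_of_nonpos (by
        have := Real.exp_le_one_iff.mpr h; linarith)]
      have h3 := Real.add_one_le_exp x
      have h4 : 1 ≤ Real.exp (-x) := Real.one_le_exp (by linarith)
      nlinarith
  exact h2.trans (mul_le_mul hx (Real.exp_le_exp.mpr hx) (Real.exp_pos _).le hb)

omit [NumberField F] in
theorem Lim.R0_posDef (v : F →+* ℝ) {a : Fin n → F} (ha : ∀ i, a i ≠ 0) :
    (R0 a v).PosDef := by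
  rw [R0]
  exact Matrix.PosDef.diagonal fun i => abs_pos.mpr ((map_ne_zero v).mpr (ha i))

/-- row LIM, from EST -/
theorem lim_of (hE : EST) : LIM := by
  intro F _ _ _ n v₁ D h a N φ C ε hg ha ha0 hφ hC hCb hε
  classical
  obtain ⟨c, hc, hc1⟩ := gaussJ_bound hE hg ha (R := R0 a) (fun v => Lim.R0_posDef v ha0) rfl hC hCb
  obtain ⟨c₀, hc₀, B₀, hB₀⟩ := termJ_bound hE hg ha (R := R0 a) (fun v => Lim.R0_posDef v ha0) rfl
    hφ hC hCb
  obtain ⟨-, -, -, -, hE5⟩ := hE n (ev v₁ h) hg.sg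
  obtain ⟨-, -, c', hc', -, hc2⟩ := hE5 C hC hCb
  obtain ⟨P, hP, hP1⟩ := bdd (ι := Fin n × Fin (n + 1)) hφ.1
    (fun ξ => φ (fun i j => ξ (i, j))) (fun ξ h i => hφ.2.1 _ h i.1 i.2)
    (fun ξ η h => hφ.2.2 (fun i j => ξ (i, j)) (fun i j => η (i, j)) (fun i j => h (i, j)))
  obtain ⟨M₁, hM₁0, hM₁⟩ := Lim.exists_up (fun v : F →+* ℝ => 1 / √(v D))
  obtain ⟨M₂, hM₂0, hM₂⟩ := Lim.exists_up (fun p : (F →+* ℝ) × Fin (n + 1) => |p.1 (h p.2)|)
  set K : ℝ := Real.pi * (M₁ * (n * M₂)) with hK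
  have hK0 : 0 ≤ K := by have := Real.pi_pos; positivity
  have hN : 0 < N := hφ.1
  have hsumT := summable_mjp2 (n := n) (F := F) (J := Fin n) (n + 1) hN
    (c := c / 2) (by positivity)
  set T : ℝ := ∑' ξ : Fin n → Fin (n + 1) → F,
    mjp (n + 1) N (c / 2) (fun q : Fin n × Fin (n + 1) => ξ q.1 q.2) with hT
  have hmj0 : ∀ ξ : Fin n → Fin (n + 1) → F,
      0 ≤ mjp (n + 1) N (c / 2) (fun q : Fin n × Fin (n + 1) => ξ q.1 q.2) := by
    intro ξ
    exact Set.indicator_nonneg (fun η _ => mul_nonneg (pow_nonneg (by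
      linarith [nrm2_nonneg (F := F) (ι := Fin n × Fin (n + 1)) η]) _)
      (Real.exp_pos _).le) _
  have hT0 : 0 ≤ T := tsum_nonneg hmj0
  set A : ℝ := P * K * (n.factorial * c' ^ n) with hA
  have hA0 : 0 ≤ A := by positivity
  refine ⟨min (c / (2 * (K + 1))) (ε / (A * T + 1)), lt_min (by positivity)
    (by positivity), ?_⟩
  intro R _ hR1 hRδ y hy
  set δ : ℝ := min (c / (2 * (K + 1))) (ε / (A * T + 1)) with hδ
  have hδ0 : 0 < δ := lt_min (by positivity) (by positivity)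
  have hKδ : K * δ ≤ c / 2 := by
    have h1 : δ ≤ c / (2 * (K + 1)) := min_le_left _ _
    calc K * δ ≤ (K + 1) * (c / (2 * (K + 1))) :=
          mul_le_mul (by linarith) h1 hδ0.le (by linarith)
      _ = c / 2 := by field_simp
  have hsum0 : Summable (fun ξ : Fin n → Fin (n + 1) → F => φ ξ * gaussJ v₁ D h a (R0 a) ξ y *
      Del (ev v₁ h) (fun i => ev v₁ (ξ i)) y) :=
    Summable.of_norm_bounded ((summable_mjp2 (n := n) (F := F) (J := Fin n) n hN hc₀).mul_left B₀)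
      (fun ξ => hB₀ y hy ξ)
  have hdiff : ∀ ξ : Fin n → Fin (n + 1) → F,
      ‖φ ξ * gaussJ v₁ D h a R ξ y * Del (ev v₁ h) (fun i => ev v₁ (ξ i)) y -
      φ ξ * gaussJ v₁ D h a (R0 a) ξ y * Del (ev v₁ h) (fun i => ev v₁ (ξ i)) y‖ ≤
      δ * A * mjp (n + 1) N (c / 2) (fun q : Fin n × Fin (n + 1) => ξ q.1 q.2) := by
    intro ξ
    by_cases h0 : φ ξ = 0
    · rw [h0]
      have := hmj0 ξ
      simp only [zero_mul, sub_zero, norm_zero]
      positivity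
    set u : Fin n × Fin (n + 1) → F := fun p => ξ p.1 p.2 with hu
    have hq : 0 ≤ nrm2 u := nrm2_nonneg _
    have hmem : u ∈ Lat F (Fin n × Fin (n + 1)) N := fun p => hφ.2.1 ξ h0 p.1 p.2
    have hm : mjp (n + 1) N (c / 2) u = (1 + nrm2 u) ^ (n + 1) * Real.exp (-(c / 2 * nrm2 u)) :=
      Set.indicator_of_mem hmem _
    have h1 := hc1 y hy ξ
    have hsq : ∀ i, ∑ j, ev v₁ (ξ i) j ^ 2 ≤ nrm2 u := by
      intro i
      refine le_trans ?_ (ev_sq_le v₁ u)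
      rw [Fintype.sum_prod_type]
      exact Finset.single_le_sum (f := fun i => ∑ j, v₁ (u (i, j)) ^ 2)
        (fun i _ => Finset.sum_nonneg fun _ _ => sq_nonneg _) (Finset.mem_univ i)
    have hds : ∀ i j, ‖ds (ev v₁ h) (ev v₁ (ξ i)) j y‖ ≤ c' * (1 + nrm2 u) := fun i j => by
      refine (hc2 y hy (ev v₁ (ξ i)) j).trans (mul_le_mul_of_nonneg_left ?_ hc'.le)
      refine (Real.sqrt_le_sqrt (hsq i)).trans ?_
      rw [Real.sqrt_le_left (by linarith)]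
      nlinarith
    have h4 : ‖Del (ev v₁ h) (fun i => ev v₁ (ξ i)) y‖ ≤
        n.factorial * (c' * (1 + nrm2 u)) ^ n := by
      rw [Del]
      exact norm_det_le _ fun i j => hds i j
    have h5 := Lim.dx_le D h a R ξ M₁ M₂ δ hδ0.le hM₁ hM₁0.le hM₂0.le (fun v l => hM₂ (v, l)) hRδ
    have h6 := Lim.exp_sub_one _ _ h5
    have h7 : φ ξ * gaussJ v₁ D h a R ξ y * Del (ev v₁ h) (fun i => ev v₁ (ξ i)) y -
      φ ξ * gaussJ v₁ D h a (R0 a) ξ y * Del (ev v₁ h) (fun i => ev v₁ (ξ i)) y =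
      φ ξ * gaussJ v₁ D h a (R0 a) ξ y * (exp ((Lim.dx D h a R ξ : ℝ) : ℂ) - 1) *
        Del (ev v₁ h) (fun i => ev v₁ (ξ i)) y := by
      rw [Lim.gauss_eq v₁ D h a R ξ y]; ring
    rw [h7, norm_mul, norm_mul, norm_mul, hm]
    have h8 : ‖gaussJ v₁ D h a (R0 a) ξ y‖ * ‖exp ((Lim.dx D h a R ξ : ℝ) : ℂ) - 1‖ ≤
        δ * K * (1 + nrm2 u) * Real.exp (-(c / 2 * nrm2 u)) := by
      calc _ ≤ Real.exp (-(c * nrm2 u)) *
            ((K * δ * nrm2 u) * Real.exp (K * δ * nrm2 u)) :=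
            mul_le_mul h1 h6 (norm_nonneg _) (Real.exp_pos _).le
        _ = (K * δ * nrm2 u) * Real.exp (-(c * nrm2 u) + K * δ * nrm2 u) := by
            rw [Real.exp_add]; ring
        _ ≤ (K * δ * (1 + nrm2 u)) * Real.exp (-(c / 2 * nrm2 u)) := by
            apply mul_le_mul _ _ (Real.exp_pos _).le (by positivity)
            · apply mul_le_mul_of_nonneg_left _ (by positivity)
              linarith
            · rw [Real.exp_le_exp]
              nlinarith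
        _ = _ := by ring
    calc ‖φ ξ‖ * ‖gaussJ v₁ D h a (R0 a) ξ y‖ * ‖exp ((Lim.dx D h a R ξ : ℝ) : ℂ) - 1‖ *
          ‖Del (ev v₁ h) (fun i => ev v₁ (ξ i)) y‖
        = ‖φ ξ‖ * (‖gaussJ v₁ D h a (R0 a) ξ y‖ * ‖exp ((Lim.dx D h a R ξ : ℝ) : ℂ) - 1‖) *
          ‖Del (ev v₁ h) (fun i => ev v₁ (ξ i)) y‖ := by ring
      _ ≤ P * (δ * K * (1 + nrm2 u) * Real.exp (-(c / 2 * nrm2 u))) *
          (n.factorial * (c' * (1 + nrm2 u)) ^ n) := by
          apply mul_le_mul (mul_le_mul (hP1 u) h8 (by positivity) hP) h4 (norm_nonneg _)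
          positivity
      _ = _ := by rw [hA, mul_pow, pow_succ]; ring
  have hsumd := Summable.of_norm_bounded (hsumT.mul_left (δ * A)) hdiff
  have hsumR : Summable (fun ξ : Fin n → Fin (n + 1) → F => φ ξ * gaussJ v₁ D h a R ξ y *
      Del (ev v₁ h) (fun i => ev v₁ (ξ i)) y) := by
    refine (hsumd.add hsum0).congr ?_
    intro ξ
    ring
  rw [CR, CR, ← hsumR.tsum_sub hsum0]
  have h9 := tsum_of_norm_bounded ((hsumT.hasSum).mul_left (δ * A)) hdiff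
  refine h9.trans ?_
  rw [← hT]
  have h10 : δ ≤ ε / (A * T + 1) := min_le_right _ _
  have h11 : δ * (A * T + 1) ≤ ε := by
    rwa [le_div_iff₀ (by positivity)] at h10
  nlinarith [hδ0]

/-- row LIM -/
theorem lim : LIM := lim_of est

end

end Pool.Agent.CMN
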