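import Mathlib

set_option autoImplicit false

namespace Pool.Agent.CMN.TDet

/-- Products of absolutely summable families over `Fin n`. -/
theorem tsum_prod_fin {X : Type*} (n : ℕ) (f : Fin n → X → ℂ)
    (hf : ∀ i, Summable fun x => ‖f i x‖) :
    (Summable fun ξ : Fin n → X => ‖∏ i, f i (ξ i)‖) ∧
      ∑' ξ : Fin n → X, ∏ i, f i (ξ i) = ∏ i, ∑' x, f i x := by
  induction n with
  | zero =>
    refine ⟨Summable.of_finite, ?_⟩
    rw [tsum_eq_single (fun i => i.elim0 : Fin 0 → X) (fun ξ hξ => absurd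
      (funext fun i => i.elim0) hξ)]
    simp
  | succ n ih =>
    obtain ⟨h1, h2⟩ := ih (fun i => f i.succ) fun i => hf i.succ
    set g : (Fin n → X) → ℂ := fun η => ∏ i : Fin n, f i.succ (η i) with hg
    have hfg : Summable fun p : X × (Fin n → X) => ‖f 0 p.1 * g p.2‖ :=
      Summable.mul_norm (f := f 0) (g := g) (hf 0) h1
    have hts : ∑' p : X × (Fin n → X), f 0 p.1 * g p.2 = (∑' x, f 0 x) * ∑' η, g η :=
      (tsum_mul_tsum_of_summable_norm (f := f 0) (g := g) (hf 0) h1).symm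
    have he : ∀ p : X × (Fin n → X), ∏ i, f i (Fin.consEquiv (fun _ => X) p i) =
        f 0 p.1 * g p.2 := by
      intro p
      rw [Fin.prod_univ_succ]
      rfl
    constructor
    · rw [← (Fin.consEquiv (fun _ : Fin (n + 1) => X)).summable_iff]
      refine hfg.congr fun p => ?_
      show _ = ‖∏ i, f i (Fin.consEquiv (fun _ => X) p i)‖
      rw [he]
    · rw [← (Fin.consEquiv (fun _ : Fin (n + 1) => X)).tsum_eq, Fin.prod_univ_succ, ← h2, ← hts]
      exact tsum_congr he

/-- A sum of determinants with product weights. -/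
theorem tsum_det {X : Type*} {n : ℕ} (c : Fin n → X → ℂ) (D : X → Fin n → ℂ)
    (h : ∀ i j, Summable fun x => ‖c i x * D x j‖) :
    ∑' ξ : Fin n → X, (∏ i, c i (ξ i)) * Matrix.det (Matrix.of fun i j => D (ξ i) j) =
      Matrix.det (Matrix.of fun i j => ∑' x, c i x * D x j) := by
  have h1 : ∀ ξ : Fin n → X, (∏ i, c i (ξ i)) * Matrix.det (Matrix.of fun i j => D (ξ i) j) =
      ∑ τ : Equiv.Perm (Fin n), ((Equiv.Perm.sign τ : ℤ) : ℂ) *
        ∏ i, (c i (ξ i) * D (ξ i) (τ i)) := by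
    intro ξ
    rw [← Matrix.det_transpose, Matrix.det_apply', Finset.mul_sum]
    refine Finset.sum_congr rfl fun τ _ => ?_
    rw [Finset.prod_mul_distrib]
    simp only [Matrix.transpose_apply, Matrix.of_apply]
    ring
  have h0 : ∀ τ : Equiv.Perm (Fin n), _ := fun τ =>
    tsum_prod_fin n (fun i x => c i x * D x (τ i)) fun i => h i (τ i)
  have h2 : ∀ τ : Equiv.Perm (Fin n), Summable fun ξ : Fin n → X =>
      ((Equiv.Perm.sign τ : ℤ) : ℂ) * ∏ i, (c i (ξ i) * D (ξ i) (τ i)) := fun τ =>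
    ((h0 τ).1.of_norm).mul_left _
  rw [tsum_congr h1, Summable.tsum_finsetSum fun τ _ => h2 τ, ← Matrix.det_transpose,
    Matrix.det_apply']
  refine Finset.sum_congr rfl fun τ _ => ?_
  rw [tsum_mul_left, (h0 τ).2]
  simp only [Matrix.transpose_apply, Matrix.of_apply]

end Pool.Agent.CMN.TDet
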