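import Pool.Agent.Lib.CMN.Api
import Pool.Agent.Lib.CMN.TDet
import Pool.Agent.Lib.CMH.Sum

/-!
Tank CMN, row SUM3 (helper63): absolute convergence of the theta series, the wedge product of theta
one-forms as one sum over `F^(n × (n+1))`.
-/

set_option autoImplicit false
set_option linter.unusedSectionVars false

open scoped ComplexConjugate Matrix BigOperators
open Complex

namespace Pool.Agent.CMN.Sum

noncomputable section

open NumberField
open Pool.CMH (nrm2 Lat nrm2_nonneg summable_gs)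
open Pool.Agent.CMH.Sum (bdd mj ev_sq_le summable_mj)

variable {n : ℕ} {F : Type} [Field F] [NumberField F]

theorem exists_min1 (k : Fin (n + 1) → ℝ) (hk : ∀ j, 0 < k j) :
    ∃ m : ℝ, 0 < m ∧ ∀ j, m ≤ k j := by
  obtain ⟨j₀, hj₀⟩ := Finite.exists_min k
  exact ⟨k j₀, hk j₀, hj₀⟩

theorem form_self (h : Fin (n + 1) → F) (v : F →+* ℝ) (x : Fin (n + 1) → F) :
    form h v x x = ∑ j, ev v h j * ev v x j * ev v x j := rfl

/-- the bound at a definite place, one row -/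
theorem place1 (v : F →+* ℝ) (h : Fin (n + 1) → F) (hh : ∀ j, 0 < v (h j)) :
    ∃ l : ℝ, 0 < l ∧ ∀ x : Fin (n + 1) → F, l * ∑ k, v (x k) ^ 2 ≤ form h v x x := by
  obtain ⟨m, hm, hmk⟩ := exists_min1 (fun j => v (h j)) hh
  refine ⟨m, hm, fun x => ?_⟩
  rw [Finset.mul_sum, form]
  refine Finset.sum_le_sum fun k _ => ?_
  have := mul_le_mul_of_nonneg_right (hmk k) (sq_nonneg (v (x k)))
  linarith

/-- the estimate for the Gaussian, one row -/
theorem gauss_bound (hE : EST) {v₁ : F →+* ℝ} {D : F} {h : Fin (n + 1) → F} (hG : Good v₁ D h)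
    {a : F} (ha : 0 < v₁ a) {C : Set (Fin n → ℂ)} (hC : IsCompact C) (hCb : C ⊆ ball (ev v₁ h)) :
    ∃ c : ℝ, 0 < c ∧ ∀ y ∈ C, ∀ ξ : Fin (n + 1) → F,
      ‖gauss v₁ D h a ξ y‖ ≤ Real.exp (-(c * nrm2 ξ)) := by
  classical
  obtain ⟨-, -, -, -, hE5⟩ := hE n (ev v₁ h) hG.sg
  obtain ⟨c, hc, -, -, hc1, -⟩ := hE5 C hC hCb
  have ha0 : a ≠ 0 := by rintro rfl; simp at ha
  have hD : ∀ v : F →+* ℝ, 0 < √(v D) := fun v => Real.sqrt_pos.mpr (hG.D0 v)
  have hva : ∀ v : F →+* ℝ, 0 < |v a| := fun v => abs_pos.mpr ((map_ne_zero v).mpr ha0)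
  -- the bound at each place
  have hpl : ∀ v : F →+* ℝ, ∃ l : ℝ, 0 < l ∧ ∀ y ∈ C, ∀ ξ : Fin (n + 1) → F,
      l * ∑ k, v (ξ k) ^ 2 ≤ (((|v a| / √(v D) : ℝ) : ℂ) *
        ((form h v ξ ξ : ℂ) + if v = v₁ then 2 * s (ev v h) (ev v ξ) y ^ 2 else 0)).re := by
    intro v
    have hpos : 0 < |v a| / √(v D) := div_pos (hva v) (hD v)
    by_cases hv : v = v₁
    · subst hv
      refine ⟨|v a| / √(v D) * c, by positivity, fun y hy ξ => ?_⟩
      rw [if_pos rfl, Complex.re_ofReal_mul, mul_assoc]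
      refine mul_le_mul_of_nonneg_left ?_ hpos.le
      exact hc1 y hy (ev v ξ)
    · obtain ⟨l, hl, hl1⟩ := place1 v h (hG.pos hv)
      refine ⟨|v a| / √(v D) * l, by positivity, fun y hy ξ => ?_⟩
      rw [if_neg hv, add_zero, Complex.re_ofReal_mul, Complex.ofReal_re, mul_assoc]
      exact mul_le_mul_of_nonneg_left (hl1 ξ) hpos.le
  choose l hl hl1 using hpl
  have : Nonempty (F →+* ℝ) := ⟨v₁⟩
  obtain ⟨v₀, hv₀⟩ := Finite.exists_min l
  refine ⟨Real.pi * l v₀, mul_pos Real.pi_pos (hl v₀), fun y hy ξ => ?_⟩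
  rw [gauss, Complex.norm_exp, Real.exp_le_exp]
  have e : (-(Real.pi : ℂ) * ∑ v : F →+* ℝ, ((|v a| / √(v D) : ℝ) : ℂ) *
      ((form h v ξ ξ : ℂ) + if v = v₁ then 2 * s (ev v h) (ev v ξ) y ^ 2 else 0)).re =
      -(Real.pi * ∑ v : F →+* ℝ, (((|v a| / √(v D) : ℝ) : ℂ) *
      ((form h v ξ ξ : ℂ) + if v = v₁ then 2 * s (ev v h) (ev v ξ) y ^ 2 else 0)).re) := by
    rw [← Complex.re_sum, neg_mul, Complex.neg_re, Complex.re_ofReal_mul]
  rw [e, neg_le_neg_iff, mul_assoc]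
  refine mul_le_mul_of_nonneg_left ?_ Real.pi_pos.le
  rw [nrm2, Finset.sum_comm, Finset.mul_sum]
  refine Finset.sum_le_sum fun v _ => ?_
  refine le_trans ?_ (hl1 v y hy ξ)
  exact mul_le_mul_of_nonneg_right (hv₀ v) (Finset.sum_nonneg fun _ _ => sq_nonneg _)

/-- the bound for a term of the theta one-form -/
theorem term1_bound (hE : EST) {v₁ : F →+* ℝ} {D : F} {h : Fin (n + 1) → F} (hG : Good v₁ D h)
    {a : F} (ha : 0 < v₁ a) {φ : (Fin (n + 1) → F) → ℂ} (hφ : IsSB φ)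
    {C : Set (Fin n → ℂ)} (hC : IsCompact C) (hCb : C ⊆ ball (ev v₁ h)) :
    ∃ N : ℕ, 0 < N ∧ ∃ c : ℝ, 0 < c ∧ ∃ B : ℝ, ∀ y ∈ C, ∀ (ξ : Fin (n + 1) → F) (j : Fin n),
      ‖φ ξ * gauss v₁ D h a ξ y * ds (ev v₁ h) (ev v₁ ξ) j y‖ ≤ B * mj N c ξ := by
  obtain ⟨c, hc, hc1⟩ := gauss_bound hE hG ha hC hCb
  obtain ⟨-, -, -, -, hE5⟩ := hE n (ev v₁ h) hG.sg
  obtain ⟨-, -, c', hc', -, hc2⟩ := hE5 C hC hCb
  obtain ⟨N, hN, hs, hp⟩ := hφ
  obtain ⟨P, hP, hP1⟩ := bdd (ι := Fin (n + 1)) hN φ hs hp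
  refine ⟨N, hN, c, hc, P * c', fun y hy ξ j => ?_⟩
  have hn : 0 ≤ nrm2 ξ := nrm2_nonneg _
  by_cases h0 : φ ξ = 0
  · rw [h0, zero_mul, zero_mul, norm_zero]
    refine mul_nonneg (by positivity) ?_
    exact Set.indicator_nonneg (fun η _ => mul_nonneg (pow_nonneg (by
      linarith [nrm2_nonneg η]) _) (Real.exp_pos _).le) _
  · have hmem : ξ ∈ Lat F (Fin (n + 1)) N := fun p => hs ξ h0 p
    have hm : mj N c ξ = (1 + nrm2 ξ) ^ 1 * Real.exp (-(c * nrm2 ξ)) :=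
      Set.indicator_of_mem hmem _
    rw [hm, norm_mul, norm_mul, pow_one]
    have h1 : ‖φ ξ‖ ≤ P := hP1 ξ
    have h2 := hc1 y hy ξ
    have hds : ‖ds (ev v₁ h) (ev v₁ ξ) j y‖ ≤ c' * (1 + nrm2 ξ) := by
      refine (hc2 y hy (ev v₁ ξ) j).trans (mul_le_mul_of_nonneg_left ?_ hc'.le)
      refine (Real.sqrt_le_sqrt (ev_sq_le v₁ ξ)).trans ?_
      rw [Real.sqrt_le_left (by linarith)]
      nlinarith
    calc ‖φ ξ‖ * ‖gauss v₁ D h a ξ y‖ * ‖ds (ev v₁ h) (ev v₁ ξ) j y‖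
        ≤ P * Real.exp (-(c * nrm2 ξ)) * (c' * (1 + nrm2 ξ)) := by
          refine mul_le_mul (mul_le_mul h1 h2 (norm_nonneg _) hP) hds (norm_nonneg _) ?_
          exact mul_nonneg hP (Real.exp_pos _).le
      _ = _ := by ring

/-- the Gaussian of `|diag(a)|` is a product -/
theorem gaussJ_R0 {J : Type} [Fintype J] [DecidableEq J] {v₁ : F →+* ℝ} {D : F}
    {h : Fin (n + 1) → F} {a : J → F} (ha : ∀ i, 0 < v₁ (a i)) (ξ : J → Fin (n + 1) → F)
    (y : Fin n → ℂ) :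
    gaussJ v₁ D h a (R0 a) ξ y = ∏ i, gauss v₁ D h (a i) (ξ i) y := by
  classical
  simp only [gaussJ, gauss]
  rw [← Complex.exp_sum, ← Finset.mul_sum, Finset.sum_comm]
  congr 2
  refine Finset.sum_congr rfl fun v _ => ?_
  have e1 : ∑ i, ∑ j, R0 a v i j * form h v (ξ i) (ξ j) =
      ∑ i, |v (a i)| * form h v (ξ i) (ξ i) := by
    simp only [R0, Matrix.diagonal_apply, ite_mul, zero_mul, Finset.sum_ite_eq, Finset.mem_univ,
      if_true]
  rw [e1]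
  by_cases hv : v = v₁
  · subst hv
    simp only [if_true, abs_of_pos (ha _)]
    push_cast
    rw [Finset.mul_sum, ← Finset.sum_add_distrib, Finset.mul_sum]
    refine Finset.sum_congr rfl fun i _ => ?_
    ring
  · simp only [if_neg hv, add_zero]
    push_cast
    rw [Finset.mul_sum]
    refine Finset.sum_congr rfl fun i _ => ?_
    ring

/-- **SUM3**, from EST -/
theorem sum3_of (hE : EST) : SUM3 := by
  intro F _ _ _ n v₁ D h a φ hG ha hφ y hy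
  have hS : ∀ i j, Summable (fun ξ : Fin (n + 1) → F =>
      ‖φ i ξ * gauss v₁ D h (a i) ξ y * ds (ev v₁ h) (ev v₁ ξ) j y‖) := by
    intro i j
    obtain ⟨N, hN, c, hc, B, hB⟩ := term1_bound hE hG (ha i) (hφ i) (C := {y})
      isCompact_singleton (Set.singleton_subset_iff.mpr hy)
    exact Summable.of_nonneg_of_le (fun _ => norm_nonneg _)
      (fun ξ => hB y (Set.mem_singleton y) ξ j) ((summable_mj hN hc).mul_left B)
  refine ⟨fun i j => (hS i j).of_norm, ?_⟩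
  have key := TDet.tsum_det (fun (i : Fin n) (ξ : Fin (n + 1) → F) =>
    φ i ξ * gauss v₁ D h (a i) ξ y) (fun ξ j => ds (ev v₁ h) (ev v₁ ξ) j y) hS
  rw [wedge, CR]
  have e2 : (Matrix.of fun i j => theta v₁ D h (a i) (φ i) j y) =
      Matrix.of fun i j => ∑' x : Fin (n + 1) → F,
        φ i x * gauss v₁ D h (a i) x y * ds (ev v₁ h) (ev v₁ x) j y := rfl
  rw [e2, ← key]
  refine tsum_congr fun ξ => ?_
  rw [gaussJ_R0 ha, tens, Del, ← Finset.prod_mul_distrib]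

end

end Pool.Agent.CMN.Sum
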