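import Pool.Agent.Lib.CMN.P1Geo
import Pool.Agent.Lib.CMH.TH7f

/-! # TANK CMN, row TH7f (helper22, from helper26's `Lib/CMH/TH7f.lean`): functions of level `N` -/

set_option autoImplicit false
set_option linter.unusedSectionVars false

namespace Pool.Agent.CMN

open Matrix Complex Real
open Pool.CMH (KF om red)
open Pool.CMH.TH7f (om_eq om_int sum_int sum_eq exists_coord coord_inj)

noncomputable section

variable {n : ℕ} {F : Type} [Field F] [NumberField F]
variable {J : Type} [Fintype J] [DecidableEq J]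

omit [Fintype J] [DecidableEq J] in
theorem lat_inj {N : ℕ} (hN : 0 < N) :
    Function.Injective (lat N : ((J × Fin (n + 1)) × KF F → ℤ) → J → Fin (n + 1) → F) := by
  intro x y hxy
  have hN0 : (N : F)⁻¹ ≠ 0 := inv_ne_zero (Nat.cast_ne_zero.2 hN.ne')
  ext ⟨⟨i, k⟩, p⟩
  have h1 := congrFun (congrFun hxy i) k
  have h2 := mul_left_cancel₀ hN0 h1
  exact congrFun (coord_inj (k := fun p => x ((i, k), p)) (l := fun p => y ((i, k), p)) h2) p

omit [Fintype J] [DecidableEq J] in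
theorem lat_surj {N : ℕ} (hN : 0 < N) {ξ : J → Fin (n + 1) → F}
    (hξ : ∀ i j, IsIntegral ℤ ((N : F) * ξ i j)) : ∃ x, lat N x = ξ := by
  choose k hk using fun i j => exists_coord (hξ i j)
  refine ⟨fun q => k q.1.1 q.1.2 q.2, ?_⟩
  have hN0 : (N : F) ≠ 0 := Nat.cast_ne_zero.2 hN.ne'
  ext i j
  unfold lat
  rw [hk i j, inv_mul_cancel_left₀ hN0]

/-- TH7f: functions of level `N` -/
theorem exists_lev (N : ℕ) {φ : (J → Fin (n + 1) → F) → ℂ} (hφ : SBJ N φ) :
    ∃ φ' : ((J × Fin (n + 1)) × KF F → ZMod (2 * N ^ 2)) → ℂ, Lev N φ φ' := by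
  obtain ⟨hN, -, hper⟩ := hφ
  have hN0 : (N : F) ≠ 0 := Nat.cast_ne_zero.2 hN.ne'
  have : NeZero (2 * N ^ 2) := ⟨by positivity⟩
  refine ⟨fun z => φ (lat N fun p => ((z p).val : ℤ)), fun x => ?_⟩
  have h1 : ∀ q, ∃ m : ℤ, x q = ((red (2 * N ^ 2) x q).val : ℤ) + ((2 * N ^ 2 : ℕ) : ℤ) * m := by
    intro q
    have h2 : (((red (2 * N ^ 2) x q).val : ℤ) : ZMod (2 * N ^ 2)) = (x q : ZMod (2 * N ^ 2)) := by
      rw [Int.cast_natCast, ZMod.natCast_zmod_val]
      rfl
    rw [ZMod.intCast_eq_intCast_iff] at h2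
    obtain ⟨m, hm⟩ := h2.dvd
    exact ⟨m, by linarith⟩
  choose m hm using h1
  have h3 : lat N x = fun i j =>
      lat N (fun p => ((red (2 * N ^ 2) x p).val : ℤ)) i j +
        (N : F) * (2 * ∑ p, (m ((i, j), p) : F) * om p) := by
    ext i j
    unfold lat
    have h4 : ∑ p, (x ((i, j), p) : F) * om p =
        ∑ p, (((red (2 * N ^ 2) x ((i, j), p)).val : ℤ) : F) * om p +
          (2 * (N : F) ^ 2) * ∑ p, (m ((i, j), p) : F) * om p := by
      rw [Finset.mul_sum, ← Finset.sum_add_distrib]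
      refine Finset.sum_congr rfl fun p _ => ?_
      conv_lhs => rw [hm ((i, j), p)]
      push_cast
      ring
    rw [h4]
    field_simp
  change φ (lat N fun p => ((red (2 * N ^ 2) x p).val : ℤ)) = φ (lat N x)
  rw [h3]
  have h5 : IsIntegral ℤ (2 : F) := by
    simpa using (isIntegral_algebraMap (R := ℤ) (A := F) (x := 2))
  exact (hper _ _ fun i j => h5.mul (sum_int _)).symm

theorem tsum_lat (N : ℕ) {φ : (J → Fin (n + 1) → F) → ℂ} (hφ : SBJ N φ)
    (f : (J → Fin (n + 1) → F) → ℂ) :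
    ∑' ξ, φ ξ * f ξ = ∑' x : (J × Fin (n + 1)) × KF F → ℤ, φ (lat N x) * f (lat N x) := by
  obtain ⟨hN, hsup, -⟩ := hφ
  symm
  apply (lat_inj (n := n) (J := J) (F := F) hN).tsum_eq (f := fun ξ => φ ξ * f ξ)
  intro ξ hξ
  exact lat_surj hN (hsup ξ (left_ne_zero_of_mul hξ))

end

end Pool.Agent.CMN
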