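import Pool.Agent.Lib.CMN.P1Geo
import Pool.Agent.Lib.CMN.Api
import Pool.Agent.Lib.CMH.TH8z

/-! # TANK CMN, row TH8d: the local points of `P1Geo` are in the Siegel space (helper45). -/

set_option autoImplicit false
set_option linter.unusedSectionVars false
set_option linter.unusedSimpArgs false

open Matrix Complex
open scoped Kronecker

namespace Pool.Agent.CMN

open Pool.CMH (Sieg Zh_mem Zd_mem HS_apply cx)
open Pool.CMH

noncomputable section

variable {n : ℕ} {F : Type} [Field F] [NumberField F]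
variable {J : Type} [Fintype J] [DecidableEq J]
variable {v₁ : F →+* ℝ} {D : F} {h : Fin (n + 1) → F}

lemma T8d.w_sq (k : Fin (n + 1) → ℝ) (y : Fin n → ℂ) :
    Pool.Agent.CMN.w k y ^ 2 = -∑ j, (k j : ℂ) * Pool.Agent.CMN.hat y j ^ 2 := by
  unfold Pool.Agent.CMN.w
  rw [← Complex.cpow_nat_mul]
  norm_num

lemma T8d.w_sq' (k : Fin (n + 1) → ℝ) (y : Fin n → ℂ) :
    Pool.Agent.CMN.w k y ^ 2 = -Pool.CMH.Pos.cb k (Pool.Agent.CMN.hat y) (Pool.Agent.CMN.hat y) := by
  rw [T8d.w_sq]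
  unfold Pool.CMH.Pos.cb
  congr 1
  exact Finset.sum_congr rfl fun i _ => by ring

theorem Zp_mem (hgd : Good v₁ D h) {a : J → F} (ha : ∀ i, 0 < v₁ (a i))
    {R : (F →+* ℝ) → Matrix J J ℝ} (hR : ∀ v, v ≠ v₁ → (R v).PosDef) {y : Fin n → ℂ}
    (hy : y ∈ ball (ev v₁ h)) (v : F →+* ℝ) :
    Pool.Agent.CMN.Zp v₁ D h a R y v ∈ Sieg (J × Fin (n + 1)) := by
  have hδ : 0 < √(v D) := Real.sqrt_pos.mpr (hgd.D0 v)
  by_cases hv : v = v₁
  · subst hv
    have hQ : (diagonal fun i : J => v (a i)).PosDef := Matrix.PosDef.diagonal ha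
    have h0 : (ev v h) (Fin.last n) < 0 := hgd.hn
    have h1 : ∀ i, i ≠ Fin.last n → 0 < (ev v h) i := by
      intro i
      refine Fin.lastCases ?_ (fun j _ => hgd.hp v j) i
      intro hi; exact absurd rfl hi
    have key := Zh_mem hδ hQ h0 h1 (mem_ball_iff_hat.1 hy)
    convert key using 1
    ext ⟨i, j⟩ ⟨i', j'⟩
    have hw := T8d.w_sq' (ev v h) y
    unfold Pool.Agent.CMH.TH8.Zh
    rw [Matrix.smul_apply, kroneckerMap_apply, HS_apply, smul_eq_mul]
    unfold Pool.Agent.CMN.Zp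
    rw [if_pos rfl, hw]
    have e1 : cx (diagonal fun i : J => v (a i)) i i' = if i = i' then (v (a i) : ℂ) else 0 := by
      rw [cx, map_apply, diagonal_apply]
      split_ifs <;> simp
    dsimp only
    rw [e1]
    congr 2
    change (if j = j' then (v (h j) : ℂ) else 0) + _ = (if j = j' then (v (h j) : ℂ) else 0) - _
    rw [sub_eq_add_neg]
    congr 1
    change _ = -(2 * ((v (h j) : ℂ) * Pool.Agent.CMN.hat y j *
      ((v (h j') : ℂ) * Pool.Agent.CMN.hat y j')) / _)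
    rw [div_neg]
    congr 2
    ring
  · have key := Zd_mem (n := Fin (n + 1)) hδ (hR v hv) (h := ev v h) fun i => hgd.pos hv i
    convert key using 1
    ext ⟨i, j⟩ ⟨i', j'⟩
    unfold Pool.Agent.CMN.Zp Pool.Agent.CMH.TH8.Zd
    rw [if_neg hv, Matrix.smul_apply, kroneckerMap_apply, smul_eq_mul]
    congr 2

end

end Pool.Agent.CMN
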