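import Pool.Agent.Lib.CMN.P1Rows
import Pool.Agent.Lib.CMN.TH7f
import Pool.Agent.Lib.CMN.TH8d
import Pool.Agent.Lib.CMN.Sum
import Pool.Agent.Lib.CMH.TH8c
import Pool.Agent.Lib.CMH.TH7d

/-! # TANK CMN, rows CRD and THE (helper63): the forms `C_R(φ)` and the theta one-forms as Siegel
theta series -/

set_option autoImplicit false
set_option linter.unusedSectionVars false

namespace Pool.Agent.CMN

open Matrix Complex Real
open Pool.CMH (tU tD tA tC vv Bl KF om Wm Wi red tm theta1 theta2 au mv uu qq ee bA bB bC bD Sieg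
  qf lf vv_lf tU_qf tU_mem Wi_mul)

noncomputable section

variable {n : ℕ} {F : Type} [Field F] [NumberField F]
variable {J : Type} [Fintype J] [DecidableEq J]

omit [Fintype J] [DecidableEq J] in
/-- the value of a lattice point at a place -/
theorem lat_at (N : ℕ) (x : (J × Fin (n + 1)) × KF F → ℤ) (v : F →+* ℝ) (i : J)
    (k : Fin (n + 1)) :
    v (lat N x i k) = (N : ℝ)⁻¹ * ∑ p, (x ((i, k), p) : ℝ) * Wm F v p := by
  unfold lat Wm
  rw [map_mul, map_inv₀, map_natCast, map_sum]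
  congr 1
  refine Finset.sum_congr rfl fun p _ => ?_
  rw [map_mul, map_intCast]

/-- `ds` is linear in `x` with the coefficients `ed` -/
theorem ds_eq_ed (k x : Fin (n + 1) → ℝ) (j : Fin n) (y : Fin n → ℂ) :
    ds k x j y = ∑ l, (x l : ℂ) * ed k j y l := by
  unfold ds ed pr
  have h1 : ∑ l, (x l : ℂ) * ((if l = j.castSucc then (k j.castSucc : ℂ) else 0) / w k y
      + (k l : ℂ) * hat y l * ((k j.castSucc : ℂ) * y j) / w k y ^ 3) =
      ∑ l, (if l = j.castSucc then (x l : ℂ) * (k j.castSucc : ℂ) / w k y else 0) +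
      (∑ l, (k l : ℂ) * (x l : ℂ) * hat y l) * ((k j.castSucc : ℂ) * y j) / w k y ^ 3 := by
    rw [Finset.sum_mul, Finset.sum_div, ← Finset.sum_add_distrib]
    refine Finset.sum_congr rfl fun l _ => ?_
    split_ifs <;> ring
  rw [h1, Finset.sum_ite_eq' Finset.univ j.castSucc]
  simp only [Finset.mem_univ, if_true]
  ring

variable {v₁ : F →+* ℝ} {D : F} {h : Fin (n + 1) → F}

/-- the quadratic form of `Z_v` on the family of vectors `ξ` -/
theorem Zp_quadJ {a : J → F} (ha : ∀ i, 0 < v₁ (a i)) {R : Maj J F} (hR : R v₁ = R0 a v₁)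
    (y : Fin n → ℂ) (ξ : J → Fin (n + 1) → F) (v : F →+* ℝ) [Decidable (v = v₁)] :
    ∑ p : J × Fin (n + 1), ∑ q : J × Fin (n + 1), (v (ξ p.1 p.2) : ℂ) * (v (ξ q.1 q.2) : ℂ) *
      Zp v₁ D h a R y v p q =
      I * (((1 / √(v D) : ℝ) : ℂ) *
        (((∑ i, ∑ j, R v i j * form h v (ξ i) (ξ j) : ℝ) : ℂ) +
          if v = v₁ then 2 * ∑ i, (v (a i) : ℂ) * s (ev v h) (ev v (ξ i)) y ^ 2 else 0)) := by
  classical
  by_cases hv : v = v₁
  · subst hv
    have hR' : ∀ i j : J, R v i j = if i = j then v (a i) else 0 := by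
      intro i j
      rw [hR]
      unfold R0
      rw [Matrix.diagonal_apply]
      by_cases hij : i = j
      · rw [if_pos hij, if_pos hij, abs_of_pos (ha i)]
      · rw [if_neg hij, if_neg hij]
    have hin : ∀ i k, ∑ j, ∑ l, (v (ξ i k) : ℂ) * (v (ξ j l) : ℂ) *
        Zp v D h a R y v (i, k) (j, l) =
        I / (√(v D) : ℂ) * (v (a i) : ℂ) * ((v (h k) : ℂ) * (v (ξ i k) : ℂ) ^ 2 +
          2 * ((v (h k) : ℂ) * (v (ξ i k) : ℂ) * hat y k) / w (ev v h) y ^ 2 *
            pr (ev v h) (ev v (ξ i)) y) := by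
      intro i k
      rw [Finset.sum_eq_single i]
      · have e1 : ∀ l, (v (ξ i k) : ℂ) * (v (ξ i l) : ℂ) * Zp v D h a R y v (i, k) (i, l) =
            I / (√(v D) : ℂ) * (v (a i) : ℂ) *
              (if k = l then (v (h k) : ℂ) * (v (ξ i k) : ℂ) * (v (ξ i l) : ℂ) else 0) +
            I / (√(v D) : ℂ) * (v (a i) : ℂ) * (2 * ((v (h k) : ℂ) * (v (ξ i k) : ℂ) * hat y k) /
              w (ev v h) y ^ 2) * ((v (h l) : ℂ) * (v (ξ i l) : ℂ) * hat y l) := by
          intro l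
          unfold Zp
          rw [if_pos rfl, if_pos rfl]
          dsimp only
          split_ifs <;> ring
        simp only [e1]
        rw [Finset.sum_add_distrib, ← Finset.mul_sum, ← Finset.mul_sum, Finset.sum_ite_eq]
        simp only [Finset.mem_univ, if_true]
        unfold pr ev
        ring
      · intro j _ hj
        refine Finset.sum_eq_zero fun l _ => ?_
        unfold Zp
        rw [if_pos rfl, if_neg (fun hh => hj hh.symm)]
        ring
      · intro hi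
        exact absurd (Finset.mem_univ _) hi
    have e2 : ∑ i, ∑ j, R v i j * form h v (ξ i) (ξ j) = ∑ i, v (a i) * form h v (ξ i) (ξ i) := by
      simp only [hR', ite_mul, zero_mul, Finset.sum_ite_eq, Finset.mem_univ, if_true]
    rw [e2, if_pos rfl]
    simp only [Fintype.sum_prod_type]
    simp only [hin]
    push_cast
    rw [Finset.mul_sum, ← Finset.sum_add_distrib, Finset.mul_sum, Finset.mul_sum]
    refine Finset.sum_congr rfl fun i _ => ?_
    rw [← Finset.mul_sum, Finset.sum_add_distrib, ← Finset.sum_mul, ← Finset.sum_div,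
      ← Finset.mul_sum]
    have e3 : ∑ k, (v (h k) : ℂ) * (v (ξ i k) : ℂ) * hat y k = pr (ev v h) (ev v (ξ i)) y := rfl
    have e4 : ((form h v (ξ i) (ξ i) : ℝ) : ℂ) = ∑ k, (v (h k) : ℂ) * (v (ξ i k) : ℂ) ^ 2 := by
      unfold form
      push_cast
      refine Finset.sum_congr rfl fun k _ => ?_
      ring
    rw [e3, e4, s, div_pow]
    ring
  · have hin : ∀ i k j, ∑ l, (v (ξ i k) : ℂ) * (v (ξ j l) : ℂ) *
        Zp v₁ D h a R y v (i, k) (j, l) =
        I / (√(v D) : ℂ) * ((R v i j : ℂ) * ((v (h k) : ℂ) * (v (ξ i k) : ℂ) *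
          (v (ξ j k) : ℂ))) := by
      intro i k j
      have e1 : ∀ l, (v (ξ i k) : ℂ) * (v (ξ j l) : ℂ) * Zp v₁ D h a R y v (i, k) (j, l) =
          if k = l then I / (√(v D) : ℂ) * ((R v i j : ℂ) * ((v (h k) : ℂ) * (v (ξ i k) : ℂ) *
          (v (ξ j l) : ℂ))) else 0 := by
        intro l
        unfold Zp
        rw [if_neg hv]
        dsimp only
        split_ifs <;> ring
      simp only [e1]
      rw [Finset.sum_ite_eq]
      simp only [Finset.mem_univ, if_true]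
    rw [if_neg hv, add_zero]
    simp only [Fintype.sum_prod_type]
    simp only [hin]
    push_cast
    rw [Finset.mul_sum, Finset.mul_sum]
    refine Finset.sum_congr rfl fun i _ => ?_
    rw [Finset.sum_comm, Finset.mul_sum, Finset.mul_sum]
    refine Finset.sum_congr rfl fun j _ => ?_
    rw [← Finset.mul_sum, ← Finset.mul_sum]
    have e4 : ((form h v (ξ i) (ξ j) : ℝ) : ℂ) =
        ∑ k, (v (h k) : ℂ) * (v (ξ i k) : ℂ) * (v (ξ j k) : ℂ) := by
      unfold form
      push_cast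
      rfl
    rw [e4]
    ring

/-- a linear factor at the place `v₁` -/
theorem lf_row (N : ℕ) (hN0 : (N : ℂ) ≠ 0) (x : (J × Fin (n + 1)) × KF F → ℤ) (i : J)
    (j : Fin n) (y : Fin n → ℂ) :
    lf (eta v₁ h N i j y) x = ds (ev v₁ h) (ev v₁ (lat N x i)) j y := by
  classical
  have hX : ∀ (p : J × Fin (n + 1)), ∑ q, (x (p, q) : ℂ) * (Wm F v₁ q : ℂ) =
      N * ((v₁ (lat N x p.1 p.2) : ℝ) : ℂ) := by
    intro p
    rw [lat_at]
    push_cast
    rw [mul_inv_cancel_left₀ hN0]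
  rw [eta, vv_lf, ds_eq_ed, Fintype.sum_prod_type, Finset.sum_eq_single i]
  · refine Finset.sum_congr rfl fun l _ => ?_
    rw [hX]
    unfold row
    rw [if_pos rfl, Pi.smul_apply, smul_eq_mul]
    change (N : ℂ) * ((v₁ (lat N x i l) : ℝ) : ℂ) * ((N : ℂ)⁻¹ * ed (ev v₁ h) j y l) =
      ((v₁ (lat N x i l) : ℝ) : ℂ) * ed (ev v₁ h) j y l
    field_simp
  · intro b _ hb
    refine Finset.sum_eq_zero fun l _ => ?_
    unfold row
    rw [if_neg hb, mul_zero]
  · intro hi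
    exact absurd (Finset.mem_univ _) hi

/-- the Gaussian in integral coordinates -/
theorem gaussJ_lat {a : J → F} (ha : ∀ i, 0 < v₁ (a i)) {R : Maj J F} (hR : R v₁ = R0 a v₁)
    (N : ℕ) (hN0 : (N : ℂ) ≠ 0) (x : (J × Fin (n + 1)) × KF F → ℤ) (y : Fin n → ℂ) :
    gaussJ v₁ D h a R (lat N x) y = tm (2 * N ^ 2) (ZZ v₁ D h a R y) 0 x := by
  classical
  unfold tm gaussJ ZZ
  congr 1
  rw [tU_qf]
  have hX : ∀ (v : F →+* ℝ) (i : J × Fin (n + 1)), ∑ p, (x (i, p) : ℂ) * (Wm F v p : ℂ) =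
      N * ((v (lat N x i.1 i.2) : ℝ) : ℂ) := by
    intro v i
    rw [lat_at]
    push_cast
    rw [mul_inv_cancel_left₀ hN0]
  simp only [hX]
  have h0 : lf (0 : (J × Fin (n + 1)) × KF F → ℂ) x = 0 := by simp [lf]
  rw [h0, mul_zero, add_zero]
  have h1 : ∀ v : F →+* ℝ, ∑ i : J × Fin (n + 1), ∑ j : J × Fin (n + 1),
      (N * ((v (lat N x i.1 i.2) : ℝ) : ℂ)) * (N * ((v (lat N x j.1 j.2) : ℝ) : ℂ)) *
      Zp v₁ D h a R y v i j =
      (N : ℂ) ^ 2 * (I * (((1 / √(v D) : ℝ) : ℂ) *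
      (((∑ i, ∑ j, R v i j * form h v (lat N x i) (lat N x j) : ℝ) : ℂ) +
        if v = v₁ then 2 * ∑ i, (v (a i) : ℂ) * s (ev v h) (ev v (lat N x i)) y ^ 2 else 0))) := by
    intro v
    rw [← Zp_quadJ ha hR y (lat N x) v, Finset.mul_sum]
    refine Finset.sum_congr rfl fun i _ => ?_
    rw [Finset.mul_sum]
    refine Finset.sum_congr rfl fun j _ => ?_
    ring
  simp only [h1]
  rw [← Finset.mul_sum, ← Finset.mul_sum]
  generalize (∑ v : F →+* ℝ, ((1 / √(v D) : ℝ) : ℂ) *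
      (((∑ i, ∑ j, R v i j * form h v (lat N x i) (lat N x j) : ℝ) : ℂ) +
        if v = v₁ then 2 * ∑ i, (v (a i) : ℂ) * s (ev v h) (ev v (lat N x i)) y ^ 2 else 0)) = T
  have hI := Complex.I_sq
  have h2 : ((2 * N ^ 2 : ℕ) : ℂ) ≠ 0 := by
    push_cast
    exact mul_ne_zero two_ne_zero (pow_ne_zero 2 hN0)
  rw [eq_div_iff h2]
  push_cast
  linear_combination (-2 * (π : ℂ) * N ^ 2 * T) * hI

/-- **CRD** -/
theorem crd : CRD := by
  intro F _ _ _ n v₁ D h a R N φ φ' hgd ha hR hRp hφ hφ' y hy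
  classical
  have hN0 : (N : ℂ) ≠ 0 := by exact_mod_cast hφ.1.ne'
  have e1 : CR v₁ D h a R φ y = ∑' ξ : Fin n → Fin (n + 1) → F, φ ξ *
      (gaussJ v₁ D h a R ξ y * Del (ev v₁ h) (fun i => ev v₁ (ξ i)) y) := by
    unfold CR
    exact tsum_congr fun ξ => mul_assoc _ _ _
  rw [e1, tsum_lat N hφ (fun ξ => gaussJ v₁ D h a R ξ y * Del (ev v₁ h) (fun i => ev v₁ (ξ i)) y)]
  unfold thetaD
  refine tsum_congr fun x => ?_
  rw [hφ' x]
  simp only [lf_row N hN0]
  rw [gaussJ_lat ha hR N hN0, Del, mul_comm (tm _ _ _ _)]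

/-- **THE** -/
theorem the_ : THE := by
  intro F _ _ _ n v₁ D h a N φ φ' hgd ha hφ hφ' j y hy
  classical
  have hN0 : (N : ℂ) ≠ 0 := by exact_mod_cast hφ.1.ne'
  have e1 : theta v₁ D h a φ j y =
      ∑' ξ : Unit → Fin (n + 1) → F, φ (ξ ()) *
        (gaussJ v₁ D h (fun _ : Unit => a) (R0 fun _ : Unit => a) ξ y *
          ds (ev v₁ h) (ev v₁ (ξ ())) j y) := by
    unfold theta
    rw [← (Equiv.funUnique Unit (Fin (n + 1) → F)).tsum_eq]
    refine tsum_congr fun ξ => ?_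
    rw [Sum.gaussJ_R0 (fun _ => ha), mul_assoc]
    simp
  have e2 : (R0 fun _ : Unit => a) = fun v => diagonal fun _ : Unit => |v a| := rfl
  rw [e1, tsum_lat N hφ (fun ξ => gaussJ v₁ D h (fun _ : Unit => a) (R0 fun _ : Unit => a) ξ y *
          ds (ev v₁ h) (ev v₁ (ξ ())) j y)]
  unfold theta1
  refine tsum_congr fun x => ?_
  rw [hφ' x]
  simp only [lf_row N hN0]
  rw [gaussJ_lat (fun _ => ha) rfl N hN0, mul_comm (tm _ _ _ _), e2]

end

end Pool.Agent.CMN
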