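import Pool.Agent.Lib.CMN.TH9c
import Pool.Agent.Lib.CMN.TH9r

/-!
# TANK CMN, P1: invariance of the theta one-forms and of the `n`-forms `C_R(φ)` (helper97)
-/

set_option autoImplicit false

namespace Pool.Agent.CMN

theorem p1one : P1ONE := p1one_of the_

theorem p1all : P1ALL := p1all_of crd

end Pool.Agent.CMN
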