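import Pool.Agent.Lib.CMN.Grp

/-!
# TANK CMN, rows PDP and PDX (all dimensions `n`): proper discontinuity on the ball.  helper44.
-/

open scoped ComplexConjugate Matrix
open Complex

namespace Pool.Agent.CMN.Grp

noncomputable section

variable {n : ℕ}

/-- the sesquilinear form -/
def hf (k : Fin (n + 1) → ℝ) (x z : Fin (n + 1) → ℂ) : ℂ := ∑ j, (k j : ℂ) * (conj (x j) * z j)

/-- the real number `∑_{j<n} k_j |y_j|² + k_n` -/
def qb (k : Fin (n + 1) → ℝ) (y : Fin n → ℂ) : ℝ :=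
  ∑ j : Fin n, k j.castSucc * ‖y j‖ ^ 2 + k (Fin.last n)

theorem Uni.hf {k : Fin (n + 1) → ℝ} {M : Matrix (Fin (n + 1)) (Fin (n + 1)) ℂ} (h : Uni k M)
    (x z : Fin (n + 1) → ℂ) : Grp.hf k (M *ᵥ x) (M *ᵥ z) = Grp.hf k x z := by
  have key : ∀ x z : Fin (n + 1) → ℂ,
      star x ⬝ᵥ (Matrix.diagonal (fun j => (k j : ℂ)) *ᵥ z) = Grp.hf k x z := by
    intro x z
    refine Finset.sum_congr rfl fun j _ => ?_
    rw [Matrix.mulVec_diagonal, Pi.star_apply, ← starRingEnd_apply]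
    ring
  have h1 : star (M *ᵥ x) ⬝ᵥ (Matrix.diagonal (fun j => (k j : ℂ)) *ᵥ (M *ᵥ z)) =
      star x ⬝ᵥ (Matrix.diagonal (fun j => (k j : ℂ)) *ᵥ z) := by
    rw [Matrix.star_mulVec, ← Matrix.dotProduct_mulVec, Matrix.mulVec_mulVec,
      Matrix.mulVec_mulVec]
    rw [show Mᴴ * Matrix.diagonal (fun j => (k j : ℂ)) * M = _ from h]
  rw [key, key] at h1
  exact h1

/-- a vector with `h(m,m) ≤ A` and `|h(ŷ,m)| ≤ B` is bounded -/
theorem bound_vec {k : Fin (n + 1) → ℝ} (hs : Sg k) {η A B : ℝ}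
    (hη : 0 < η) (hA : 0 ≤ A) {y : Fin n → ℂ}
    (hy : qb k y ≤ -η) {m : Fin (n + 1) → ℂ}
    (hm : ∑ j, k j * ‖m j‖ ^ 2 ≤ A) (hB' : ‖hf k (hat y) m‖ ≤ B) :
    ∀ j, |k j| * ‖m j‖ ^ 2 ≤
      A + (2 * √(-k (Fin.last n)) * (B + √(-k (Fin.last n)) * √A) / η) ^ 2 := by
  set p := -k (Fin.last n) with hp
  have h2 : k (Fin.last n) < 0 := hs.neg
  have hp0 : 0 < p := by linarith
  have hk0 : ∀ j : Fin n, 0 ≤ k j.castSucc := fun j => (hs.pos j).le
  set a := √(∑ j : Fin n, k j.castSucc * ‖m j.castSucc‖ ^ 2) with ha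
  set r := √(∑ j : Fin n, k j.castSucc * ‖y j‖ ^ 2) with hr
  set b := √p * ‖m (Fin.last n)‖ with hb
  have ha2 : a ^ 2 = ∑ j : Fin n, k j.castSucc * ‖m j.castSucc‖ ^ 2 :=
    Real.sq_sqrt (Finset.sum_nonneg fun j _ => mul_nonneg (hk0 j) (sq_nonneg _))
  have hr2 : r ^ 2 = ∑ j : Fin n, k j.castSucc * ‖y j‖ ^ 2 :=
    Real.sq_sqrt (Finset.sum_nonneg fun j _ => mul_nonneg (hk0 j) (sq_nonneg _))
  have hsp : √p ^ 2 = p := Real.sq_sqrt hp0.le
  have hb2 : b ^ 2 = p * ‖m (Fin.last n)‖ ^ 2 := by rw [hb, mul_pow, hsp]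
  have ha0 : 0 ≤ a := Real.sqrt_nonneg _
  have hr0 : 0 ≤ r := Real.sqrt_nonneg _
  have hb0 : 0 ≤ b := by positivity
  have hab : a ^ 2 ≤ A + b ^ 2 := by
    rw [Fin.sum_univ_castSucc] at hm
    rw [ha2, hb2, hp]; linarith
  have hrp : r ^ 2 ≤ p - η := by rw [hr2, hp]; unfold qb at hy; linarith
  -- Cauchy-Schwarz
  have hcs : ‖∑ j : Fin n, (k j.castSucc : ℂ) * (conj (y j) * m j.castSucc)‖ ≤ r * a := by
    have e1 : ‖∑ j : Fin n, (k j.castSucc : ℂ) * (conj (y j) * m j.castSucc)‖ ≤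
        ∑ j : Fin n, k j.castSucc * (‖y j‖ * ‖m j.castSucc‖) := by
      refine (norm_sum_le _ _).trans (le_of_eq ?_)
      refine Finset.sum_congr rfl fun j _ => ?_
      rw [norm_mul, norm_mul, RCLike.norm_conj, Complex.norm_of_nonneg (hk0 j)]
    refine e1.trans ?_
    refine abs_le_of_sq_le_sq' ?_ (by positivity) |>.2
    rw [mul_pow, hr2, ha2]
    have e2 := Finset.sum_mul_sq_le_sq_mul_sq Finset.univ
      (fun j : Fin n => √(k j.castSucc) * ‖y j‖)
      (fun j : Fin n => √(k j.castSucc) * ‖m j.castSucc‖)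
    have e3 : ∀ j : Fin n, √(k j.castSucc) * ‖y j‖ * (√(k j.castSucc) * ‖m j.castSucc‖) =
        k j.castSucc * (‖y j‖ * ‖m j.castSucc‖) := by
      intro j
      have := Real.mul_self_sqrt (hk0 j)
      calc _ = (√(k j.castSucc) * √(k j.castSucc)) * (‖y j‖ * ‖m j.castSucc‖) := by ring
        _ = _ := by rw [this]
    have e4 : ∀ (j : Fin n) (t : ℝ), (√(k j.castSucc) * t) ^ 2 = k j.castSucc * t ^ 2 := by
      intro j t
      rw [mul_pow, Real.sq_sqrt (hk0 j)]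
    simp only [e3, e4] at e2
    exact e2
  have hhs : hf k (hat y) m = (∑ j : Fin n, (k j.castSucc : ℂ) * (conj (y j) * m j.castSucc))
      + (k (Fin.last n) : ℂ) * m (Fin.last n) := by
    rw [hf, Fin.sum_univ_castSucc]; simp [hat_last, hat_castSucc]
  have h3 : √p * b ≤ B + r * a := by
    have e1 : (k (Fin.last n) : ℂ) * m (Fin.last n) = hf k (hat y) m -
        (∑ j : Fin n, (k j.castSucc : ℂ) * (conj (y j) * m j.castSucc)) := by
      rw [hhs]; ring
    have e2 : ‖(k (Fin.last n) : ℂ) * m (Fin.last n)‖ = √p * b := by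
      rw [norm_mul, hb, ← mul_assoc, ← pow_two, hsp, hp, Complex.norm_real, Real.norm_eq_abs,
        abs_of_neg h2]
    rw [← e2, e1]
    exact (norm_sub_le _ _).trans (add_le_add hB' hcs)
  have hrsp : r < √p := by
    refine lt_of_pow_lt_pow_left₀ 2 (Real.sqrt_nonneg _) ?_
    rw [hsp]; linarith
  have haA : a ≤ √A + b := by
    refine abs_le_of_sq_le_sq' ?_ (by positivity) |>.2
    nlinarith [Real.sq_sqrt hA, mul_nonneg (Real.sqrt_nonneg A) hb0]
  have h4 : b * (√p - r) ≤ B + √p * √A := by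
    nlinarith [mul_le_mul_of_nonneg_left haA hr0, mul_le_mul_of_nonneg_right hrsp.le
      (Real.sqrt_nonneg A)]
  have h5 : η ≤ (√p - r) * (2 * √p) := by nlinarith [Real.sqrt_nonneg p]
  have h6 : b ≤ 2 * √p * (B + √p * √A) / η := by
    rw [le_div_iff₀ hη]
    calc b * η ≤ b * ((√p - r) * (2 * √p)) := mul_le_mul_of_nonneg_left h5 hb0
      _ = (b * (√p - r)) * (2 * √p) := by ring
      _ ≤ (B + √p * √A) * (2 * √p) := mul_le_mul_of_nonneg_right h4 (by positivity)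
      _ = _ := by ring
  have h7 : b ^ 2 ≤ (2 * √p * (B + √p * √A) / η) ^ 2 := pow_le_pow_left₀ hb0 h6 2
  intro j
  refine Fin.lastCases ?_ (fun j => ?_) j
  · rw [abs_of_neg h2, ← hp, ← hb2]
    linarith
  · rw [abs_of_pos (hs.pos j)]
    have h8 : k j.castSucc * ‖m j.castSucc‖ ^ 2 ≤ a ^ 2 := by
      rw [ha2]
      exact Finset.single_le_sum (f := fun j : Fin n => k j.castSucc * ‖m j.castSucc‖ ^ 2)
        (fun l _ => mul_nonneg (hk0 l) (sq_nonneg _)) (Finset.mem_univ j)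
    linarith

theorem qb_hat (k : Fin (n + 1) → ℝ) (y : Fin n → ℂ) : ∑ j, k j * ‖hat y j‖ ^ 2 = qb k y := by
  rw [Fin.sum_univ_castSucc, qb]
  simp [hat_last, hat_castSucc]

theorem entries_bound {k : Fin (n + 1) → ℝ} (hs : Sg k) {η : ℝ}
    (hη : 0 < η) : ∃ C : ℝ, ∀ M : Matrix (Fin (n + 1)) (Fin (n + 1)) ℂ, Uni k M → ∀ y ∈ ball k,
      qb k y ≤ -η → qb k (acM M y) ≤ -η → ∀ i j, ‖M i j‖ ≤ C := by
  have h2 : k (Fin.last n) < 0 := hs.neg
  have hp0 : 0 < -k (Fin.last n) := by linarith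
  have hk0 : ∀ j : Fin n, 0 ≤ k j.castSucc := fun j => (hs.pos j).le
  set A : ℝ := ∑ j, |k j| with hA
  set R : ℝ := ∑ j : Fin n, √(-k (Fin.last n) / k j.castSucc) + 1 with hR
  set B : ℝ := A * R / √(η / (-k (Fin.last n))) with hB
  set T : ℝ := A + (2 * √(-k (Fin.last n)) * (B + √(-k (Fin.last n)) * √A) / η) ^ 2 with hT
  have hk : ∀ j, k j ≠ 0 := by
    intro j
    refine Fin.lastCases ?_ (fun j => ?_) j
    · exact h2.ne
    · exact (hs.pos j).ne'
  have hkA : ∀ j, |k j| ≤ A := fun j =>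
    Finset.single_le_sum (f := fun j => |k j|) (fun l _ => abs_nonneg _) (Finset.mem_univ j)
  have hA0 : 0 ≤ A := (abs_nonneg _).trans (hkA (Fin.last n))
  refine ⟨∑ j, √(T / |k j|), fun M hM y hy hy1 hy2 i j => ?_⟩
  have hne := hM.ne hs hy
  set c : ℂ := (M *ᵥ hat y) (Fin.last n) with hc
  have hc0 : 0 < ‖c‖ := norm_pos_iff.mpr hne
  have hMy : M *ᵥ hat y = c • hat (acM M y) := by
    rw [hat_acM hne, smul_smul, mul_inv_cancel₀ hne, one_smul]
  -- lower bound for `c`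
  have hc2 : η / (-k (Fin.last n)) ≤ ‖c‖ ^ 2 := by
    have e1 := hM.form (hat y)
    rw [hMy] at e1
    have e2 : ∑ j, k j * ‖(c • hat (acM M y)) j‖ ^ 2 = ‖c‖ ^ 2 * qb k (acM M y) := by
      rw [← qb_hat, Finset.mul_sum]
      refine Finset.sum_congr rfl fun l _ => ?_
      simp only [Pi.smul_apply, smul_eq_mul, norm_mul]
      ring
    rw [e2, qb_hat] at e1
    rw [div_le_iff₀ hp0]
    have e4 : k (Fin.last n) ≤ qb k (acM M y) := by
      have : 0 ≤ ∑ j : Fin n, k j.castSucc * ‖acM M y j‖ ^ 2 :=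
        Finset.sum_nonneg fun l _ => mul_nonneg (hk0 l) (sq_nonneg _)
      unfold qb; linarith
    nlinarith [mul_le_mul_of_nonneg_left e4 (sq_nonneg ‖c‖)]
  have hc3 : √(η / (-k (Fin.last n))) ≤ ‖c‖ := by
    rw [← Real.sqrt_sq hc0.le]
    exact Real.sqrt_le_sqrt hc2
  -- the hat of `y` is bounded
  have hyR : ∀ j, ‖hat y j‖ ≤ R := by
    have s0 : 0 ≤ ∑ j : Fin n, √(-k (Fin.last n) / k j.castSucc) :=
      Finset.sum_nonneg fun l _ => Real.sqrt_nonneg _
    intro j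
    refine Fin.lastCases ?_ (fun j => ?_) j
    · rw [hat_last, norm_one]; linarith
    · rw [hat_castSucc]
      have g0 : ‖y j‖ ≤ √(-k (Fin.last n) / k j.castSucc) := by
        refine Real.le_sqrt_of_sq_le ?_
        rw [le_div_iff₀ (hs.pos j)]
        have e1 : k j.castSucc * ‖y j‖ ^ 2 ≤ ∑ j : Fin n, k j.castSucc * ‖y j‖ ^ 2 :=
          Finset.single_le_sum (f := fun j : Fin n => k j.castSucc * ‖y j‖ ^ 2)
            (fun l _ => mul_nonneg (hk0 l) (sq_nonneg _)) (Finset.mem_univ j)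
        unfold qb at hy1
        nlinarith
      have g1 : √(-k (Fin.last n) / k j.castSucc) ≤
          ∑ j : Fin n, √(-k (Fin.last n) / k j.castSucc) :=
        Finset.single_le_sum (f := fun j : Fin n => √(-k (Fin.last n) / k j.castSucc))
          (fun l _ => Real.sqrt_nonneg _) (Finset.mem_univ j)
      linarith
  have hR0 : 0 ≤ R := (norm_nonneg _).trans (hyR (Fin.last n))
  have hcol : ∀ l, (M *ᵥ (Pi.single j 1 : Fin (n + 1) → ℂ)) l = M l j := by
    intro l; rw [Matrix.mulVec_single_one]; rfl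
  have hm1 : ∑ l, k l * ‖(M *ᵥ (Pi.single j 1 : Fin (n + 1) → ℂ)) l‖ ^ 2 ≤ A := by
    rw [hM.form]
    have : ∑ l, k l * ‖(Pi.single j 1 : Fin (n + 1) → ℂ) l‖ ^ 2 = k j := by
      rw [Finset.sum_eq_single j]
      · simp
      · intro l _ hl; simp [Pi.single_eq_of_ne hl]
      · simp
    rw [this]
    exact (le_abs_self _).trans (hkA j)
  have hm2 : ‖hf k (hat (acM M y)) (M *ᵥ (Pi.single j 1 : Fin (n + 1) → ℂ))‖ ≤ B := by
    have e1 := hM.hf (hat y) (Pi.single j 1)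
    rw [hMy] at e1
    have e2 : hf k (c • hat (acM M y)) (M *ᵥ (Pi.single j 1 : Fin (n + 1) → ℂ)) =
        conj c * hf k (hat (acM M y)) (M *ᵥ (Pi.single j 1 : Fin (n + 1) → ℂ)) := by
      rw [hf, hf, Finset.mul_sum]
      refine Finset.sum_congr rfl fun l _ => ?_
      simp only [Pi.smul_apply, smul_eq_mul, map_mul]
      ring
    have e3 : hf k (hat y) (Pi.single j 1) = (k j : ℂ) * conj (hat y j) := by
      rw [hf, Finset.sum_eq_single j]
      · simp
      · intro l _ hl; simp [Pi.single_eq_of_ne hl]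
      · simp
    rw [e2, e3] at e1
    have e4 := congrArg norm e1
    rw [norm_mul, RCLike.norm_conj, norm_mul, RCLike.norm_conj, Complex.norm_real,
      Real.norm_eq_abs] at e4
    rw [hB, le_div_iff₀ (Real.sqrt_pos.mpr (div_pos hη hp0)), mul_comm]
    calc √(η / (-k (Fin.last n))) *
          ‖hf k (hat (acM M y)) (M *ᵥ (Pi.single j 1 : Fin (n + 1) → ℂ))‖
        ≤ ‖c‖ * ‖hf k (hat (acM M y)) (M *ᵥ (Pi.single j 1 : Fin (n + 1) → ℂ))‖ :=
          mul_le_mul_of_nonneg_right hc3 (norm_nonneg _)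
      _ = |k j| * ‖hat y j‖ := e4
      _ ≤ A * R := mul_le_mul (hkA j) (hyR j) (norm_nonneg _) hA0
  have h3 := bound_vec hs hη hA0 hy2 hm1 hm2 i
  rw [hcol] at h3
  have hki : 0 < |k i| := abs_pos.mpr (hk i)
  have h4 : ‖M i j‖ ≤ √(T / |k i|) := by
    refine Real.le_sqrt_of_sq_le ?_
    rw [le_div_iff₀ hki, mul_comm]
    exact h3
  exact h4.trans (Finset.single_le_sum (f := fun j => √(T / |k j|))
    (fun l _ => Real.sqrt_nonneg _) (Finset.mem_univ i))

theorem bound_definite {k : Fin (n + 1) → ℝ} (hk : ∀ j, 0 < k j) : ∃ C : ℝ,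
    ∀ M : Matrix (Fin (n + 1)) (Fin (n + 1)) ℂ, Uni k M → ∀ i j, ‖M i j‖ ≤ C := by
  refine ⟨∑ i, ∑ j, √(k j / k i), fun M hM i j => ?_⟩
  have h1 : ∑ l, k l * ‖M l j‖ ^ 2 = k j := by
    have e1 := hM.form (Pi.single j 1 : Fin (n + 1) → ℂ)
    have e2 : ∑ l, k l * ‖(Pi.single j 1 : Fin (n + 1) → ℂ) l‖ ^ 2 = k j := by
      rw [Finset.sum_eq_single j]
      · simp
      · intro l _ hl; simp [Pi.single_eq_of_ne hl]
      · simp
    rw [e2] at e1
    rw [← e1]
    refine Finset.sum_congr rfl fun l _ => ?_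
    rw [Matrix.mulVec_single_one]
    rfl
  have h2 : k i * ‖M i j‖ ^ 2 ≤ k j := by
    rw [← h1]
    exact Finset.single_le_sum (f := fun l => k l * ‖M l j‖ ^ 2)
      (fun l _ => mul_nonneg (hk l).le (sq_nonneg _)) (Finset.mem_univ i)
  have h3 : ‖M i j‖ ≤ √(k j / k i) := by
    refine Real.le_sqrt_of_sq_le ?_
    rw [le_div_iff₀ (hk i), mul_comm]
    exact h2
  refine h3.trans ((Finset.single_le_sum (f := fun j => √(k j / k i))
    (fun l _ => Real.sqrt_nonneg _) (Finset.mem_univ j)).trans ?_)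
  exact Finset.single_le_sum (f := fun i => ∑ j, √(k j / k i))
    (fun l _ => Finset.sum_nonneg fun l' _ => Real.sqrt_nonneg _) (Finset.mem_univ i)

variable {F : Type} [Field F] [NumberField F]

theorem finite_bounded [NumberField.IsTotallyReal F] (B : ℝ) :
    {x : F | IsIntegral ℤ x ∧ ∀ v : F →+* ℝ, |v x| ≤ B}.Finite := by
  refine (NumberField.Embeddings.finite_of_norm_le F ℂ B).subset ?_
  rintro x ⟨hx, hb⟩
  refine ⟨hx, fun φ => ?_⟩
  have hr := NumberField.IsTotallyReal.complexEmbedding_isReal φ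
  have h1 := hb hr.embedding
  rw [← hr.coe_embedding_apply x, Complex.norm_real, Real.norm_eq_abs]
  exact h1

/-- proper discontinuity -/
theorem pd [NumberField.IsTotallyReal F] {v₁ : F →+* ℝ} {D : F} {h : Fin (n + 1) → F} {N : ℕ}
    {K : Set (Fin n → ℂ)} (hg : Good v₁ D h) (hN : 0 < N) (hK : IsCompact K)
    (hKb : K ⊆ ball (ev v₁ h)) :
    {g : Mat n F | g ∈ Gam D h N ∧ ∃ y ∈ K, act v₁ D g y ∈ K}.Finite := by
  have hs := sg hg
  -- `K` stays away from the boundary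
  obtain ⟨η, hη, hη'⟩ : ∃ η : ℝ, 0 < η ∧ ∀ y ∈ K, qb (ev v₁ h) y ≤ -η := by
    rcases K.eq_empty_or_nonempty with rfl | hne
    · exact ⟨1, one_pos, fun y hy => absurd hy (Set.notMem_empty y)⟩
    have hc : Continuous fun y : Fin n → ℂ => qb (ev v₁ h) y := by
      unfold qb; fun_prop
    obtain ⟨y0, hy0, hmax⟩ := hK.exists_isMaxOn hne hc.continuousOn
    refine ⟨-(qb (ev v₁ h) y0), ?_, fun y hy => ?_⟩
    · have : qb (ev v₁ h) y0 < 0 := hKb hy0
      linarith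
    · have := hmax hy
      simp only [Set.mem_ofPred_eq] at this
      linarith
  obtain ⟨C₁, hC₁⟩ := entries_bound hs hη
  have hCv : ∀ v : F →+* ℝ, ∃ C : ℝ, ∀ g ∈ Gam D h N, (∃ y ∈ K, act v₁ D g y ∈ K) →
      ∀ i j, ‖cmat v D g i j‖ ≤ C := by
    intro v
    by_cases hv : v = v₁
    · subst hv
      refine ⟨C₁, fun g hgm hy => ?_⟩
      obtain ⟨y, hy1, hy2⟩ := hy
      exact hC₁ _ ((mem_Gam_iff (hg.D0 v) hN).mp hgm).1 y (hKb hy1) (hη' y hy1) (hη' _ hy2)
    · have hpos : ∀ j, 0 < ev v h j := by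
        intro j
        refine Fin.lastCases ?_ (fun j => ?_) j
        · exact hg.hl v hv
        · exact hg.hp v j
      obtain ⟨C, hC⟩ := bound_definite hpos
      exact ⟨C, fun g hgm _ => hC _ ((mem_Gam_iff (hg.D0 v) hN).mp hgm).1⟩
  choose C hC using hCv
  set B : ℝ := ∑ v : F →+* ℝ, (|C v| + |C v| / √(v D)) with hB
  have hle : ∀ v : F →+* ℝ, |C v| + |C v| / √(v D) ≤ B := fun v =>
    Finset.single_le_sum (f := fun v : F →+* ℝ => |C v| + |C v| / √(v D))
      (fun w _ => by positivity) (Finset.mem_univ v)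
  have hS := finite_bounded (F := F) B
  have hS3 : (Set.pi Set.univ fun _ : Fin (n + 1) => Set.pi Set.univ fun _ : Fin (n + 1) =>
      {x : F | IsIntegral ℤ x ∧ ∀ v : F →+* ℝ, |v x| ≤ B}).Finite :=
    Set.Finite.pi fun _ => Set.Finite.pi fun _ => hS
  refine (hS3.prod hS3).subset ?_
  rintro g ⟨hgm, hgy⟩
  have hint : ∀ i j, IsIntegral ℤ (g.1 i j) ∧ IsIntegral ℤ (g.2 i j) := by
    intro i j
    obtain ⟨-, -, h3, h4⟩ := hgm
    have hN' : (N : F) ≠ 0 := Nat.cast_ne_zero.mpr hN.ne'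
    have hNi : IsIntegral ℤ (N : F) := isIntegral_natCast N
    constructor
    · have e : g.1 i j = (N : F) *
          ((g.1 i j - (1 : Matrix (Fin (n + 1)) (Fin (n + 1)) F) i j) / (N : F)) +
          (1 : Matrix (Fin (n + 1)) (Fin (n + 1)) F) i j := by field_simp; ring
      rw [e]
      refine (hNi.mul (h3 i j)).add ?_
      by_cases hij : i = j
      · subst hij; rw [Matrix.one_apply_eq]; exact isIntegral_one
      · rw [Matrix.one_apply_ne hij]; exact isIntegral_zero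
    · have e : g.2 i j = (N : F) * (g.2 i j / (N : F)) := by field_simp
      rw [e]
      exact hNi.mul (h4 i j)
  have hbd : ∀ (v : F →+* ℝ) i j, |v (g.1 i j)| ≤ B ∧ |v (g.2 i j)| ≤ B := by
    intro v i j
    have e1 := hC v g hgm hgy i j
    rw [cmat_apply] at e1
    have hs : 0 < √(v D) := Real.sqrt_pos.mpr (hg.D0 v)
    have e1' : ‖emb v D (g.1 i j) (g.2 i j)‖ ≤ |C v| := e1.trans (le_abs_self _)
    have e2 : |v (g.1 i j)| ≤ |C v| := by
      have := Complex.abs_re_le_norm (emb v D (g.1 i j) (g.2 i j))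
      rw [emb_re] at this
      exact this.trans e1'
    have e3 : |v (g.2 i j)| ≤ |C v| / √(v D) := by
      have := Complex.abs_im_le_norm (emb v D (g.1 i j) (g.2 i j))
      rw [emb_im, abs_mul, abs_of_pos hs] at this
      rw [le_div_iff₀ hs, mul_comm]
      exact this.trans e1'
    have a1 : 0 ≤ |C v| := abs_nonneg _
    have a2 : 0 ≤ |C v| / √(v D) := div_nonneg a1 hs.le
    have := hle v
    constructor <;> linarith
  refine ⟨fun i _ j _ => ⟨(hint i j).1, fun v => (hbd v i j).1⟩,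
    fun i _ j _ => ⟨(hint i j).2, fun v => (hbd v i j).2⟩⟩

/-- an element of `SU(h)` over the order comes from a pair of level one -/
theorem exists_gam_of_inSU {v₁ : F →+* ℝ} {D : F}
    {h : Fin (n + 1) → F} (hg : Good v₁ D h) {g : SLn n} (hi : InSU v₁ D h g) :
    ∃ p ∈ Gam D h 1, cmat v₁ D p = g.1 := by
  refine exists_mem_Gam (hg.D0 v₁) one_pos hi.2 fun i j => ?_
  obtain ⟨x, y, hx, hy, e⟩ := hi.1 i j
  refine ⟨x - (1 : Matrix (Fin (n + 1)) (Fin (n + 1)) F) i j, y, hx.sub ?_, hy, ?_⟩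
  · by_cases hij : i = j
    · subst hij; rw [Matrix.one_apply_eq]; exact isIntegral_one
    · rw [Matrix.one_apply_ne hij]; exact isIntegral_zero
  · rw [e]
    by_cases hij : i = j
    · subst hij
      simp only [emb, map_sub, Matrix.one_apply_eq, map_one, Complex.ofReal_sub,
        Complex.ofReal_one, Nat.cast_one]
      ring
    · simp [emb, Matrix.one_apply_ne hij]

end

end Pool.Agent.CMN.Grp

namespace Pool.Agent.CMN

open Grp

/-- row PDP -/
theorem pdp : PDP := fun _ _ _ _ _ _ _ _ _ _ hg hN hK hKb => pd hg hN hK hKb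

/-- row PDX -/
theorem pdx : PDX := by
  intro F _ _ _ n v₁ D h Γ hg hΓ C hC hCb
  have h1 := pd hg one_pos hC hCb
  have h2 : ((fun p : Mat n F => cmat v₁ D p) '' {g : Mat n F | g ∈ Gam D h 1 ∧
      ∃ y ∈ C, act v₁ D g y ∈ C}).Finite := h1.image _
  refine Set.Finite.of_finite_image
    (f := fun g : Γ => (g.1.1 : Matrix (Fin (n + 1)) (Fin (n + 1)) ℂ)) (h2.subset ?_) ?_
  · rintro _ ⟨g, ⟨y, hy, hgy⟩, rfl⟩
    obtain ⟨p, hp, e⟩ := exists_gam_of_inSU hg (hΓ.le g.1 g.2)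
    refine ⟨p, ⟨hp, y, hy, ?_⟩, e⟩
    change acM (cmat v₁ D p) y ∈ C
    rw [e]
    exact hgy
  · intro g _ g' _ e
    exact Subtype.ext (Subtype.ext e)

end Pool.Agent.CMN
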