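import Pool.Agent.Lib.CMN.Final
import Pool.Agent.Lib.CMN.Hol
import Pool.Agent.Lib.CMN.Lim
import Pool.Agent.Lib.CMN.PD44
import Pool.Agent.Lib.CMN.Coc
import Pool.Agent.Lib.CMN.Cocx
import Pool.Agent.Lib.CMN.AdpG
import Pool.Agent.Lib.CMN.P1
import Pool.Agent.Lib.CMN.FxCalc
import Pool.Agent.Lib.CMN.FX2
import Pool.Agent.Lib.CMN.FX1

/-!
# CMN: the final theorems, all dimensions
-/

set_option autoImplicit false

namespace Pool.Agent.CMN

theorem cocx_coc : COCX := cocx coc

theorem invone : INVONE := FX.invone_of p1one gamfin

theorem invall : INVALL := FX.invall_of p1all gamfin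

/-- all balanced families of `2n` CM types come from compact quotients of the `n`-ball -/
theorem quot : QUOT :=
  FX.quot_of hol invone pdx cocx_coc (FX.fx1_of lim invall pdx cocx_coc)

/-- every balanced multiset of CM types, in one step -/
theorem final : FINAL := final_of quot

end Pool.Agent.CMN
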