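import Mathlib
import Pool.Agent.Lib.CMN.Cyc
import Pool.Agent.Lib.CMN.FinThm
import Pool.Agent.Lib.MP_938ce2_ag_h6.Frobenius

/-!
# Tate classes on powers of general cyclic covers of the line

Let `C : y ^ m = ∏ (x - x_i) ^ b_i` (`i < n`, `∑ b_i = 0` modulo `m`) be a cyclic cover of the
projective line with general branch points `x_i`.  Its `H^1` is the direct sum of the eigenspaces
`M_a`, `0 ≠ a ∈ ℤ/m`, and if for each `a` at least eight, or at most three, of the `a * b_i` are
nonzero, then the monodromy is as big as it can be, so that the Tate classes of the powers of `C`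
are generated by divisor classes and by products of lines `det M_a`, over the elements `a` of a
multiset `T`.  As `Sym^(n-2)(ℙ^1 - {x_i})` is the variety `∑ u_i = 1` in a torus, `det M_a` is the
line `V(a b_i)` in the cohomology of the Fermat variety of degree `m`; so the product over `T` is
`V(weil b T)`, and it consists of Tate classes iff `IsTate (weil b T)` (Weil).

By the inductive structure of Shioda and Katsura, `V(s)` and `V(s + {x, -x})` differ by an algebraic
class, and `V(s + t)` is the product of `V(s)` and `V(t)` if both sums are zero.  So if
`IsDec s L P Q`, then `V(s)` is algebraic iff the product of the `V(t)`, `t ∈ L`, is algebraic; and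
`V(t)` is the line in `H^1` of an abelian variety with complex multiplication by `E = F(ζ)` and with
CM type `fermat c t` (an isotypic part of a power of the Jacobian of the Fermat curve of degree `m`)
on which `E` acts by the identity.  `Alg` (file `Lib/CMN/Defs`) consists of the multisets of CM types
obtained from divisor classes, or from one compact ball quotient which maps to the product of the
abelian varieties with these CM types; it consists of multisets for which the product of the lines is
algebraic.
-/

set_option autoImplicit false

open Finset

namespace Pool.Agent.Results.MP_938ce2_ag.CyclicCovers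

open Pool.Agent.CMN Pool.Agent.CMN.Cyc

/-- The Tate condition, in terms of Frobenius eigenvalues: some power of
`∏ g(χ ^ a, ψ) / p ^ (l / 2)`, the product over the `l` elements `a` of `s`, is one, for all `p`,
`χ`, `ψ`. -/
def IsTate {m : ℕ} (s : Multiset (ZMod m)) : Prop :=
  (0 : ZMod m) ∉ s ∧ s.sum = 0 ∧
    ∀ (p : ℕ) [Fact p.Prime] (χ : MulChar (ZMod p) ℂ) (ψ : AddChar (ZMod p) ℂ),
      orderOf χ = m → ψ ≠ 1 → ∃ k, 0 < k ∧
        (s.map fun a => gaussSum (χ ^ a.val) ψ).prod ^ (2 * k) = (p : ℂ) ^ (s.card * k)

/-- The products `a * b i`, for all `a` in `T` and all `i`, without those which are zero: the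
character of the product over `T` of the determinants of the eigenspaces `M_a`. -/
def weil {m n : ℕ} (b : Fin n → ZMod m) (T : Multiset (ZMod m)) : Multiset (ZMod m) :=
  (T.bind fun a => univ.val.map fun i => a * b i).filter (· ≠ 0)

/-- All Tate characters attached to powers of general cyclic covers of the line, for all degrees `m`
and all exponents `b` (in particular all Tate characters of Fermat varieties): each is a union of
characters of Fermat curves, up to pairs `{x, -x}`; and for each such union the multiset of the CM
types of these characters comes from divisor classes or from one compact ball quotient, for every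
totally real field `F` with an element `c` which is `ζ + ζ⁻¹` for a primitive `m`-th root of
unity `ζ`. -/
theorem result (m n : ℕ) [NeZero m] (b : Fin n → ZMod m) (T : Multiset (ZMod m))
    (hT : IsTate (weil b T)) :
    (∃ L P Q, IsDec (weil b T) L P Q) ∧
      ∀ (L : Multiset (ZMod m × ZMod m × ZMod m)) (P Q : Multiset (ZMod m)),
        IsDec (weil b T) L P Q →
        ∀ (F : Type) [Field F] [NumberField F] [NumberField.IsTotallyReal F] (v₁ : F →+* ℝ) (c : F),
          (∀ v : F →+* ℝ, ∃ k, Arg m k v c) → Alg v₁ (4 - c ^ 2) (L.map (fermat c)) := by
  obtain ⟨h0, h1, h2⟩ := (Pool.Agent.Lib.MP_938ce2_ag_h6.Frob.frobTate_iff (weil b T)).1 hT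
  refine ⟨exists_dec _ _ rfl h0 h1, ?_⟩
  intro L P Q hd F _ _ _ v₁ c hc
  exact alg_of_final final hd h2 v₁ hc

end Pool.Agent.Results.MP_938ce2_ag.CyclicCovers
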