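import Pool.Agent.Lib.CMN.Defs

/-!
# Tank CMN, row FINAL: `QUOT → FINAL`
-/

set_option autoImplicit false

namespace Pool.Agent.CMN

theorem exists_fin {α : Type*} (A : Multiset α) {n : ℕ} (h : A.card = n) :
    ∃ f : Fin n → α, A = Finset.univ.val.map f := by
  induction A using Quotient.inductionOn with
  | h l =>
    have hl : l.length = n := h
    subst hl
    refine ⟨fun i => l.get i, ?_⟩
    rw [Fin.univ_val_map]
    change (l : Multiset α) = _
    congr 1
    exact (List.ofFn_get l).symm

theorem count_map {α : Type*} {n : ℕ} (f : Fin n → α) (p : α → Prop) [DecidablePred p] :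
    ((Finset.univ : Finset (Fin n)).val.map f).countP p =
      (Finset.univ.filter fun i => p (f i)).card := by
  rw [Multiset.countP_map]
  rfl

theorem countP_false {F : Type} [Field F] (m : Multiset (CMType F)) (v : F →+* ℝ) :
    m.countP (fun Φ => ¬ (Φ v = true)) = m.countP (fun Φ => Φ v = false) := by
  apply Multiset.countP_congr rfl
  intro Φ _
  simp

/-- a balanced multiset has even cardinality, half of it `true` at every place -/
theorem Balanced.count {F : Type} [Field F] {m : Multiset (CMType F)} (hm : Balanced m)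
    (v w : F →+* ℝ) : m.countP (fun Φ => Φ v = true) = m.countP (fun Φ => Φ w = true) ∧
      m.card = m.countP (fun Φ => Φ w = true) + m.countP (fun Φ => Φ w = false) := by
  have h1 := Multiset.card_eq_countP_add_countP (fun Φ : CMType F => Φ v = true) m
  have h2 := Multiset.card_eq_countP_add_countP (fun Φ : CMType F => Φ w = true) m
  rw [countP_false] at h1 h2
  have h3 := hm v
  have h4 := hm w
  constructor <;> omega

theorem final_of (hq : QUOT) : FINAL := by
  intro F _ _ _ v₁ D hDi hD m hm
  -- the two halves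
  obtain ⟨n, hn⟩ : ∃ n, n = m.countP (fun Φ => Φ v₁ = true) := ⟨_, rfl⟩
  have hA : (m.filter fun Φ => Φ v₁ = true).card = n := by
    rw [← Multiset.countP_eq_card_filter, hn]
  have hB : (m.filter fun Φ => ¬ (Φ v₁ = true)).card = n := by
    rw [← Multiset.countP_eq_card_filter, countP_false, ← hm v₁, hn]
  have hAB := Multiset.filter_add_not (fun Φ : CMType F => Φ v₁ = true) m
  obtain ⟨Φ, hΦ⟩ := exists_fin _ hA
  obtain ⟨Ψ, hΨ⟩ := exists_fin _ hB
  have hΦ1 : ∀ i, Φ i v₁ = true := by
    intro i
    have h1 : Φ i ∈ m.filter fun Φ => Φ v₁ = true := by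
      rw [hΦ]
      exact Multiset.mem_map_of_mem Φ (Finset.mem_univ_val i)
    exact (Multiset.mem_filter.1 h1).2
  have hΨ1 : ∀ i, Ψ i v₁ = false := by
    intro i
    have h1 : Ψ i ∈ m.filter fun Φ => ¬ (Φ v₁ = true) := by
      rw [hΨ]
      exact Multiset.mem_map_of_mem Ψ (Finset.mem_univ_val i)
    simpa using (Multiset.mem_filter.1 h1).2
  have hm2 : m = Finset.univ.val.map Φ + Finset.univ.val.map Ψ := by
    rw [← hΦ, ← hΨ, hAB]
  by_cases hv : ∃ v : F →+* ℝ, v ≠ v₁
  · rcases Nat.eq_zero_or_pos n with h0 | h0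
    · left
      refine ⟨0, ?_⟩
      have h1 : m.card = 0 := by
        rw [← hAB, Multiset.card_add, hA, hB, h0]
      rw [Multiset.card_eq_zero.1 h1]
      simp
    · right
      refine ⟨n, Φ, Ψ, h0, hm2, hq F v₁ D n Φ Ψ hDi hD hv h0 hΦ1 hΨ1 fun v => ?_⟩
      rw [← count_map Φ (fun Φ => Φ v = true), ← count_map Ψ (fun Φ => Φ v = true),
        ← Multiset.countP_add, ← hm2, (hm.count v v₁).1, hn]
  · left
    have hall : ∀ v : F →+* ℝ, v = v₁ := fun v => by
      by_contra h
      exact hv ⟨v, h⟩
    refine ⟨Finset.univ.val.map Φ, ?_⟩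
    rw [hm2, Multiset.map_map]
    congr 1
    apply Multiset.map_congr rfl
    intro i _
    funext v
    rw [hall v]
    simp [bar, hΦ1 i, hΨ1 i]

end Pool.Agent.CMN
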