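import Mathlib

/-!
# CMN, row JAC (helper37): the action of SU(n,1) on the ball of `ℂⁿ`

`h : Fin (n + 1) → ℝ`, all `h j > 0` but the last one, which is negative,
`act g y = (g (y,1))_i / j(g,y)`, `j = jf g y = (g (y,1))_n`.
-/

set_option autoImplicit false

namespace Pool.CMN.Jac

open Matrix MeasureTheory

variable {n : ℕ}

/-- the vector `(y,1)` -/
def Yv (y : Fin n → ℂ) : Fin (n + 1) → ℂ := Fin.snoc y 1

@[simp] theorem Yv_castSucc (y : Fin n → ℂ) (i : Fin n) : Yv y i.castSucc = y i := by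
  simp [Yv]

@[simp] theorem Yv_last (y : Fin n → ℂ) : Yv y (Fin.last n) = 1 := by
  simp [Yv]

/-- the hermitian norm form -/
noncomputable def Hn (h : Fin (n + 1) → ℝ) (x : Fin (n + 1) → ℂ) : ℝ := ∑ i, h i * ‖x i‖ ^ 2

/-- the ball -/
def Bl (h : Fin (n + 1) → ℝ) : Set (Fin n → ℂ) :=
  {y | ∑ j : Fin n, h j.castSucc * ‖y j‖ ^ 2 + h (Fin.last n) < 0}

/-- `g` preserves the hermitian form `diag h` -/
def IsU (h : Fin (n + 1) → ℝ) (g : Matrix (Fin (n + 1)) (Fin (n + 1)) ℂ) : Prop :=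
  gᴴ * Matrix.diagonal (fun i => (h i : ℂ)) * g = Matrix.diagonal (fun i => (h i : ℂ))

/-- automorphy factor -/
noncomputable def jf (g : Matrix (Fin (n + 1)) (Fin (n + 1)) ℂ) (y : Fin n → ℂ) : ℂ :=
  (g *ᵥ Yv y) (Fin.last n)

/-- action by fractional linear maps -/
noncomputable def act (g : Matrix (Fin (n + 1)) (Fin (n + 1)) ℂ) (y : Fin n → ℂ) : Fin n → ℂ :=
  fun i => (g *ᵥ Yv y) i.castSucc / jf g y

/-- the real function `H(y) = - h(Y,Y)` -/
noncomputable def Hf (h : Fin (n + 1) → ℝ) (y : Fin n → ℂ) : ℝ := - Hn h (Yv y)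

theorem Hn_Yv (h : Fin (n + 1) → ℝ) (y : Fin n → ℂ) :
    Hn h (Yv y) = ∑ j : Fin n, h j.castSucc * ‖y j‖ ^ 2 + h (Fin.last n) := by
  simp [Hn, Fin.sum_univ_castSucc]

theorem mem_Bl_iff (h : Fin (n + 1) → ℝ) (y : Fin n → ℂ) : y ∈ Bl h ↔ Hn h (Yv y) < 0 := by
  rw [Hn_Yv]; rfl

theorem mem_Bl_iff_Hf (h : Fin (n + 1) → ℝ) (y : Fin n → ℂ) : y ∈ Bl h ↔ 0 < Hf h y := by
  rw [mem_Bl_iff, Hf]; constructor <;> intro H <;> linarith

theorem Hn_eq (h : Fin (n + 1) → ℝ) (x : Fin (n + 1) → ℂ) :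
    (Hn h x : ℂ) = star x ⬝ᵥ (Matrix.diagonal (fun i => (h i : ℂ)) *ᵥ x) := by
  simp only [Hn, dotProduct, mulVec_diagonal, Pi.star_apply, RCLike.star_def]
  push_cast
  refine Finset.sum_congr rfl fun i _ => ?_
  rw [mul_left_comm, Complex.conj_mul']

theorem Hn_mulVec {h : Fin (n + 1) → ℝ} {g : Matrix (Fin (n + 1)) (Fin (n + 1)) ℂ} (hg : IsU h g)
    (x : Fin (n + 1) → ℂ) : Hn h (g *ᵥ x) = Hn h x := by
  have : (Hn h (g *ᵥ x) : ℂ) = Hn h x := by
    rw [Hn_eq, Hn_eq, Matrix.star_mulVec, Matrix.mulVec_mulVec, ← Matrix.dotProduct_mulVec,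
      Matrix.mulVec_mulVec, ← Matrix.mul_assoc, hg]
  exact_mod_cast this

theorem Hn_smul (h : Fin (n + 1) → ℝ) (c : ℂ) (x : Fin (n + 1) → ℂ) : Hn h (c • x) = ‖c‖ ^ 2 * Hn h x := by
  simp only [Hn, Pi.smul_apply, smul_eq_mul, norm_mul, mul_pow, Finset.mul_sum]
  refine Finset.sum_congr rfl fun i _ => by ring

theorem last_ne_zero {h : Fin (n + 1) → ℝ} (h0 : ∀ j : Fin n, 0 < h j.castSucc)
    {x : Fin (n + 1) → ℂ} (hx : Hn h x < 0) : x (Fin.last n) ≠ 0 := by
  intro h2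
  rw [Hn, Fin.sum_univ_castSucc, h2] at hx
  have : 0 ≤ ∑ j : Fin n, h j.castSucc * ‖x j.castSucc‖ ^ 2 :=
    Finset.sum_nonneg fun j _ => mul_nonneg (h0 j).le (by positivity)
  simp only [norm_zero, ne_eq, OfNat.ofNat_ne_zero, not_false_eq_true, zero_pow, mul_zero,
    add_zero] at hx
  linarith

theorem jf_ne_zero {h : Fin (n + 1) → ℝ} (h0 : ∀ j : Fin n, 0 < h j.castSucc)
    {g : Matrix (Fin (n + 1)) (Fin (n + 1)) ℂ} (hg : IsU h g) {y : Fin n → ℂ} (hy : y ∈ Bl h) :
    jf g y ≠ 0 := by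
  apply last_ne_zero h0
  rw [Hn_mulVec hg]
  exact (mem_Bl_iff h y).1 hy

theorem Yv_act {g : Matrix (Fin (n + 1)) (Fin (n + 1)) ℂ} {y : Fin n → ℂ} (hj : jf g y ≠ 0) :
    g *ᵥ Yv y = jf g y • Yv (act g y) := by
  funext i
  refine Fin.lastCases ?_ (fun i => ?_) i
  · simp [jf]
  · simp only [Pi.smul_apply, smul_eq_mul, Yv_castSucc, act]
    field_simp

theorem Hn_act {h : Fin (n + 1) → ℝ} {g : Matrix (Fin (n + 1)) (Fin (n + 1)) ℂ} (hg : IsU h g)
    {y : Fin n → ℂ} (hj : jf g y ≠ 0) :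
    Hn h (Yv (act g y)) = Hn h (Yv y) / ‖jf g y‖ ^ 2 := by
  have h1 := Hn_mulVec hg (Yv y)
  rw [Yv_act hj, Hn_smul] at h1
  have : ‖jf g y‖ ^ 2 ≠ 0 := by positivity
  rw [eq_div_iff this, ← h1]; ring

theorem Hf_act {h : Fin (n + 1) → ℝ} {g : Matrix (Fin (n + 1)) (Fin (n + 1)) ℂ} (hg : IsU h g)
    {y : Fin n → ℂ} (hj : jf g y ≠ 0) :
    Hf h (act g y) = Hf h y / ‖jf g y‖ ^ 2 := by
  rw [Hf, Hf, Hn_act hg hj]; ring

theorem act_mem {h : Fin (n + 1) → ℝ} (h0 : ∀ j : Fin n, 0 < h j.castSucc)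
    {g : Matrix (Fin (n + 1)) (Fin (n + 1)) ℂ} (hg : IsU h g) {y : Fin n → ℂ} (hy : y ∈ Bl h) :
    act g y ∈ Bl h := by
  have hj := jf_ne_zero h0 hg hy
  rw [mem_Bl_iff, Hn_act hg hj]
  have := (mem_Bl_iff h y).1 hy
  exact div_neg_of_neg_of_pos this (by positivity)

theorem Yv_inj {y z : Fin n → ℂ} {c : ℂ} (h : c • Yv y = Yv z) : c = 1 ∧ y = z := by
  have h2 := congrFun h (Fin.last n)
  simp at h2
  subst h2
  refine ⟨rfl, ?_⟩
  funext i
  simpa using congrFun h i.castSucc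

theorem jf_mul (g g' : Matrix (Fin (n + 1)) (Fin (n + 1)) ℂ) {y : Fin n → ℂ} (hj : jf g' y ≠ 0) :
    jf (g * g') y = jf g (act g' y) * jf g' y := by
  have : (g * g') *ᵥ Yv y = jf g' y • (g *ᵥ Yv (act g' y)) := by
    rw [← Matrix.mulVec_mulVec, Yv_act hj, Matrix.mulVec_smul]
  change ((g * g') *ᵥ Yv y) (Fin.last n) = _
  rw [this]
  change jf g' y * jf g (act g' y) = _
  rw [mul_comm]

theorem act_mul (g g' : Matrix (Fin (n + 1)) (Fin (n + 1)) ℂ) {y : Fin n → ℂ} (hj : jf g' y ≠ 0) :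
    act (g * g') y = act g (act g' y) := by
  have : (g * g') *ᵥ Yv y = jf g' y • (g *ᵥ Yv (act g' y)) := by
    rw [← Matrix.mulVec_mulVec, Yv_act hj, Matrix.mulVec_smul]
  funext i
  rw [act, this, jf_mul g g' hj, act]
  simp only [Pi.smul_apply, smul_eq_mul]
  rw [mul_comm (jf g _) (jf g' y), mul_div_mul_left _ _ hj]

@[simp] theorem jf_one (y : Fin n → ℂ) : jf 1 y = 1 := by simp [jf]

@[simp] theorem act_one (y : Fin n → ℂ) : act 1 y = y := by
  funext i
  simp [act]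

/-! ### group -/

theorem isU_one (h : Fin (n + 1) → ℝ) : IsU h 1 := by simp [IsU]

theorem IsU.mul {h : Fin (n + 1) → ℝ} {g g' : Matrix (Fin (n + 1)) (Fin (n + 1)) ℂ} (hg : IsU h g)
    (hg' : IsU h g') : IsU h (g * g') := by
  unfold IsU at *
  rw [Matrix.conjTranspose_mul]
  calc g'ᴴ * gᴴ * Matrix.diagonal (fun i => (h i : ℂ)) * (g * g')
      = g'ᴴ * (gᴴ * Matrix.diagonal (fun i => (h i : ℂ)) * g) * g' := by
        simp only [Matrix.mul_assoc]
    _ = _ := by rw [hg, hg']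

theorem det_diag_ne {h : Fin (n + 1) → ℝ} (hh : ∀ i, h i ≠ 0) :
    (Matrix.diagonal (fun i => (h i : ℂ))).det ≠ 0 := by
  rw [Matrix.det_diagonal]
  exact Finset.prod_ne_zero_iff.2 fun i _ => by exact_mod_cast hh i

theorem IsU.norm_det {h : Fin (n + 1) → ℝ} (hh : ∀ i, h i ≠ 0) {g : Matrix (Fin (n + 1)) (Fin (n + 1)) ℂ}
    (hg : IsU h g) : ‖g.det‖ = 1 := by
  have h1 := congrArg Matrix.det hg
  rw [Matrix.det_mul, Matrix.det_mul, Matrix.det_conjTranspose] at h1
  have h2 : star g.det * g.det = 1 := by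
    have h3 := det_diag_ne hh
    have : (star g.det * g.det - 1) * (Matrix.diagonal (fun i => (h i : ℂ))).det = 0 := by
      linear_combination h1
    rcases mul_eq_zero.1 this with h4 | h4
    · exact sub_eq_zero.1 h4
    · exact absurd h4 h3
  have h3 : ‖g.det‖ ^ 2 = 1 := by
    have := congrArg norm h2
    rw [norm_mul, norm_star, norm_one] at this
    rw [sq]; exact this
  have h4 : 0 ≤ ‖g.det‖ := norm_nonneg _
  nlinarith

theorem IsU.isUnit_det {h : Fin (n + 1) → ℝ} (hh : ∀ i, h i ≠ 0) {g : Matrix (Fin (n + 1)) (Fin (n + 1)) ℂ}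
    (hg : IsU h g) : IsUnit g.det := by
  rw [isUnit_iff_ne_zero]
  intro h0
  have := hg.norm_det hh
  rw [h0] at this
  simp at this

theorem IsU.inv {h : Fin (n + 1) → ℝ} (hh : ∀ i, h i ≠ 0) {g : Matrix (Fin (n + 1)) (Fin (n + 1)) ℂ}
    (hg : IsU h g) : IsU h g⁻¹ := by
  have hu := hg.isUnit_det hh
  have h1 : g * g⁻¹ = 1 := Matrix.mul_nonsing_inv g hu
  have h2 : (g⁻¹)ᴴ * gᴴ = 1 := by
    rw [← Matrix.conjTranspose_mul, h1, Matrix.conjTranspose_one]
  unfold IsU at *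
  calc (g⁻¹)ᴴ * Matrix.diagonal (fun i => (h i : ℂ)) * g⁻¹
      = (g⁻¹)ᴴ * (gᴴ * Matrix.diagonal (fun i => (h i : ℂ)) * g) * g⁻¹ := by rw [hg]
    _ = ((g⁻¹)ᴴ * gᴴ) * Matrix.diagonal (fun i => (h i : ℂ)) * (g * g⁻¹) := by
        simp only [Matrix.mul_assoc]
    _ = _ := by rw [h1, h2, Matrix.one_mul, Matrix.mul_one]

/-- `SU(h)` -/
def SUh (h : Fin (n + 1) → ℝ) (hh : ∀ i, h i ≠ 0) : Subgroup (Matrix.SpecialLinearGroup (Fin (n + 1)) ℂ) where
  carrier := {g | IsU h (g : Matrix (Fin (n + 1)) (Fin (n + 1)) ℂ)}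
  mul_mem' := by
    intro a b ha hb
    simp only [Set.mem_ofPred_eq, Matrix.SpecialLinearGroup.coe_mul] at *
    exact ha.mul hb
  one_mem' := by simp [isU_one]
  inv_mem' := by
    intro g hg
    have h1 : IsU h (g : Matrix (Fin (n + 1)) (Fin (n + 1)) ℂ)⁻¹ := IsU.inv hh hg
    have h2 : (g : Matrix (Fin (n + 1)) (Fin (n + 1)) ℂ)⁻¹ =
        ((g⁻¹ : Matrix.SpecialLinearGroup (Fin (n + 1)) ℂ) : Matrix (Fin (n + 1)) (Fin (n + 1)) ℂ) := by
      rw [Matrix.SpecialLinearGroup.coe_inv, Matrix.inv_def, g.det_coe, Ring.inverse_one, one_smul]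
    rw [h2] at h1
    exact h1

theorem mem_SUh {h : Fin (n + 1) → ℝ} {hh : ∀ i, h i ≠ 0} {g : Matrix.SpecialLinearGroup (Fin (n + 1)) ℂ} :
    g ∈ SUh h hh ↔ IsU h (g : Matrix (Fin (n + 1)) (Fin (n + 1)) ℂ) := Iff.rfl

/-! ### the derivative -/

/-- matrix of the complex derivative of `act g` at `y` -/
noncomputable def dmat (g : Matrix (Fin (n + 1)) (Fin (n + 1)) ℂ) (y : Fin n → ℂ) : Matrix (Fin n) (Fin n) ℂ :=
  Matrix.of fun i k => (g i.castSucc k.castSucc * jf g y -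
    (g *ᵥ Yv y) i.castSucc * g (Fin.last n) k.castSucc) / jf g y ^ 2

/-- the complex derivative of `act g` at `y` -/
noncomputable def dact (g : Matrix (Fin (n + 1)) (Fin (n + 1)) ℂ) (y : Fin n → ℂ) :
    (Fin n → ℂ) →L[ℂ] (Fin n → ℂ) :=
  LinearMap.toContinuousLinearMap (Matrix.mulVecLin (dmat g y))

theorem mulVec_Yv (g : Matrix (Fin (n + 1)) (Fin (n + 1)) ℂ) (y : Fin n → ℂ) (i : Fin (n + 1)) :
    (g *ᵥ Yv y) i = ∑ k : Fin n, g i k.castSucc * y k + g i (Fin.last n) := by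
  simp [Matrix.mulVec, dotProduct, Fin.sum_univ_castSucc]

theorem hasFDerivAt_num (g : Matrix (Fin (n + 1)) (Fin (n + 1)) ℂ) (y : Fin n → ℂ)
    (i : Fin (n + 1)) :
    HasFDerivAt (fun y => (g *ᵥ Yv y) i)
      (∑ k : Fin n, g i k.castSucc • (ContinuousLinearMap.proj k : (Fin n → ℂ) →L[ℂ] ℂ)) y := by
  simp_rw [mulVec_Yv]
  refine HasFDerivAt.add_const _ ?_
  refine HasFDerivAt.fun_sum fun k _ => ?_
  have h0 : HasFDerivAt (fun y : Fin n → ℂ => y k)
      (ContinuousLinearMap.proj k : (Fin n → ℂ) →L[ℂ] ℂ) y := hasFDerivAt_apply k y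
  exact h0.const_mul (g i k.castSucc)

theorem hasFDerivAt_act (g : Matrix (Fin (n + 1)) (Fin (n + 1)) ℂ) {y : Fin n → ℂ}
    (hj : jf g y ≠ 0) : HasFDerivAt (act g) (dact g y) y := by
  rw [hasFDerivAt_pi']
  intro i
  have hn := hasFDerivAt_num g y i.castSucc
  have hd := hasFDerivAt_num g y (Fin.last n)
  have hj' : (g *ᵥ Yv y) (Fin.last n) ≠ 0 := hj
  have hi := (hasDerivAt_inv hj').comp_hasFDerivAt y hd
  have hq := hn.mul hi
  have he : (fun x => act g x i) =
      (fun y => (g *ᵥ Yv y) i.castSucc) *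
        ((fun z : ℂ => z⁻¹) ∘ fun y => (g *ᵥ Yv y) (Fin.last n)) := by
    funext x
    simp [act, jf, div_eq_mul_inv]
  rw [he]
  refine hq.congr_fderiv ?_
  have hjj : jf g y ≠ 0 := hj
  have hjd : (g *ᵥ Yv y) (Fin.last n) = jf g y := rfl
  apply ContinuousLinearMap.ext
  intro v
  have e1 : (ContinuousLinearMap.proj i ∘L dact g y) v = ∑ k, dmat g y i k * v k := by
    simp [dact, Matrix.mulVec, dotProduct]
  have e2 : ∑ k, dmat g y i k * v k =
      ((∑ k, g i.castSucc k.castSucc * v k) * jf g y -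
        (g *ᵥ Yv y) i.castSucc * ∑ k, g (Fin.last n) k.castSucc * v k) / jf g y ^ 2 := by
    rw [Finset.sum_mul, Finset.mul_sum, ← Finset.sum_sub_distrib, Finset.sum_div]
    refine Finset.sum_congr rfl fun k _ => ?_
    simp only [dmat, Matrix.of_apply]
    ring
  rw [e1, e2]
  simp only [hjd, Function.comp, _root_.add_apply,
    _root_.smul_apply, ContinuousLinearMap.proj_apply, smul_eq_mul, _root_.sum_apply]
  field_simp
  ring

/-- the matrix with columns `e_k` and `(y,1)` -/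
noncomputable def Pm (y : Fin n → ℂ) : Matrix (Fin (n + 1)) (Fin (n + 1)) ℂ :=
  Matrix.of fun i k => Fin.lastCases (motive := fun _ => ℂ) (Yv y i)
    (fun k' => if i = k'.castSucc then 1 else 0) k

theorem Pm_last (y : Fin n → ℂ) (i : Fin (n + 1)) : Pm y i (Fin.last n) = Yv y i := by
  simp [Pm]

theorem Pm_castSucc (y : Fin n → ℂ) (i : Fin (n + 1)) (k : Fin n) :
    Pm y i k.castSucc = if i = k.castSucc then 1 else 0 := by
  simp [Pm]

theorem det_Pm (y : Fin n → ℂ) : (Pm y).det = 1 := by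
  rw [Matrix.det_of_isUpperTriangular]
  · rw [Fin.prod_univ_castSucc]
    simp [Pm_last, Pm_castSucc]
  · intro i k hik
    have hik' : k < i := hik
    revert hik'
    refine Fin.lastCases ?_ (fun k => ?_) k
    · intro h
      exact absurd h (not_lt.2 (Fin.le_last i))
    · intro h
      rw [Pm_castSucc, if_neg h.ne']

theorem mul_Pm_last (g : Matrix (Fin (n + 1)) (Fin (n + 1)) ℂ) (y : Fin n → ℂ)
    (i : Fin (n + 1)) : (g * Pm y) i (Fin.last n) = (g *ᵥ Yv y) i := by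
  simp only [Matrix.mul_apply, Pm_last, Matrix.mulVec, dotProduct]

theorem mul_Pm_castSucc (g : Matrix (Fin (n + 1)) (Fin (n + 1)) ℂ) (y : Fin n → ℂ)
    (i : Fin (n + 1)) (k : Fin n) : (g * Pm y) i k.castSucc = g i k.castSucc := by
  simp [Matrix.mul_apply, Pm_castSucc]

theorem det_dmat (g : Matrix (Fin (n + 1)) (Fin (n + 1)) ℂ) {y : Fin n → ℂ} (hj : jf g y ≠ 0) :
    (dmat g y).det = g.det / jf g y ^ (n + 1) := by
  have h1 : g.det = (g * Pm y).det := by rw [Matrix.det_mul, det_Pm, mul_one]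
  let e : Fin n ⊕ Fin 1 ≃ Fin (n + 1) := finSumFinEquiv
  have hel : ∀ i : Fin n, e (Sum.inl i) = i.castSucc := fun i => rfl
  have her : ∀ i : Fin 1, e (Sum.inr i) = Fin.last n := by
    intro i
    have : i = 0 := Subsingleton.elim _ _
    subst this
    rfl
  have h2 : (g * Pm y).submatrix e e =
      Matrix.fromBlocks (Matrix.of fun (i k : Fin n) => g i.castSucc k.castSucc)
        (Matrix.of fun (i : Fin n) (_ : Fin 1) => (g *ᵥ Yv y) i.castSucc)
        (Matrix.of fun (_ : Fin 1) (k : Fin n) => g (Fin.last n) k.castSucc)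
        (Matrix.of fun (_ _ : Fin 1) => jf g y) := by
    ext i k
    rcases i with i | i <;> rcases k with k | k <;>
      simp only [Matrix.submatrix_apply, hel, her, Matrix.fromBlocks_apply₁₁,
        Matrix.fromBlocks_apply₁₂, Matrix.fromBlocks_apply₂₁, Matrix.fromBlocks_apply₂₂,
        Matrix.of_apply, mul_Pm_last, mul_Pm_castSucc, jf]
  have h3 : (Matrix.of fun (_ _ : Fin 1) => jf g y).det = jf g y := by
    rw [Matrix.det_unique]; rfl
  have h4 : (g * Pm y).det = jf g y * (jf g y • dmat g y).det := by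
    rw [← Matrix.det_submatrix_equiv_self e, h2]
    let Dm : Matrix (Fin 1) (Fin 1) ℂ := Matrix.of fun (_ _ : Fin 1) => jf g y
    let Di : Matrix (Fin 1) (Fin 1) ℂ := Matrix.of fun (_ _ : Fin 1) => (jf g y)⁻¹
    have hDi : Di * Dm = 1 := by
      ext a b
      have : a = 0 := Subsingleton.elim _ _
      subst this
      have : b = 0 := Subsingleton.elim _ _
      subst this
      simp [Di, Dm, Matrix.mul_apply, inv_mul_cancel₀ hj]
    have hDi' : Dm * Di = 1 := by
      ext a b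
      have : a = 0 := Subsingleton.elim _ _
      subst this
      have : b = 0 := Subsingleton.elim _ _
      subst this
      simp [Di, Dm, Matrix.mul_apply, mul_inv_cancel₀ hj]
    let _ : Invertible Dm := ⟨Di, hDi, hDi'⟩
    rw [Matrix.det_fromBlocks₂₂ _ _ _ Dm, h3]
    congr 2
    ext i k
    have hD : (⅟Dm : Matrix (Fin 1) (Fin 1) ℂ) = Di := rfl
    rw [hD]
    simp only [Matrix.sub_apply, Matrix.of_apply, Matrix.mul_apply, Finset.univ_unique,
      Finset.sum_singleton, Matrix.smul_apply, dmat, smul_eq_mul, Di]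
    field_simp
  rw [h1, h4, Matrix.det_smul, Fintype.card_fin]
  field_simp
  ring

theorem det_dact (g : Matrix (Fin (n + 1)) (Fin (n + 1)) ℂ) {y : Fin n → ℂ} (hj : jf g y ≠ 0) :
    (dact g y).det = g.det / jf g y ^ (n + 1) := by
  rw [← det_dmat g hj, ContinuousLinearMap.det, dact]
  simp [← Matrix.toLin'_apply', LinearMap.det_toLin']

/-- the real derivative -/
noncomputable def ract (g : Matrix (Fin (n + 1)) (Fin (n + 1)) ℂ) (y : Fin n → ℂ) :
    (Fin n → ℂ) →L[ℝ] (Fin n → ℂ) := (dact g y).restrictScalars ℝ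

theorem hasFDerivAt_act_real (g : Matrix (Fin (n + 1)) (Fin (n + 1)) ℂ) {y : Fin n → ℂ} (hj : jf g y ≠ 0) :
    HasFDerivAt (act g) (ract g y) y := (hasFDerivAt_act g hj).restrictScalars ℝ

theorem det_ract (g : Matrix (Fin (n + 1)) (Fin (n + 1)) ℂ) {y : Fin n → ℂ} (hj : jf g y ≠ 0) :
    (ract g y).det = (‖g.det‖ / ‖jf g y‖ ^ (n + 1)) ^ 2 := by
  have h1 : (ract g y).det = Algebra.norm ℝ ((dact g y).det) := by
    rw [ContinuousLinearMap.det, ContinuousLinearMap.det, ← LinearMap.det_restrictScalars]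
    rfl
  rw [h1, det_dact g hj, Algebra.norm_complex_apply, Complex.normSq_eq_norm_sq, norm_div, norm_pow]

/-- sign conditions -/
structure Sg (h : Fin (n + 1) → ℝ) : Prop where
  pos : ∀ j : Fin n, 0 < h j.castSucc
  neg : h (Fin.last n) < 0

theorem Sg.ne {h : Fin (n + 1) → ℝ} (hs : Sg h) (i : Fin (n + 1)) : h i ≠ 0 := by
  refine Fin.lastCases ?_ (fun i => ?_) i
  · exact hs.neg.ne
  · exact (hs.pos i).ne'

theorem det_ract_of_isU {h : Fin (n + 1) → ℝ} (hs : Sg h)
    {g : Matrix (Fin (n + 1)) (Fin (n + 1)) ℂ} (hg : IsU h g) {y : Fin n → ℂ} (hy : y ∈ Bl h) :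
    (ract g y).det = (‖jf g y‖ ^ (2 * (n + 1)))⁻¹ := by
  rw [det_ract g (jf_ne_zero hs.pos hg hy), hg.norm_det hs.ne, one_div, inv_pow, ← pow_mul,
    mul_comm 2 (n + 1)]

/-! ### topology and measure -/

theorem continuous_Yv : Continuous (Yv (n := n)) := by
  refine continuous_pi fun i => ?_
  refine Fin.lastCases ?_ (fun i => ?_) i
  · simp only [Yv_last]; exact continuous_const
  · simp only [Yv_castSucc]; exact continuous_apply i

theorem continuous_Hn (h : Fin (n + 1) → ℝ) : Continuous (Hn h) := by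
  unfold Hn
  fun_prop

theorem continuous_Hf (h : Fin (n + 1) → ℝ) : Continuous (Hf h) :=
  ((continuous_Hn h).comp continuous_Yv).neg

theorem isOpen_Bl (h : Fin (n + 1) → ℝ) : IsOpen (Bl h) := by
  have : Bl h = {y | 0 < Hf h y} := by
    ext y; exact mem_Bl_iff_Hf h y
  rw [this]
  exact isOpen_lt continuous_const (continuous_Hf h)

theorem continuous_mulVec_Yv (g : Matrix (Fin (n + 1)) (Fin (n + 1)) ℂ) (i : Fin (n + 1)) :
    Continuous fun y => (g *ᵥ Yv y) i := by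
  simp_rw [mulVec_Yv]
  fun_prop

theorem continuous_jf (g : Matrix (Fin (n + 1)) (Fin (n + 1)) ℂ) : Continuous (jf g) :=
  continuous_mulVec_Yv g (Fin.last n)

theorem measurable_act (g : Matrix (Fin (n + 1)) (Fin (n + 1)) ℂ) : Measurable (act g) := by
  refine measurable_pi_lambda _ fun i => ?_
  exact (continuous_mulVec_Yv g i.castSucc).measurable.div (continuous_jf g).measurable

section group
variable {h : Fin (n + 1) → ℝ} (hs : Sg h) {g : Matrix (Fin (n + 1)) (Fin (n + 1)) ℂ} (hg : IsU h g)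
include hs hg

theorem jf_ne {y : Fin n → ℂ} (hy : y ∈ Bl h) : jf g y ≠ 0 := jf_ne_zero hs.pos hg hy

theorem act_mem_Bl {y : Fin n → ℂ} (hy : y ∈ Bl h) : act g y ∈ Bl h :=
  act_mem hs.pos hg hy

theorem act_inv_act {y : Fin n → ℂ} (hy : y ∈ Bl h) : act g⁻¹ (act g y) = y := by
  rw [← act_mul _ _ (jf_ne hs hg hy), Matrix.nonsing_inv_mul g (hg.isUnit_det hs.ne), act_one]

theorem act_act_inv {y : Fin n → ℂ} (hy : y ∈ Bl h) : act g (act g⁻¹ y) = y := by
  rw [← act_mul _ _ (jf_ne hs (hg.inv hs.ne) hy), Matrix.mul_nonsing_inv g (hg.isUnit_det hs.ne),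
    act_one]

theorem continuousOn_act : ContinuousOn (act g) (Bl h) := by
  refine continuousOn_pi.2 fun i => ?_
  exact (continuous_mulVec_Yv g i.castSucc).continuousOn.div (continuous_jf g).continuousOn
    fun y hy => jf_ne hs hg hy

theorem injOn_act : Set.InjOn (act g) (Bl h) := by
  intro y hy z hz hyz
  rw [← act_inv_act hs hg hy, hyz, act_inv_act hs hg hz]

theorem image_act : act g '' Bl h = Bl h := by
  apply Set.Subset.antisymm
  · rintro _ ⟨y, hy, rfl⟩
    exact act_mem_Bl hs hg hy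
  · intro y hy
    exact ⟨act g⁻¹ y, act_mem_Bl hs (hg.inv hs.ne) hy, act_act_inv hs hg hy⟩

theorem integral_act {E : Type*} [NormedAddCommGroup E] [NormedSpace ℝ E]
    (F : (Fin n → ℂ) → E) :
    ∫ y in Bl h, F y = ∫ y in Bl h, (‖jf g y‖ ^ (2 * (n + 1)))⁻¹ • F (act g y) := by
  have key := integral_image_eq_integral_abs_det_fderiv_smul (μ := (volume : Measure (Fin n → ℂ)))
    (s := Bl h) (f := act g) (f' := ract g) (isOpen_Bl h).measurableSet
    (fun y hy => (hasFDerivAt_act_real g (jf_ne hs hg hy)).hasFDerivWithinAt)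
    (injOn_act hs hg) F
  rw [image_act hs hg] at key
  rw [key]
  refine setIntegral_congr_fun (isOpen_Bl h).measurableSet fun y hy => ?_
  rw [det_ract_of_isU hs hg hy, abs_of_nonneg (by positivity)]

theorem integrableOn_act_iff {E : Type*} [NormedAddCommGroup E] [NormedSpace ℝ E]
    (F : (Fin n → ℂ) → E) :
    IntegrableOn F (Bl h) ↔ IntegrableOn (fun y => (‖jf g y‖ ^ (2 * (n + 1)))⁻¹ • F (act g y)) (Bl h) := by
  have key := integrableOn_image_iff_integrableOn_abs_det_fderiv_smul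
    (μ := (volume : Measure (Fin n → ℂ)))
    (s := Bl h) (f := act g) (f' := ract g) (isOpen_Bl h).measurableSet
    (fun y hy => (hasFDerivAt_act_real g (jf_ne hs hg hy)).hasFDerivWithinAt)
    (injOn_act hs hg) F
  rw [image_act hs hg] at key
  rw [key]
  refine integrableOn_congr_fun (fun y hy => ?_) (isOpen_Bl h).measurableSet
  rw [det_ract_of_isU hs hg hy, abs_of_nonneg (by positivity)]

theorem lintegral_act (F : (Fin n → ℂ) → ENNReal) :
    ∫⁻ y in Bl h, F y = ∫⁻ y in Bl h, ENNReal.ofReal ((‖jf g y‖ ^ (2 * (n + 1)))⁻¹) * F (act g y) := by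
  have key := lintegral_image_eq_lintegral_abs_det_fderiv_mul (volume : Measure (Fin n → ℂ))
    (s := Bl h) (f := act g) (f' := ract g) (isOpen_Bl h).measurableSet
    (fun y hy => (hasFDerivAt_act_real g (jf_ne hs hg hy)).hasFDerivWithinAt)
    (injOn_act hs hg) F
  rw [image_act hs hg] at key
  rw [key]
  refine setLIntegral_congr_fun (isOpen_Bl h).measurableSet fun y hy => ?_
  rw [det_ract_of_isU hs hg hy, abs_of_nonneg (by positivity)]

end group

/-- the invariant measure `H^{-(n+1)} dy` on the ball -/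
noncomputable def mu (h : Fin (n + 1) → ℝ) : Measure (Fin n → ℂ) :=
  (volume.restrict (Bl h)).withDensity (fun y => ENNReal.ofReal ((Hf h y ^ (n + 1))⁻¹))

theorem measurable_dens (h : Fin (n + 1) → ℝ) :
    Measurable fun y => ENNReal.ofReal ((Hf h y ^ (n + 1))⁻¹) :=
  (((continuous_Hf h).measurable.pow_const (n + 1)).inv).ennreal_ofReal

theorem measurePreserving_act {h : Fin (n + 1) → ℝ} (hs : Sg h) {g : Matrix (Fin (n + 1)) (Fin (n + 1)) ℂ}
    (hg : IsU h g) : MeasurePreserving (act g) (mu h) (mu h) := by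
  refine ⟨measurable_act g, ?_⟩
  ext s hms
  rw [Measure.map_apply (measurable_act g) hms, mu, withDensity_apply _ hms,
    withDensity_apply _ (measurable_act g hms), ← lintegral_indicator hms,
    ← lintegral_indicator (measurable_act g hms),
    lintegral_act hs hg (s.indicator fun y => ENNReal.ofReal ((Hf h y ^ (n + 1))⁻¹))]
  refine setLIntegral_congr_fun (isOpen_Bl h).measurableSet fun y hy => ?_
  have hj := jf_ne hs hg hy
  by_cases hm : act g y ∈ s
  · rw [Set.indicator_of_mem (show y ∈ act g ⁻¹' s from hm), Set.indicator_of_mem hm,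
      Hf_act hg hj, ← ENNReal.ofReal_mul (by positivity)]
    congr 1
    have h3 : Hf h y ≠ 0 := ((mem_Bl_iff_Hf h y).1 hy).ne'
    have h4 : ‖jf g y‖ ≠ 0 := by simpa using hj
    rw [div_pow, ← pow_mul, inv_div, ← mul_div_assoc, inv_mul_cancel₀ (pow_ne_zero _ h4),
      one_div]
  · rw [Set.indicator_of_notMem (show y ∉ act g ⁻¹' s from hm), Set.indicator_of_notMem hm,
      mul_zero]

/-! ### the ball as a space with group action -/

/-- the action of one unitary matrix on the ball -/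
noncomputable def actB {h : Fin (n + 1) → ℝ} (hs : Sg h) {g : Matrix (Fin (n + 1)) (Fin (n + 1)) ℂ}
    (hg : IsU h g) (y : Bl h) : Bl h := ⟨act g y, act_mem_Bl hs hg y.2⟩

theorem continuous_actB {h : Fin (n + 1) → ℝ} (hs : Sg h) {g : Matrix (Fin (n + 1)) (Fin (n + 1)) ℂ}
    (hg : IsU h g) : Continuous (actB hs hg) :=
  Continuous.subtype_mk (continuousOn_iff_continuous_domRestrict.1 (continuousOn_act hs hg)) _

/-- the invariant measure on the ball -/
noncomputable def muB (h : Fin (n + 1) → ℝ) : Measure (Bl h) := (mu h).comap (↑)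

theorem muB_apply (h : Fin (n + 1) → ℝ) {s : Set (Bl h)} :
    muB h s = mu h ((↑) '' s) :=
  (MeasurableEmbedding.subtype_coe (isOpen_Bl h).measurableSet).comap_apply _ _

theorem mu_compl (h : Fin (n + 1) → ℝ) : mu h (Bl h)ᶜ = 0 := by
  rw [mu, withDensity_apply _ (isOpen_Bl h).measurableSet.compl,
    Measure.restrict_restrict (isOpen_Bl h).measurableSet.compl, Set.compl_inter_self,
    Measure.restrict_empty, lintegral_zero_measure]

theorem measurePreserving_actB {h : Fin (n + 1) → ℝ} (hs : Sg h) {g : Matrix (Fin (n + 1)) (Fin (n + 1)) ℂ}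
    (hg : IsU h g) : MeasurePreserving (actB hs hg) (muB h) (muB h) := by
  have hm : Measurable (actB hs hg) := (continuous_actB hs hg).measurable
  refine ⟨hm, ?_⟩
  ext s hms
  have hms' : MeasurableSet ((↑) '' s : Set (Fin n → ℂ)) :=
    (MeasurableEmbedding.subtype_coe (isOpen_Bl h).measurableSet).measurableSet_image.2 hms
  rw [Measure.map_apply hm hms, muB_apply, muB_apply,
    ← (measurePreserving_act hs hg).measure_preimage hms'.nullMeasurableSet]
  have e : ((↑) '' (actB hs hg ⁻¹' s) : Set (Fin n → ℂ)) = (act g ⁻¹' ((↑) '' s)) ∩ Bl h := by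
    ext y
    constructor
    · rintro ⟨z, hz, rfl⟩
      exact ⟨⟨actB hs hg z, hz, rfl⟩, z.2⟩
    · rintro ⟨⟨z, hz, hzy⟩, hy⟩
      refine ⟨⟨y, hy⟩, ?_, rfl⟩
      have : actB hs hg ⟨y, hy⟩ = z := Subtype.ext hzy.symm
      rw [Set.mem_preimage, this]
      exact hz
  rw [e]
  refine le_antisymm (measure_mono Set.inter_subset_left) ?_
  calc mu h (act g ⁻¹' ((↑) '' s))
      ≤ mu h ((act g ⁻¹' ((↑) '' s)) ∩ Bl h ∪ (Bl h)ᶜ) := by
        refine measure_mono fun y hy => ?_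
        by_cases hb : y ∈ Bl h
        · exact Or.inl ⟨hy, hb⟩
        · exact Or.inr hb
    _ ≤ mu h ((act g ⁻¹' ((↑) '' s)) ∩ Bl h) + mu h (Bl h)ᶜ := measure_union_le _ _
    _ = _ := by rw [mu_compl, add_zero]

theorem act_mul_Bl {h : Fin (n + 1) → ℝ} (hs : Sg h) {g g' : Matrix (Fin (n + 1)) (Fin (n + 1)) ℂ}
    (hg' : IsU h g') {y : Fin n → ℂ} (hy : y ∈ Bl h) :
    act (g * g') y = act g (act g' y) := act_mul g g' (jf_ne hs hg' hy)

/-- `SU(h)` acts on the ball -/
@[reducible] noncomputable def mulActionB {h : Fin (n + 1) → ℝ} (hs : Sg h) :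
    MulAction (SUh h hs.ne) (Bl h) where
  smul g y := actB hs g.2 y
  one_smul y := by
    apply Subtype.ext
    change act ((1 : Matrix.SpecialLinearGroup (Fin (n + 1)) ℂ) : Matrix (Fin (n + 1)) (Fin (n + 1)) ℂ) y = y
    rw [Matrix.SpecialLinearGroup.coe_one, act_one]
  mul_smul g g' y := by
    apply Subtype.ext
    change act ((g.1 * g'.1 : Matrix.SpecialLinearGroup (Fin (n + 1)) ℂ) : Matrix (Fin (n + 1)) (Fin (n + 1)) ℂ) y
      = act g.1 (act g'.1 y)
    rw [Matrix.SpecialLinearGroup.coe_mul, act_mul_Bl hs g'.2 y.2]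

theorem mulActionB_coe {h : Fin (n + 1) → ℝ} (hs : Sg h) (g : SUh h hs.ne) (y : Bl h) :
    letI := mulActionB hs
    ((g • y : Bl h) : Fin n → ℂ) = act (g.1 : Matrix (Fin (n + 1)) (Fin (n + 1)) ℂ) y := rfl

theorem continuousConstSMulB {h : Fin (n + 1) → ℝ} (hs : Sg h) :
    letI := mulActionB hs
    ContinuousConstSMul (SUh h hs.ne) (Bl h) := by
  let _ := mulActionB hs
  exact ⟨fun g => continuous_actB hs g.2⟩

theorem smulInvariantMeasureB {h : Fin (n + 1) → ℝ} (hs : Sg h) :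
    letI := mulActionB hs
    SMulInvariantMeasure (SUh h hs.ne) (Bl h) (muB h) := by
  let _ := mulActionB hs
  exact ⟨fun g s hms => (measurePreserving_actB hs g.2).measure_preimage hms.nullMeasurableSet⟩

instance (h : Fin (n + 1) → ℝ) : LocallyCompactSpace (Bl h) := (isOpen_Bl h).locallyCompactSpace

/-- integral against the invariant measure -/
theorem integral_muB (h : Fin (n + 1) → ℝ) {E : Type*} [NormedAddCommGroup E] [NormedSpace ℝ E]
    (F : (Fin n → ℂ) → E) :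
    ∫ y : Bl h, F y ∂(muB h) = ∫ y in Bl h, ((Hf h y ^ (n + 1))⁻¹) • F y := by
  have hme := MeasurableEmbedding.subtype_coe (isOpen_Bl h).measurableSet
  have h1 : Measure.map (↑) (muB h) = mu h := by
    rw [muB, hme.map_comap, Subtype.range_coe]
    have : (mu h).restrict (Bl h) = mu h := by
      rw [Measure.restrict_eq_self_of_ae_mem]
      exact mem_ae_iff.2 (mu_compl h)
    exact this
  rw [← hme.integral_map, h1, mu, integral_withDensity_eq_integral_toReal_smul₀]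
  · refine setIntegral_congr_fun (isOpen_Bl h).measurableSet fun y hy => ?_
    have h3 : 0 < Hf h y := (mem_Bl_iff_Hf h y).1 hy
    rw [ENNReal.toReal_ofReal (by positivity)]
  · exact (measurable_dens h).aemeasurable
  · exact Filter.Eventually.of_forall fun y => ENNReal.ofReal_lt_top

instance (h : Fin (n + 1) → ℝ) : IsFiniteMeasureOnCompacts (muB h) := by
  refine ⟨fun {K} hK => ?_⟩
  rw [muB_apply]
  have hK' : IsCompact ((↑) '' K : Set (Fin n → ℂ)) := hK.image continuous_subtype_val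
  have hsub : ((↑) '' K : Set (Fin n → ℂ)) ⊆ Bl h := by
    rintro _ ⟨y, _, rfl⟩; exact y.2
  have hc : ContinuousOn (fun y => (Hf h y ^ (n + 1))⁻¹) ((↑) '' K : Set (Fin n → ℂ)) := by
    refine ContinuousOn.inv₀ ((continuous_Hf h).pow (n + 1)).continuousOn fun y hy => ?_
    have := (mem_Bl_iff_Hf h y).1 (hsub hy)
    positivity
  obtain ⟨C, hC⟩ := hK'.exists_bound_of_continuousOn hc
  rw [mu, withDensity_apply _ hK'.measurableSet,
    Measure.restrict_restrict hK'.measurableSet]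
  calc ∫⁻ y in ((↑) '' K : Set (Fin n → ℂ)) ∩ Bl h, ENNReal.ofReal ((Hf h y ^ (n + 1))⁻¹)
      ≤ ∫⁻ y in ((↑) '' K : Set (Fin n → ℂ)) ∩ Bl h, ENNReal.ofReal C := by
        refine setLIntegral_mono' (hK'.measurableSet.inter (isOpen_Bl h).measurableSet)
          fun y hy => ENNReal.ofReal_le_ofReal ?_
        exact (le_abs_self _).trans (hC y hy.1)
    _ = ENNReal.ofReal C * volume (((↑) '' K : Set (Fin n → ℂ)) ∩ Bl h) := by
        rw [setLIntegral_const]
    _ < ⊤ := by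
        refine ENNReal.mul_lt_top ENNReal.ofReal_lt_top ?_
        exact (measure_mono Set.inter_subset_left).trans_lt hK'.measure_lt_top

instance (h : Fin (n + 1) → ℝ) : Measure.IsOpenPosMeasure (muB h) := by
  refine ⟨fun U hU hne h0 => ?_⟩
  rw [muB_apply] at h0
  have hac : (volume.restrict (Bl h) : Measure (Fin n → ℂ)) ≪ mu h := by
    refine withDensity_absolutelyContinuous' (measurable_dens h).aemeasurable ?_
    filter_upwards [ae_restrict_mem (isOpen_Bl h).measurableSet] with y hy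
    have h3 : 0 < Hf h y := (mem_Bl_iff_Hf h y).1 hy
    have : 0 < (Hf h y ^ (n + 1))⁻¹ := by positivity
    simpa using this
  have h1 := hac h0
  have hU' : IsOpen ((↑) '' U : Set (Fin n → ℂ)) := (isOpen_Bl h).isOpenMap_subtype_val U hU
  have hsub : ((↑) '' U : Set (Fin n → ℂ)) ⊆ Bl h := by
    rintro _ ⟨y, _, rfl⟩; exact y.2
  rw [Measure.restrict_apply hU'.measurableSet, Set.inter_eq_left.2 hsub] at h1
  exact hU'.measure_ne_zero volume (hne.image _) h1

end Pool.CMN.Jac
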