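import Pool.Agent.Lib.CMN.JacBr
import Pool.Agent.Lib.CMN.Meas

/-!
# CMN: the invariant measure, bridge to `Pool.CMN.Jac` (helper37)
-/

set_option autoImplicit false

namespace Pool.Agent.CMN.JB

open MeasureTheory Matrix ComplexConjugate Pool.CMN

noncomputable section

variable {n : ℕ}

theorem Hn_eq_Hf (k : Fin (n + 1) → ℝ) (y : Fin n → ℂ) : Hn k y = Jac.Hf k y := by
  rw [Jac.Hf, Jac.Hn_Yv, Hn]

variable {k : Fin (n + 1) → ℝ} (hs : Jac.Sg k)

include hs

/-- The invariant `(n,n)`-form: `A conj B` times `H^(n+1)` is invariant. -/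
theorem wedge2_inv' {A B : (Fin n → ℂ) → ℂ} {g : SLn n} (hg : Jac.IsU k g.1)
    {y : Fin n → ℂ} (hy : y ∈ ball k)
    (hA : A (actC g y) = (g.1 *ᵥ hat y) (Fin.last n) ^ (n + 1) * A y)
    (hB : B (actC g y) = (g.1 *ᵥ hat y) (Fin.last n) ^ (n + 1) * B y) :
    A (actC g y) * conj (B (actC g y)) * ((Hn k (actC g y) ^ (n + 1) : ℝ) : ℂ) =
      A y * conj (B y) * ((Hn k y ^ (n + 1) : ℝ) : ℂ) := by
  rw [Hn_eq_Hf, Hn_eq_Hf]
  exact wedge2_inv hs hg hy hA hB

/-- the measure of `Meas.lean` is the measure of `Jac`. -/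
theorem muB_eq : muB k = Jac.muB k := by
  have _ := hs
  have hme := MeasurableEmbedding.subtype_coe (ball_isOpen k).measurableSet
  ext s hms
  have hms' : MeasurableSet ((↑) '' s : Set (Fin n → ℂ)) := hme.measurableSet_image.2 hms
  have hsub : ((↑) '' s : Set (Fin n → ℂ)) ⊆ ball k := by
    rintro _ ⟨y, _, rfl⟩; exact y.2
  have e1 : Jac.muB k s = Jac.mu k ((↑) '' s) := Jac.muB_apply k
  refine Eq.trans ?_ e1.symm
  rw [Jac.mu, withDensity_apply _ hms', muB, withDensity_apply _ hms]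
  have h1 : (volume.restrict (Jac.Bl k)).restrict ((↑) '' s : Set (Fin n → ℂ)) =
      volume.restrict ((↑) '' s : Set (Fin n → ℂ)) := by
    rw [Measure.restrict_restrict hms']
    congr 1
    exact Set.inter_eq_left.2 hsub
  rw [h1]
  have h2 : Measure.map (Subtype.val : ball k → _)
      ((Measure.comap Subtype.val (volume : Measure (Fin n → ℂ))).restrict s) =
      volume.restrict ((↑) '' s : Set (Fin n → ℂ)) := by
    have h3 := hme.map_comap (volume : Measure (Fin n → ℂ))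
    ext t ht
    rw [Measure.map_apply hme.measurable ht, Measure.restrict_apply (hme.measurable ht),
      Measure.restrict_apply ht, hme.comap_apply]
    congr 1
    ext y
    constructor
    · rintro ⟨z, ⟨hz1, hz2⟩, rfl⟩
      exact ⟨hz1, ⟨z, hz2, rfl⟩⟩
    · rintro ⟨hy1, ⟨z, hz2, rfl⟩⟩
      exact ⟨z, ⟨hy1, hz2⟩, rfl⟩
  rw [← h2, hme.lintegral_map]
  refine lintegral_congr fun y => ?_
  rw [dens, ← Hn_eq_Hf]
  rfl

theorem smulInvariant_muB (Γ : Subgroup (SLn n)) (hΓ : ∀ g ∈ Γ, Jac.IsU k g.1) :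
    letI := mulActionBall hs Γ hΓ
    SMulInvariantMeasure Γ (ball k) (muB k) := by
  let _ := mulActionBall hs Γ hΓ
  refine ⟨fun g s hms => ?_⟩
  rw [muB_eq hs]
  exact (Jac.measurePreserving_actB hs (hΓ g.1 g.2)).measure_preimage hms.nullMeasurableSet

end

end Pool.Agent.CMN.JB
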