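import Pool.Agent.Lib.CMN.P1Rows
import Pool.Agent.Lib.CMH.TH9a

/-!
# TANK CMN, row LAWD: the transformation law of the theta series with a determinant of linear
factors (helper62)

From the law of the theta series with elliptic variable `u` for all `u`, by differentiating in
pairwise orthogonal directions.
-/

set_option autoImplicit false

namespace Pool.Agent.CMN

open Matrix Complex Real
open Pool.CMH (red tm au uu qq ee bC Sieg lf qb)

noncomputable section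

namespace Lawd

variable {ι J : Type} [Fintype ι] [DecidableEq ι] [Fintype J] [DecidableEq J]

omit [DecidableEq ι] [Fintype J] [DecidableEq J] in
/-- polynomial growth of a product of linear factors -/
theorem norm_prod_lf_le (s : Finset J) (ζ : J → ι → ℂ) (x : ι → ℤ) :
    ‖∏ i ∈ s, lf (ζ i) x‖ ≤ (∏ i ∈ s, ∑ a, ‖ζ i a‖) * (1 + ∑ i, |(x i : ℝ)|) ^ s.card := by
  rw [norm_prod, ← Finset.prod_const, ← Finset.prod_mul_distrib]
  exact Finset.prod_le_prod (fun i _ => norm_nonneg _) fun i _ => Pool.CMH.norm_lf_le (ζ i) x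

omit [DecidableEq ι] [Fintype J] [DecidableEq J] in
theorem exists_growth {N : ℕ} [NeZero N] (φ : (ι → ZMod N) → ℂ) (s : Finset J)
    (ζ : J → ι → ℂ) : ∃ C : ℝ, 0 ≤ C ∧ ∀ x : ι → ℤ,
      ‖φ (red N x) * ∏ i ∈ s, lf (ζ i) x‖ ≤ C * (1 + ∑ i, |(x i : ℝ)|) ^ s.card := by
  obtain ⟨C, hC0, hC⟩ := Pool.CMH.red_bound φ
  refine ⟨C * ∏ i ∈ s, ∑ a, ‖ζ i a‖, mul_nonneg hC0 (Finset.prod_nonneg fun i _ =>
    Finset.sum_nonneg fun a _ => norm_nonneg _), fun x => ?_⟩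
  rw [norm_mul, mul_assoc]
  exact mul_le_mul (hC x) (norm_prod_lf_le s ζ x) (norm_nonneg _) hC0

omit [DecidableEq ι] [Fintype J] [DecidableEq J] in
theorem summable_prod {N : ℕ} [NeZero N] (φ : (ι → ZMod N) → ℂ) {Z : Matrix ι ι ℂ}
    (hZ : Z ∈ Sieg ι) (s : Finset J) (ζ : J → ι → ℂ) (u : ι → ℂ) :
    Summable fun x : ι → ℤ => φ (red N x) * (∏ i ∈ s, lf (ζ i) x) * tm N Z u x := by
  obtain ⟨C, hC0, hC⟩ := exists_growth φ s ζ
  obtain ⟨B, hB, h⟩ := Pool.CMH.tm_dom N (K := {(Z, u)}) isCompact_singleton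
    (fun p hp => by rw [Set.mem_singleton_iff.1 hp]; exact hZ) s.card
  refine (hB.mul_left C).of_norm_bounded fun x => ?_
  have h1 := h (Z, u) rfl x
  rw [norm_mul]
  calc ‖φ (red N x) * ∏ i ∈ s, lf (ζ i) x‖ * ‖tm N Z u x‖
      ≤ (C * (1 + ∑ i, |(x i : ℝ)|) ^ s.card) * ‖tm N Z u x‖ :=
        mul_le_mul_of_nonneg_right (hC x) (norm_nonneg _)
    _ = C * ((1 + ∑ i, |(x i : ℝ)|) ^ s.card * ‖tm N Z u x‖) := by ring
    _ ≤ _ := mul_le_mul_of_nonneg_left h1 hC0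

theorem qb_comm (M : Matrix (ι ⊕ ι) (ι ⊕ ι) ℤ) (Z : Matrix ι ι ℂ) (η ζ : ι → ℂ) :
    qb M Z η ζ = qb M Z ζ η := by
  unfold qb; ring

theorem qb_add_smul (M : Matrix (ι ⊕ ι) (ι ⊕ ι) ℤ) (Z : Matrix ι ι ℂ) (η u ζ : ι → ℂ) (t : ℂ) :
    qb M Z η (u + t • ζ) = qb M Z η u + t * qb M Z η ζ := by
  unfold qb
  simp only [mulVec_add, mulVec_smul, dotProduct_add, add_dotProduct, dotProduct_smul,
    smul_dotProduct, smul_eq_mul]
  ring

variable {N : ℕ} [NeZero N] {M : Matrix (ι ⊕ ι) (ι ⊕ ι) ℤ} {Z Z' : Matrix ι ι ℂ} {c : ℂ}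

omit [Fintype J] in
/-- the law with a product of pairwise orthogonal linear factors -/
theorem law_prod (hZ : Z ∈ Sieg ι) (hZ' : Z' ∈ Sieg ι) (φ : (ι → ZMod N) → ℂ)
    (h : ∀ u, Pool.CMH.theta N φ Z' (uu M Z u) = c * ee N M Z u * Pool.CMH.theta N φ Z u)
    (ζ : J → ι → ℂ) (hζ : ∀ i i', i ≠ i' → qb M Z (ζ i) (ζ i') = 0) (s : Finset J) :
    ∀ u : ι → ℂ, (∀ i ∈ s, qb M Z (ζ i) u = 0) →
      ∑' x : ι → ℤ, φ (red N x) * (∏ i ∈ s, lf (uu M Z (ζ i)) x) * tm N Z' (uu M Z u) x =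
        c * ee N M Z u * ∑' x : ι → ℤ, φ (red N x) * (∏ i ∈ s, lf (ζ i) x) * tm N Z u x := by
  induction s using Finset.induction_on with
  | empty =>
    intro u _
    simp only [Finset.prod_empty, mul_one]
    exact h u
  | insert i s his IH =>
    intro u hu
    have hline : ∀ t : ℂ, ∀ j ∈ s, qb M Z (ζ j) (u + t • ζ i) = 0 := by
      intro t j hj
      have hji : j ≠ i := fun e => his (e ▸ hj)
      rw [qb_add_smul, hu j (Finset.mem_insert_of_mem hj), hζ j i hji]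
      ring
    obtain ⟨C1, _, hC1⟩ := exists_growth φ s (fun i => uu M Z (ζ i))
    obtain ⟨C2, _, hC2⟩ := exists_growth φ s ζ
    have d1 := Pool.CMH.deriv_gen N hC1 hZ' (uu M Z u) (uu M Z (ζ i))
    have d2 := Pool.CMH.deriv_gen N hC2 hZ u (ζ i)
    have d3 := Pool.CMH.ee_line_deriv N M Z 1 u (ζ i)
    simp only [one_smul, hu i (Finset.mem_insert_self i s), mul_zero] at d3
    have e1 : (fun t : ℂ => ∑' x : ι → ℤ, φ (red N x) * (∏ i ∈ s, lf (uu M Z (ζ i)) x) *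
        tm N Z' (uu M Z u + t • uu M Z (ζ i)) x) =
        fun t : ℂ => c * (ee N M Z (u + t • ζ i) *
          ∑' x : ι → ℤ, φ (red N x) * (∏ i ∈ s, lf (ζ i) x) * tm N Z (u + t • ζ i) x) := by
      funext t
      rw [← mul_assoc, ← IH _ (hline t), Pool.CMH.uu_add, Pool.CMH.uu_smul]
    rw [e1] at d1
    have d4 := (d3.mul d2).const_mul c
    have e2 := d1.unique d4
    have h2 : (2 * π * I : ℂ) ≠ 0 := by
      simp [Real.pi_ne_zero]
    have e3 : ∀ (ξ : J → ι → ℂ) (Y : Matrix ι ι ℂ) (w : ι → ℂ),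
        (∑' x : ι → ℤ, φ (red N x) * (∏ i ∈ insert i s, lf (ξ i) x) * tm N Y w x) =
        ∑' x : ι → ℤ, φ (red N x) * (∏ i ∈ s, lf (ξ i) x) * (lf (ξ i) x * tm N Y w x) := by
      intro ξ Y w
      refine tsum_congr fun x => ?_
      rw [Finset.prod_insert his]
      ring
    rw [e3 (fun i => uu M Z (ζ i)), e3 ζ]
    refine mul_left_cancel₀ h2 ?_
    rw [e2]
    simp only [zero_smul, add_zero, zero_mul, zero_add]
    ring

omit [DecidableEq ι] in
/-- `thetaD` as a signed sum of series with a product of linear factors -/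
theorem thetaD_eq (φ : (ι → ZMod N) → ℂ) (hZ : Z ∈ Sieg ι) (η : J → J → ι → ℂ) :
    thetaD N φ Z η = ∑ σ : Equiv.Perm J, ((Equiv.Perm.sign σ : ℤ) : ℂ) *
      ∑' x : ι → ℤ, φ (red N x) * (∏ i ∈ Finset.univ, lf (η (σ i) i) x) * tm N Z 0 x := by
  unfold thetaD
  have h1 : ∀ x : ι → ℤ, φ (red N x) * (det (of fun i j => lf (η i j) x) * tm N Z 0 x) =
      ∑ σ : Equiv.Perm J, ((Equiv.Perm.sign σ : ℤ) : ℂ) *
        (φ (red N x) * (∏ i ∈ Finset.univ, lf (η (σ i) i) x) * tm N Z 0 x) := by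
    intro x
    rw [Matrix.det_apply', Finset.sum_mul, Finset.mul_sum]
    refine Finset.sum_congr rfl fun σ _ => ?_
    simp only [Matrix.of_apply]
    ring
  simp_rw [h1]
  rw [Summable.tsum_finsetSum]
  · refine Finset.sum_congr rfl fun σ _ => ?_
    rw [tsum_mul_left]
  · intro σ _
    exact (summable_prod φ hZ Finset.univ (fun i => η (σ i) i) 0).mul_left _

end Lawd

open Lawd in
/-- row LAWD -/
theorem lawd : LAWD := by
  intro ι J _ _ _ _ N _ M Z Z' c φ η hZ hZ' h ho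
  rw [thetaD_eq φ hZ' (fun i j => uu M Z (η i j)), thetaD_eq φ hZ η, Finset.mul_sum]
  refine Finset.sum_congr rfl fun σ _ => ?_
  have h1 := law_prod hZ hZ' φ h (fun i => η (σ i) i)
    (fun i i' hii => ho (σ i) (σ i') (fun e => hii (σ.injective e)) i i') Finset.univ 0
    (fun i _ => by unfold qb; simp)
  have h0 : uu M Z 0 = 0 := by unfold uu; simp
  rw [h0, Pool.CMH.ee_zero, mul_one] at h1
  rw [h1]
  ring

end

end Pool.Agent.CMN
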