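import Mathlib

/-! # TANK CMN: the majorants of a non-degenerate diagonal form are connected (helper45) -/

set_option autoImplicit false

open Matrix Finset

namespace Pool.Agent.CMN.MC

noncomputable section

variable {J : Type} [Fintype J] [DecidableEq J]

/-- The majorants of `diag q`. -/
def Mj (q : J → ℝ) : Set (Matrix J J ℝ) :=
  {R | R.PosDef ∧ R * diagonal (fun i => (q i)⁻¹) * R = diagonal q}

/-- The orthogonal diagonalisation with powers. -/
def pw (U : Matrix J J ℝ) (l : J → ℝ) (t : ℝ) : Matrix J J ℝ :=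
  U * diagonal (fun i => l i ^ t) * Uᵀ

lemma pw_eq_of_eq {U V : Matrix J J ℝ} {l m : J → ℝ} (hU : Uᵀ * U = 1) (hV : Vᵀ * V = 1)
    (h : pw V l 1 = pw U m 1) (t : ℝ) : pw V l t = pw U m t := by
  have hU' : U * Uᵀ = 1 := mul_eq_one_comm.1 hU
  have hV' : V * Vᵀ = 1 := mul_eq_one_comm.1 hV
  have key : (Uᵀ * V) * diagonal (fun i => l i ^ (1 : ℝ)) =
      diagonal (fun i => m i ^ (1 : ℝ)) * (Uᵀ * V) := by
    have h1 : Uᵀ * (pw V l 1) * V = Uᵀ * (pw U m 1) * V := by rw [h]
    unfold pw at h1
    calc (Uᵀ * V) * diagonal (fun i => l i ^ (1 : ℝ))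
        = (Uᵀ * V) * diagonal (fun i => l i ^ (1 : ℝ)) * (Vᵀ * V) := by rw [hV, Matrix.mul_one]
      _ = Uᵀ * (V * diagonal (fun i => l i ^ (1 : ℝ)) * Vᵀ) * V := by
          simp only [Matrix.mul_assoc]
      _ = Uᵀ * (U * diagonal (fun i => m i ^ (1 : ℝ)) * Uᵀ) * V := h1
      _ = (Uᵀ * U) * diagonal (fun i => m i ^ (1 : ℝ)) * (Uᵀ * V) := by
          simp only [Matrix.mul_assoc]
      _ = _ := by rw [hU, Matrix.one_mul]
  have key2 : (Uᵀ * V) * diagonal (fun i => l i ^ t) = diagonal (fun i => m i ^ t) * (Uᵀ * V) := by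
    ext i j
    have := congrFun (congrFun key i) j
    rw [Matrix.mul_diagonal, Matrix.diagonal_mul] at this ⊢
    simp only [Real.rpow_one] at this
    by_cases hw : (Uᵀ * V) i j = 0
    · rw [hw]; ring
    · have h2 : l j = m i := by
        apply mul_left_cancel₀ hw
        rw [this]; ring
      rw [h2]; ring
  unfold pw
  calc V * diagonal (fun i => l i ^ t) * Vᵀ
      = (U * Uᵀ) * (V * diagonal (fun i => l i ^ t) * Vᵀ) := by rw [hU', Matrix.one_mul]
    _ = U * ((Uᵀ * V) * diagonal (fun i => l i ^ t)) * Vᵀ := by simp only [Matrix.mul_assoc]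
    _ = U * (diagonal (fun i => m i ^ t) * (Uᵀ * V)) * Vᵀ := by rw [key2]
    _ = U * diagonal (fun i => m i ^ t) * Uᵀ * (V * Vᵀ) := by simp only [Matrix.mul_assoc]
    _ = _ := by rw [hV', Matrix.mul_one]

lemma pw_posDef {U : Matrix J J ℝ} {l : J → ℝ} (hU : Uᵀ * U = 1) (hl : ∀ i, 0 < l i) (t : ℝ) :
    (pw U l t).PosDef := by
  have hU' : IsUnit Uᵀ := by
    rw [Matrix.isUnit_iff_isUnit_det]
    have := congrArg Matrix.det hU
    rw [Matrix.det_mul, Matrix.det_one] at this
    exact IsUnit.of_mul_eq_one _ this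
  have hd : (diagonal (fun i => l i ^ t)).PosDef :=
    Matrix.PosDef.diagonal fun i => Real.rpow_pos_of_pos (hl i) t
  have := hd.conjTranspose_mul_mul_same (B := Uᵀ) (Matrix.mulVec_injective_iff_isUnit.2 hU')
  simpa [pw, Matrix.conjTranspose_eq_transpose_of_trivial] using this

lemma pw_mul_pw_neg {U : Matrix J J ℝ} {l : J → ℝ} (hU : Uᵀ * U = 1) (hl : ∀ i, 0 < l i) (t : ℝ) :
    pw U l t * pw U l (-t) = 1 := by
  have hU' : U * Uᵀ = 1 := mul_eq_one_comm.1 hU
  unfold pw
  calc U * diagonal (fun i => l i ^ t) * Uᵀ * (U * diagonal (fun i => l i ^ (-t)) * Uᵀ)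
      = U * (diagonal (fun i => l i ^ t) * (Uᵀ * U) * diagonal (fun i => l i ^ (-t))) * Uᵀ := by
        simp only [Matrix.mul_assoc]
    _ = U * (diagonal (fun i => l i ^ t) * diagonal (fun i => l i ^ (-t))) * Uᵀ := by
        rw [hU, Matrix.mul_one]
    _ = U * 1 * Uᵀ := by
        rw [Matrix.diagonal_mul_diagonal]
        congr 2
        rw [← Matrix.diagonal_one]
        congr 1
        funext i
        rw [← Real.rpow_add (hl i), add_neg_cancel, Real.rpow_zero]
    _ = 1 := by rw [Matrix.mul_one, hU']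

lemma pw_continuous (U : Matrix J J ℝ) {l : J → ℝ} (hl : ∀ i, 0 < l i) :
    Continuous (pw U l) := by
  unfold pw
  refine Continuous.matrix_mul (Continuous.matrix_mul continuous_const ?_) continuous_const
  refine Continuous.matrix_diagonal ?_
  exact continuous_pi fun i => Real.continuous_const_rpow (hl i).ne'

lemma pw_inv {U : Matrix J J ℝ} {l : J → ℝ} (hl : ∀ i, 0 < l i) (t : ℝ) :
    pw U (fun i => (l i)⁻¹) t = pw U l (-t) := by
  unfold pw
  congr 3
  funext i
  rw [Real.inv_rpow (hl i).le, Real.rpow_neg (hl i).le]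

lemma sgn_sq (q : J → ℝ) (hq : ∀ i, q i ≠ 0) :
    diagonal (fun i => |q i| / q i) * diagonal (fun i => |q i| / q i) = (1 : Matrix J J ℝ) := by
  rw [Matrix.diagonal_mul_diagonal, ← Matrix.diagonal_one]
  congr 1
  funext i
  have := hq i
  have h2 : |q i| * |q i| = q i * q i := abs_mul_abs_self _
  field_simp
  rw [sq, sq, h2]

theorem isPreconnected_Mj {q : J → ℝ} (hq : ∀ i, q i ≠ 0) : IsPreconnected (Mj q) := by
  classical
  set s : J → ℝ := fun i => √|q i| with hs
  have hs0 : ∀ i, 0 < s i := fun i => Real.sqrt_pos.2 (abs_pos.2 (hq i))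
  have hs2 : ∀ i, s i * s i = |q i| := fun i => Real.mul_self_sqrt (abs_nonneg _)
  set S : Matrix J J ℝ := diagonal s with hS
  set S' : Matrix J J ℝ := diagonal (fun i => (s i)⁻¹) with hS'
  set σ : Matrix J J ℝ := diagonal (fun i => |q i| / q i) with hσ
  have hSS' : S * S' = 1 := by
    rw [hS, hS', Matrix.diagonal_mul_diagonal, ← Matrix.diagonal_one]
    congr 1; funext i; exact mul_inv_cancel₀ (hs0 i).ne'
  have hS'S : S' * S = 1 := mul_eq_one_comm.1 hSS'
  have hσ2 : σ * σ = 1 := sgn_sq q hq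
  have hSAS : S * diagonal (fun i => (q i)⁻¹) * S = σ := by
    rw [hS, hσ, Matrix.diagonal_mul_diagonal, Matrix.diagonal_mul_diagonal]
    congr 1; funext i
    rw [← hs2]; field_simp
  have hSσS : S * σ * S = diagonal q := by
    rw [hS, hσ, Matrix.diagonal_mul_diagonal, Matrix.diagonal_mul_diagonal]
    congr 1; funext i
    have h1 := hq i
    calc s i * (|q i| / q i) * s i = (s i * s i) * |q i| / q i := by ring
      _ = q i := by
        rw [hs2, abs_mul_abs_self]; field_simp
  have hSt : Sᵀ = S := Matrix.diagonal_transpose _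
  have hS't : S'ᵀ = S' := Matrix.diagonal_transpose _
  have hσt : σᵀ = σ := Matrix.diagonal_transpose _
  have hSu : IsUnit S := by
    rw [Matrix.isUnit_iff_isUnit_det]
    have := congrArg Matrix.det hSS'
    rw [Matrix.det_mul, Matrix.det_one] at this
    exact IsUnit.of_mul_eq_one _ this
  have hS'u : IsUnit S' := by
    rw [Matrix.isUnit_iff_isUnit_det]
    have := congrArg Matrix.det hS'S
    rw [Matrix.det_mul, Matrix.det_one] at this
    exact IsUnit.of_mul_eq_one _ this
  refine isPreconnected_of_forall (S * 1 * S) fun R hR => ?_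
  obtain ⟨hp, he⟩ := hR
  -- P = S⁻¹ R S⁻¹
  set P : Matrix J J ℝ := S' * R * S' with hP
  have hPp : P.PosDef := by
    have := hp.conjTranspose_mul_mul_same (B := S') (Matrix.mulVec_injective_iff_isUnit.2 hS'u)
    simpa [hP, Matrix.conjTranspose_eq_transpose_of_trivial, hS't] using this
  have hR' : R = S * P * S := by
    rw [hP]
    calc R = (S * S') * R * (S' * S) := by rw [hSS', hS'S, Matrix.one_mul, Matrix.mul_one]
      _ = _ := by simp only [Matrix.mul_assoc]
  have hPσ : P * σ * P = σ := by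
    have h1 : S * (P * σ * P) * S = S * σ * S := by
      calc S * (P * σ * P) * S
          = S * P * (S * diagonal (fun i => (q i)⁻¹) * S) * P * S := by
            rw [hSAS]; simp only [Matrix.mul_assoc]
        _ = (S * P * S) * diagonal (fun i => (q i)⁻¹) * (S * P * S) := by
            simp only [Matrix.mul_assoc]
        _ = diagonal q := by rw [← hR']; exact he
        _ = S * σ * S := hSσS.symm
    calc P * σ * P = (S' * S) * (P * σ * P) * (S * S') := by
          rw [hSS', hS'S, Matrix.one_mul, Matrix.mul_one]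
      _ = S' * (S * (P * σ * P) * S) * S' := by simp only [Matrix.mul_assoc]
      _ = S' * (S * σ * S) * S' := by rw [h1]
      _ = (S' * S) * σ * (S * S') := by simp only [Matrix.mul_assoc]
      _ = σ := by rw [hSS', hS'S, Matrix.one_mul, Matrix.mul_one]
  -- spectral theorem
  obtain ⟨U, l, hU, hl, hUP⟩ : ∃ (U : Matrix J J ℝ) (l : J → ℝ), Uᵀ * U = 1 ∧ (∀ i, 0 < l i) ∧
      P = pw U l 1 := by
    have hH := hPp.isHermitian
    refine ⟨(hH.eigenvectorUnitary : Matrix J J ℝ), hH.eigenvalues, ?_, hPp.eigenvalues_pos, ?_⟩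
    · have := (Matrix.mem_unitaryGroup_iff').1 hH.eigenvectorUnitary.2
      simpa [Matrix.star_eq_conjTranspose, Matrix.conjTranspose_eq_transpose_of_trivial] using this
    · have := hH.spectral_theorem
      conv_lhs => rw [this]
      simp [pw, Matrix.star_eq_conjTranspose, Matrix.conjTranspose_eq_transpose_of_trivial,
        Unitary.conjStarAlgAut_apply]
  have hinv : σ * P * σ = pw U l (-1) := by
    have h1 : (σ * P * σ) * P = 1 := by
      calc (σ * P * σ) * P = σ * (P * σ * P) := by simp only [Matrix.mul_assoc]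
        _ = 1 := by rw [hPσ, hσ2]
    have h2 : P * pw U l (-1) = 1 := by rw [hUP]; exact pw_mul_pw_neg hU hl 1
    calc σ * P * σ = (σ * P * σ) * (P * pw U l (-1)) := by rw [h2, Matrix.mul_one]
      _ = ((σ * P * σ) * P) * pw U l (-1) := by simp only [Matrix.mul_assoc]
      _ = _ := by rw [h1, Matrix.one_mul]
  have hVt : (σ * U)ᵀ * (σ * U) = 1 := by
    rw [Matrix.transpose_mul, hσt]
    calc Uᵀ * σ * (σ * U) = Uᵀ * (σ * σ) * U := by simp only [Matrix.mul_assoc]
      _ = 1 := by rw [hσ2, Matrix.mul_one, hU]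
  have hpwσ : ∀ t, pw (σ * U) l t = σ * pw U l t * σ := by
    intro t
    unfold pw
    rw [Matrix.transpose_mul, hσt]
    simp only [Matrix.mul_assoc]
  have hall : ∀ t, σ * pw U l t * σ = pw U l (-t) := by
    intro t
    rw [← hpwσ, ← pw_inv hl]
    refine pw_eq_of_eq hU hVt ?_ t
    rw [hpwσ, pw_inv hl, ← hUP, hinv]
  have hmem : ∀ t, S * pw U l t * S ∈ Mj q := by
    intro t
    refine ⟨?_, ?_⟩
    · have := (pw_posDef hU hl t).conjTranspose_mul_mul_same (B := S)
        (Matrix.mulVec_injective_iff_isUnit.2 hSu)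
      simpa [Matrix.conjTranspose_eq_transpose_of_trivial, hSt] using this
    · calc S * pw U l t * S * diagonal (fun i => (q i)⁻¹) * (S * pw U l t * S)
          = S * pw U l t * (S * diagonal (fun i => (q i)⁻¹) * S) * pw U l t * S := by
            simp only [Matrix.mul_assoc]
        _ = S * (pw U l t * (σ * pw U l t * σ) * σ⁻¹) * S := by
            rw [hSAS]
            have : σ * σ⁻¹ = 1 := by
              rw [show σ⁻¹ = σ from Matrix.inv_eq_left_inv hσ2]; exact hσ2
            calc S * pw U l t * σ * pw U l t * S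
                = S * (pw U l t * (σ * pw U l t * (σ * σ⁻¹))) * S := by
                  rw [this, Matrix.mul_one]; simp only [Matrix.mul_assoc]
              _ = _ := by simp only [Matrix.mul_assoc]
        _ = S * σ * S := by
            rw [hall, pw_mul_pw_neg hU hl, Matrix.one_mul,
              show σ⁻¹ = σ from Matrix.inv_eq_left_inv hσ2]
        _ = _ := hSσS
  refine ⟨Set.range fun t => S * pw U l t * S, ?_, ⟨0, ?_⟩, ⟨1, ?_⟩, ?_⟩
  · rintro _ ⟨t, rfl⟩; exact hmem t
  · show S * pw U l 0 * S = S * 1 * S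
    have : pw U l 0 = 1 := by
      unfold pw
      simp only [Real.rpow_zero]
      rw [show (diagonal fun _ : J => (1 : ℝ)) = 1 from Matrix.diagonal_one, Matrix.mul_one]
      exact mul_eq_one_comm.1 hU
    rw [this]
  · show S * pw U l 1 * S = R
    rw [← hUP, ← hR']
  · refine isPreconnected_range ?_
    exact (continuous_const.matrix_mul (pw_continuous U hl)).matrix_mul continuous_const

end

end Pool.Agent.CMN.MC
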