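import Pool.Agent.Lib.CMN.P1Rows
import Pool.Agent.Lib.CMN.MajConn

/-! # TANK CMN, row MAJC (helper45) -/

set_option autoImplicit false

namespace Pool.Agent.CMN

open Matrix

theorem majc : MAJC := by
  intro F _ _ J _ _ a ha
  have hset : {R : Maj J F | ∀ v, IsMaj a v (R v)} =
      Set.pi Set.univ (fun v : F →+* ℝ => MC.Mj (fun i => v (a i))) := by
    ext R
    simp only [Set.mem_ofPred_eq, Set.mem_univ_pi]
    exact Iff.rfl
  have hp : IsPreconnected {R : Maj J F | ∀ v, IsMaj a v (R v)} := by
    rw [hset]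
    refine isPreconnected_univ_pi fun v => MC.isPreconnected_Mj fun i => ?_
    exact (map_ne_zero v).2 (ha i)
  exact Subtype.preconnectedSpace hp

end Pool.Agent.CMN
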