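import Pool.Agent.Lib.CMN.Rows
import Pool.Agent.Lib.CMH.P1Geo

/-!
# TANK CMN, P1: from the number field and the ball to the Siegel space. Definitions, all `n`

The transport of blocks (`tU`, `tD`, `tA`, `tC`, `vv`, `Bl`) and the integral basis (`KF`, `om`,
`Wm`, `Wi`) do not depend on `n`: they are those of `Pool.CMH` (`Lib/CMH/P1Geo.lean`).
-/

set_option autoImplicit false

namespace Pool.Agent.CMN

open Matrix Complex Real
open Pool.CMH (tU tD tA tC vv Bl KF om Wm Wi red tm theta1 theta2 au mv uu qq ee bA bB bC bD Sieg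
  qf lf)

noncomputable section

variable {n : ℕ} {F : Type} [Field F] [NumberField F]
variable {J : Type} [Fintype J] [DecidableEq J]

/-- a vector of `ℂ^(n+1)` placed in the row `i` -/
def row (i : J) (e : Fin (n + 1) → ℂ) : J × Fin (n + 1) → ℂ := fun p => if p.1 = i then e p.2 else 0

open Classical in
/-- the point of the Siegel space of genus `(n+1) |J|` at the place `v` -/
def Zp (v₁ : F →+* ℝ) (D : F) (h : Fin (n + 1) → F) (a : J → F) (R : (F →+* ℝ) → Matrix J J ℝ)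
    (y : Fin n → ℂ) (v : F →+* ℝ) : Matrix (J × Fin (n + 1)) (J × Fin (n + 1)) ℂ :=
  fun p q => (I / (√(v D) : ℂ)) *
    (if v = v₁ then
      (if p.1 = q.1 then (v (a p.1) : ℂ) else 0) *
        ((if p.2 = q.2 then (v (h p.2) : ℂ) else 0) +
          2 * (v (h p.2) : ℂ) * (v (h q.2) : ℂ) * hat y p.2 * hat y q.2 / w (ev v₁ h) y ^ 2)
    else (R v p.1 q.1 : ℂ) * (if p.2 = q.2 then (v (h p.2) : ℂ) else 0))

/-- the point of the big Siegel space -/
def ZZ (v₁ : F →+* ℝ) (D : F) (h : Fin (n + 1) → F) (a : J → F) (R : (F →+* ℝ) → Matrix J J ℝ)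
    (y : Fin n → ℂ) : Matrix ((J × Fin (n + 1)) × KF F) ((J × Fin (n + 1)) × KF F) ℂ :=
  (2 : ℂ) • tU (Wm F) (Zp v₁ D h a R y)

/-! ### the symplectic matrix of `X + √(-D) Y` over `F` -/

def sA (J : Type) [DecidableEq J] (h : Fin (n + 1) → F) (g : Mat n F) :
    Matrix (J × Fin (n + 1)) (J × Fin (n + 1)) F :=
  fun p q => if p.1 = q.1 then h p.2 * g.1 p.2 q.2 * (h q.2)⁻¹ else 0
def sB (h : Fin (n + 1) → F) (a : J → F) (g : Mat n F) :
    Matrix (J × Fin (n + 1)) (J × Fin (n + 1)) F :=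
  fun p q => if p.1 = q.1 then a p.1 * h p.2 * g.2 p.2 q.2 else 0
def sC (D : F) (h : Fin (n + 1) → F) (a : J → F) (g : Mat n F) :
    Matrix (J × Fin (n + 1)) (J × Fin (n + 1)) F :=
  fun p q => if p.1 = q.1 then -(D * g.2 p.2 q.2 * (a q.1 * h q.2)⁻¹) else 0
def sD (J : Type) [DecidableEq J] (g : Mat n F) : Matrix (J × Fin (n + 1)) (J × Fin (n + 1)) F :=
  fun p q => if p.1 = q.1 then g.1 p.2 q.2 else 0

/-- the image of a matrix over `F` at the place `v` -/
def atv (B : Matrix (J × Fin (n + 1)) (J × Fin (n + 1)) F) (v : F →+* ℝ) :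
    Matrix (J × Fin (n + 1)) (J × Fin (n + 1)) ℂ := B.map (fun x => (v x : ℂ))

/-- the integral matrix `M` belongs to `g` -/
def Rep (D : F) (h : Fin (n + 1) → F) (a : J → F) (g : Mat n F)
    (M : Matrix (((J × Fin (n + 1)) × KF F) ⊕ ((J × Fin (n + 1)) × KF F))
      (((J × Fin (n + 1)) × KF F) ⊕ ((J × Fin (n + 1)) × KF F)) ℤ) : Prop :=
  Bl (Wm F) (Wi F) M (atv (sA J h g)) (atv (sB h a g)) (atv (sC D h a g)) (atv (sD J g))

/-! ### the ball -/

/-- the coefficients of `x ↦ ds k x j y` -/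
def ed (k : Fin (n + 1) → ℝ) (j : Fin n) (y : Fin n → ℂ) : Fin (n + 1) → ℂ := fun l =>
  (if l = j.castSucc then (k j.castSucc : ℂ) else 0) / w k y
    + (k l : ℂ) * hat y l * ((k j.castSucc : ℂ) * y j) / w k y ^ 3

/-- `j(g,y) w(g y) / w(y)` -/
def cE (v₁ : F →+* ℝ) (D : F) (h : Fin (n + 1) → F) (g : Mat n F) (y : Fin n → ℂ) : ℂ :=
  gy v₁ D g y (Fin.last n) * w (ev v₁ h) (act v₁ D g y) / w (ev v₁ h) y

/-! ### functions of level `N` -/

/-- the lattice point with coordinates `x` -/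
def lat (N : ℕ) (x : (J × Fin (n + 1)) × KF F → ℤ) : J → Fin (n + 1) → F :=
  fun i k => (N : F)⁻¹ * ∑ p, (x ((i, k), p) : F) * om p

/-- `φ'` is `φ` in integral coordinates -/
def Lev (N : ℕ) (φ : (J → Fin (n + 1) → F) → ℂ)
    (φ' : ((J × Fin (n + 1)) × KF F → ZMod (2 * N ^ 2)) → ℂ) : Prop :=
  ∀ x, φ' (red (2 * N ^ 2) x) = φ (lat N x)

/-! ### `|J|` linear factors -/

/-- theta series with one linear factor for every `i : J`, `u = 0` -/
def thetaJ {ι : Type} [Fintype ι] (N : ℕ) (φ : (ι → ZMod N) → ℂ) (Z : Matrix ι ι ℂ)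
    (η : J → ι → ℂ) : ℂ :=
  ∑' x : ι → ℤ, φ (red N x) * ((∏ i, lf (η i) x) * tm N Z 0 x)

end

end Pool.Agent.CMN
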