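import Pool.Agent.Lib.CMN.P1Geo

/-!
# TANK CMN, P1: statements of the rows that are new for general `n`
-/

set_option autoImplicit false

namespace Pool.Agent.CMN

open Matrix Complex Real
open Pool.CMH (tU tD tA tC vv Bl KF om Wm Wi red tm theta1 theta2 au mv uu qq ee bA bB bC bD Sieg
  qf lf)

noncomputable section

/-- theta series with the determinant of linear factors -/
def thetaD {ι J : Type} [Fintype ι] [Fintype J] [DecidableEq J] (N : ℕ) (φ : (ι → ZMod N) → ℂ)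
    (Z : Matrix ι ι ℂ) (η : J → J → ι → ℂ) : ℂ :=
  ∑' x : ι → ℤ, φ (red N x) * (det (of fun i j => lf (η i j) x) * tm N Z 0 x)

/-- LAWD (62, 99): the law of `thetaD`, from the law of `theta` for all `u`; the rows of `η` are
orthogonal to each other (`Pool.CMH.qb` of `TH9a.lean` is the symmetric form below). -/
def LAWD : Prop :=
  ∀ (ι J : Type) [Fintype ι] [DecidableEq ι] [Fintype J] [DecidableEq J] (N : ℕ) [NeZero N]
    (M : Matrix (ι ⊕ ι) (ι ⊕ ι) ℤ) (Z Z' : Matrix ι ι ℂ) (c : ℂ) (φ : (ι → ZMod N) → ℂ)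
    (η : J → J → ι → ℂ), Z ∈ Sieg ι → Z' ∈ Sieg ι →
    (∀ u, Pool.CMH.theta N φ Z' (uu M Z u) = c * ee N M Z u * Pool.CMH.theta N φ Z u) →
    (∀ i i', i ≠ i' → ∀ j j', η i j ⬝ᵥ (((au M Z)⁻¹ * bC M) *ᵥ η i' j') +
      η i' j' ⬝ᵥ (((au M Z)⁻¹ * bC M) *ᵥ η i j) = 0) →
    thetaD N φ Z' (fun i j => uu M Z (η i j)) = c * thetaD N φ Z η

variable {n : ℕ} {F : Type} [Field F] [NumberField F]

/-- the vector `η_{i,j}(y)` -/
def eta {J : Type} [DecidableEq J] (v₁ : F →+* ℝ) (h : Fin (n + 1) → F) (N : ℕ) (i : J) (j : Fin n)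
    (y : Fin n → ℂ) : (J × Fin (n + 1)) × KF F → ℂ :=
  vv (Wm F) v₁ (row i ((N : ℂ)⁻¹ • ed (ev v₁ h) j y))

/-- CRD (4, 15): `C_R(φ)` as a theta series in integral coordinates. -/
def CRD : Prop :=
  ∀ (F : Type) [Field F] [NumberField F] [NumberField.IsTotallyReal F] (n : ℕ) (v₁ : F →+* ℝ)
    (D : F) (h : Fin (n + 1) → F) (a : Fin n → F) (R : Maj (Fin n) F) (N : ℕ)
    (φ : (Fin n → Fin (n + 1) → F) → ℂ)
    (φ' : ((Fin n × Fin (n + 1)) × KF F → ZMod (2 * N ^ 2)) → ℂ),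
    Good v₁ D h → (∀ i, 0 < v₁ (a i)) → R v₁ = R0 a v₁ → (∀ v, (R v).PosDef) → SBJ N φ →
    Lev N φ φ' → ∀ y ∈ ball (ev v₁ h),
    CR v₁ D h a R φ y = thetaD (2 * N ^ 2) φ' (ZZ v₁ D h a R y) (fun i j => eta v₁ h N i j y)

/-- THE (4, 15): the one-forms as theta series in integral coordinates. -/
def THE : Prop :=
  ∀ (F : Type) [Field F] [NumberField F] [NumberField.IsTotallyReal F] (n : ℕ) (v₁ : F →+* ℝ)
    (D : F) (h : Fin (n + 1) → F) (a : F) (N : ℕ) (φ : (Fin (n + 1) → F) → ℂ)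
    (φ' : ((Unit × Fin (n + 1)) × KF F → ZMod (2 * N ^ 2)) → ℂ),
    Good v₁ D h → 0 < v₁ a → SBJ N (fun ξ : Unit → Fin (n + 1) → F => φ (ξ ())) →
    Lev N (fun ξ : Unit → Fin (n + 1) → F => φ (ξ ())) φ' → ∀ (j : Fin n), ∀ y ∈ ball (ev v₁ h),
    theta v₁ D h a φ j y = theta1 (2 * N ^ 2) φ'
      (ZZ v₁ D h (fun _ : Unit => a) (fun v => diagonal fun _ => |v a|) y) (eta v₁ h N () j y)

/-- MAJC (3): the space of all families of majorants is connected (Cayley path to `|diag(a)|`). -/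
def MAJC : Prop :=
  ∀ (F : Type) [Field F] [NumberField F] (J : Type) [Fintype J] [DecidableEq J] (a : J → F),
    (∀ i, a i ≠ 0) → PreconnectedSpace {R : Maj J F // ∀ v, IsMaj a v (R v)}

/-- DETD (72): the Jacobian determinant. -/
def DETD : Prop :=
  ∀ (F : Type) [Field F] [NumberField F] (n : ℕ) (v₁ : F →+* ℝ) (D : F) (h : Fin (n + 1) → F)
    (N : ℕ), Good v₁ D h → ∀ g ∈ Gam D h N, ∀ y ∈ ball (ev v₁ h),
    det (of fun l j => dact v₁ D g y l j) =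
      (cmat v₁ D g).det / gy v₁ D g y (Fin.last n) ^ (n + 1)

end

end Pool.Agent.CMN
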