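import Pool.Agent.Lib.CMN.Sum

/-!
Tank CMN (helper63): absolute convergence and continuity of `C_R(φ)`, from EST.
-/

set_option autoImplicit false
set_option linter.unusedSectionVars false

open scoped ComplexConjugate Matrix BigOperators
open Complex

namespace Pool.Agent.CMN.Sum

noncomputable section

open NumberField
open Pool.CMH (nrm2 Lat nrm2_nonneg summable_gs)
open Pool.Agent.CMH.Sum (bdd ev_sq_le)

variable {n : ℕ} {F : Type} [Field F] [NumberField F]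

/-- a positive definite real form is bounded below -/
theorem quad_pos {J : Type} [Fintype J] [DecidableEq J] (R : Matrix J J ℝ) (hR : R.PosDef) :
    ∃ l : ℝ, 0 < l ∧ ∀ x : J → ℝ, l * ∑ i, x i ^ 2 ≤ ∑ i, ∑ j, R i j * (x i * x j) := by
  classical
  rcases isEmpty_or_nonempty J with hJ | hJ
  · exact ⟨1, one_pos, fun x => by simp⟩
  set S : Set (J → ℝ) := {x | ∑ j, x j ^ 2 = 1} with hS
  have hSc : IsCompact S := by
    refine Metric.isCompact_of_isClosed_isBounded ?_ ?_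
    · exact isClosed_eq (by fun_prop) continuous_const
    · refine (Metric.isBounded_closedBall (x := (0 : J → ℝ)) (r := 1)).subset ?_
      intro x hx
      rw [mem_closedBall_zero_iff, pi_norm_le_iff_of_nonneg zero_le_one]
      intro j
      have h1 : x j ^ 2 ≤ ∑ i, x i ^ 2 :=
        Finset.single_le_sum (f := fun i => x i ^ 2) (fun i _ => sq_nonneg _) (Finset.mem_univ j)
      have h2 : ∑ i, x i ^ 2 = 1 := hx
      rw [Real.norm_eq_abs]
      rw [h2] at h1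
      exact abs_le_one_iff_mul_self_le_one.mpr (by nlinarith)
  obtain ⟨j₀⟩ := hJ
  have hne : S.Nonempty := ⟨Pi.single j₀ 1, by
    show ∑ j, (Pi.single j₀ (1 : ℝ) : J → ℝ) j ^ 2 = 1
    rw [Finset.sum_eq_single j₀ (fun j _ hj => by simp [Pi.single_eq_of_ne hj]) (by simp)]
    simp⟩
  have hcont : ContinuousOn (fun x : J → ℝ => ∑ i, ∑ j, R i j * (x i * x j)) S :=
    Continuous.continuousOn (by fun_prop)
  obtain ⟨p, hp, hmin⟩ := hSc.exists_isMinOn hne hcont
  have hpos : ∀ x : J → ℝ, x ≠ 0 → 0 < ∑ i, ∑ j, R i j * (x i * x j) := by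
    intro x hx
    have h1 := hR.dotProduct_mulVec_pos hx
    simp only [dotProduct, Matrix.mulVec, star_trivial, Finset.mul_sum, Pi.star_apply] at h1
    refine lt_of_lt_of_eq h1 ?_
    refine Finset.sum_congr rfl fun i _ => Finset.sum_congr rfl fun j _ => ?_
    ring
  have hp0 : p ≠ 0 := by
    rintro rfl
    have : ∑ j : J, (0 : J → ℝ) j ^ 2 = 1 := hp
    simp at this
  refine ⟨_, hpos p hp0, fun x => ?_⟩
  rcases eq_or_ne x 0 with rfl | hx
  · simp
  have hx2 : 0 < ∑ j, x j ^ 2 := by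
    obtain ⟨j, hj⟩ : ∃ j, x j ≠ 0 := by
      by_contra h
      push Not at h
      exact hx (funext h)
    exact Finset.sum_pos' (fun i _ => sq_nonneg _) ⟨j, Finset.mem_univ _, by positivity⟩
  obtain ⟨r, hr, hr2⟩ : ∃ r : ℝ, 0 < r ∧ r ^ 2 = ∑ j, x j ^ 2 :=
    ⟨_, Real.sqrt_pos.mpr hx2, Real.sq_sqrt hx2.le⟩
  have hu : (fun j => x j / r) ∈ S := by
    show ∑ j, (x j / r) ^ 2 = 1
    simp only [div_pow]
    rw [← Finset.sum_div, hr2]
    exact div_self hx2.ne'
  have h2 := hmin hu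
  have h3 : ∑ i, ∑ j, R i j * (x i / r * (x j / r)) = (∑ i, ∑ j, R i j * (x i * x j)) / r ^ 2 := by
    rw [Finset.sum_div]
    refine Finset.sum_congr rfl fun i _ => ?_
    rw [Finset.sum_div]
    refine Finset.sum_congr rfl fun j _ => ?_
    field_simp
  have h4 : (∑ i, ∑ j, R i j * (p i * p j)) ≤ (∑ i, ∑ j, R i j * (x i * x j)) / r ^ 2 := by
    rw [← h3]
    exact h2
  rw [← hr2]
  exact (le_div_iff₀ (by positivity)).mp h4

/-- the bound at a definite place, many rows -/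
theorem placeJ {J : Type} [Fintype J] [DecidableEq J] (v : F →+* ℝ) (h : Fin (n + 1) → F)
    (hh : ∀ j, 0 < v (h j)) (R : Matrix J J ℝ) (hR : R.PosDef) :
    ∃ l : ℝ, 0 < l ∧ ∀ ξ : J → Fin (n + 1) → F, l * ∑ i, ∑ k, v (ξ i k) ^ 2 ≤
      ∑ i, ∑ j, R i j * form h v (ξ i) (ξ j) := by
  obtain ⟨m, hm, hmk⟩ := exists_min1 (fun j => v (h j)) hh
  obtain ⟨l, hl, hlR⟩ := quad_pos R hR
  refine ⟨m * l, by positivity, fun ξ => ?_⟩
  have e1 : ∑ i, ∑ j, R i j * form h v (ξ i) (ξ j) =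
      ∑ k, v (h k) * ∑ i, ∑ j, R i j * (v (ξ i k) * v (ξ j k)) := by
    simp only [form, Finset.mul_sum]
    rw [Finset.sum_comm' (t' := Finset.univ) (s' := fun _ => Finset.univ) (by simp)]
    rw [Finset.sum_comm]
    refine (Finset.sum_congr rfl fun i _ => Finset.sum_comm).trans ?_
    rw [Finset.sum_comm]
    refine Finset.sum_congr rfl fun k _ => Finset.sum_congr rfl fun i _ =>
      Finset.sum_congr rfl fun j _ => ?_
    ring
  have e2 : m * l * ∑ i, ∑ k, v (ξ i k) ^ 2 = ∑ k, m * (l * ∑ i, v (ξ i k) ^ 2) := by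
    rw [Finset.sum_comm, Finset.mul_sum]
    refine Finset.sum_congr rfl fun k _ => ?_
    ring
  rw [e1, e2]
  refine Finset.sum_le_sum fun k _ => ?_
  have h1 := hlR (fun i => v (ξ i k))
  have h2 : 0 ≤ l * ∑ i, v (ξ i k) ^ 2 :=
    mul_nonneg hl.le (Finset.sum_nonneg fun _ _ => sq_nonneg _)
  exact mul_le_mul (hmk k) h1 h2 (hh k).le

/-- the estimate for the Gaussian, many rows -/
theorem gaussJ_bound (hE : EST) {J : Type} [Fintype J] [DecidableEq J] {v₁ : F →+* ℝ} {D : F}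
    {h : Fin (n + 1) → F} (hG : Good v₁ D h) {a : J → F} (ha : ∀ i, 0 < v₁ (a i)) {R : Maj J F}
    (hR : ∀ v, (R v).PosDef) (hR1 : R v₁ = R0 a v₁) {C : Set (Fin n → ℂ)} (hC : IsCompact C)
    (hCb : C ⊆ ball (ev v₁ h)) :
    ∃ c : ℝ, 0 < c ∧ ∀ y ∈ C, ∀ ξ : J → Fin (n + 1) → F,
      ‖gaussJ v₁ D h a R ξ y‖ ≤
        Real.exp (-(c * nrm2 (fun p : J × Fin (n + 1) => ξ p.1 p.2))) := by
  classical
  obtain ⟨-, -, -, -, hE5⟩ := hE n (ev v₁ h) hG.sg
  obtain ⟨c, hc, -, -, hc1, -⟩ := hE5 C hC hCb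
  have hD : ∀ v : F →+* ℝ, 0 < √(v D) := fun v => Real.sqrt_pos.mpr (hG.D0 v)
  have hpl : ∀ v : F →+* ℝ, ∃ l : ℝ, 0 < l ∧ ∀ y ∈ C, ∀ ξ : J → Fin (n + 1) → F,
      l * ∑ i, ∑ k, v (ξ i k) ^ 2 ≤ (((1 / √(v D) : ℝ) : ℂ) *
        (((∑ i, ∑ j, R v i j * form h v (ξ i) (ξ j) : ℝ) : ℂ) +
          if v = v₁ then 2 * ∑ i, (v (a i) : ℂ) * s (ev v h) (ev v (ξ i)) y ^ 2 else 0)).re := by
    intro v
    have hpos : 0 < 1 / √(v D) := div_pos one_pos (hD v)
    by_cases hv : v = v₁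
    · subst hv
      obtain ⟨m, hm0, hm⟩ : ∃ m : ℝ, 0 < m ∧ ∀ i, m ≤ v (a i) := by
        rcases isEmpty_or_nonempty J with hJ | hJ
        · exact ⟨1, one_pos, fun i => hJ.elim i⟩
        · obtain ⟨i₀, hi₀⟩ := Finite.exists_min (fun i => v (a i))
          exact ⟨_, ha i₀, hi₀⟩
      refine ⟨1 / √(v D) * (m * c), by positivity, fun y hy ξ => ?_⟩
      rw [if_pos rfl, Complex.re_ofReal_mul, mul_assoc]
      refine mul_le_mul_of_nonneg_left ?_ hpos.le
      rw [hR1]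
      have e1 : (((∑ i, ∑ j, R0 a v i j * form h v (ξ i) (ξ j) : ℝ) : ℂ) +
          2 * ∑ i, (v (a i) : ℂ) * s (ev v h) (ev v (ξ i)) y ^ 2).re =
          ∑ i, v (a i) * (((∑ j, ev v h j * ev v (ξ i) j * ev v (ξ i) j : ℝ) : ℂ) +
            2 * s (ev v h) (ev v (ξ i)) y ^ 2).re := by
        have h1 : ∀ i, v (a i) * (((∑ j, ev v h j * ev v (ξ i) j * ev v (ξ i) j : ℝ) : ℂ) +
            2 * s (ev v h) (ev v (ξ i)) y ^ 2).re = ((v (a i) : ℂ) *
            (((∑ j, ev v h j * ev v (ξ i) j * ev v (ξ i) j : ℝ) : ℂ) +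
            2 * s (ev v h) (ev v (ξ i)) y ^ 2)).re := fun i => by rw [Complex.re_ofReal_mul]
        simp only [h1]
        rw [← Complex.re_sum]
        congr 1
        simp only [R0, Matrix.diagonal_apply, ite_mul, zero_mul, Finset.sum_ite_eq,
          Finset.mem_univ, if_true, abs_of_pos (ha _), form_self]
        push_cast
        simp only [mul_add, Finset.sum_add_distrib, Finset.mul_sum]
        congr 1
        refine Finset.sum_congr rfl fun i _ => ?_
        ring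
      rw [e1, Finset.mul_sum]
      refine Finset.sum_le_sum fun i _ => ?_
      have h3 := hc1 y hy (ev v (ξ i))
      have h4 : 0 ≤ c * ∑ j, ev v (ξ i) j ^ 2 :=
        mul_nonneg hc.le (Finset.sum_nonneg fun _ _ => sq_nonneg _)
      rw [mul_assoc]
      exact mul_le_mul (hm i) h3 h4 (ha i).le
    · obtain ⟨l, hl, hl1⟩ := placeJ v h (hG.pos hv) (R v) (hR v)
      refine ⟨1 / √(v D) * l, by positivity, fun y hy ξ => ?_⟩
      rw [if_neg hv, add_zero, Complex.re_ofReal_mul, Complex.ofReal_re, mul_assoc]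
      exact mul_le_mul_of_nonneg_left (hl1 ξ) hpos.le
  choose l hl hl1 using hpl
  have : Nonempty (F →+* ℝ) := ⟨v₁⟩
  obtain ⟨v₀, hv₀⟩ := Finite.exists_min l
  refine ⟨Real.pi * l v₀, mul_pos Real.pi_pos (hl v₀), fun y hy ξ => ?_⟩
  rw [gaussJ, Complex.norm_exp, Real.exp_le_exp, neg_mul, Complex.neg_re, Complex.re_ofReal_mul,
    Complex.re_sum, neg_le_neg_iff, mul_assoc]
  refine mul_le_mul_of_nonneg_left ?_ Real.pi_pos.le
  rw [nrm2, Finset.sum_comm, Finset.mul_sum]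
  refine Finset.sum_le_sum fun v _ => ?_
  refine le_trans ?_ (hl1 v y hy ξ)
  rw [Fintype.sum_prod_type]
  exact mul_le_mul_of_nonneg_right (hv₀ v)
    (Finset.sum_nonneg fun _ _ => Finset.sum_nonneg fun _ _ => sq_nonneg _)

/-! ## SUM2 -/

/-- the majorising function, with a power -/
def mjp {ι : Type} [Fintype ι] (p N : ℕ) (c : ℝ) (ξ : ι → F) : ℝ :=
  (Lat F ι N).indicator (fun ξ => (1 + nrm2 ξ) ^ p * Real.exp (-(c * nrm2 ξ))) ξ

theorem summable_mjp [IsTotallyReal F] {ι : Type} [Fintype ι] (p : ℕ) {N : ℕ} (hN : 0 < N) {c : ℝ}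
    (hc : 0 < c) : Summable (mjp (F := F) (ι := ι) p N c) := summable_gs N hN c hc p

theorem summable_mjp2 [IsTotallyReal F] {J : Type} [Fintype J] (p : ℕ) {N : ℕ} (hN : 0 < N)
    {c : ℝ} (hc : 0 < c) :
    Summable fun ξ : J → Fin (n + 1) → F =>
      mjp p N c (fun q : J × Fin (n + 1) => ξ q.1 q.2) := by
  have h1 := summable_mjp (F := F) (ι := J × Fin (n + 1)) p hN hc
  exact h1.comp_injective
    (i := fun (ξ : J → Fin (n + 1) → F) (p : J × Fin (n + 1)) => ξ p.1 p.2)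
    (fun ξ η h => by
      funext i j
      exact congrFun h (i, j))

/-- a bound for determinants -/
theorem norm_det_le (M : Matrix (Fin n) (Fin n) ℂ) {b : ℝ} (hM : ∀ i j, ‖M i j‖ ≤ b) :
    ‖M.det‖ ≤ n.factorial * b ^ n := by
  rw [Matrix.det_apply]
  refine (norm_sum_le _ _).trans ?_
  have h1 : ∀ σ ∈ (Finset.univ : Finset (Equiv.Perm (Fin n))),
      ‖Equiv.Perm.sign σ • ∏ i, M (σ i) i‖ ≤ b ^ n := by
    intro σ _
    have h2 : ‖Equiv.Perm.sign σ • ∏ i, M (σ i) i‖ = ‖∏ i, M (σ i) i‖ := by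
      rcases Int.units_eq_one_or (Equiv.Perm.sign σ) with h | h
      · rw [h, one_smul]
      · rw [h, Units.neg_smul, one_smul, norm_neg]
    rw [h2, norm_prod]
    refine (Finset.prod_le_prod (fun i _ => norm_nonneg _) fun i _ => hM (σ i) i).trans ?_
    simp
  refine (Finset.sum_le_sum h1).trans ?_
  simp [Fintype.card_perm]

/-- the bound for a term of `C_R(φ)` -/
theorem termJ_bound (hE : EST) {v₁ : F →+* ℝ} {D : F} {h : Fin (n + 1) → F} (hG : Good v₁ D h)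
    {a : Fin n → F} (ha : ∀ i, 0 < v₁ (a i)) {R : Maj (Fin n) F} (hR : ∀ v, (R v).PosDef)
    (hR1 : R v₁ = R0 a v₁) {N : ℕ} {φ : (Fin n → Fin (n + 1) → F) → ℂ} (hφ : SBJ N φ)
    {C : Set (Fin n → ℂ)} (hC : IsCompact C) (hCb : C ⊆ ball (ev v₁ h)) :
    ∃ c : ℝ, 0 < c ∧ ∃ B : ℝ, ∀ y ∈ C, ∀ ξ : Fin n → Fin (n + 1) → F,
      ‖φ ξ * gaussJ v₁ D h a R ξ y * Del (ev v₁ h) (fun i => ev v₁ (ξ i)) y‖ ≤
        B * mjp n N c (fun p : Fin n × Fin (n + 1) => ξ p.1 p.2) := by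
  obtain ⟨c, hc, hc1⟩ := gaussJ_bound hE hG ha hR hR1 hC hCb
  obtain ⟨-, -, -, -, hE5⟩ := hE n (ev v₁ h) hG.sg
  obtain ⟨-, -, c', hc', -, hc2⟩ := hE5 C hC hCb
  obtain ⟨P, hP, hP1⟩ := bdd (ι := Fin n × Fin (n + 1)) hφ.1
    (fun ξ => φ (fun i j => ξ (i, j))) (fun ξ h i => hφ.2.1 _ h i.1 i.2)
    (fun ξ η h => hφ.2.2 (fun i j => ξ (i, j)) (fun i j => η (i, j)) (fun i j => h (i, j)))
  refine ⟨c, hc, P * (n.factorial * c' ^ n), fun y hy ξ => ?_⟩
  set u : Fin n × Fin (n + 1) → F := fun p => ξ p.1 p.2 with hu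
  have hn : 0 ≤ nrm2 u := nrm2_nonneg _
  by_cases h0 : φ ξ = 0
  · rw [h0, zero_mul, zero_mul, norm_zero]
    refine mul_nonneg (by positivity) ?_
    exact Set.indicator_nonneg (fun _ _ => mul_nonneg (pow_nonneg (by
      linarith [nrm2_nonneg (F := F) (ι := Fin n × Fin (n + 1)) (by assumption)]) _)
      (Real.exp_pos _).le) _
  · have hmem : u ∈ Lat F (Fin n × Fin (n + 1)) N := fun p => hφ.2.1 ξ h0 p.1 p.2
    have hm : mjp n N c u = (1 + nrm2 u) ^ n * Real.exp (-(c * nrm2 u)) :=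
      Set.indicator_of_mem hmem _
    rw [hm, norm_mul, norm_mul]
    have h1 : ‖φ ξ‖ ≤ P := hP1 u
    have h2 := hc1 y hy ξ
    have hsq : ∀ i, ∑ j, ev v₁ (ξ i) j ^ 2 ≤ nrm2 u := by
      intro i
      refine le_trans ?_ (ev_sq_le v₁ u)
      rw [Fintype.sum_prod_type]
      exact Finset.single_le_sum (f := fun i => ∑ j, v₁ (u (i, j)) ^ 2)
        (fun i _ => Finset.sum_nonneg fun _ _ => sq_nonneg _) (Finset.mem_univ i)
    have hds : ∀ i j, ‖ds (ev v₁ h) (ev v₁ (ξ i)) j y‖ ≤ c' * (1 + nrm2 u) := fun i j => by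
      refine (hc2 y hy (ev v₁ (ξ i)) j).trans (mul_le_mul_of_nonneg_left ?_ hc'.le)
      refine (Real.sqrt_le_sqrt (hsq i)).trans ?_
      rw [Real.sqrt_le_left (by linarith)]
      nlinarith
    have h3 : ‖Del (ev v₁ h) (fun i => ev v₁ (ξ i)) y‖ ≤
        n.factorial * (c' * (1 + nrm2 u)) ^ n := by
      rw [Del]
      exact norm_det_le _ fun i j => hds i j
    calc ‖φ ξ‖ * ‖gaussJ v₁ D h a R ξ y‖ * ‖Del (ev v₁ h) (fun i => ev v₁ (ξ i)) y‖
        ≤ P * Real.exp (-(c * nrm2 u)) * (n.factorial * (c' * (1 + nrm2 u)) ^ n) := by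
          refine mul_le_mul (mul_le_mul h1 h2 (norm_nonneg _) hP) h3 (norm_nonneg _) ?_
          exact mul_nonneg hP (Real.exp_pos _).le
      _ = _ := by rw [mul_pow]; ring

theorem continuousOn_gaussJ (hE : EST) {J : Type} [Fintype J] [DecidableEq J] {v₁ : F →+* ℝ}
    {D : F} {h : Fin (n + 1) → F} (hG : Good v₁ D h) (a : J → F) (R : Maj J F)
    (ξ : J → Fin (n + 1) → F) :
    ContinuousOn (fun y => gaussJ v₁ D h a R ξ y) (ball (ev v₁ h)) := by
  classical
  obtain ⟨-, -, -, hE4, -⟩ := hE n (ev v₁ h) hG.sg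
  unfold gaussJ
  refine Continuous.comp_continuousOn Complex.continuous_exp ?_
  refine ContinuousOn.mul continuousOn_const ?_
  refine continuousOn_finsetSum _ fun v _ => ?_
  refine ContinuousOn.mul continuousOn_const ?_
  refine ContinuousOn.add continuousOn_const ?_
  by_cases hv : v = v₁
  · subst hv
    simp only [if_true]
    refine ContinuousOn.mul continuousOn_const ?_
    refine continuousOn_finsetSum _ fun i _ => ?_
    refine ContinuousOn.mul continuousOn_const ?_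
    exact ((hE4 (ev v (ξ i))).1).pow 2
  · simp only [if_neg hv]
    exact continuousOn_const

theorem continuousOn_Del (hE : EST) {v₁ : F →+* ℝ} {D : F} {h : Fin (n + 1) → F}
    (hG : Good v₁ D h) (x : Fin n → Fin (n + 1) → ℝ) :
    ContinuousOn (fun y => Del (ev v₁ h) x y) (ball (ev v₁ h)) := by
  obtain ⟨-, -, -, hE4, -⟩ := hE n (ev v₁ h) hG.sg
  unfold Del
  simp only [Matrix.det_apply]
  refine continuousOn_finsetSum _ fun σ _ => ?_
  refine ContinuousOn.const_smul ?_ _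
  refine continuousOn_finsetProd _ fun i _ => ?_
  exact (hE4 (x (σ i))).2 i

/-- **SUM2**, from EST -/
theorem sum2_of (hE : EST) : SUM2 := by
  intro F _ _ _ n v₁ D h a R N φ hG ha hR hR1 hφ
  have hb : ∀ y₀ ∈ ball (ev v₁ h), ∃ r : ℝ, 0 < r ∧ Metric.closedBall y₀ r ⊆ ball (ev v₁ h) := by
    intro y₀ hy₀
    exact Metric.nhds_basis_closedBall.mem_iff.mp ((isOpen_ball _).mem_nhds hy₀)
  constructor
  · intro y hy
    obtain ⟨c, hc, B, hB⟩ := termJ_bound hE hG ha hR hR1 hφ (C := {y}) isCompact_singleton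
      (Set.singleton_subset_iff.mpr hy)
    exact Summable.of_norm_bounded ((summable_mjp2 n hφ.1 hc).mul_left B)
      fun ξ => hB y (Set.mem_singleton y) ξ
  · intro y₀ hy₀
    obtain ⟨r, hr, hrb⟩ := hb y₀ hy₀
    obtain ⟨c, hc, B, hB⟩ := termJ_bound hE hG ha hR hR1 hφ (C := Metric.closedBall y₀ r)
      (isCompact_closedBall _ _) hrb
    have h1 : ContinuousOn (CR v₁ D h a R φ) (Metric.closedBall y₀ r) := by
      unfold CR
      refine continuousOn_tsum (fun ξ => ?_) ((summable_mjp2 n hφ.1 hc).mul_left B)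
        (fun ξ y hy => hB y hy ξ)
      exact (((continuousOn_const.mul (continuousOn_gaussJ hE hG a R ξ)).mul
        (continuousOn_Del hE hG _)).mono hrb)
    exact (h1.continuousAt (Metric.closedBall_mem_nhds y₀ hr)).continuousWithinAt

end

end Pool.Agent.CMN.Sum
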