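import Pool.Agent.Lib.CMN.P1Geo
import Pool.Agent.Lib.CMH.TH7c

/-!
# TANK CMN, row TH7 (helper71, ported by helper18), part c: the Kronecker form, all `n`
-/

set_option autoImplicit false
set_option linter.unusedSectionVars false

namespace Pool.Agent.CMN

open Matrix Complex NumberField
open Pool.CMH (Uni IntR rhoZ rhoQ KF om os)

open scoped Kronecker

noncomputable section

variable {n : ℕ} {F : Type} [Field F] [NumberField F]

/-! ### the Kronecker form -/

variable {m : Type} [Fintype m] [DecidableEq m]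

/-- `1 ⊗ X` -/
def kr (m : Type) [DecidableEq m] (X : Matrix (Fin (n + 1)) (Fin (n + 1)) F) :
    Matrix (m × Fin (n + 1)) (m × Fin (n + 1)) F := (1 : Matrix m m F) ⊗ₖ X

/-- `a ⊗ h` -/
def ah (a : m → F) (h : Fin (n + 1) → F) : m × Fin (n + 1) → F := fun p => a p.1 * h p.2

theorem kr_mul (X Y : Matrix (Fin (n + 1)) (Fin (n + 1)) F) : kr m (X * Y) = kr m X * kr m Y := by
  unfold kr
  rw [← Matrix.mul_kronecker_mul, Matrix.mul_one]

theorem kr_one : kr m (1 : Matrix (Fin (n + 1)) (Fin (n + 1)) F) = 1 := Matrix.one_kronecker_one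

theorem kr_zero : kr m (0 : Matrix (Fin (n + 1)) (Fin (n + 1)) F) = 0 := Matrix.kronecker_zero _

theorem kr_add (X Y : Matrix (Fin (n + 1)) (Fin (n + 1)) F) : kr m (X + Y) = kr m X + kr m Y :=
  Matrix.kronecker_add _ _ _

theorem kr_smul (D : F) (X : Matrix (Fin (n + 1)) (Fin (n + 1)) F) : kr m (D • X) = D • kr m X :=
  Matrix.kronecker_smul _ _ _

theorem kr_sub (X Y : Matrix (Fin (n + 1)) (Fin (n + 1)) F) : kr m (X - Y) = kr m X - kr m Y := by
  rw [sub_eq_add_neg, kr_add, sub_eq_add_neg]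
  congr 1
  have := kr_smul (m := m) (-1 : F) Y
  rwa [neg_one_smul, neg_one_smul] at this

theorem Uni_kr {D : F} {h : Fin (n + 1) → F} {X Y : Matrix (Fin (n + 1)) (Fin (n + 1)) F} (hu : Uni D h X Y)
    (a : m → F) : Uni D (ah a h) (kr m X) (kr m Y) := by
  have hd : diagonal (ah a h) = (diagonal a) ⊗ₖ (diagonal h) :=
    (Matrix.diagonal_kronecker_diagonal a h).symm
  have ht : ∀ Z : Matrix (Fin (n + 1)) (Fin (n + 1)) F, (Pool.Agent.CMN.kr m Z)ᵀ = (1 : Matrix m m F) ⊗ₖ Zᵀ := by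
    intro Z
    unfold Pool.Agent.CMN.kr
    rw [← Matrix.kroneckerMap_transpose, transpose_one]
  have hm : ∀ Z W : Matrix (Fin (n + 1)) (Fin (n + 1)) F,
      (Pool.Agent.CMN.kr m Z)ᵀ * diagonal (ah a h) * Pool.Agent.CMN.kr m W =
        (diagonal a) ⊗ₖ (Zᵀ * diagonal h * W) := by
    intro Z W
    rw [ht, hd]
    unfold Pool.Agent.CMN.kr
    rw [← Matrix.mul_kronecker_mul, ← Matrix.mul_kronecker_mul, Matrix.one_mul, Matrix.mul_one]
  refine ⟨?_, ?_⟩
  · rw [hm, hm, ← Matrix.kronecker_smul, ← Matrix.kronecker_add, hu.1, hd]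
  · rw [hm, hm, hu.2]

end

end Pool.Agent.CMN
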