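import Pool.Agent.Lib.CMN.TH7c
import Pool.Agent.Lib.CMH.TH7d

/-!
# TANK CMN, row TH7 (helper71, ported by helper18), part d: `exists_rep`, `exists_rho`, all `n`
-/

set_option autoImplicit false
set_option linter.unusedSectionVars false

namespace Pool.Agent.CMN

open Matrix Complex NumberField
open Pool.CMH (tU tD tA tC vv Bl KF om os Wm Wi osm Uni IntR rhoZ rhoQ tb tb_place Wi_eq GoodLev
  exists_goodLev intR_of_lev rhoZ_mem rhoZ_mul rhoZ_one)

open scoped Kronecker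

noncomputable section

variable {n : ℕ} {F : Type} [Field F] [NumberField F]
variable {J : Type} [Fintype J] [DecidableEq J]

/-- `2 a_i h_k` -/
def c2 (a : J → F) (h : Fin (n + 1) → F) : J × Fin (n + 1) → F := fun p => 2 * (a p.1 * h p.2)

theorem c2_ne {a : J → F} {h : Fin (n + 1) → F} (hh : ∀ k, h k ≠ 0) (ha : ∀ i, a i ≠ 0)
    (p : J × Fin (n + 1)) : c2 a h p ≠ 0 := by
  unfold c2
  exact mul_ne_zero two_ne_zero (mul_ne_zero (ha _) (hh _))

theorem rep_rhoZ [IsTotallyReal F] {D : F} {h : Fin (n + 1) → F} {a : J → F} (hh : ∀ k, h k ≠ 0)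
    (ha : ∀ i, a i ≠ 0) {g : Mat n F} (hi : IntR D (c2 a h) (kr J g.1) (kr J g.2)) :
    Rep D h a g (rhoZ D (c2 a h) (kr J g.1) (kr J g.2)) := by
  have hc := c2_ne hh ha
  have key : ∀ x y, (((rhoZ D (c2 a h) (kr J g.1) (kr J g.2)) x y : ℤ) : ℂ) =
      ((rhoQ D (c2 a h) (kr J g.1) (kr J g.2) x y : ℚ) : ℂ) := by
    intro x y
    rw [← hi]
    simp
  have hkr : ∀ (X : Matrix (Fin (n + 1)) (Fin (n + 1)) F) (p q : J × Fin (n + 1)),
      kr J X p q = if p.1 = q.1 then X p.2 q.2 else 0 := by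
    intro X p q
    change (1 : Matrix J J F) p.1 q.1 * X p.2 q.2 = _
    rw [Matrix.one_apply]
    split_ifs <;> simp
  refine ⟨?_, ?_, ?_, ?_⟩
  · ext x y
    change (((rhoZ D (c2 a h) (kr J g.1) (kr J g.2)) (Sum.inl x) (Sum.inl y) : ℤ) : ℂ) = _
    rw [key]
    change ((tb om os (diagonal (c2 a h) * kr J g.1 * diagonal fun k => (c2 a h k)⁻¹) x y : ℚ) : ℂ) = _
    rw [tb_place]
    unfold tA
    refine Finset.sum_congr rfl fun v _ => ?_
    have e1 : (diagonal (c2 a h) * kr J g.1 * diagonal fun k => (c2 a h k)⁻¹) x.1 y.1 =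
        sA J h g x.1 y.1 := by
      rw [Matrix.mul_diagonal, Matrix.diagonal_mul, hkr]
      unfold sA c2
      split_ifs with hxy
      · rw [hxy]
        have := ha y.1.1
        have := hh y.1.2
        field_simp
      · simp
    rw [e1, Wi_eq]
    rfl
  · ext x y
    change (((rhoZ D (c2 a h) (kr J g.1) (kr J g.2)) (Sum.inl x) (Sum.inr y) : ℤ) : ℂ) = _
    rw [key]
    change ((tb om om (diagonal (c2 a h) * kr J g.2) x y : ℚ) : ℂ) = _
    rw [tb_place]
    rw [Matrix.smul_apply, smul_eq_mul]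
    unfold tU
    rw [Finset.mul_sum]
    refine Finset.sum_congr rfl fun v _ => ?_
    have e1 : (diagonal (c2 a h) * kr J g.2) x.1 y.1 = 2 * sB h a g x.1 y.1 := by
      rw [Matrix.diagonal_mul, hkr]
      unfold sB c2
      split_ifs with hxy
      · ring
      · simp
    rw [e1, map_mul, map_ofNat]
    unfold atv Wm
    push_cast
    rw [Matrix.map_apply]
    ring
  · ext x y
    change (((rhoZ D (c2 a h) (kr J g.1) (kr J g.2)) (Sum.inr x) (Sum.inl y) : ℤ) : ℂ) = _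
    rw [key]
    change ((tb os os (-(D • (kr J g.2 * diagonal fun k => (c2 a h k)⁻¹))) x y : ℚ) : ℂ) = _
    rw [tb_place]
    rw [Matrix.smul_apply, smul_eq_mul]
    unfold tC
    rw [Finset.mul_sum]
    refine Finset.sum_congr rfl fun v _ => ?_
    have e1 : (-(D • (kr J g.2 * diagonal fun k => (c2 a h k)⁻¹))) x.1 y.1 =
        (2 : F)⁻¹ * sC D h a g x.1 y.1 := by
      rw [Matrix.neg_apply, Matrix.smul_apply, Matrix.mul_diagonal, hkr]
      unfold sC c2
      split_ifs with hxy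
      · rw [mul_inv, smul_eq_mul]
        ring
      · simp
    rw [e1, Wi_eq, map_mul, map_inv₀, map_ofNat]
    unfold atv osm
    push_cast
    rw [Matrix.map_apply]
    ring
  · ext x y
    change (((rhoZ D (c2 a h) (kr J g.1) (kr J g.2)) (Sum.inr x) (Sum.inr y) : ℤ) : ℂ) = _
    rw [key]
    change ((tb os om (kr J g.1) x y : ℚ) : ℂ) = _
    rw [tb_place]
    unfold tD
    refine Finset.sum_congr rfl fun v _ => ?_
    have e1 : kr J g.1 x.1 y.1 = sD J g x.1 y.1 := by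
      rw [hkr]
      rfl
    rw [e1, Wi_eq]
    rfl

/-- the integrality of the matrix of `g` -/
theorem intR_of_mem {D : F} {h : Fin (n + 1) → F} {a : J → F} (hh : ∀ k, h k ≠ 0) (ha : ∀ i, a i ≠ 0)
    {M : ℕ} (hM : GoodLev D (c2 a h) M) {g : Mat n F} (hg : g ∈ Gam D h M) :
    IntR D (c2 a h) (kr J g.1) (kr J g.2) := by
  obtain ⟨-, -, hg1, hg2⟩ := hg
  refine intR_of_lev hM (c2_ne hh ha) (fun k k' => ?_) (fun k k' => ?_)
  · have e : kr J g.1 k k' - (1 : Matrix (J × Fin (n + 1)) (J × Fin (n + 1)) F) k k' =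
        (1 : Matrix J J F) k.1 k'.1 * (g.1 k.2 k'.2 - (1 : Matrix (Fin (n + 1)) (Fin (n + 1)) F) k.2 k'.2) := by
      change (1 : Matrix J J F) k.1 k'.1 * g.1 k.2 k'.2 - _ = _
      have : (1 : Matrix (J × Fin (n + 1)) (J × Fin (n + 1)) F) k k' =
          (1 : Matrix J J F) k.1 k'.1 * (1 : Matrix (Fin (n + 1)) (Fin (n + 1)) F) k.2 k'.2 := by
        rw [← Matrix.one_kronecker_one]
        rfl
      rw [this, mul_sub]
    rw [e, mul_div_assoc]
    refine IsIntegral.mul ?_ (hg1 _ _)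
    rw [Matrix.one_apply]
    split_ifs
    · exact isIntegral_one
    · exact isIntegral_zero
  · change IsIntegral ℤ ((1 : Matrix J J F) k.1 k'.1 * g.2 k.2 k'.2 / (M : F))
    rw [mul_div_assoc]
    refine IsIntegral.mul ?_ (hg2 _ _)
    rw [Matrix.one_apply]
    split_ifs
    · exact isIntegral_one
    · exact isIntegral_zero

/-- TH7c: integrality -/
theorem exists_rep [NumberField.IsTotallyReal F] {D : F} (_hDi : IsIntegral ℤ D) {h : Fin (n + 1) → F}
    {a : J → F} (hh : ∀ k, h k ≠ 0) (ha : ∀ i, a i ≠ 0) :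
    ∃ c : ℕ, 0 < c ∧ ∀ g ∈ Gam D h c, ∃ M, Rep D h a g M := by
  obtain ⟨M, hM⟩ := exists_goodLev D (c2 a h)
  exact ⟨M, hM.1, fun g hg => ⟨_, rep_rhoZ hh ha (intR_of_mem hh ha hM hg)⟩⟩

theorem uni_of_mem {D : F} {h : Fin (n + 1) → F} {a : J → F} {M : ℕ} {g : Mat n F} (hg : g ∈ Gam D h M) :
    Uni D (c2 a h) (kr J g.1) (kr J g.2) := by
  have h1 : Uni D h g.1 g.2 := ⟨hg.1, hg.2.1⟩
  exact (Uni_kr h1 a).smul 2

/-- TH7d: the homomorphism -/
theorem exists_rho [NumberField.IsTotallyReal F] {D : F} (_hDi : IsIntegral ℤ D) (_hD : D ≠ 0)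
    {h : Fin (n + 1) → F} {a : J → F} (hh : ∀ k, h k ≠ 0) (ha : ∀ i, a i ≠ 0) :
    ∃ c : ℕ, 0 < c ∧ ∀ {G : Type} [Group G] (e : G → Mat n F), (∀ γ, e γ ∈ Gam D h c) →
      e 1 = (1, 0) → (∀ γ γ', e (γ * γ') = mulM D (e γ) (e γ')) →
      ∃ ρ : G →* Matrix (((J × Fin (n + 1)) × KF F) ⊕ ((J × Fin (n + 1)) × KF F))
          (((J × Fin (n + 1)) × KF F) ⊕ ((J × Fin (n + 1)) × KF F)) ℤ,
        ∀ γ, Rep D h a (e γ) (ρ γ) ∧ ρ γ ∈ symplecticGroup ((J × Fin (n + 1)) × KF F) ℤ := by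
  obtain ⟨M, hM⟩ := exists_goodLev D (c2 a h)
  refine ⟨M, hM.1, fun {G} _ e he h1 hmul => ?_⟩
  have hc := c2_ne hh ha
  have hi : ∀ γ, IntR D (c2 a h) (kr J (e γ).1) (kr J (e γ).2) := fun γ =>
    intR_of_mem hh ha hM (he γ)
  refine ⟨{ toFun := fun γ => rhoZ D (c2 a h) (kr J (e γ).1) (kr J (e γ).2)
            map_one' := ?_
            map_mul' := ?_ }, fun γ => ⟨rep_rhoZ hh ha (hi γ), rhoZ_mem hc (uni_of_mem (he γ)) (hi γ)⟩⟩
  · rw [h1]
    change rhoZ D (c2 a h) (kr J 1) (kr J 0) = 1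
    rw [kr_one, kr_zero, rhoZ_one D hc]
  · intro γ γ'
    rw [hmul γ γ', ← rhoZ_mul hc (hi γ) (hi γ')]
    unfold mulM
    simp only [kr_sub, kr_add, kr_mul, kr_smul]

end

end Pool.Agent.CMN
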