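import Pool.Agent.Lib.CMN.P1Geo
import Pool.Agent.Lib.CMN.B8e

/-! # TANK CMN, row TH8e: `Zp_act`, `Zp_det_ne`, `Zp_det`, `Zp_tangent`, `Zp_cross`, all `n`.
helper20. -/

set_option autoImplicit false
set_option linter.unusedSectionVars false

namespace Pool.Agent.CMN

open Matrix Complex Real
open Pool.Agent.CMN.TH8
open Pool.Agent.CMH.TH8 (bf bf_smul_left bf_smul_right AA AA_smul lA lB lC lD Zh Zd S Pm def_cz
  def_act def_det)
open scoped Kronecker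

noncomputable section

variable {n : ℕ} {F : Type} [Field F] [NumberField F]
variable {J : Type} [Fintype J] [DecidableEq J]
variable {v₁ : F →+* ℝ} {D : F} {h : Fin (n + 1) → F}

/-! ### translation -/

/-- the form on `W` at the place `v`. -/
def QQ (a : J → F) (v : F →+* ℝ) : Matrix J J ℂ := diagonal fun i => (v (a i) : ℂ)

theorem QQ_det {a : J → F} (ha : ∀ i, a i ≠ 0) (v : F →+* ℝ) : IsUnit (QQ a v).det := by
  unfold QQ
  rw [det_diagonal, isUnit_iff_ne_zero, Finset.prod_ne_zero_iff]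
  intro i _
  have : v (a i) ≠ 0 := (map_ne_zero v).mpr (ha i)
  exact_mod_cast this

theorem QQ_inv {a : J → F} (ha : ∀ i, a i ≠ 0) (v : F →+* ℝ) :
    (QQ a v)⁻¹ = diagonal fun i => ((v (a i))⁻¹ : ℂ) := by
  apply inv_eq_right_inv
  unfold QQ
  rw [diagonal_mul_diagonal, ← diagonal_one]
  congr 1
  funext i
  have : (v (a i) : ℂ) ≠ 0 := by
    have : v (a i) ≠ 0 := (map_ne_zero v).mpr (ha i)
    exact_mod_cast this
  exact mul_inv_cancel₀ this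

theorem HH_inv {k : Fin (n + 1) → ℝ} (hk : ∀ j, k j ≠ 0) :
    (HH k)⁻¹ = diagonal fun j => ((k j)⁻¹ : ℂ) := by
  apply inv_eq_right_inv
  unfold HH
  rw [diagonal_mul_diagonal, ← diagonal_one]
  congr 1
  funext i
  have : (k i : ℂ) ≠ 0 := by exact_mod_cast hk i
  exact mul_inv_cancel₀ this

theorem atv_sA (hk : ∀ j, ev v₁ h j ≠ 0) (g : Mat n F) :
    atv (sA J h g) v₁ = lA J (HH (ev v₁ h)) (cm (g.1.map v₁)) := by
  unfold lA
  rw [HH_inv hk]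
  ext ⟨i, p⟩ ⟨j, q⟩
  unfold atv sA HH
  rw [kroneckerMap_apply, Matrix.map_apply, mul_diagonal, diagonal_mul]
  by_cases hij : i = j
  · subst hij
    simp [ev]
  · simp [hij]

theorem atv_sB (a : J → F) (g : Mat n F) :
    atv (sB h a g) v₁ = lB (QQ a v₁) (HH (ev v₁ h)) (cm (g.2.map v₁)) := by
  unfold lB
  ext ⟨i, p⟩ ⟨j, q⟩
  unfold atv sB HH QQ
  rw [kroneckerMap_apply, Matrix.map_apply, diagonal_mul]
  by_cases hij : i = j
  · subst hij
    simp [ev, mul_assoc]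
  · simp [hij]

theorem atv_sC (hD : 0 < v₁ D) (hk : ∀ j, ev v₁ h j ≠ 0) {a : J → F} (ha : ∀ i, a i ≠ 0)
    (g : Mat n F) : atv (sC D h a g) v₁ =
      lC (((√(v₁ D) : ℝ) : ℂ) ^ 2) (QQ a v₁) (HH (ev v₁ h)) (cm (g.2.map v₁)) := by
  unfold lC
  rw [QQ_inv ha, HH_inv hk]
  have hδ : (((√(v₁ D) : ℝ) : ℂ)) ^ 2 = (v₁ D : ℂ) := by
    rw [← Complex.ofReal_pow, Real.sq_sqrt hD.le]
  rw [hδ]
  ext ⟨i, p⟩ ⟨j, q⟩
  unfold atv sC
  rw [Matrix.neg_apply, Matrix.smul_apply, kroneckerMap_apply, Matrix.map_apply, mul_diagonal]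
  by_cases hij : i = j
  · subst hij
    simp [ev]
    ring
  · simp [hij]

theorem atv_sD (g : Mat n F) : atv (sD J g) v₁ = lD J (cm (g.1.map v₁)) := by
  unfold lD
  ext ⟨i, p⟩ ⟨j, q⟩
  unfold atv sD
  rw [kroneckerMap_apply, Matrix.map_apply]
  by_cases hij : i = j
  · subst hij
    simp
  · simp [hij]

theorem Zp_hyp (D : F) (a : J → F) (R : (F →+* ℝ) → Matrix J J ℝ) (y : Fin n → ℂ) :
    Zp v₁ D h a R y v₁ = Zh ((√(v₁ D) : ℝ) : ℂ) (QQ a v₁) (HH (ev v₁ h)) (hat y) := by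
  unfold Zh S Pm
  have hb : (bf (HH (ev v₁ h)) (hat y) (hat y))⁻¹ = -(w (ev v₁ h) y ^ 2)⁻¹ := by
    rw [w_sq, inv_neg, neg_neg]
  rw [hb, mul_sub, Matrix.mul_one, Matrix.mul_smul, Matrix.mul_smul, mul_vecMulVec]
  ext ⟨i, p⟩ ⟨j, q⟩
  unfold Zp QQ HH
  rw [if_pos rfl, Matrix.smul_apply, kroneckerMap_apply, Matrix.sub_apply, Matrix.smul_apply,
    Matrix.smul_apply, vecMulVec_apply, mulVec_diagonal, mulVec_diagonal]
  simp only [smul_eq_mul, diagonal_apply]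
  congr 1
  congr 1
  have : (if p = q then (ev v₁ h p : ℂ) else 0) = if p = q then (v₁ (h p) : ℂ) else 0 := rfl
  rw [this]
  have e1 : (ev v₁ h p : ℂ) = (v₁ (h p) : ℂ) := rfl
  have e2 : (ev v₁ h q : ℂ) = (v₁ (h q) : ℂ) := rfl
  rw [e1, e2]
  ring

theorem Zp_def (D : F) (a : J → F) (R : (F →+* ℝ) → Matrix J J ℝ) (y : Fin n → ℂ) {v : F →+* ℝ}
    (hv : v ≠ v₁) : Zp v₁ D h a R y v =
      Zd ((√(v D) : ℝ) : ℂ) ((R v).map fun x : ℝ => (x : ℂ)) (HH (ev v h)) := by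
  unfold Zd
  ext ⟨i, p⟩ ⟨j, q⟩
  unfold Zp HH
  rw [if_neg hv, Matrix.smul_apply, kroneckerMap_apply, Matrix.map_apply]
  simp only [smul_eq_mul, diagonal_apply]
  rfl

theorem maj_complex {a : J → F} (ha : ∀ i, a i ≠ 0) {v : F →+* ℝ} {R : Matrix J J ℝ}
    (hR : R * Matrix.diagonal (fun i => (v (a i))⁻¹) * R = Matrix.diagonal (fun i => v (a i))) :
    R.map (fun x : ℝ => (x : ℂ)) * (QQ a v)⁻¹ * R.map (fun x : ℝ => (x : ℂ)) = QQ a v := by
  have h := congrArg (fun M : Matrix J J ℝ => M.map (fun x : ℝ => (x : ℂ))) hR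
  have hmul : ∀ A B : Matrix J J ℝ, (A * B).map (fun x : ℝ => (x : ℂ)) =
      A.map (fun x : ℝ => (x : ℂ)) * B.map (fun x : ℝ => (x : ℂ)) :=
    fun A B => Matrix.map_mul (f := Complex.ofRealHom)
  simp only [hmul] at h
  have h1 : (Matrix.diagonal (fun i => (v (a i))⁻¹)).map (fun x : ℝ => (x : ℂ)) =
      (QQ a v)⁻¹ := by
    rw [QQ_inv ha]
    ext i j
    by_cases hij : i = j
    · subst hij; simp
    · simp [hij]
  have h2 : (Matrix.diagonal (fun i => v (a i))).map (fun x : ℝ => (x : ℂ)) = QQ a v := by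
    unfold QQ
    ext i j
    by_cases hij : i = j
    · subst hij; simp
    · simp [hij]
  rw [h1, h2] at h
  exact h

/-! ### the rows -/

theorem Zp_act (hgd : Good v₁ D h) {a : J → F} (ha0 : ∀ i, a i ≠ 0) (_ha : ∀ i, 0 < v₁ (a i))
    {R : (F →+* ℝ) → Matrix J J ℝ} {N : ℕ} {g : Mat n F} (hg : g ∈ Gam D h N)
    (hR : ∀ v, v ≠ v₁ → R v * Matrix.diagonal (fun i => (v (a i))⁻¹) * R v =
      Matrix.diagonal (fun i => v (a i))) {y : Fin n → ℂ} (hy : y ∈ ball (ev v₁ h))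
    (v : F →+* ℝ) :
    atv (sA J h g) v * Zp v₁ D h a R y v + atv (sB h a g) v =
      Zp v₁ D h a R (act v₁ D g y) v *
        (atv (sC D h a g) v * Zp v₁ D h a R y v + atv (sD J g) v) := by
  have hδ : 0 < √(v D) := Real.sqrt_pos.mpr (hgd.D0 v)
  have hk : ∀ j, ev v h j ≠ 0 := fun j => hgd.vne v j
  obtain ⟨hu, hv'⟩ := gam_place v (hgd.D0 v) hg
  rw [atv_sA hk, atv_sB, atv_sC (hgd.D0 v) hk ha0, atv_sD]
  by_cases hv : v = v₁
  · subst hv
    rw [Zp_hyp, Zp_hyp, ball_cz hδ hk (QQ_det ha0 v), act_eq, cmat_eq]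
    exact ball_act hδ hgd.sg hk hu hv' hy (QQ a v)
  · rw [Zp_def D a R y hv, Zp_def D a R _ hv]
    have hδ' : ((√(v D) : ℝ) : ℂ) ≠ 0 := by exact_mod_cast hδ.ne'
    rw [def_cz hδ' (HH_det _ hk)]
    exact def_act hδ' (HH_det _ hk) (maj_complex ha0 (hR v hv)) _ _

theorem Zp_det_ne (hgd : Good v₁ D h) {a : J → F} (ha0 : ∀ i, a i ≠ 0)
    {R : (F →+* ℝ) → Matrix J J ℝ} {N : ℕ} {g : Mat n F} (hg : g ∈ Gam D h N)
    (hR : ∀ v, v ≠ v₁ → (R v).PosDef ∧ R v * Matrix.diagonal (fun i => (v (a i))⁻¹) * R v =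
      Matrix.diagonal (fun i => v (a i))) (y : Fin n → ℂ) (v : F →+* ℝ) (hv : v ≠ v₁)
    (hd : (cmat v D g).det = 1) :
    (atv (sC D h a g) v * Zp v₁ D h a R y v + atv (sD J g) v).det = 1 := by
  have hδ : 0 < √(v D) := Real.sqrt_pos.mpr (hgd.D0 v)
  have hδ' : ((√(v D) : ℝ) : ℂ) ≠ 0 := by exact_mod_cast hδ.ne'
  have hk : ∀ j, ev v h j ≠ 0 := fun j => hgd.vne v j
  obtain ⟨hu, hv'⟩ := gam_place v (hgd.D0 v) hg
  rw [atv_sC (hgd.D0 v) hk ha0, atv_sD, Zp_def D a R y hv, def_cz hδ' (HH_det _ hk)]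
  rw [cmat_eq] at hd
  have hd' : (Pool.Agent.CMN.TH8.gm (g.1.map v) (g.2.map v) √(v D)).det = 1 := by
    have h2 := congrArg det (gp_gm hu hv')
    rw [det_mul, det_mul, det_transpose, hd, one_mul] at h2
    have h3 : (HH (ev v h)).det ≠ 0 := (HH_det _ hk).ne_zero
    exact mul_left_cancel₀ h3 (by rw [h2, mul_one])
  refine def_det ?_ hd hd'
  have h4 := maj_complex ha0 (hR v hv).2
  rw [← mul_assoc, mul_assoc _ _ (QQ a v)⁻¹, mul_assoc, h4, nonsing_inv_mul _ (QQ_det ha0 v)]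

theorem Zp_det (hgd : Good v₁ D h) {a : J → F} (ha0 : ∀ i, a i ≠ 0) (_ha : ∀ i, 0 < v₁ (a i))
    {R : (F →+* ℝ) → Matrix J J ℝ} {N : ℕ} {g : Mat n F} (hg : g ∈ Gam D h N)
    {y : Fin n → ℂ} (hy : y ∈ ball (ev v₁ h)) (hd : (cmat v₁ D g).det = 1) :
    (atv (sC D h a g) v₁ * Zp v₁ D h a R y v₁ + atv (sD J g) v₁).det =
      cE v₁ D h g y ^ (2 * Fintype.card J) := by
  have hδ : 0 < √(v₁ D) := Real.sqrt_pos.mpr (hgd.D0 v₁)
  have hk : ∀ j, ev v₁ h j ≠ 0 := fun j => hgd.vne v₁ j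
  obtain ⟨hu, hv'⟩ := gam_place v₁ (hgd.D0 v₁) hg
  rw [atv_sC (hgd.D0 v₁) hk ha0, atv_sD, Zp_hyp, ball_cz hδ hk (QQ_det ha0 v₁)]
  rw [cmat_eq] at hd
  rw [ball_det hgd.sg hk hu hv' hd hy, ← cmat_eq, ← pow_mul, mul_comm]
  rfl

theorem HH_de (k : Fin (n + 1) → ℝ) (j : Fin n) (y : Fin n → ℂ) : HH k *ᵥ de k j y = ed k j y := by
  funext l
  unfold HH ed de
  rw [mulVec_diagonal]
  simp only [Pi.add_apply, Pi.smul_apply, smul_eq_mul]
  by_cases hl : l = j.castSucc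
  · subst hl
    rw [Pi.single_eq_same, if_pos rfl]
    ring
  · rw [Pi.single_eq_of_ne hl, if_neg hl]
    ring

theorem Jac_single (v : F →+* ℝ) (D : F) (g : Mat n F) (y : Fin n → ℂ) (l j : Fin n) :
    Jac (cmat v D g) y (Pi.single j 1) l = dact v D g y l j := by
  have h1 : ∀ i, (cmat v D g *ᵥ hat0 (Pi.single j (1 : ℂ))) i = cmat v D g i j.castSucc := by
    intro i
    rw [hat0_single]
    simp
  unfold Jac dact
  rw [h1, h1]
  rfl

/-- the tangent vectors -/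
theorem Zp_tangent (hgd : Good v₁ D h) {a : J → F} (ha0 : ∀ i, a i ≠ 0)
    (_ha : ∀ i, 0 < v₁ (a i)) {R : (F →+* ℝ) → Matrix J J ℝ} {N : ℕ} {g : Mat n F}
    (hg : g ∈ Gam D h N) {y : Fin n → ℂ} (hy : y ∈ ball (ev v₁ h)) (i : J) (j : Fin n) :
    (atv (sC D h a g) v₁ * Zp v₁ D h a R y v₁ + atv (sD J g) v₁)ᵀ *ᵥ
      row i (∑ l, dact v₁ D g y l j • ed (ev v₁ h) l (act v₁ D g y)) =
      (cE v₁ D h g y)⁻¹ • row i (ed (ev v₁ h) j y) := by
  have hδ : 0 < √(v₁ D) := Real.sqrt_pos.mpr (hgd.D0 v₁)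
  have hk : ∀ j, ev v₁ h j ≠ 0 := fun j => hgd.vne v₁ j
  obtain ⟨hu, hv'⟩ := gam_place v₁ (hgd.D0 v₁) hg
  rw [atv_sC (hgd.D0 v₁) hk ha0, atv_sD, Zp_hyp, ball_cz hδ hk (QQ_det ha0 v₁)]
  have h1 := ball_eta (m := J) hgd.sg hk hu hv' hy (Pi.single j 1)
    (fun i' => if i' = i then 1 else 0)
  rw [← cmat_eq] at h1
  have h2 : ∀ e : Fin (n + 1) → ℂ, (fun q : J × Fin (n + 1) => (if q.1 = i then (1 : ℂ) else 0) * e q.2) =
      row i e := by
    intro e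
    funext q
    unfold row
    split_ifs <;> simp
  rw [h2, h2] at h1
  have h3 : HH (ev v₁ h) *ᵥ ∑ l, Jac (cmat v₁ D g) y (Pi.single j 1) l •
      de (ev v₁ h) l (actM (cmat v₁ D g) y) =
      ∑ l, dact v₁ D g y l j • ed (ev v₁ h) l (act v₁ D g y) := by
    rw [mulVec_sum]
    refine Finset.sum_congr rfl fun l _ => ?_
    rw [mulVec_smul, HH_de, Jac_single, act_eq]
  have h4 : HH (ev v₁ h) *ᵥ ∑ l, (Pi.single j (1 : ℂ) : Fin n → ℂ) l • de (ev v₁ h) l y =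
      ed (ev v₁ h) j y := by
    rw [← HH_de]
    congr 1
    rw [Finset.sum_eq_single j]
    · rw [Pi.single_eq_same, one_smul]
    · intro l _ hl
      rw [Pi.single_eq_of_ne hl, zero_smul]
    · intro hj
      exact absurd (Finset.mem_univ _) hj
  rw [h3, h4] at h1
  rw [← cmat_eq]
  exact h1

/-! ### no cross terms -/

/-- the projection to the row `i`. -/
def PJ (i : J) : Matrix (J × Fin (n + 1)) (J × Fin (n + 1)) ℂ := diagonal fun p => if p.1 = i then 1 else 0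

theorem PJ_row (i : J) (e : Fin (n + 1) → ℂ) : PJ i *ᵥ row i e = row i e := by
  funext p
  unfold PJ row
  rw [mulVec_diagonal]
  split_ifs <;> simp

theorem PJ_comm (i : J) {M : Matrix (J × Fin (n + 1)) (J × Fin (n + 1)) ℂ} (hM : ∀ p q, p.1 ≠ q.1 → M p q = 0) :
    PJ i * M = M * PJ i := by
  ext p q
  unfold PJ
  rw [diagonal_mul, mul_diagonal]
  by_cases h : p.1 = q.1
  · rw [h, mul_comm]
  · rw [hM p q h]
    simp

theorem Zp_cross {a : J → F} {R : (F →+* ℝ) → Matrix J J ℝ} {g : Mat n F} {y : Fin n → ℂ}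
    (hu : IsUnit (atv (sC D h a g) v₁ * Zp v₁ D h a R y v₁ + atv (sD J g) v₁).det)
    {i i' : J} (hi : i ≠ i') (e e' : Fin (n + 1) → ℂ) :
    row i e ⬝ᵥ (((atv (sC D h a g) v₁ * Zp v₁ D h a R y v₁ + atv (sD J g) v₁)⁻¹ *
      atv (sC D h a g) v₁) *ᵥ row i' e') = 0 := by
  set C := atv (sC D h a g) v₁ with hC
  set M := C * Zp v₁ D h a R y v₁ + atv (sD J g) v₁ with hM
  have hC0 : ∀ i : J, PJ i * C = C * PJ i := by
    intro i
    apply PJ_comm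
    intro p q hpq
    rw [hC]
    unfold atv sC
    rw [Matrix.map_apply, if_neg hpq]
    simp
  have hZ0 : ∀ i : J, PJ i * Zp v₁ D h a R y v₁ = Zp v₁ D h a R y v₁ * PJ i := by
    intro i
    apply PJ_comm
    intro p q hpq
    unfold Zp
    rw [if_pos rfl, if_neg hpq]
    ring
  have hD0 : ∀ i : J, PJ i * atv (sD J g) v₁ = atv (sD J g) v₁ * PJ i := by
    intro i
    apply PJ_comm
    intro p q hpq
    unfold atv sD
    rw [Matrix.map_apply, if_neg hpq]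
    simp
  have hM0 : ∀ i : J, PJ i * M = M * PJ i := by
    intro i
    rw [hM, mul_add, add_mul, ← mul_assoc, hC0, mul_assoc, hZ0, ← mul_assoc, hD0]
  have hMi : PJ i * M⁻¹ = M⁻¹ * PJ i := by
    calc PJ i * M⁻¹ = M⁻¹ * M * (PJ i * M⁻¹) := by
          rw [nonsing_inv_mul _ hu, Matrix.one_mul]
      _ = M⁻¹ * (M * PJ i) * M⁻¹ := by simp only [mul_assoc]
      _ = M⁻¹ * (PJ i * M) * M⁻¹ := by rw [hM0]
      _ = M⁻¹ * PJ i * (M * M⁻¹) := by simp only [mul_assoc]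
      _ = M⁻¹ * PJ i := by rw [mul_nonsing_inv _ hu, Matrix.mul_one]
  have hPP : PJ i * PJ i' = (0 : Matrix (J × Fin (n + 1)) (J × Fin (n + 1)) ℂ) := by
    unfold PJ
    rw [diagonal_mul_diagonal, ← diagonal_zero]
    congr 1
    funext p
    by_cases h1 : p.1 = i
    · simp [h1, hi]
    · simp [h1]
  have hrow : row i e = row i e ᵥ* PJ i := by
    rw [← mulVec_transpose]
    unfold PJ
    rw [diagonal_transpose]
    exact (PJ_row i e).symm
  rw [← PJ_row i' e', hrow, ← dotProduct_mulVec, mulVec_mulVec, mulVec_mulVec]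
  have : PJ i * (M⁻¹ * C) * PJ i' = 0 := by
    calc PJ i * (M⁻¹ * C) * PJ i' = (PJ i * M⁻¹) * C * PJ i' := by simp only [mul_assoc]
      _ = M⁻¹ * (PJ i * C) * PJ i' := by rw [hMi]; simp only [mul_assoc]
      _ = M⁻¹ * C * (PJ i * PJ i') := by rw [hC0]; simp only [mul_assoc]
      _ = 0 := by rw [hPP, Matrix.mul_zero]
  rw [this, zero_mulVec, dotProduct_zero]

end

end Pool.Agent.CMN
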