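import Pool.Agent.Lib.CMN.P1Geo
import Pool.Agent.Lib.CMN.Api
import Pool.Agent.Lib.CMN.Grp
import Pool.Agent.Lib.CMN.JacBr

/-! TANK CMN, P1, row TH8g (helper72): the cocycle `cE`, continuity, Jacobian of the
action, all dimensions `n`. -/

set_option autoImplicit false

namespace Pool.Agent.CMN

open Matrix Complex Real
open Pool.CMH (tU Wm Wi KF)
open Pool.Agent.CMN.Grp (Uni acM)

noncomputable section

variable {n : ℕ} {F : Type} [Field F] [NumberField F]
variable {J : Type} [Fintype J] [DecidableEq J]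
variable {v₁ : F →+* ℝ} {D : F} {h : Fin (n + 1) → F}

/-! ### the function `w` -/

theorem TH8g_re_pos {k : Fin (n + 1) → ℝ} (hk : Sg k) {y : Fin n → ℂ} (hy : y ∈ ball k) :
    0 < (-∑ j, (k j : ℂ) * hat y j ^ 2).re := by
  rw [sum_hat_sq, Complex.neg_re, Complex.add_re, Complex.ofReal_re, Complex.re_sum]
  rw [mem_ball] at hy
  have h1 : ∑ j : Fin n, ((k j.castSucc : ℂ) * y j ^ 2).re ≤
      ∑ j : Fin n, k j.castSucc * ‖y j‖ ^ 2 := by
    refine Finset.sum_le_sum fun j _ => ?_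
    rw [Complex.re_ofReal_mul]
    refine mul_le_mul_of_nonneg_left ?_ (hk.pos j).le
    refine (Complex.re_le_norm _).trans ?_
    rw [norm_pow]
  linarith

theorem TH8g_w_sq (k : Fin (n + 1) → ℝ) (y : Fin n → ℂ) :
    w k y ^ 2 = -∑ j, (k j : ℂ) * hat y j ^ 2 := by
  unfold w
  rw [one_div]
  exact Complex.cpow_ofNat_inv_pow _ 2

theorem TH8g_w_ne {k : Fin (n + 1) → ℝ} (hk : Sg k) {y : Fin n → ℂ} (hy : y ∈ ball k) :
    w k y ≠ 0 := by
  intro h0
  have h2 := TH8g_w_sq k y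
  have h3 := TH8g_re_pos hk hy
  rw [← h2, h0] at h3
  simp at h3

theorem TH8g_w_cont {k : Fin (n + 1) → ℝ} (hk : Sg k) : ContinuousOn (w k) (ball k) := by
  unfold w
  refine ContinuousOn.cpow (Continuous.continuousOn ?_) continuousOn_const ?_
  · refine Continuous.neg (continuous_finsetSum _ fun j _ => ?_)
    exact continuous_const.mul (((continuous_apply j).comp continuous_hat).pow 2)
  · intro y hy
    exact Or.inl (TH8g_re_pos hk hy)

/-! ### the action -/

theorem TH8g_uni (hgd : Good v₁ D h) {N : ℕ} {g : Mat n F} (hg : g ∈ Gam D h N) :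
    Uni (ev v₁ h) (cmat v₁ D g) :=
  (Grp.uni_cmat_iff (hgd.D0 v₁) h g).1 ⟨hg.1, hg.2.1⟩

theorem TH8g_gy (hgd : Good v₁ D h) {N : ℕ} {g : Mat n F} (hg : g ∈ Gam D h N)
    {y : Fin n → ℂ} (hy : y ∈ ball (ev v₁ h)) : gy v₁ D g y (Fin.last n) ≠ 0 :=
  (TH8g_uni hgd hg).ne hgd.sg hy

theorem TH8g_mem (hgd : Good v₁ D h) {N : ℕ} {g : Mat n F} (hg : g ∈ Gam D h N)
    {y : Fin n → ℂ} (hy : y ∈ ball (ev v₁ h)) : act v₁ D g y ∈ ball (ev v₁ h) :=
  (TH8g_uni hgd hg).mem hgd.sg hy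

theorem act_mem (hgd : Good v₁ D h) {N : ℕ} {g : Mat n F} (hg : g ∈ Gam D h N)
    {y : Fin n → ℂ} (hy : y ∈ ball (ev v₁ h)) : act v₁ D g y ∈ ball (ev v₁ h) :=
  TH8g_mem hgd hg hy

omit [NumberField F] in
theorem act_one (v₁ : F →+* ℝ) (D : F) (y : Fin n → ℂ) :
    act v₁ D ((1, 0) : Mat n F) y = y := by
  rw [Grp.act_eq, Grp.cmat_one, Grp.acM_one]

theorem cE_ne (hgd : Good v₁ D h) {N : ℕ} {g : Mat n F} (hg : g ∈ Gam D h N)
    {y : Fin n → ℂ} (hy : y ∈ ball (ev v₁ h)) : cE v₁ D h g y ≠ 0 :=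
  div_ne_zero (mul_ne_zero (TH8g_gy hgd hg hy)
    (TH8g_w_ne hgd.sg (TH8g_mem hgd hg hy))) (TH8g_w_ne hgd.sg hy)

theorem act_continuous (hgd : Good v₁ D h) {N : ℕ} {g : Mat n F} (hg : g ∈ Gam D h N) :
    ContinuousOn (act v₁ D g) (ball (ev v₁ h)) := by
  refine continuousOn_pi.mpr fun j => ?_
  have hc : ∀ i, Continuous fun y => gy v₁ D g y i := fun i =>
    (continuous_apply i).comp (Continuous.matrix_mulVec continuous_const continuous_hat)
  exact (hc _).continuousOn.div (hc (Fin.last n)).continuousOn fun y hy => TH8g_gy hgd hg hy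

theorem cE_continuous (hgd : Good v₁ D h) {N : ℕ} {g : Mat n F} (hg : g ∈ Gam D h N) :
    ContinuousOn (cE v₁ D h g) (ball (ev v₁ h)) := by
  have hw := TH8g_w_cont (k := ev v₁ h) hgd.sg
  have h1 : Continuous fun y => gy v₁ D g y (Fin.last n) :=
    (continuous_apply (Fin.last n)).comp
      (Continuous.matrix_mulVec continuous_const continuous_hat)
  refine (h1.continuousOn.mul (hw.comp (act_continuous hgd hg) fun y hy =>
    TH8g_mem hgd hg hy)).div hw fun y hy => ?_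
  exact TH8g_w_ne hgd.sg hy

theorem cE_mul (hgd : Good v₁ D h) {N : ℕ} {g g' : Mat n F} (hg : g ∈ Gam D h N)
    (hg' : g' ∈ Gam D h N) {y : Fin n → ℂ} (hy : y ∈ ball (ev v₁ h)) :
    act v₁ D (mulM D g g') y = act v₁ D g (act v₁ D g' y) ∧
    cE v₁ D h (mulM D g g') y = cE v₁ D h g (act v₁ D g' y) * cE v₁ D h g' y := by
  have e0 : cmat v₁ D (mulM D g g') = cmat v₁ D g * cmat v₁ D g' :=
    Grp.cmat_mulM (hgd.D0 v₁) g g'
  have hne := TH8g_gy hgd hg' hy
  have e1 := Grp.acM_mul (M := cmat v₁ D g) (M' := cmat v₁ D g') hne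
  have e2 : act v₁ D (mulM D g g') y = act v₁ D g (act v₁ D g' y) := by
    rw [Grp.act_eq, e0]
    exact e1.1
  have e3 : gy v₁ D (mulM D g g') y (Fin.last n) =
      gy v₁ D g (act v₁ D g' y) (Fin.last n) * gy v₁ D g' y (Fin.last n) := by
    rw [Grp.gy_eq, e0]
    exact e1.2
  refine ⟨e2, ?_⟩
  have w1 := TH8g_w_ne hgd.sg hy
  have w2 := TH8g_w_ne hgd.sg (TH8g_mem hgd hg' hy)
  unfold cE
  rw [e2, e3]
  field_simp

/-! ### the Jacobian -/

omit [NumberField F] in
theorem dact_eq_dmat (v : F →+* ℝ) (D : F) (g : Mat n F) (y : Fin n → ℂ) :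
    (of fun l j => dact v D g y l j) = Pool.CMN.Jac.dmat (cmat v D g) y := rfl

theorem det_dact (hgd : Good v₁ D h) {N : ℕ} {g : Mat n F} (hg : g ∈ Gam D h N)
    {y : Fin n → ℂ} (hy : y ∈ ball (ev v₁ h)) :
    det (of fun l j => dact v₁ D g y l j) =
      (cmat v₁ D g).det / gy v₁ D g y (Fin.last n) ^ (n + 1) := by
  rw [dact_eq_dmat]
  exact Pool.CMN.Jac.det_dmat (cmat v₁ D g) (TH8g_gy hgd hg hy)

/-! ### continuity of the point of the Siegel space -/

theorem ZZ_continuous {a : J → F} (hgd : Good v₁ D h) {T : Type} [TopologicalSpace T]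
    (R : T → (F →+* ℝ) → Matrix J J ℝ) (hR : ∀ v i j, Continuous fun t => R t v i j) :
    Continuous (fun x : T × ball (ev v₁ h) => ZZ v₁ D h a (R x.1) x.2.1) := by
  have hw : Continuous fun x : T × ball (ev v₁ h) => w (ev v₁ h) x.2.1 := by
    have h1 := (continuousOn_iff_continuous_restrict.1
      (TH8g_w_cont (k := ev v₁ h) hgd.sg))
    exact h1.comp continuous_snd
  have hhat : ∀ l, Continuous fun x : T × ball (ev v₁ h) => hat x.2.1 l := fun l =>
    (continuous_apply l).comp (continuous_hat.comp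
      (continuous_subtype_val.comp continuous_snd))
  have hR' : ∀ v i j, Continuous fun x : T × ball (ev v₁ h) => ((R x.1 v i j : ℝ) : ℂ) :=
    fun v i j => Complex.continuous_ofReal.comp ((hR v i j).comp continuous_fst)
  refine continuous_matrix fun p q => ?_
  unfold ZZ tU
  simp only [Matrix.smul_apply, smul_eq_mul]
  refine continuous_const.mul (continuous_finsetSum _ fun v _ => ?_)
  refine (continuous_const.mul ?_).mul continuous_const
  unfold Zp
  refine continuous_const.mul ?_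
  by_cases hv : v = v₁
  · simp only [if_pos hv]
    refine continuous_const.mul (continuous_const.add ?_)
    refine ((continuous_const.mul (hhat _)).mul (hhat _)).div (hw.pow 2) fun x => ?_
    exact pow_ne_zero 2 (TH8g_w_ne hgd.sg x.2.2)
  · simp only [if_neg hv]
    exact (hR' v _ _).mul continuous_const

end

end Pool.Agent.CMN
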