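import Pool.Agent.Lib.CMN.P1Rows
import Pool.Agent.Lib.CMN.TH8g

/-! TANK CMN, P1, row DETD (helper72). -/

set_option autoImplicit false

namespace Pool.Agent.CMN

/-- row DETD -/
theorem detd : DETD := fun _ _ _ _ _ _ _ _ hgd _ hg _ hy => det_dact hgd hg hy

end Pool.Agent.CMN
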