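import Pool.Agent.Lib.CMN.Lawd

/-!
# TANK CMN, P1, row TH9b: a common matrix of coefficients inside `thetaD` (helper97)
-/

set_option autoImplicit false

namespace Pool.Agent.CMN

open Matrix Complex Real
open Pool.CMH (red tm au uu qq ee bC Sieg lf red_bound norm_lf_le deriv_gen qb uu_add uu_smul
  ee_line_deriv ee_zero tm_dom)

noncomputable section

variable {ι : Type} [Fintype ι]

variable {J : Type} [Fintype J] [DecidableEq J]

/-- a matrix of forms with a common matrix of coefficients -/
theorem thetaD_mul (N : ℕ) (φ : (ι → ZMod N) → ℂ) (Z : Matrix ι ι ℂ) (η : J → J → ι → ℂ)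
    (e : ℂ) (A : Matrix J J ℂ) :
    thetaD N φ Z (fun i j => e • ∑ l, A l j • η i l) =
      e ^ Fintype.card J * A.det * thetaD N φ Z η := by
  unfold thetaD
  rw [← tsum_mul_left]
  refine tsum_congr fun x => ?_
  have hlin : ∀ i j, lf (e • ∑ l, A l j • η i l) x = e * ∑ l, lf (η i l) x * A l j := by
    intro i j
    unfold lf
    simp only [Pi.smul_apply, Finset.sum_apply, smul_eq_mul, Finset.mul_sum, Finset.sum_mul]
    rw [Finset.sum_comm]
    refine Finset.sum_congr rfl fun l _ => Finset.sum_congr rfl fun k _ => ?_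
    ring
  have h1 : (Matrix.of fun i j => lf (e • ∑ l, A l j • η i l) x) =
      e • ((Matrix.of fun i j => lf (η i j) x) * A) := by
    ext i j
    rw [Matrix.of_apply, hlin, Matrix.smul_apply, Matrix.mul_apply, smul_eq_mul]
    rfl
  rw [h1, Matrix.det_smul, Matrix.det_mul]
  ring

end

end Pool.Agent.CMN
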