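import Pool.Agent.Lib.CMN.TH7d
import Pool.Agent.Lib.CMN.Api
import Pool.Agent.Lib.CMN.TH9b
import Pool.Agent.Lib.CMN.Det65
import Pool.Agent.Lib.CMN.Grp
import Pool.Agent.Lib.CMN.Majc
import Pool.Agent.Lib.CMN.TH7f
import Pool.Agent.Lib.CMN.TH8d
import Pool.Agent.Lib.CMN.TH8e
import Pool.Agent.Lib.CMN.TH8g
import Pool.Agent.Lib.CMH.TH6
import Pool.Agent.Lib.CMH.TH7d
import Pool.Agent.Lib.CMH.TH8c

/-!
# TANK CMN, P1, row TH9c: invariance of the theta one-forms and of the `n`-forms `C_R(φ)`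
(helper97)
-/

set_option autoImplicit false

namespace Pool.Agent.CMN

open Matrix Complex Real
open Pool.CMH (tU tD tA tC vv Bl KF om Wm Wi red tm theta1 au mv uu qq ee bA bB bC bD Sieg
  qf lf Bl_au Bl_mv Bl_uu Bl_qq tD_det tU_mem Wi_mul Wm_mul)

noncomputable section

variable {n : ℕ} {F : Type} [Field F] [NumberField F]
variable {J : Type} [Fintype J] [DecidableEq J]
variable {v₁ : F →+* ℝ} {D : F} {h : Fin (n + 1) → F}

/-! ### the group acting on the ball -/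

theorem Gam_mono {c m : ℕ} (hm : 0 < m) : Gam D h (m * c) ⊆ Gam D h c := by
  rintro g ⟨h1, h2, h3, h4⟩
  have hm' : (m : F) ≠ 0 := by exact_mod_cast hm.ne'
  have key : ∀ x : F, IsIntegral ℤ (x / ((m * c : ℕ) : F)) → IsIntegral ℤ (x / (c : F)) := by
    intro x hx
    have e : x / (c : F) = (m : F) * (x / ((m * c : ℕ) : F)) := by
      push_cast
      by_cases hc : (c : F) = 0
      · simp [hc]
      · field_simp
    rw [e]
    have : IsIntegral ℤ (m : F) := by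
      have := isIntegral_algebraMap (R := ℤ) (A := F) (x := (m : ℤ))
      simpa using this
    exact this.mul hx
  exact ⟨h1, h2, fun i j => key _ (h3 i j), fun i j => key _ (h4 i j)⟩

theorem convex_ball {k : Fin (n + 1) → ℝ} (hk : ∀ j : Fin n, 0 < k j.castSucc) :
    Convex ℝ (ball k) := by
  have hc : ∀ i : Fin n, ConvexOn ℝ Set.univ (fun y : Fin n → ℂ => ‖y i‖ ^ 2) := by
    intro i
    have h2 : ConvexOn ℝ Set.univ (fun y : Fin n → ℂ => ‖y i‖) := by
      have := (convexOn_norm (E := ℂ) convex_univ).comp_linearMap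
        (LinearMap.proj (R := ℝ) (φ := fun _ : Fin n => ℂ) i)
      simpa [Function.comp_def] using this
    exact h2.pow (fun y _ => norm_nonneg _) 2
  have hs : ConvexOn ℝ Set.univ
      (fun y : Fin n → ℂ => ∑ j : Fin n, k j.castSucc * ‖y j‖ ^ 2 + k (Fin.last n)) := by
    have e0 : ConvexOn ℝ Set.univ
        (fun y : Fin n → ℂ => ∑ j : Fin n, k j.castSucc * ‖y j‖ ^ 2) := by
      refine ⟨convex_univ, fun x _ y _ a b ha hb hab => ?_⟩
      simp only [smul_eq_mul, Finset.mul_sum]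
      rw [← Finset.sum_add_distrib]
      refine Finset.sum_le_sum fun j _ => ?_
      have := (hc j).2 (Set.mem_univ x) (Set.mem_univ y) ha hb hab
      simp only [smul_eq_mul] at this
      have h3 := mul_le_mul_of_nonneg_left this (hk j).le
      linarith
    exact e0.add (convexOn_const (k (Fin.last n)) (convex_univ (𝕜 := ℝ) (E := Fin n → ℂ)))
  have := hs.convex_lt 0
  simpa [ball] using this

/-- the group acting on the ball -/
@[reducible] def mulActionBall (hgd : Good v₁ D h) {N : ℕ} {G : Type} [Group G]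
    (e : G → Mat n F) (he : ∀ γ, e γ ∈ Gam D h N) (h1 : e 1 = (1, 0))
    (hm : ∀ γ γ', e (γ * γ') = mulM D (e γ) (e γ')) : MulAction G (ball (ev v₁ h)) where
  smul γ y := ⟨act v₁ D (e γ) y.1, TH8g_mem hgd (he γ) y.2⟩
  one_smul y := by
    apply Subtype.ext
    change act v₁ D (e 1) y.1 = y.1
    rw [h1, Grp.act_eq, Grp.cmat_one, Grp.acM_one]
  mul_smul γ γ' y := by
    apply Subtype.ext
    change act v₁ D (e (γ * γ')) y.1 = act v₁ D (e γ) (act v₁ D (e γ') y.1)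
    rw [hm]
    exact (cE_mul hgd (he γ) (he γ') y.2).1

open Classical in
theorem det_v (hgd : Good v₁ D h) {a : J → F} (ha0 : ∀ i, a i ≠ 0) (ha : ∀ i, 0 < v₁ (a i))
    {R : (F →+* ℝ) → Matrix J J ℝ}
    (hR : ∀ v, (R v).PosDef ∧ R v * Matrix.diagonal (fun i => (v (a i))⁻¹) * R v =
      Matrix.diagonal (fun i => v (a i))) {N : ℕ} {g : Mat n F} (hg : g ∈ Gam D h N)
    (hdet : ∀ v : F →+* ℝ, (cmat v D g).det = 1) {y : Fin n → ℂ} (hy : y ∈ ball (ev v₁ h))
    (v : F →+* ℝ) :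
    (atv (sC D h a g) v * Zp v₁ D h a R y v + atv (sD J g) v).det =
      if v = v₁ then cE v₁ D h g y ^ (2 * Fintype.card J) else 1 := by
  by_cases hv : v = v₁
  · subst hv
    rw [if_pos rfl]
    exact Zp_det hgd ha0 ha hg hy (hdet v)
  · rw [if_neg hv]
    exact Zp_det_ne hgd ha0 hg (fun v _ => hR v) y v hv (hdet v)

theorem unit_v (hgd : Good v₁ D h) {a : J → F} (ha0 : ∀ i, a i ≠ 0) (ha : ∀ i, 0 < v₁ (a i))
    {R : (F →+* ℝ) → Matrix J J ℝ}
    (hR : ∀ v, (R v).PosDef ∧ R v * Matrix.diagonal (fun i => (v (a i))⁻¹) * R v =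
      Matrix.diagonal (fun i => v (a i))) {N : ℕ} {g : Mat n F} (hg : g ∈ Gam D h N)
    (hdet : ∀ v : F →+* ℝ, (cmat v D g).det = 1) {y : Fin n → ℂ} (hy : y ∈ ball (ev v₁ h))
    (v : F →+* ℝ) :
    IsUnit (atv (sC D h a g) v * Zp v₁ D h a R y v + atv (sD J g) v).det := by
  classical
  rw [det_v hgd ha0 ha hR hg hdet hy v]
  split_ifs
  · exact (pow_ne_zero _ (cE_ne hgd hg hy)).isUnit
  · exact isUnit_one

/-- **the core**: a family of theta functions over `T × ball` -/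
theorem core [NumberField.IsTotallyReal F] (hgd : Good v₁ D h) {a : J → F}
    (ha0 : ∀ i, a i ≠ 0) (ha : ∀ i, 0 < v₁ (a i)) {T : Type} [TopologicalSpace T]
    [PreconnectedSpace T] (R : T → (F →+* ℝ) → Matrix J J ℝ)
    (hRc : ∀ v i j, Continuous fun t => R t v i j)
    (hR : ∀ t v, (R t v).PosDef ∧ R t v * Matrix.diagonal (fun i => (v (a i))⁻¹) * R t v =
      Matrix.diagonal (fun i => v (a i))) (N : ℕ) (hN : 0 < N) :
    ∃ c : ℕ, 0 < c ∧ ∀ {G : Type} [Group G] (e : G → Mat n F), (∀ γ, e γ ∈ Gam D h c) →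
      e 1 = (1, 0) → (∀ γ γ', e (γ * γ') = mulM D (e γ) (e γ')) →
      ∃ Γ : Subgroup G, Γ.FiniteIndex ∧ ∀ γ ∈ Γ, ∃ M, Rep D h a (e γ) M ∧
        (∀ v : F →+* ℝ, (cmat v D (e γ)).det = 1) ∧
        ∀ (t : T) (y : Fin n → ℂ), y ∈ ball (ev v₁ h) →
        ∀ (φ : ((J × Fin (n + 1)) × KF F → ZMod (2 * N ^ 2)) → ℂ)
          (u : (J × Fin (n + 1)) × KF F → ℂ),
        Pool.CMH.theta (2 * N ^ 2) φ (ZZ v₁ D h a (R t) (act v₁ D (e γ) y))
            (uu M (ZZ v₁ D h a (R t) y) u) =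
          cE v₁ D h (e γ) y ^ Fintype.card J * ee (2 * N ^ 2) M (ZZ v₁ D h a (R t) y) u *
            Pool.CMH.theta (2 * N ^ 2) φ (ZZ v₁ D h a (R t) y) u := by
  classical
  obtain ⟨c, hc, hρ⟩ := exists_rho (J := J) hgd.Di hgd.Dne hgd.ne ha0
  refine ⟨3 * c, by positivity, ?_⟩
  intro G _ e he h1 hm
  have he' : ∀ γ, e γ ∈ Gam D h c := fun γ => Gam_mono (by norm_num) (he γ)
  obtain ⟨ρ, hρ⟩ := hρ e he' h1 hm
  have hdet : ∀ γ (v : F →+* ℝ), (cmat v D (e γ)).det = 1 := fun γ v =>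
    det F n v₁ D h (3 * c) hgd (by omega) (e γ) (he γ) v
  have hW := Wi_mul F
  have hW' := Wm_mul F
  have hne : NeZero (2 * N ^ 2) := ⟨by positivity⟩
  have heven : Even (2 * N ^ 2) := even_two_mul _
  let act1 : MulAction G (ball (ev v₁ h)) := mulActionBall hgd e he' h1 hm
  let act2 : MulAction G (T × ball (ev v₁ h)) :=
    { smul := fun γ x => (x.1, γ • x.2)
      one_smul := fun x => by
        change (x.1, (1 : G) • x.2) = x
        rw [one_smul]
      mul_smul := fun γ γ' x => by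
        change (x.1, (γ * γ') • x.2) = (x.1, γ • γ' • x.2)
        rw [mul_smul] }
  have hpre : PreconnectedSpace (ball (ev v₁ h)) :=
    Subtype.preconnectedSpace (convex_ball fun j => hgd.hp v₁ j).isPreconnected
  -- the units
  have hdv : ∀ γ (t : T) (y : Fin n → ℂ), y ∈ ball (ev v₁ h) → ∀ v : F →+* ℝ,
      (atv (sC D h a (e γ)) v * Zp v₁ D h a (R t) y v + atv (sD J (e γ)) v).det =
        if v = v₁ then cE v₁ D h (e γ) y ^ (2 * Fintype.card J) else 1 := by
    intro γ t y hy v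
    exact det_v hgd ha0 ha (hR t) (he' γ) (hdet γ) hy v
  have hmem : ∀ (t : T) (y : Fin n → ℂ), y ∈ ball (ev v₁ h) →
      ZZ v₁ D h a (R t) y ∈ Sieg ((J × Fin (n + 1)) × KF F) := by
    intro t y hy
    exact tU_mem hW fun v => Zp_mem hgd ha (fun v _ => (hR t v).1) hy v
  obtain ⟨Γ, hΓ, hinv⟩ := Pool.CMH.invariance (2 * N ^ 2) heven
    (X := T × ball (ev v₁ h)) (G := G)
    (fun x => ZZ v₁ D h a (R x.1) x.2.1) (ZZ_continuous hgd R hRc)
    (fun x => hmem x.1 x.2.1 x.2.2) ρ (fun γ => (hρ γ).2)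
    (fun γ x => by
      change ZZ v₁ D h a (R x.1) (act v₁ D (e γ) x.2.1) = _
      exact (Bl_mv hW hW' (hρ γ).1
        (Zp_act hgd ha0 ha (he' γ) (fun v _ => (hR x.1 v).2) x.2.2)
        (unit_v hgd ha0 ha (hR x.1) (he' γ) (hdet γ) x.2.2)).symm)
    (fun γ x => cE v₁ D h (e γ) x.2.1 ^ Fintype.card J)
    (fun γ => by
      have h2 := continuousOn_iff_continuous_domRestrict.1 (cE_continuous hgd (he' γ))
      exact (h2.comp continuous_snd).pow _)
    (fun γ x => by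
      change _ = (au (ρ γ) ((2 : ℂ) • tU (Wm F) (Zp v₁ D h a (R x.1) x.2.1))).det
      rw [Bl_au hW hW' (hρ γ).1, tD_det hW hW',
        Finset.prod_congr rfl fun v _ => hdv γ x.1 x.2.1 x.2.2 v,
        Finset.prod_ite_eq' Finset.univ v₁]
      simp only [Finset.mem_univ, if_true]
      ring)
    (fun γ γ' x => by
      change cE v₁ D h (e (γ * γ')) x.2.1 ^ _ =
        cE v₁ D h (e γ) (act v₁ D (e γ') x.2.1) ^ _ * cE v₁ D h (e γ') x.2.1 ^ _
      rw [hm, (cE_mul hgd (he' γ) (he' γ') x.2.2).2, mul_pow])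
  refine ⟨Γ, hΓ, fun γ hγ => ⟨ρ γ, (hρ γ).1, hdet γ, fun t y hy φ u => ?_⟩⟩
  exact hinv γ hγ (t, ⟨y, hy⟩) φ u

/-! ### linearity -/

theorem vv_sum {m V κ : Type} {L : Type} [Fintype L] (W : Matrix V κ ℝ) (v : V) (c : L → ℂ)
    (e : L → m → ℂ) : vv W v (∑ l, c l • e l) = ∑ l, c l • vv W v (e l) := by
  funext p
  simp only [vv, Finset.sum_apply, Pi.smul_apply, smul_eq_mul, Finset.mul_sum]
  exact Finset.sum_congr rfl fun l _ => by ring

theorem vv_smul {m V κ : Type} (W : Matrix V κ ℝ) (v : V) (c : ℂ) (e : m → ℂ) :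
    vv W v (c • e) = c • vv W v e := by
  funext p; simp only [vv, Pi.smul_apply, smul_eq_mul]; ring

omit [Fintype J] in
theorem row_sum {L : Type} [Fintype L] (i : J) (c : L → ℂ) (e : L → Fin (n + 1) → ℂ) :
    row i (∑ l, c l • e l) = ∑ l, c l • row i (e l) := by
  funext p
  simp only [row, Finset.sum_apply, Pi.smul_apply, smul_eq_mul]
  split_ifs <;> simp

omit [Fintype J] in
theorem row_smul (i : J) (c : ℂ) (e : Fin (n + 1) → ℂ) : row i (c • e) = c • row i e := by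
  funext p; simp only [row, Pi.smul_apply, smul_eq_mul]; split_ifs <;> simp

/-- the transformation of the vectors `η_{i,j}` -/
theorem uu_eta [NumberField.IsTotallyReal F] (hgd : Good v₁ D h) {a : J → F}
    (ha0 : ∀ i, a i ≠ 0) (ha : ∀ i, 0 < v₁ (a i))
    {R : (F →+* ℝ) → Matrix J J ℝ}
    (hR : ∀ v, (R v).PosDef ∧ R v * Matrix.diagonal (fun i => (v (a i))⁻¹) * R v =
      Matrix.diagonal (fun i => v (a i))) {c : ℕ} {g : Mat n F} (hg : g ∈ Gam D h c)
    (hdet : ∀ v : F →+* ℝ, (cmat v D g).det = 1) {y : Fin n → ℂ} (hy : y ∈ ball (ev v₁ h))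
    {M : Matrix (((J × Fin (n + 1)) × KF F) ⊕ ((J × Fin (n + 1)) × KF F))
      (((J × Fin (n + 1)) × KF F) ⊕ ((J × Fin (n + 1)) × KF F)) ℤ} (hM : Rep D h a g M)
    (N : ℕ) (i : J) (j : Fin n) :
    uu M (ZZ v₁ D h a R y) (eta v₁ h N i j y) = cE v₁ D h g y •
      ∑ l, dact v₁ D g y l j • eta v₁ h N i l (act v₁ D g y) := by
  classical
  have hu := unit_v hgd ha0 ha hR hg hdet hy
  unfold ZZ eta
  rw [Bl_uu (Wi_mul F) (Wm_mul F) hM hu, ← vv_sum, ← vv_smul]
  congr 1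
  have ht := Zp_tangent hgd ha0 ha (R := R) hg hy i j
  set A := atv (sC D h a g) v₁ * Zp v₁ D h a R y v₁ + atv (sD J g) v₁ with hA
  have hcE := cE_ne hgd hg hy
  have h1 : (A⁻¹)ᵀ *ᵥ (Aᵀ *ᵥ row i (∑ l, dact v₁ D g y l j • ed (ev v₁ h) l (act v₁ D g y))) =
      row i (∑ l, dact v₁ D g y l j • ed (ev v₁ h) l (act v₁ D g y)) := by
    rw [mulVec_mulVec, ← transpose_mul, Matrix.mul_nonsing_inv _ (hu v₁), transpose_one,
      one_mulVec]
  rw [ht, mulVec_smul] at h1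
  have h2 : (A⁻¹)ᵀ *ᵥ row i (ed (ev v₁ h) j y) = cE v₁ D h g y •
      row i (∑ l, dact v₁ D g y l j • ed (ev v₁ h) l (act v₁ D g y)) := by
    rw [← h1, smul_smul, mul_inv_cancel₀ hcE, one_smul]
  rw [row_smul, mulVec_smul, h2, smul_comm, row_sum, Finset.smul_sum]
  congr 1
  refine Finset.sum_congr rfl fun l _ => ?_
  rw [row_smul, smul_comm]

/-- **invariance of the one-forms** -/
theorem p1one_of (the : THE) : P1ONE := by
  intro F _ _ _ n v₁ D h a N hgd ha hN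
  have ha0 : a ≠ 0 := by
    intro h0
    rw [h0, map_zero] at ha
    exact lt_irrefl _ ha
  have hva : ∀ v : F →+* ℝ, v a ≠ 0 := fun v => (map_ne_zero v).2 ha0
  have hR : ∀ v : F →+* ℝ, (diagonal fun _ : Unit => |v a|).PosDef ∧
      (diagonal fun _ : Unit => |v a|) * (diagonal fun _ : Unit => (v a)⁻¹) *
        (diagonal fun _ : Unit => |v a|) = diagonal fun _ : Unit => v a := fun v => by
    refine ⟨Matrix.PosDef.diagonal fun _ => abs_pos.2 (hva v), ?_⟩
    rw [diagonal_mul_diagonal, diagonal_mul_diagonal]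
    congr 1
    funext _
    have := abs_mul_abs_self (v a)
    field_simp [hva v]
    rw [sq_abs]
  obtain ⟨c, hc, H⟩ := core (J := Unit) (T := Unit) hgd (a := fun _ => a) (fun _ => ha0)
    (fun _ => ha) (fun _ v => diagonal fun _ => |v a|) (fun v i j => continuous_const)
    (fun _ v => hR v) N hN
  refine ⟨c, hc, ?_⟩
  intro G _ e he h1 hm
  obtain ⟨Γ, hΓ, H⟩ := H e he h1 hm
  refine ⟨Γ, hΓ, fun γ hγ φ hφ y hy j => ?_⟩
  obtain ⟨M, hM, hdet, H⟩ := H γ hγ
  have hn : NeZero (2 * N ^ 2) := ⟨by positivity⟩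
  have hg := he γ
  have hy' : act v₁ D (e γ) y ∈ ball (ev v₁ h) := TH8g_mem hgd hg hy
  have hcE := cE_ne hgd hg hy
  obtain ⟨φ', hφ'⟩ := exists_lev N hφ
  have hmem : ∀ y ∈ ball (ev v₁ h),
      ZZ v₁ D h (fun _ : Unit => a) (fun v => diagonal fun _ => |v a|) y ∈
        Sieg ((Unit × Fin (n + 1)) × KF F) := by
    classical
    intro y hy
    exact tU_mem (Wi_mul F) fun v => Zp_mem hgd (fun _ => ha) (fun v _ => (hR v).1) hy v
  have hlaw := Pool.CMH.theta1_lawG (hmem y hy) (hmem _ hy') φ' (H () y hy φ')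
    (eta v₁ h N () j y)
  rw [uu_eta hgd (fun _ => ha0) (fun _ => ha) hR hg hdet hy hM, Fintype.card_unit, pow_one]
    at hlaw
  have hlin : theta1 (2 * N ^ 2) φ'
      (ZZ v₁ D h (fun _ : Unit => a) (fun v => diagonal fun _ => |v a|) (act v₁ D (e γ) y))
      (cE v₁ D h (e γ) y • ∑ l, dact v₁ D (e γ) y l j • eta v₁ h N () l (act v₁ D (e γ) y)) =
      cE v₁ D h (e γ) y * ∑ l, dact v₁ D (e γ) y l j * theta1 (2 * N ^ 2) φ'
        (ZZ v₁ D h (fun _ : Unit => a) (fun v => diagonal fun _ => |v a|) (act v₁ D (e γ) y))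
        (eta v₁ h N () l (act v₁ D (e γ) y)) := by
    unfold Pool.CMH.theta1
    simp only [← tsum_mul_left]
    rw [← Summable.tsum_finsetSum, ← tsum_mul_left]
    · refine tsum_congr fun x => ?_
      have : lf (cE v₁ D h (e γ) y •
          ∑ l, dact v₁ D (e γ) y l j • eta v₁ h N () l (act v₁ D (e γ) y)) x =
          cE v₁ D h (e γ) y *
            ∑ l, dact v₁ D (e γ) y l j * lf (eta v₁ h N () l (act v₁ D (e γ) y)) x := by
        unfold Pool.CMH.lf
        simp only [Pi.smul_apply, Finset.sum_apply, smul_eq_mul, Finset.mul_sum]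
        rw [Finset.sum_comm]
        refine Finset.sum_congr rfl fun l _ => Finset.sum_congr rfl fun k _ => ?_
        ring
      rw [this]
      simp only [Finset.mul_sum, Finset.sum_mul]
      refine Finset.sum_congr rfl fun l _ => ?_
      ring
    · intro l _
      refine Summable.mul_left _ ?_
      have h2 := Lawd.summable_prod φ' (hmem _ hy') Finset.univ
        (fun _ : Unit => eta v₁ h N () l (act v₁ D (e γ) y)) 0
      simpa [mul_assoc] using h2
  rw [hlin] at hlaw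
  have hlaw2 := mul_left_cancel₀ hcE hlaw
  rw [the F n v₁ D h a N φ φ' hgd ha hφ hφ' j y hy, ← hlaw2]
  refine Finset.sum_congr rfl fun l _ => ?_
  rw [the F n v₁ D h a N φ φ' hgd ha hφ hφ' l _ hy', mul_comm]

/-- **invariance of the `n`-forms, for all majorants** -/
theorem p1all_of (crd : CRD) : P1ALL := by
  intro F _ _ _ n v₁ D h a N hgd ha hN
  have ha0 : ∀ i, a i ≠ 0 := by
    intro i h0
    have := ha i
    rw [h0, map_zero] at this
    exact lt_irrefl _ this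
  have hpc : PreconnectedSpace {R : Maj (Fin n) F // ∀ v, IsMaj a v (R v)} :=
    majc F (Fin n) a ha0
  obtain ⟨c, hc, H⟩ := core (J := Fin n)
    (T := {R : Maj (Fin n) F // ∀ v, IsMaj a v (R v)}) hgd ha0 ha
    (fun t v => t.1 v)
    (fun v i j => (continuous_apply_apply i j).comp
      ((continuous_apply v).comp continuous_subtype_val))
    (fun t v => t.2 v) N hN
  refine ⟨c, hc, ?_⟩
  intro G _ e he h1 hm
  obtain ⟨Γ, hΓ, H⟩ := H e he h1 hm
  refine ⟨Γ, hΓ, fun γ hγ φ hφ R hR hR1 y hy => ?_⟩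
  obtain ⟨M, hM, hdet, H⟩ := H γ hγ
  have hn : NeZero (2 * N ^ 2) := ⟨by positivity⟩
  have hg := he γ
  have hy' : act v₁ D (e γ) y ∈ ball (ev v₁ h) := TH8g_mem hgd hg hy
  have hcE := cE_ne hgd hg hy
  obtain ⟨φ', hφ'⟩ := exists_lev N hφ
  have hR' : ∀ v, (R v).PosDef ∧ R v * Matrix.diagonal (fun i => (v (a i))⁻¹) * R v =
      Matrix.diagonal (fun i => v (a i)) := fun v => hR v
  have hmem : ∀ y ∈ ball (ev v₁ h), ZZ v₁ D h a R y ∈ Sieg ((Fin n × Fin (n + 1)) × KF F) := by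
    classical
    intro y hy
    exact tU_mem (Wi_mul F) fun v => Zp_mem hgd ha (fun v _ => (hR' v).1) hy v
  have hu := unit_v hgd ha0 ha hR' hg hdet hy
  have hcross : ∀ (i i' j j' : Fin n), i ≠ i' →
      eta v₁ h N i j y ⬝ᵥ
        (((au M (ZZ v₁ D h a R y))⁻¹ * bC M) *ᵥ eta v₁ h N i' j' y) = 0 := by
    classical
    intro i i' j j' hi
    unfold ZZ eta
    rw [Bl_qq (Wi_mul F) (Wm_mul F) hM hu, Zp_cross (hu v₁) hi, mul_zero]
  have hlaw := lawd ((Fin n × Fin (n + 1)) × KF F) (Fin n) (2 * N ^ 2) M (ZZ v₁ D h a R y)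
    (ZZ v₁ D h a R (act v₁ D (e γ) y)) _ φ' (fun i j => eta v₁ h N i j y) (hmem y hy) (hmem _ hy')
    (H ⟨R, hR⟩ y hy φ') (fun i i' hi j j' => by
      rw [hcross i i' j j' hi, hcross i' i j' j hi.symm, add_zero])
  have e0 : (fun i j => uu M (ZZ v₁ D h a R y) (eta v₁ h N i j y)) =
      fun i j => cE v₁ D h (e γ) y • ∑ l, (Matrix.of fun l j => dact v₁ D (e γ) y l j) l j •
        eta v₁ h N i l (act v₁ D (e γ) y) := by
    funext i j
    exact uu_eta hgd ha0 ha hR' hg hdet hy hM N i j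
  rw [e0, thetaD_mul, Fintype.card_fin, mul_assoc] at hlaw
  have hlaw2 := mul_left_cancel₀ (pow_ne_zero n hcE) hlaw
  rw [det_dact hgd hg hy, hdet v₁] at hlaw2
  rw [crd F n v₁ D h a R N φ φ' hgd ha hR1 (fun v => (hR' v).1) hφ hφ' y hy,
    crd F n v₁ D h a R N φ φ' hgd ha hR1 (fun v => (hR' v).1) hφ hφ' _ hy', div_eq_mul_one_div,
    mul_comm]
  exact hlaw2

end

end Pool.Agent.CMN
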