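import Pool.Agent.Lib.CMN.Maj

/-!
# Row TENS of the tank CMN, first part: the change of variables `η = g⁻¹ ξ`
-/

set_option autoImplicit false

open scoped ComplexConjugate Matrix
open Complex

namespace Pool.Agent.CMN

noncomputable section

namespace TensRow

variable {n : ℕ} {F : Type} [Field F] [NumberField F]

/-- the action on the rows -/
def ch (g : Matrix (Fin n) (Fin n) F) (ξ : Fin n → Fin (n + 1) → F) : Fin n → Fin (n + 1) → F :=
  fun i j => ∑ k, g i k * ξ k j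

omit [NumberField F] in
theorem ch_ch (g g' : Matrix (Fin n) (Fin n) F) (h : g * g' = 1) (ξ : Fin n → Fin (n + 1) → F) :
    ch g (ch g' ξ) = ξ := by
  have h1 : ∀ i l, ∑ k, g i k * g' k l = (1 : Matrix (Fin n) (Fin n) F) i l := fun i l => by
    rw [← h, Matrix.mul_apply]
  funext i j
  unfold ch
  calc ∑ k, g i k * ∑ l, g' k l * ξ l j = ∑ l, (∑ k, g i k * g' k l) * ξ l j := by
        simp only [Finset.mul_sum, Finset.sum_mul]
        rw [Finset.sum_comm]
        exact Finset.sum_congr rfl fun l _ => Finset.sum_congr rfl fun k _ => by ring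
    _ = ∑ l, (1 : Matrix (Fin n) (Fin n) F) i l * ξ l j :=
        Finset.sum_congr rfl fun l _ => by rw [h1]
    _ = ξ i j := by
        rw [Finset.sum_eq_single i]
        · rw [Matrix.one_apply_eq, one_mul]
        · intro l _ hl
          rw [Matrix.one_apply_ne (Ne.symm hl), zero_mul]
        · exact fun h2 => absurd (Finset.mem_univ _) h2

/-- the bijection of the rows -/
def chE (g g' : Matrix (Fin n) (Fin n) F) (h : g * g' = 1) (h' : g' * g = 1) :
    (Fin n → Fin (n + 1) → F) ≃ (Fin n → Fin (n + 1) → F) where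
  toFun := ch g
  invFun := ch g'
  left_inv := ch_ch g' g h'
  right_inv := ch_ch g g' h

/-! ### linearity -/

theorem pr_sum {ι : Type} [Fintype ι] (k : Fin (n + 1) → ℝ) (p : ι → ℝ)
    (u : ι → Fin (n + 1) → ℝ) (y : Fin n → ℂ) :
    pr k (fun j => ∑ i, p i * u i j) y = ∑ i, (p i : ℂ) * pr k (u i) y := by
  unfold pr
  simp only [Finset.mul_sum]
  rw [Finset.sum_comm]
  refine Finset.sum_congr rfl fun j _ => ?_
  rw [Complex.ofReal_sum, Finset.mul_sum, Finset.sum_mul]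
  refine Finset.sum_congr rfl fun i _ => ?_
  push_cast
  ring

theorem s_sum {ι : Type} [Fintype ι] (k : Fin (n + 1) → ℝ) (p : ι → ℝ)
    (u : ι → Fin (n + 1) → ℝ) (y : Fin n → ℂ) :
    s k (fun j => ∑ i, p i * u i j) y = ∑ i, (p i : ℂ) * s k (u i) y := by
  unfold s
  rw [pr_sum, Finset.sum_div]
  refine Finset.sum_congr rfl fun i _ => ?_
  rw [mul_div_assoc]

theorem ds_sum {ι : Type} [Fintype ι] (k : Fin (n + 1) → ℝ) (p : ι → ℝ)
    (u : ι → Fin (n + 1) → ℝ) (j : Fin n) (y : Fin n → ℂ) :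
    ds k (fun j => ∑ i, p i * u i j) j y = ∑ i, (p i : ℂ) * ds k (u i) j y := by
  unfold ds
  rw [pr_sum, Complex.ofReal_sum, Finset.mul_sum, Finset.sum_mul, Finset.sum_div, Finset.sum_div,
    ← Finset.sum_add_distrib]
  refine Finset.sum_congr rfl fun i _ => ?_
  push_cast
  ring

omit [NumberField F] in
theorem ev_ch (v : F →+* ℝ) (g : Matrix (Fin n) (Fin n) F) (ξ : Fin n → Fin (n + 1) → F)
    (i : Fin n) :
    ev v (ch g ξ i) = fun j => ∑ k, v (g i k) * ev v (ξ k) j := by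
  funext j
  unfold ev ch
  rw [map_sum]
  exact Finset.sum_congr rfl fun k _ => map_mul v _ _

omit [NumberField F] in
theorem form_ch (h : Fin (n + 1) → F) (v : F →+* ℝ) (g : Matrix (Fin n) (Fin n) F)
    (ξ : Fin n → Fin (n + 1) → F) (l : Fin n) :
    form h v (ch g ξ l) (ch g ξ l) =
      ∑ i, ∑ j, v (g l i) * v (g l j) * form h v (ξ i) (ξ j) := by
  have h1 : ∀ m, v (ch g ξ l m) = ∑ i, v (g l i) * v (ξ i m) := by
    intro m
    unfold ch
    rw [map_sum]
    exact Finset.sum_congr rfl fun k _ => map_mul v _ _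
  unfold form
  simp only [h1, Finset.mul_sum, Finset.sum_mul]
  rw [Finset.sum_comm]
  have h2 : ∀ i : Fin n, (∑ j : Fin n, ∑ m : Fin (n + 1),
      v (g l i) * v (g l j) * (v (h m) * v (ξ i m) * v (ξ j m))) =
      ∑ m : Fin (n + 1), ∑ j : Fin n,
      v (g l i) * v (g l j) * (v (h m) * v (ξ i m) * v (ξ j m)) := fun i => Finset.sum_comm
  simp only [h2]
  rw [Finset.sum_comm (s := (Finset.univ : Finset (Fin n))) (t := (Finset.univ : Finset (Fin (n + 1))))
    (f := fun i m => ∑ j : Fin n, v (g l i) * v (g l j) * (v (h m) * v (ξ i m) * v (ξ j m)))]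
  rw [Finset.sum_comm (s := (Finset.univ : Finset (Fin n)))
    (t := (Finset.univ : Finset (Fin (n + 1))))]
  refine Finset.sum_congr rfl fun m _ => ?_
  rw [Finset.sum_comm]
  refine Finset.sum_congr rfl fun i _ => Finset.sum_congr rfl fun j _ => ?_
  ring

/-- the quadratic form of `Qᵀ diag(d) Q` -/
theorem quad_sum {R : Type} [CommRing R] (Q : Matrix (Fin n) (Fin n) R) (d : Fin n → R)
    (f : Fin n → Fin n → R) :
    (∑ i, ∑ j, (Qᵀ * Matrix.diagonal d * Q) i j * f i j) =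
      ∑ l, d l * ∑ i, ∑ j, Q l i * Q l j * f i j := by
  have h1 : ∀ i j, (Qᵀ * Matrix.diagonal d * Q) i j = ∑ l, Q l i * d l * Q l j := by
    intro i j
    rw [Matrix.mul_apply]
    refine Finset.sum_congr rfl fun l _ => ?_
    rw [Matrix.mul_diagonal, Matrix.transpose_apply]
  simp only [h1, Finset.mul_sum, Finset.sum_mul]
  have h2 : ∀ i : Fin n, (∑ j : Fin n, ∑ l : Fin n, Q l i * d l * Q l j * f i j) =
      ∑ l : Fin n, ∑ j : Fin n, Q l i * d l * Q l j * f i j := fun i => Finset.sum_comm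
  simp only [h2]
  rw [Finset.sum_comm]
  refine Finset.sum_congr rfl fun l _ => Finset.sum_congr rfl fun i _ =>
    Finset.sum_congr rfl fun j _ => ?_
  ring

/-- the quadratic form of a diagonal matrix -/
theorem diag_sum {R : Type} [CommRing R] (d : Fin n → R) (f : Fin n → Fin n → R) :
    (∑ i, ∑ j, Matrix.diagonal d i j * f i j) = ∑ i, d i * f i i := by
  refine Finset.sum_congr rfl fun i _ => ?_
  rw [Finset.sum_eq_single i]
  · rw [Matrix.diagonal_apply_eq]
  · intro j _ hj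
    rw [Matrix.diagonal_apply_ne _ (Ne.symm hj), zero_mul]
  · exact fun h' => absurd (Finset.mem_univ _) h'

omit [NumberField F] in
theorem form_quad (h : Fin (n + 1) → F) (v : F →+* ℝ) (g : Matrix (Fin n) (Fin n) F)
    (b : Fin n → F) (ξ : Fin n → Fin (n + 1) → F) :
    (∑ i, ∑ j, Rg g b v i j * form h v (ξ i) (ξ j)) =
      ∑ i, ∑ j, R0 b v i j * form h v (ch g⁻¹ ξ i) (ch g⁻¹ ξ j) := by
  unfold Rg R0
  rw [quad_sum, diag_sum]
  refine Finset.sum_congr rfl fun l _ => ?_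
  rw [form_ch]
  rfl

theorem s_quad {v₁ : F →+* ℝ} {a : Fin n → F} {g : Matrix (Fin n) (Fin n) F} {b : Fin n → F}
    (hd : Dia v₁ a g b) (v : F →+* ℝ) (k : Fin (n + 1) → ℝ) (ξ : Fin n → Fin (n + 1) → F)
    (y : Fin n → ℂ) :
    (∑ i, (v (a i) : ℂ) * s k (ev v (ξ i)) y ^ 2) =
      ∑ i, (v (b i) : ℂ) * s k (ev v (ch g⁻¹ ξ i)) y ^ 2 := by
  have h1 := congrArg (fun M : Matrix (Fin n) (Fin n) ℝ => M.map Complex.ofRealHom)
    (MajRow.dia_map hd v)
  simp only [Matrix.map_mul] at h1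
  rw [Matrix.diagonal_map (map_zero Complex.ofRealHom),
    Matrix.diagonal_map (map_zero Complex.ofRealHom), ← Matrix.transpose_map] at h1
  have h2 := quad_sum (((g⁻¹).map v).map Complex.ofRealHom)
    (fun i => Complex.ofRealHom (v (b i)))
    (fun i j => s k (ev v (ξ i)) y * s k (ev v (ξ j)) y)
  rw [← Matrix.transpose_map] at h2
  have h3 := diag_sum (fun i => Complex.ofRealHom (v (a i)))
    (fun i j => s k (ev v (ξ i)) y * s k (ev v (ξ j)) y)
  have h4 : (∑ i, (v (a i) : ℂ) * s k (ev v (ξ i)) y ^ 2) =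
      ∑ i, Complex.ofRealHom (v (a i)) * (s k (ev v (ξ i)) y * s k (ev v (ξ i)) y) :=
    Finset.sum_congr rfl fun i _ => by rw [sq]; rfl
  have h5 : (∑ i, (v (b i) : ℂ) * s k (ev v (ch g⁻¹ ξ i)) y ^ 2) =
      ∑ l, Complex.ofRealHom (v (b l)) * ∑ i, ∑ j,
        (((g⁻¹).map v).map Complex.ofRealHom) l i * (((g⁻¹).map v).map Complex.ofRealHom) l j *
          (s k (ev v (ξ i)) y * s k (ev v (ξ j)) y) := by
    refine Finset.sum_congr rfl fun l _ => ?_
    rw [ev_ch, s_sum, sq, Finset.sum_mul_sum]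
    refine congrArg _ ?_
    refine Finset.sum_congr rfl fun i _ => Finset.sum_congr rfl fun j _ => ?_
    change ((v (g⁻¹ l i) : ℝ) : ℂ) * _ * (((v (g⁻¹ l j) : ℝ) : ℂ) * _) =
      ((v (g⁻¹ l i) : ℝ) : ℂ) * ((v (g⁻¹ l j) : ℝ) : ℂ) * _
    ring
  rw [h4, h5, ← h2, ← h3]
  refine Finset.sum_congr rfl fun i _ => Finset.sum_congr rfl fun j _ => ?_
  refine congrArg (fun z => z * _) ?_
  exact (congrFun (congrFun h1 i) j).symm

theorem gaussJ_gen {v₁ : F →+* ℝ} (D : F) (h : Fin (n + 1) → F) {a : Fin n → F}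
    {g : Matrix (Fin n) (Fin n) F} {b : Fin n → F} (hd : Dia v₁ a g b)
    (ξ : Fin n → Fin (n + 1) → F) (y : Fin n → ℂ) :
    gaussJ v₁ D h a (Rg g b) ξ y = gaussJ v₁ D h b (R0 b) (ch g⁻¹ ξ) y := by
  unfold gaussJ
  congr 2
  refine Finset.sum_congr rfl fun v _ => ?_
  rw [form_quad h v g b ξ]
  by_cases hv : v = v₁
  · subst hv
    rw [if_pos rfl, if_pos rfl, s_quad hd v (ev v h)]
  · rw [if_neg hv, if_neg hv]

theorem Del_gen (v₁ : F →+* ℝ) (k : Fin (n + 1) → ℝ) (M : Matrix (Fin n) (Fin n) F)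
    (ξ : Fin n → Fin (n + 1) → F) (y : Fin n → ℂ) :
    Del k (fun i => ev v₁ (ch M ξ i)) y = (v₁ M.det : ℂ) * Del k (fun i => ev v₁ (ξ i)) y := by
  unfold Del
  have h1 : (Matrix.of fun i j => ds k (ev v₁ (ch M ξ i)) j y) =
      ((Complex.ofRealHom.comp v₁).mapMatrix M) *
        Matrix.of fun i j => ds k (ev v₁ (ξ i)) j y := by
    ext i j
    rw [Matrix.mul_apply, Matrix.of_apply, ev_ch, ds_sum]
    rfl
  rw [h1, Matrix.det_mul, ← RingHom.map_det]
  rfl

end TensRow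

end

end Pool.Agent.CMN
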