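import Pool.Agent.Lib.CMN.Tens
import Pool.Agent.Lib.CMN.Sum2
import Pool.Agent.Lib.CMN.Sum3

/-!
# Row TENS of the tank CMN
-/

set_option autoImplicit false

namespace Pool.Agent.CMN

/-- Row TENS. -/
theorem tensRow : TENS := tens_of sum2 sum3

end Pool.Agent.CMN
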